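import Pool.Agent.Lib.MP_19e880_co_AR.Defs

/-!
Simplicial arrangements: first properties of the cones.
-/

set_option autoImplicit false
set_option linter.unusedSectionVars false

open Finset Module

namespace Pool.Agent.MP19e880.AR

variable {V ι E : Type*} [Fintype V] [DecidableEq V] [Fintype ι] [AddCommGroup E] [Module ℝ E]
  [FiniteDimensional ℝ E] {φ : ι → E →ₗ[ℝ] ℝ} {p : V → E} {S : Finset (Finset V)}


theorem IsArr.eq_of_mem (h : IsArr φ p S) {F F' : Finset V} (hF : F ∈ S) (hF' : F' ∈ S)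
    {c c' : V → ℝ} (hc : ∀ v ∈ F, 0 < c v) (hc' : ∀ v ∈ F', 0 < c' v)
    (he : ∑ v ∈ F, c v • p v = ∑ v ∈ F', c' v • p v) : F = F' := by
  exact (h.sign F hF F' hF' c c' hc hc').1 (fun i => by rw [he])

/-- If a positive combination of `G` is a nonnegative combination of `F` then `G ⊆ F`. -/
theorem IsArr.sub_of_mem (h : IsArr φ p S) {F G : Finset V} (hF : F ∈ S) (hG : G ∈ S)
    {c c' : V → ℝ} (hc : ∀ v ∈ F, 0 ≤ c v) (hc' : ∀ v ∈ G, 0 < c' v)
    (he : ∑ v ∈ F, c v • p v = ∑ v ∈ G, c' v • p v) : G ⊆ F := by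
  classical
  have h0 : F.filter (fun v => 0 < c v) ∈ S := h.down F hF _ (filter_subset _ _)
  have e : ∑ v ∈ F.filter (fun v => 0 < c v), c v • p v = ∑ v ∈ F, c v • p v := by
    refine sum_subset (filter_subset _ _) fun v hv hv' => ?_
    have h1 : c v = 0 :=
      le_antisymm (not_lt.1 fun h2 => hv' (mem_filter.2 ⟨hv, h2⟩)) (hc v hv)
    rw [h1, zero_smul]
  have h2 := h.eq_of_mem h0 hG (fun v hv => (mem_filter.1 hv).2) hc' (e.trans he)
  rw [← h2]
  exact filter_subset _ _

theorem IsArr.card_le (h : IsArr φ p S) {F : Finset V} (hF : F ∈ S) : F.card ≤ finrank ℝ E := by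
  have h1 := (h.li F hF).fintype_card_le_finrank
  rwa [Fintype.card_coe] at h1

/-- The coefficients are unique. -/
theorem IsArr.coef_unique (h : IsArr φ p S) {F : Finset V} (hF : F ∈ S) {c c' : V → ℝ}
    (he : ∑ v ∈ F, c v • p v = ∑ v ∈ F, c' v • p v) : ∀ v ∈ F, c v = c' v := by
  have h1 := h.li F hF
  rw [Fintype.linearIndependent_iff] at h1
  intro v hv
  refine sub_eq_zero.1 (h1 (fun w => c w - c' w) ?_ ⟨v, hv⟩)
  rw [Finset.sum_coe_sort F (fun w => (c w - c' w) • p w)]
  simp only [sub_smul, sum_sub_distrib]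
  rw [he, sub_self]

/-- Coordinates in a chamber. -/
theorem IsArr.exists_coord (h : IsArr φ p S) {C : Finset V} (hC : C ∈ S)
    (hd : C.card = finrank ℝ E) (x : E) :
    ∃ c : V → ℝ, (∀ v, v ∉ C → c v = 0) ∧ ∑ v, c v • p v = x := by
  classical
  have hli := h.li C hC
  have hcard : Fintype.card C = finrank ℝ E := by rw [Fintype.card_coe, hd]
  have hx : x ∈ Submodule.span ℝ (Set.range fun v : C => p v) := by
    rw [hli.span_eq_top_of_card_eq_finrank' hcard]
    trivial
  obtain ⟨g, hg⟩ := (Submodule.mem_span_range_iff_exists_fun ℝ).1 hx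
  refine ⟨fun v => if hv : v ∈ C then g ⟨v, hv⟩ else 0, fun v hv => dif_neg hv, ?_⟩
  rw [← sum_subset (subset_univ C) (fun v _ hv => by simp only [hv, dif_neg, not_false_eq_true,
    zero_smul]), ← Finset.sum_coe_sort, ← hg]
  refine Fintype.sum_congr _ _ fun v => ?_
  simp only [v.2, dif_pos]

end Pool.Agent.MP19e880.AR
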