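import Pool.Agent.Lib.MP_19e880_co_AR.Aa

/-!
The local structure of the fan at a face.
-/

set_option autoImplicit false
set_option linter.unusedSectionVars false

open Finset Module

namespace Pool.Agent.MP19e880.AR

variable {V ι E : Type*} [Fintype V] [DecidableEq V] [Fintype ι] [AddCommGroup E] [Module ℝ E]
  [FiniteDimensional ℝ E] {φ : ι → E →ₗ[ℝ] ℝ} {p : V → E} {S : Finset (Finset V)}


/-- Starting at a point of the open cone of `G` and moving in the direction `x` one is, for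
arbitrarily small times, in the open cone of a fixed face containing `G`. -/
theorem IsArr.local (h : IsArr φ p S) {G : Finset V} (hG : G ∈ S) {c : V → ℝ}
    (hc : ∀ v ∈ G, 0 < c v) (x : E) : ∃ F ∈ S, G ⊆ F ∧ ∀ δ : ℝ, 0 < δ → ∃ ε, 0 < ε ∧ ε < δ ∧
      ∃ c' : V → ℝ, (∀ v ∈ F, 0 < c' v) ∧ ∑ v ∈ G, c v • p v + ε • x = ∑ v ∈ F, c' v • p v := by
  set y : E := ∑ v ∈ G, c v • p v with hy
  -- one face occurs for arbitrarily small times
  have h1 : ∃ F ∈ S, ∀ δ : ℝ, 0 < δ → ∃ ε, 0 < ε ∧ ε < δ ∧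
      ∃ c' : V → ℝ, (∀ v ∈ F, 0 < c' v) ∧ y + ε • x = ∑ v ∈ F, c' v • p v := by
    by_contra hcon
    push Not at hcon
    choose! D hD0 hD using hcon
    obtain ⟨F0, hF0, -⟩ := h.cover 0
    have hne : S.Nonempty := ⟨F0, hF0⟩
    have hpos : 0 < S.inf' hne D := (Finset.lt_inf'_iff hne).2 fun F hF => hD0 F hF
    obtain ⟨F, hF, c', hc', he⟩ := h.cover (y + (S.inf' hne D / 2) • x)
    have hle : S.inf' hne D ≤ D F := Finset.inf'_le D hF
    exact hD F hF (S.inf' hne D / 2) (by linarith) (by linarith) c' hc' he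
  obtain ⟨F, hF, hF2⟩ := h1
  refine ⟨F, hF, ?_, hF2⟩
  obtain ⟨ε1, he1, -, c1, hc1, hs1⟩ := hF2 1 one_pos
  obtain ⟨ε2, he2, he21, c2, hc2, hs2⟩ := hF2 ε1 he1
  have hd : 0 < ε1 - ε2 := by linarith
  set b : V → ℝ := fun v => (c1 v - c2 v) / (ε1 - ε2) with hb
  set a : V → ℝ := fun v => c2 v - ε2 * b v with ha
  have hx : ∑ v ∈ F, b v • p v = x := by
    have h2 : (ε1 - ε2) • ∑ v ∈ F, b v • p v = (ε1 - ε2) • x := by
      rw [Finset.smul_sum]
      have h3 : ∀ v ∈ F, (ε1 - ε2) • b v • p v = c1 v • p v - c2 v • p v := by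
        intro v _
        rw [smul_smul, ← sub_smul, hb]
        congr 1
        field_simp
      rw [Finset.sum_congr rfl h3, Finset.sum_sub_distrib, ← hs1, ← hs2, sub_smul]
      abel
    exact smul_right_injective E hd.ne' h2
  have hya : ∑ v ∈ F, a v • p v = y := by
    have h3 : ∀ v ∈ F, a v • p v = c2 v • p v - ε2 • b v • p v := by
      intro v _
      rw [ha, smul_smul, ← sub_smul]
    rw [Finset.sum_congr rfl h3, Finset.sum_sub_distrib, ← Finset.smul_sum, hx, ← hs2]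
    abel
  have hnn : ∀ v ∈ F, 0 ≤ a v := by
    intro v hv
    by_contra hneg
    push Not at hneg
    have hb0 : 0 < |b v| + 1 := by positivity
    obtain ⟨ε, hε0, hε, c', hc', hs⟩ := hF2 (-a v / (|b v| + 1)) (div_pos (by linarith) hb0)
    have h4 : ∑ w ∈ F, c' w • p w = ∑ w ∈ F, (a w + ε * b w) • p w := by
      rw [← hs]
      have h5 : ∀ w ∈ F, (a w + ε * b w) • p w = a w • p w + ε • b w • p w := by
        intro w _
        rw [smul_smul, ← add_smul]
      rw [Finset.sum_congr rfl h5, Finset.sum_add_distrib, ← Finset.smul_sum, hx, hya]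
    have h6 := h.coef_unique hF h4 v hv
    have h7 := hc' v hv
    rw [lt_div_iff₀ hb0] at hε
    have h8 : ε * b v ≤ ε * |b v| := mul_le_mul_of_nonneg_left (le_abs_self _) hε0.le
    nlinarith
  exact h.sub_of_mem hF hG hnn hc (by rw [hya])

end Pool.Agent.MP19e880.AR
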