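import Pool.Agent.Lib.MP_19e880_co_AR.Ab

/-!
Every face is contained in a chamber, every wall in a second chamber.
-/

set_option autoImplicit false
set_option linter.unusedSectionVars false

open Finset Module

namespace Pool.Agent.MP19e880.AR

variable {V ι E : Type*} [Fintype V] [DecidableEq V] [Fintype ι] [AddCommGroup E] [Module ℝ E]
  [FiniteDimensional ℝ E] {φ : ι → E →ₗ[ℝ] ℝ} {p : V → E} {S : Finset (Finset V)}


theorem IsArr.exists_chamber (h : IsArr φ p S) {G : Finset V} (hG : G ∈ S) :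
    ∃ C ∈ S, G ⊆ C ∧ C.card = finrank ℝ E := by
  obtain ⟨F, hF, hmax⟩ := Finset.exists_max_image (S.filter (fun F => G ⊆ F)) Finset.card
    ⟨G, Finset.mem_filter.2 ⟨hG, subset_rfl⟩⟩
  obtain ⟨hFS, hGF⟩ := Finset.mem_filter.1 hF
  refine ⟨F, hFS, hGF, ?_⟩
  rcases (h.card_le hFS).lt_or_eq with hlt | heq
  · exfalso
    classical
    have h1 : Submodule.span ℝ ((F.image p : Finset E) : Set E) ≠ ⊤ := by
      intro htop
      have h2 := finrank_span_finset_le_card (R := ℝ) (F.image p)
      have h3 : finrank ℝ E ≤ (F.image p).card := by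
        have h4 := finrank_top ℝ E
        rw [← htop] at h4
        rw [← h4]
        exact h2
      have h5 : (F.image p).card ≤ F.card := Finset.card_image_le
      omega
    obtain ⟨x, hx⟩ : ∃ x : E, x ∉ Submodule.span ℝ ((F.image p : Finset E) : Set E) := by
      by_contra hall
      push Not at hall
      exact h1 (eq_top_iff.2 fun x _ => hall x)
    obtain ⟨F', hF', hFF', hloc⟩ := h.local hFS (c := fun _ => 1) (fun _ _ => one_pos) x
    obtain ⟨ε, hε, -, c', -, he⟩ := hloc 1 one_pos
    have hcard := hmax F' (Finset.mem_filter.2 ⟨hF', hGF.trans hFF'⟩)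
    have hEq : F = F' := Finset.eq_of_subset_of_card_le hFF' hcard
    subst hEq
    apply hx
    have hp : ∀ a : V → ℝ,
        ∑ v ∈ F, a v • p v ∈ Submodule.span ℝ ((F.image p : Finset E) : Set E) := by
      intro a
      refine Submodule.sum_mem _ fun v hv => Submodule.smul_mem _ _ (Submodule.subset_span ?_)
      exact Finset.mem_coe.2 (Finset.mem_image_of_mem p hv)
    have h2 : ε • x ∈ Submodule.span ℝ ((F.image p : Finset E) : Set E) := by
      have h3 : ε • x = ∑ v ∈ F, c' v • p v - ∑ v ∈ F, (fun _ => (1 : ℝ)) v • p v := by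
        rw [← he, add_sub_cancel_left]
      rw [h3]
      exact Submodule.sub_mem _ (hp c') (hp fun _ => 1)
    exact (Submodule.smul_mem_iff _ hε.ne').1 h2
  · exact heq

theorem IsArr.exists_wall (h : IsArr φ p S) {C : Finset V} (hC : C ∈ S)
    (hd : C.card = finrank ℝ E) {v : V} (hv : v ∈ C) :
    ∃ C' ∈ S, C' ≠ C ∧ C.erase v ⊆ C' ∧ C'.card = finrank ℝ E := by
  have hG : C.erase v ∈ S := h.down C hC _ (Finset.erase_subset _ _)
  obtain ⟨F, hF, hGF, hloc⟩ := h.local hG (c := fun _ => 1) (fun _ _ => one_pos) (-p v)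
  obtain ⟨ε, hε, -, c', hc', he⟩ := hloc 1 one_pos
  obtain ⟨C', hC', hFC', hcard⟩ := h.exists_chamber hF
  refine ⟨C', hC', ?_, hGF.trans hFC', hcard⟩
  rintro rfl
  have h1 : ∑ w ∈ C', (if w = v then -ε else 1) • p w =
      ∑ w ∈ C', (if w ∈ F then c' w else 0) • p w := by
    have h2 : ∑ w ∈ C', (if w ∈ F then c' w else 0) • p w = ∑ w ∈ F, c' w • p w := by
      rw [← Finset.sum_subset hFC' (fun w _ hw => by rw [if_neg hw, zero_smul])]
      exact Finset.sum_congr rfl fun w hw => by rw [if_pos hw]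
    rw [h2, ← he, ← Finset.add_sum_erase _ _ hv, if_pos rfl]
    have h3 : ∑ w ∈ C'.erase v, (if w = v then -ε else 1) • p w =
        ∑ w ∈ C'.erase v, (1 : ℝ) • p w :=
      Finset.sum_congr rfl fun w hw => by rw [if_neg (Finset.ne_of_mem_erase hw)]
    rw [h3, neg_smul, smul_neg, add_comm]
  have h4 := h.coef_unique hC' h1 v hv
  simp only [if_true] at h4
  split_ifs at h4 with h5
  · have := hc' v h5
    linarith
  · linarith

end Pool.Agent.MP19e880.AR
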