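import Pool.Agent.Lib.MP_19e880_co_AR.Aa

/-!
Two chambers with a common wall.
-/

set_option autoImplicit false
set_option linter.unusedSectionVars false

open Finset Module

namespace Pool.Agent.MP19e880.AR

variable {V ι E : Type*} [Fintype V] [DecidableEq V] [Fintype ι] [AddCommGroup E] [Module ℝ E]
  [FiniteDimensional ℝ E] {φ : ι → E →ₗ[ℝ] ℝ} {p : V → E} {S : Finset (Finset V)}

/-- Two chambers with a common wall and the new rays on the same side are equal. -/
private theorem ad_sep (h : IsArr φ p S) {C C' : Finset V} (hC : C ∈ S) (hC' : C' ∈ S) {v v' : V}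
    (hv : v ∈ C) (hv' : v' ∈ C') (her : C'.erase v' = C.erase v) {α : ℝ} {b : V → ℝ}
    (hα : 0 < α) (he : p v' = α • p v + ∑ g ∈ C.erase v, b g • p g) : C' = C := by
  set M : ℝ := 1 + ∑ g ∈ C.erase v, |b g| with hM
  have hM0 : 0 < M := by positivity
  have hMb : ∀ g ∈ C.erase v, 0 < M + b g := by
    intro g hg
    have h1 : |b g| ≤ ∑ g ∈ C.erase v, |b g| :=
      single_le_sum (f := fun g => |b g|) (fun _ _ => abs_nonneg _) hg
    have h2 := neg_abs_le (b g)
    linarith
  refine h.eq_of_mem hC' hC (c := fun w => if w = v' then 1 else M)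
    (c' := fun w => if w = v then α else M + b w) (fun w _ => ?_) (fun w hw => ?_) ?_
  · split_ifs
    · exact one_pos
    · exact hM0
  · split_ifs with h1
    · exact hα
    · exact hMb w (mem_erase.mpr ⟨h1, hw⟩)
  · rw [← add_sum_erase _ _ hv', ← add_sum_erase _ _ hv, her]
    have h1 : ∑ x ∈ C.erase v, (if x = v' then (1 : ℝ) else M) • p x =
        ∑ x ∈ C.erase v, M • p x := by
      refine sum_congr rfl fun x hx => ?_
      rw [if_neg]
      rw [← her] at hx
      exact ne_of_mem_erase hx
    have h2 : ∑ x ∈ C.erase v, (if x = v then α else M + b x) • p x =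
        ∑ x ∈ C.erase v, (M • p x + b x • p x) := by
      refine sum_congr rfl fun x hx => ?_
      rw [if_neg (ne_of_mem_erase hx), add_smul]
    rw [h1, h2, sum_add_distrib]
    simp only [if_true, one_smul]
    rw [he]
    abel

/-- The new rays of two chambers with a common wall are on different sides. -/
theorem IsArr.wall_neg (h : IsArr φ p S) {C C' : Finset V} (hC : C ∈ S) (hC' : C' ∈ S)
    (hd : C.card = finrank ℝ E) (hd' : C'.card = finrank ℝ E) (hne : C' ≠ C) {v : V}
    (hv : v ∈ C) (hs : C.erase v ⊆ C') : ∃ v' ∈ C', C'.erase v' = C.erase v ∧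
      ∃ (α : ℝ) (b : V → ℝ), α < 0 ∧ p v' = α • p v + ∑ g ∈ C.erase v, b g • p g := by
  have h1 : (C' \ C.erase v).card = 1 := by
    have h2 := card_pos.mpr ⟨v, hv⟩
    rw [card_sdiff_of_subset hs, card_erase_of_mem hv]
    omega
  obtain ⟨v', hv'⟩ := card_eq_one.mp h1
  have hv'C : v' ∈ C' := (mem_sdiff.mp (hv' ▸ mem_singleton_self v')).1
  have her : C'.erase v' = C.erase v := by
    rw [← sdiff_singleton_eq_erase, ← hv', Finset.sdiff_sdiff_eq_self hs]
  obtain ⟨c, hc0, hc⟩ := h.exists_coord hC hd (p v')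
  have he : p v' = c v • p v + ∑ g ∈ C.erase v, c g • p g := by
    rw [add_sum_erase _ (fun g => c g • p g) hv, ← hc]
    symm
    refine sum_subset (subset_univ _) fun x _ hx => ?_
    rw [hc0 x hx, zero_smul]
  refine ⟨v', hv'C, her, c v, c, ?_, he⟩
  rcases lt_trichotomy (c v) 0 with h2 | h2 | h2
  · exact h2
  · exfalso
    rw [h2, zero_smul, zero_add] at he
    have h3 := h.coef_unique hC' (c := fun w => if w = v' then 1 else 0)
      (c' := fun w => if w = v' then 0 else c w) (by
        rw [← add_sum_erase _ _ hv'C, ← add_sum_erase _ _ hv'C, her]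
        have h4 : ∑ x ∈ C.erase v, (if x = v' then (1 : ℝ) else 0) • p x = 0 := by
          refine sum_eq_zero fun x hx => ?_
          rw [if_neg, zero_smul]
          rw [← her] at hx
          exact ne_of_mem_erase hx
        have h5 : ∑ x ∈ C.erase v, (if x = v' then (0 : ℝ) else c x) • p x =
            ∑ x ∈ C.erase v, c x • p x := by
          refine sum_congr rfl fun x hx => ?_
          rw [if_neg]
          rw [← her] at hx
          exact ne_of_mem_erase hx
        rw [h4, h5]
        simp only [if_true, one_smul, zero_smul]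
        rw [he, add_zero, zero_add]) v' hv'C
    simp at h3
  · exact absurd (ad_sep h hC hC' hv hv'C her h2 he) hne

theorem IsArr.wall_unique (h : IsArr φ p S) {C C' C'' : Finset V} (hC : C ∈ S) (hC' : C' ∈ S)
    (hC'' : C'' ∈ S) (hd : C.card = finrank ℝ E) (hd' : C'.card = finrank ℝ E)
    (hd'' : C''.card = finrank ℝ E) {v : V} (hv : v ∈ C) (hne : C' ≠ C) (hne' : C'' ≠ C)
    (hs : C.erase v ⊆ C') (hs' : C.erase v ⊆ C'') : C'' = C' := by
  obtain ⟨v', hv', her, α, b, hα, he⟩ := h.wall_neg hC hC' hd hd' hne hv hs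
  obtain ⟨v'', hv'', her', α', b', hα', he'⟩ := h.wall_neg hC hC'' hd hd'' hne' hv hs'
  refine ad_sep h hC' hC'' (v := v') (v' := v'') hv' hv'' (her'.trans her.symm)
    (α := α' / α) (b := fun g => b' g - α' / α * b g) (div_pos_of_neg_of_neg hα' hα) ?_
  rw [her, he', he, smul_add, smul_smul, div_mul_cancel₀ _ hα.ne, smul_sum, add_assoc,
    ← sum_add_distrib]
  congr 1
  refine sum_congr rfl fun g _ => ?_
  rw [smul_smul, ← add_smul]
  congr 1
  ring

end Pool.Agent.MP19e880.AR
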