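import Pool.Agent.Lib.MP_19e880_co_AR.Fe

/-!
Canonical admissible pairs are admissible for the links of vertices.
-/

set_option autoImplicit false
set_option linter.unusedSectionVars false

open Finset Module

namespace Pool.Agent.MP19e880.AR

variable {d : ℕ} {V 𝒞 E : Type*} [Fintype V] [DecidableEq V] [Fintype 𝒞] [AddCommGroup E]
  [Module ℝ E]


theorem adm_link {Φ : NFan d V 𝒞 E} {c : Conv Φ} (hinj : Function.Injective c.LL)
    {σ : Finset V} {v : V} (hv : v ∉ σ) {e i : ℕ} (hi : 2 * i ≤ e) {U : Finset 𝒞} {t : ℝ}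
    (h : AdmC Φ c σ (e + 1) i U t) : Adm Φ c (insert v σ) e i U t := by
  have hs : ∀ C, insert v σ ⊆ Φ.F C → σ ⊆ Φ.F C := fun C hC => (subset_insert v σ).trans hC
  have hvC : ∀ C, insert v σ ⊆ Φ.F C → v ∈ Φ.F C := fun C hC => hC (mem_insert_self v σ)
  rcases h with h | ⟨h1, h2⟩ | ⟨C0, h1, h2, h3, h4⟩ | ⟨C0, h1, h2, h3, h4⟩
  · exact Or.inl fun C hC => h C (hs C hC)
  · exact Or.inr (Or.inl ⟨fun C hC => h1 C (hs C hC), fun C hC => h2 C (hs C hC)⟩)
  · by_cases hv0 : v ∈ Φ.F C0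
    · refine Or.inr (Or.inr (Or.inl ⟨C0, insert_subset hv0 h1, h2, fun C hC => h3 C (hs C hC),
        Or.inl ?_⟩))
      rcases Φ.kk_insert hv C0 with hk | hk <;> omega
    · refine Or.inr (Or.inl ⟨fun C hC hC2 => ?_, fun C hC => h3 C (hs C hC)⟩)
      have h5 : C = C0 := hinj (hC2.trans h2.symm)
      rw [← h5] at hv0
      exact hv0 (hvC C hC)
  · by_cases hv0 : v ∈ Φ.F C0
    · refine Or.inr (Or.inr (Or.inr ⟨C0, insert_subset hv0 h1, h2, fun C hC => h3 C (hs C hC),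
        ?_⟩))
      rcases Φ.kk_insert hv C0 with hk | hk
      · rcases Nat.lt_or_ge (2 * i) e with h6 | h6
        · left; omega
        · right; exact ⟨by omega, by omega⟩
      · rcases Nat.lt_or_ge (2 * i) e with h6 | h6
        · left; omega
        · right; exact ⟨by omega, by omega⟩
    · have hne : ∀ C, insert v σ ⊆ Φ.F C → c.LL C ≠ t := by
        intro C hC hC2
        have h5 : C = C0 := hinj (hC2.trans h2.symm)
        rw [← h5] at hv0
        exact hv0 (hvC C hC)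
      refine Or.inr (Or.inl ⟨hne, fun C hC => ?_⟩)
      rw [h3 C (hs C hC)]
      exact ⟨fun h7 => lt_of_le_of_ne h7 (Ne.symm (hne C hC)), le_of_lt⟩

/-- An admissible pair in degree `i + 1` is admissible in degree `i`. -/
theorem adm_pred {Φ : NFan d V 𝒞 E} {c : Conv Φ} {σ : Finset V} {e i : ℕ}
    (hi : 2 * (i + 1) ≤ e) {U : Finset 𝒞} {t : ℝ} (h : Adm Φ c σ e (i + 1) U t) :
    Adm Φ c σ e i U t := by
  rcases h with h | h | ⟨C0, h1, h2, h3, h4⟩ | ⟨C0, h1, h2, h3, h4⟩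
  · exact Or.inl h
  · exact Or.inr (Or.inl h)
  · refine Or.inr (Or.inr (Or.inl ⟨C0, h1, h2, h3, Or.inl ?_⟩))
    omega
  · refine Or.inr (Or.inr (Or.inr ⟨C0, h1, h2, h3, Or.inl ?_⟩))
    omega

end Pool.Agent.MP19e880.AR
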