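import Pool.Agent.Lib.MP_19e880_co_AR.Aa

/-!
The signs of the linear functions on the chambers.
-/

set_option autoImplicit false
set_option linter.unusedSectionVars false

open Finset Module

namespace Pool.Agent.MP19e880.AR

/-- The sign of `φ q` on the chamber `C` (a real number). -/
noncomputable def sgn {V ι E : Type*} [AddCommGroup E] [Module ℝ E] (φ : ι → E →ₗ[ℝ] ℝ)
    (p : V → E) (C : Finset V) (q : ι) : ℝ := SignType.sign (φ q (∑ v ∈ C, p v))

variable {V ι E : Type*} [Fintype V] [DecidableEq V] [Fintype ι] [AddCommGroup E] [Module ℝ E]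
  [FiniteDimensional ℝ E] {φ : ι → E →ₗ[ℝ] ℝ} {p : V → E} {S : Finset (Finset V)}


private theorem ae_cast {a b : SignType} (h : (a : ℝ) = (b : ℝ)) : a = b := by
  cases a <;> cases b <;> first | rfl | (exfalso; norm_num at h)

private theorem ae_same (h : IsArr φ p S) {C : Finset V} (hC : C ∈ S) (q : ι) {c : V → ℝ}
    (hc : ∀ v ∈ C, 0 < c v) :
    SignType.sign (φ q (∑ v ∈ C, c v • p v)) = SignType.sign (φ q (∑ v ∈ C, p v)) := by
  have h1 := (h.sign C hC C hC c (fun _ => 1) hc (fun _ _ => one_pos)).mpr rfl q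
  simpa only [one_smul] using h1

private theorem ae_mul (h : IsArr φ p S) {C : Finset V} (hC : C ∈ S) (q : ι) {c : V → ℝ}
    (hc : ∀ v ∈ C, 0 < c v) :
    sgn φ p C q * φ q (∑ v ∈ C, c v • p v) = |φ q (∑ v ∈ C, c v • p v)| := by
  unfold sgn
  rw [← ae_same h hC q hc]
  exact sign_mul_self _

/-- Adding a multiple of one of the rays. -/
private theorem ae_sum {C : Finset V} {v : V} (hv : v ∈ C) (M : ℝ) :
    ∑ w ∈ C, (if w = v then 1 + M else 1) • p w = ∑ w ∈ C, p w + M • p v := by
  have h1 : ∀ w ∈ C, (if w = v then 1 + M else (1 : ℝ)) • p w =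
      p w + (if w = v then M • p v else 0) := by
    intro w _
    by_cases h2 : w = v
    · rw [if_pos h2, if_pos h2, h2, add_smul, one_smul]
    · rw [if_neg h2, if_neg h2, one_smul, add_zero]
  rw [sum_congr rfl h1, sum_add_distrib, sum_ite_eq' C v, if_pos hv]

private theorem ae_ne (h : IsArr φ p S) {C : Finset V} (hC : C ∈ S)
    (hd : C.card = finrank ℝ E) (q : ι) : φ q (∑ v ∈ C, p v) ≠ 0 := by
  intro h0
  refine h.nz q (LinearMap.ext (fun x => ?_))
  have h1 : ∀ w ∈ C, φ q (p w) = 0 := by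
    intro w hw
    have h2 := ae_same h hC q (c := fun v => if v = w then 1 + 1 else 1) (by
      intro v _
      show (0 : ℝ) < if v = w then 1 + 1 else 1
      split_ifs <;> norm_num)
    have h3 := ae_sum (p := p) hw 1
    rw [h3, h0, sign_zero, sign_eq_zero_iff, map_add, h0, one_smul, zero_add] at h2
    exact h2
  obtain ⟨c, hc, hx⟩ := h.exists_coord hC hd x
  rw [← hx, map_sum]
  refine sum_eq_zero (fun w _ => ?_)
  rw [map_smul]
  by_cases hw : w ∈ C
  · rw [h1 w hw, smul_zero]
  · rw [hc w hw, zero_smul]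

theorem IsArr.sgn_sq (h : IsArr φ p S) {C : Finset V} (hC : C ∈ S)
    (hd : C.card = finrank ℝ E) (q : ι) : sgn φ p C q * sgn φ p C q = 1 := by
  rcases (ae_ne h hC hd q).lt_or_gt with h1 | h1
  · unfold sgn
    rw [sign_neg h1]
    norm_num
  · unfold sgn
    rw [sign_pos h1]
    norm_num

theorem IsArr.sgn_mul (h : IsArr φ p S) {C : Finset V} (hC : C ∈ S)
    (hd : C.card = finrank ℝ E) (q : ι) {v : V} (hv : v ∈ C) :
    sgn φ p C q * φ q (p v) = |φ q (p v)| := by
  have hsq := h.sgn_sq hC hd q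
  obtain ⟨s, hs⟩ : ∃ s, s = sgn φ p C q := ⟨_, rfl⟩
  obtain ⟨y, hy⟩ : ∃ y, y = φ q (∑ v ∈ C, p v) := ⟨_, rfl⟩
  obtain ⟨a, ha⟩ : ∃ a, a = φ q (p v) := ⟨_, rfl⟩
  have h1 : ∀ M : ℝ, 0 < M → 0 ≤ s * (y + M * a) := by
    intro M hM
    have h2 := ae_mul h hC q (c := fun w => if w = v then 1 + M else 1) (by
      intro w _
      show (0 : ℝ) < if w = v then 1 + M else 1
      split_ifs <;> linarith)
    rw [ae_sum (p := p) hv M, map_add, map_smul, smul_eq_mul, ← hs, ← hy, ← ha] at h2
    rw [h2]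
    exact abs_nonneg _
  have h3 : 0 ≤ s * a := by
    by_contra h4
    rw [not_le] at h4
    have h5 : 0 < -(s * a) := by linarith
    have h6 := h1 ((|s * y| + 1) / -(s * a)) (div_pos (by positivity) h5)
    have h7 : (|s * y| + 1) / -(s * a) * (s * a) = -(|s * y| + 1) := by
      rw [div_neg, neg_mul, div_mul_cancel₀ _ h4.ne]
    have h8 : s * (y + (|s * y| + 1) / -(s * a) * a) =
        s * y + (|s * y| + 1) / -(s * a) * (s * a) := by ring
    rw [h8, h7] at h6
    have h9 := le_abs_self (s * y)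
    linarith
  rw [← hs] at hsq ⊢
  rw [← ha]
  have h10 : |s| = 1 := by
    have h11 : |s| * |s| = 1 := by rw [← abs_mul, hsq, abs_one]
    nlinarith [abs_nonneg s]
  calc s * a = |s * a| := (abs_of_nonneg h3).symm
    _ = |a| := by rw [abs_mul, h10, one_mul]

/-- A ray outside the chamber `C` is separated from it by one of the hyperplanes. -/
theorem IsArr.exists_sep (h : IsArr φ p S) {C : Finset V} (hC : C ∈ S)
    (hd : C.card = finrank ℝ E) {v : V} (hv : {v} ∈ S) (hvC : v ∉ C) :
    ∃ q, sgn φ p C q * φ q (p v) < |φ q (p v)| := by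
  by_contra hcon
  push Not at hcon
  have hcon' : ∀ q, 0 ≤ sgn φ p C q * φ q (p v) := fun q => (abs_nonneg _).trans (hcon q)
  obtain ⟨a, ha0, ha⟩ := h.exists_coord hC hd (p v)
  have haC : ∑ w ∈ C, a w • p w = p v := by
    rw [← ha]
    refine sum_subset (subset_univ _) (fun w _ hw => ?_)
    rw [ha0 w hw, zero_smul]
  have h1 : ∀ T : ℝ, 0 < T → ∀ w ∈ C, 0 < 1 + T * a w := by
    intro T hT
    obtain ⟨F, hF, c, hc, hx⟩ := h.cover (∑ w ∈ C, p w + T • p v)
    have hFC : F = C := by
      refine (h.sign F hF C hC c (fun _ => 1) hc (fun _ _ => one_pos)).mp (fun q => ?_)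
      simp only [one_smul]
      rw [← hx, map_add, map_smul, smul_eq_mul]
      have h2 : sgn φ p C q * φ q (∑ w ∈ C, p w) = |φ q (∑ w ∈ C, p w)| := by
        have h3 := ae_mul h hC q (c := fun _ => 1) (fun _ _ => one_pos)
        simpa only [one_smul] using h3
      have h4 := hcon' q
      have hne := ae_ne h hC hd q
      rcases hne.lt_or_gt with h5 | h5
      · have h6 : sgn φ p C q = -1 := by
          unfold sgn
          rw [sign_neg h5]
          norm_num
        rw [h6] at h4
        rw [sign_neg h5]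
        refine sign_neg ?_
        nlinarith
      · have h6 : sgn φ p C q = 1 := by
          unfold sgn
          rw [sign_pos h5]
          norm_num
        rw [h6] at h4
        rw [sign_pos h5]
        refine sign_pos ?_
        nlinarith
    subst hFC
    have h7 : ∑ w ∈ F, (1 + T * a w) • p w = ∑ w ∈ F, c w • p w := by
      rw [← hx, ← haC, smul_sum, ← sum_add_distrib]
      refine sum_congr rfl (fun w _ => ?_)
      rw [add_smul, one_smul, mul_smul]
    intro w hw
    have h8 := h.coef_unique hF h7 w hw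
    rw [h8]
    exact hc w hw
  have h2 : ∀ w ∈ C, 0 ≤ a w := by
    intro w hw
    by_contra h3
    rw [not_le] at h3
    have h4 := h1 (-1 / a w) (div_pos_of_neg_of_neg (by norm_num) h3) w hw
    have h5 : -1 / a w * a w = -1 := div_mul_cancel₀ _ h3.ne
    rw [h5] at h4
    linarith
  refine hvC (h.sub_of_mem hC hv h2 (c' := fun _ => 1) (fun _ _ => one_pos) ?_
    (mem_singleton_self v))
  rw [haC, sum_singleton, one_smul]

theorem IsArr.sgn_ne (h : IsArr φ p S) {C C' : Finset V} (hC : C ∈ S) (hC' : C' ∈ S)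
    (hd : C.card = finrank ℝ E) (hd' : C'.card = finrank ℝ E) (hne : C ≠ C') :
    ∃ q, sgn φ p C q ≠ sgn φ p C' q := by
  by_contra hcon
  push Not at hcon
  refine hne ((h.sign C hC C' hC' (fun _ => 1) (fun _ => 1) (fun _ _ => one_pos)
    (fun _ _ => one_pos)).mp (fun q => ?_))
  simp only [one_smul]
  exact ae_cast (hcon q)

end Pool.Agent.MP19e880.AR
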