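import Pool.Agent.Lib.MP_19e880_co_AR.Aa

/-!
A generic vector.
-/

set_option autoImplicit false
set_option linter.unusedSectionVars false

open Finset Module

namespace Pool.Agent.MP19e880.AR

variable {V ι E : Type*} [Fintype V] [DecidableEq V] [Fintype ι] [AddCommGroup E] [Module ℝ E]
  [FiniteDimensional ℝ E] {φ : ι → E →ₗ[ℝ] ℝ} {p : V → E} {S : Finset (Finset V)}

/-- Linear functions with prescribed values on independent vectors. -/
private theorem af_exists_fun (C : Finset V) (hli : LinearIndependent ℝ (fun v : C => p v))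
    (g : V → ℝ) : ∃ y : E →ₗ[ℝ] ℝ, ∀ v ∈ C, y (p v) = g v := by
  obtain ⟨y, hy⟩ := LinearMap.exists_extend ((Basis.span hli).constr ℝ (fun v : C => g v))
  refine ⟨y, fun v hv => ?_⟩
  have h1 : ((Basis.span hli) ⟨v, hv⟩ : E) = p v := by
    rw [Basis.span_apply hli ⟨v, hv⟩]
  rw [← h1]
  have h2 := LinearMap.congr_fun hy ((Basis.span hli) ⟨v, hv⟩)
  rw [Basis.constr_basis] at h2
  exact h2

theorem IsArr.exists_generic (h : IsArr φ p S) : ∃ u : E, (∀ q, φ q u ≠ 0) ∧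
    ∀ C ∈ S, C.card = finrank ℝ E →
      ∃ x : V → ℝ, (∀ v, v ∉ C → x v = 0) ∧ (∀ v ∈ C, x v ≠ 0) ∧ ∑ v, x v • p v = u := by
  have hξ : ∀ q : {q : Finset V × V // q.1 ∈ S ∧ q.2 ∈ q.1},
      ∃ y : E →ₗ[ℝ] ℝ, ∀ v ∈ q.1.1, y (p v) = if v = q.1.2 then 1 else 0 :=
    fun q => af_exists_fun q.1.1 (h.li _ q.2.1) _
  choose ξ hξ using hξ
  obtain ⟨u, hu⟩ := Module.Dual.exists_forall_ne_zero_of_forall_exists
    (ι := ι ⊕ {q : Finset V × V // q.1 ∈ S ∧ q.2 ∈ q.1}) (Sum.elim φ ξ) (by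
      rintro (q | q)
      · by_contra hcon
        push Not at hcon
        exact h.nz q (LinearMap.ext hcon)
      · refine ⟨p q.1.2, ?_⟩
        show ξ q (p q.1.2) ≠ 0
        rw [hξ q _ q.2.2, if_pos rfl]
        exact one_ne_zero)
  refine ⟨u, fun q => hu (Sum.inl q), fun C hC hd => ?_⟩
  obtain ⟨x, hx1, hx2⟩ := h.exists_coord hC hd u
  refine ⟨x, hx1, fun v hv => ?_, hx2⟩
  have h1 := hu (Sum.inr ⟨(C, v), hC, hv⟩)
  have h2 : ξ ⟨(C, v), hC, hv⟩ u = x v := by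
    rw [← hx2, map_sum, Finset.sum_eq_single v]
    · rw [map_smul, hξ _ v hv, if_pos rfl, smul_eq_mul, mul_one]
    · intro w _ hw
      by_cases hwC : w ∈ C
      · rw [map_smul, hξ _ w hwC, if_neg hw, smul_zero]
      · rw [hx1 w hwC, zero_smul, map_zero]
    · intro h3
      exact absurd (mem_univ v) h3
  rw [← h2]
  exact h1

end Pool.Agent.MP19e880.AR
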