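import Pool.Agent.Lib.MP_19e880_co_AR.Aa

/-!
The multiplicities of the chambers.
-/

set_option autoImplicit false
set_option linter.unusedSectionVars false

open Finset Module

namespace Pool.Agent.MP19e880.AR

variable {V ι E : Type*} [Fintype V] [DecidableEq V] [Fintype ι] [AddCommGroup E] [Module ℝ E]
  [FiniteDimensional ℝ E] {φ : ι → E →ₗ[ℝ] ℝ} {p : V → E} {S : Finset (Finset V)}


/-- The value of the determinant on a family indexed by an injective function into `C` does not
depend on the function up to the sign. -/
private theorem ag_indep {n : ℕ} (b : Basis (Fin n) ℝ E) (p : V → E) {C : Finset V}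
    (e e' : Fin n ≃ C) : |b.det (fun i => p (e i))| = |b.det (fun i => p (e' i))| := by
  have h1 : (fun i => p (e' i)) = (fun i => p (e i)) ∘ (e'.trans e.symm) := by
    funext i
    simp
  rw [h1, AlternatingMap.map_perm]
  rcases Int.units_eq_one_or (Equiv.Perm.sign (e'.trans e.symm)) with h2 | h2
  · rw [h2, one_smul]
  · rw [h2, Units.neg_smul, one_smul, abs_neg]

/-- The bijection given by an injective function. -/
private theorem ag_equiv {n : ℕ} {C : Finset V} (hC : C.card = n) {f : Fin n → V}
    (hf : Function.Injective f) (hfC : ∀ i, f i ∈ C) :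
    ∃ e : Fin n ≃ C, ∀ i, ((e i : C) : V) = f i := by
  have hb : Function.Bijective (fun i => (⟨f i, hfC i⟩ : C)) := by
    rw [Fintype.bijective_iff_injective_and_card]
    refine ⟨fun i j hij => hf (congrArg Subtype.val hij), ?_⟩
    rw [Fintype.card_fin, Fintype.card_coe, hC]
  exact ⟨Equiv.ofBijective _ hb, fun i => rfl⟩

private theorem ag_cramer {n : ℕ} (b : Basis (Fin n) ℝ E) (p : V → E) (u : E) {C : Finset V}
    (hC : C.card = n) {f : Fin n → V} (hf : Function.Injective f) (hfC : ∀ i, f i ∈ C)
    (i0 : Fin n) {x : V → ℝ} (hx : ∀ w, w ∉ C → x w = 0) (hu : ∑ w, x w • p w = u) :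
    b.det (Function.update (fun i => p (f i)) i0 u) = x (f i0) * b.det (fun i => p (f i)) := by
  obtain ⟨e, he⟩ := ag_equiv hC hf hfC
  have h1 : u = ∑ i, x (f i) • p (f i) := by
    rw [← hu]
    calc ∑ w, x w • p w = ∑ w ∈ C, x w • p w := by
          symm
          refine sum_subset (subset_univ _) (fun w _ hw => ?_)
          rw [hx w hw, zero_smul]
      _ = ∑ w : C, x w • p w := (sum_coe_sort C (fun w => x w • p w)).symm
      _ = ∑ i, x (f i) • p (f i) := by
          symm
          refine Fintype.sum_equiv e _ _ (fun i => ?_)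
          rw [he i]
  have h2 : b.det (Function.update (fun i => p (f i)) i0 u) =
      ∑ j, b.det (Function.update (fun i => p (f i)) i0 (x (f j) • p (f j))) := by
    rw [h1]
    exact b.det.toMultilinearMap.map_update_sum univ i0 (fun j => x (f j) • p (f j))
      (fun i => p (f i))
  rw [h2, sum_eq_single i0]
  · rw [AlternatingMap.map_update_smul, Function.update_eq_self, smul_eq_mul]
  · intro j _ hj
    rw [AlternatingMap.map_update_smul,
      AlternatingMap.map_update_self b.det (fun i => p (f i)) hj.symm, smul_zero]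
  · intro h
    exact absurd (mem_univ i0) h

/-- The absolute values of the determinants of the chambers. -/
theorem exists_mult (p : V → E) (u : E) : ∃ μ : Finset V → ℝ, (∀ C, 0 ≤ μ C) ∧
    (∀ C : Finset V, C.card = finrank ℝ E → LinearIndependent ℝ (fun v : C => p v) → 0 < μ C) ∧
    ∀ (C C' : Finset V) (v v' : V) (x x' : V → ℝ), C.card = finrank ℝ E →
      C'.card = finrank ℝ E → v ∈ C → v' ∈ C' → C.erase v = C'.erase v' →
      (∀ w, w ∉ C → x w = 0) → (∀ w, w ∉ C' → x' w = 0) → ∑ w, x w • p w = u →
      ∑ w, x' w • p w = u → μ C * |x v| = μ C' * |x' v'| := by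
  classical
  obtain ⟨n, hn⟩ : ∃ n, n = finrank ℝ E := ⟨_, rfl⟩
  rw [← hn]
  let b : Basis (Fin n) ℝ E := (finBasis ℝ E).reindex (finCongr hn.symm)
  let μ : Finset V → ℝ := fun C =>
    if h : ∃ e : Fin n ≃ C, True then |b.det (fun i => p (h.choose i))| else 0
  have hμ : ∀ (C : Finset V), C.card = n → ∀ (f : Fin n → V), Function.Injective f →
      (∀ i, f i ∈ C) → μ C = |b.det (fun i => p (f i))| := by
    intro C hC f hf hfC
    obtain ⟨e, he⟩ := ag_equiv hC hf hfC
    have h1 : ∃ e : Fin n ≃ C, True := ⟨e, trivial⟩
    have h2 : μ C = |b.det (fun i => p (h1.choose i))| := dif_pos h1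
    rw [h2, ag_indep b p _ e]
    congr 2
    funext i
    rw [he i]
  have hex : ∀ (C : Finset V), C.card = n → ∃ f : Fin n → V, Function.Injective f ∧
      (∀ i, f i ∈ C) ∧ ∀ v ∈ C, ∃ i, f i = v := by
    intro C hC
    have e : Fin n ≃ C := (Fintype.equivFinOfCardEq (by rw [Fintype.card_coe, hC])).symm
    refine ⟨fun i => (e i : V), fun i j hij => e.injective (Subtype.ext hij), fun i => (e i).2,
      fun v hv => ⟨e.symm ⟨v, hv⟩, by simp⟩⟩
  refine ⟨μ, ?_, ?_, ?_⟩
  · intro C
    by_cases h : ∃ e : Fin n ≃ C, True
    · have h2 : μ C = |b.det (fun i => p (h.choose i))| := dif_pos h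
      rw [h2]
      exact abs_nonneg _
    · have h2 : μ C = 0 := dif_neg h
      rw [h2]
  · intro C hC hli
    obtain ⟨f, hf, hfC, -⟩ := hex C hC
    rw [hμ C hC f hf hfC, abs_pos]
    have h1 : LinearIndependent ℝ (fun i => p (f i)) := by
      have h2 := hli.comp (fun i => (⟨f i, hfC i⟩ : C))
        (fun i j hij => hf (congrArg Subtype.val hij))
      exact h2
    have h3 : Submodule.span ℝ (Set.range (fun i => p (f i))) = ⊤ :=
      h1.span_eq_top_of_card_eq_finrank' (by rw [Fintype.card_fin, hn])
    exact ((Module.Basis.is_basis_iff_det b).mp ⟨h1, h3⟩).ne_zero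
  · intro C C' v v' x x' hC hC' hv hv' hCC hx hx' hu hu'
    obtain ⟨f, hf, hfC, hfs⟩ := hex C hC
    obtain ⟨i0, hi0⟩ := hfs v hv
    have hne : ∀ i, i ≠ i0 → f i ∈ C'.erase v' := by
      intro i hi
      rw [← hCC, mem_erase]
      refine ⟨fun h => hi (hf ?_), hfC i⟩
      rw [h, hi0]
    have hg : Function.Injective (Function.update f i0 v') := by
      intro i j hij
      by_cases h1 : i = i0
      · by_cases h2 : j = i0
        · rw [h1, h2]
        · rw [h1, Function.update_self, Function.update_of_ne h2] at hij
          exact absurd hij.symm (mem_erase.mp (hne j h2)).1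
      · by_cases h2 : j = i0
        · rw [h2, Function.update_self, Function.update_of_ne h1] at hij
          exact absurd hij (mem_erase.mp (hne i h1)).1
        · rw [Function.update_of_ne h1, Function.update_of_ne h2] at hij
          exact hf hij
    have hgC : ∀ i, Function.update f i0 v' i ∈ C' := by
      intro i
      by_cases h1 : i = i0
      · rw [h1, Function.update_self]
        exact hv'
      · rw [Function.update_of_ne h1]
        exact (mem_erase.mp (hne i h1)).2
    have h1 := ag_cramer b p u hC hf hfC i0 hx hu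
    have h2 := ag_cramer b p u hC' hg hgC i0 hx' hu'
    have h3 : Function.update (fun i => p (Function.update f i0 v' i)) i0 u =
        Function.update (fun i => p (f i)) i0 u := by
      funext i
      by_cases h4 : i = i0
      · rw [h4, Function.update_self, Function.update_self]
      · rw [Function.update_of_ne h4, Function.update_of_ne h4, Function.update_of_ne h4]
    rw [h3, h1, hi0, Function.update_self] at h2
    rw [hμ C hC f hf hfC, hμ C' hC' _ hg hgC, mul_comm, mul_comm (|b.det _|), ← abs_mul,
      ← abs_mul, h2]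

end Pool.Agent.MP19e880.AR
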