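import Pool.Agent.Lib.MP_19e880_co_AR.Ac
import Pool.Agent.Lib.MP_19e880_co_AR.Ad
import Pool.Agent.Lib.MP_19e880_co_AR.Af
import Pool.Agent.Lib.MP_19e880_co_AR.Ag

/-!
The evaluated fan of a simplicial arrangement.
-/

set_option autoImplicit false
set_option linter.unusedSectionVars false

open Finset Module

namespace Pool.Agent.MP19e880.AR

variable {V ι E : Type*} [Fintype V] [DecidableEq V] [Fintype ι] [AddCommGroup E] [Module ℝ E]
  [FiniteDimensional ℝ E] {φ : ι → E →ₗ[ℝ] ℝ} {p : V → E} {S : Finset (Finset V)}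

private theorem ah_sum {C : Finset V} {x : V → ℝ} (h0 : ∀ v, v ∉ C → x v = 0) :
    ∑ v, x v • p v = ∑ v ∈ C, x v • p v := by
  refine (sum_subset (subset_univ C) fun v _ hv => ?_).symm
  rw [h0 v hv, zero_smul]

theorem IsArr.exists_fan (h : IsArr φ p S) {d : ℕ} (hd : finrank ℝ E = d) :
    ∃ Φ : NFan d V {C : Finset V // C ∈ S ∧ C.card = d} E,
      (∀ C, Φ.F C = C.1) ∧ (∀ v, Φ.p v = p v) ∧ ∀ q, φ q Φ.u ≠ 0 := by
  obtain ⟨u, hu1, hu2⟩ := h.exists_generic
  have hx : ∀ C : {C : Finset V // C ∈ S ∧ C.card = d}, ∃ x : V → ℝ,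
      (∀ v, v ∉ C.1 → x v = 0) ∧ (∀ v ∈ C.1, x v ≠ 0) ∧ ∑ v, x v • p v = u :=
    fun C => hu2 C.1 C.2.1 (C.2.2.trans hd.symm)
  choose x hx0 hx1 hx2 using hx
  obtain ⟨μ, -, hμ1, hμ2⟩ := exists_mult p u
  have hwall : ∀ C : {C : Finset V // C ∈ S ∧ C.card = d}, ∀ v ∈ C.1,
      ∃ (C' : {C : Finset V // C ∈ S ∧ C.card = d}) (v' : V), C' ≠ C ∧ v' ∈ C'.1 ∧
        C'.1.erase v' = C.1.erase v ∧ μ C.1 * x C v = -(μ C'.1 * x C' v') ∧
        ∀ C'' : {C : Finset V // C ∈ S ∧ C.card = d}, C.1.erase v ⊆ C''.1 →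
          C'' = C ∨ C'' = C' := by
    intro C v hv
    have hCd : C.1.card = finrank ℝ E := C.2.2.trans hd.symm
    obtain ⟨C', hC', hne, hs, hd'⟩ := h.exists_wall C.2.1 hCd hv
    obtain ⟨v', hv', he, α, b, hα, hp⟩ := h.wall_neg C.2.1 hC' hCd hd' hne hv hs
    set D' : {C : Finset V // C ∈ S ∧ C.card = d} := ⟨C', hC', hd'.trans hd⟩ with hD'
    refine ⟨D', v', fun hh => hne (congrArg Subtype.val hh), hv', he, ?_, ?_⟩
    · have e1 : ∑ w ∈ C.1, x C w • p w = u := by
        rw [← ah_sum (hx0 C)]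
        exact hx2 C
      have e2 : ∑ w ∈ C', x D' w • p w = u := by
        rw [← ah_sum (C := C') (hx0 D')]
        exact hx2 D'
      have e3 : ∑ w ∈ C.1, x C w • p w = ∑ w ∈ C.1,
          (if w = v then α * x D' v' else x D' v' * b w + x D' w) • p w := by
        rw [e1, ← e2, ← add_sum_erase C' _ hv', he, hp, ← add_sum_erase C.1 _ hv, if_pos rfl,
          smul_add, smul_smul, smul_sum, add_assoc, ← sum_add_distrib, mul_comm α]
        congr 1
        refine sum_congr rfl fun w hw => ?_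
        rw [if_neg (ne_of_mem_erase hw), smul_smul, add_smul]
      have e4 := h.coef_unique C.2.1 e3 v hv
      rw [if_pos rfl] at e4
      have e5 := hμ2 C.1 C' v v' (x C) (x D') hCd hd' hv hv' he.symm (hx0 C) (hx0 D') (hx2 C)
        (hx2 D')
      have e6 : x D' v' ≠ 0 := hx1 D' v' hv'
      show μ C.1 * x C v = -(μ C' * x D' v')
      rcases lt_or_gt_of_ne e6 with h1 | h1
      · have h2 : 0 < x C v := by
          rw [e4]
          exact mul_pos_of_neg_of_neg hα h1
        rw [abs_of_pos h2, abs_of_neg h1] at e5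
        rw [e5]
        ring
      · have h2 : x C v < 0 := by
          rw [e4]
          exact mul_neg_of_neg_of_pos hα h1
        rw [abs_of_neg h2, abs_of_pos h1] at e5
        linear_combination -e5
    · intro C'' hs'
      by_cases h1 : C'' = C
      · exact Or.inl h1
      · right
        have h2 : C''.1 ≠ C.1 := fun hh => h1 (Subtype.ext hh)
        exact Subtype.ext (h.wall_unique C.2.1 hC' C''.2.1 hCd hd' (C''.2.2.trans hd.symm) hv hne
          h2 hs hs')
  exact ⟨{ F := fun C => C.1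
           p := p
           u := u
           D := fun v C => x C v
           μ := fun C => μ C.1
           card := fun C => C.2.2
           inj := Subtype.val_injective
           li := fun C => h.li C.1 C.2.1
           D_zero := fun C v hv => hx0 C v hv
           D_ne := fun C v hv => hx1 C v hv
           D_sum := fun C => hx2 C
           μ_pos := fun C => hμ1 C.1 (C.2.2.trans hd.symm) (h.li C.1 C.2.1)
           wall := hwall }, fun C => rfl, fun v => rfl, hu1⟩

end Pool.Agent.MP19e880.AR
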