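import Pool.Agent.Lib.MP_19e880_co_AR.Fa

/-!
The filtration by degree, monomials, weights.
-/

set_option autoImplicit false
set_option linter.unusedSectionVars false

open Finset Module

namespace Pool.Agent.MP19e880.AR

variable {d : ℕ} {V 𝒞 E : Type*} [Fintype V] [DecidableEq V] [Fintype 𝒞] [AddCommGroup E]
  [Module ℝ E]


theorem NFan.one_mem (Φ : NFan d V 𝒞 E) (i : ℕ) : (1 : 𝒞 → ℝ) ∈ Φ.Vj i := by
  have hW : (1 : 𝒞 → ℝ) ∈ Φ.W := Submodule.subset_span (Set.mem_insert _ _)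
  induction i with
  | zero =>
    show (1 : 𝒞 → ℝ) ∈ Φ.W ^ 0
    rw [pow_zero]
    exact Submodule.mem_one.2 ⟨1, map_one _⟩
  | succ i ih =>
    show (1 : 𝒞 → ℝ) ∈ Φ.W ^ (i + 1)
    rw [pow_succ]
    have h := Submodule.mul_mem_mul ih hW
    rwa [one_mul] at h

theorem NFan.D_mem (Φ : NFan d V 𝒞 E) (v : V) : Φ.D v ∈ Φ.Vj 1 := by
  show Φ.D v ∈ Φ.W ^ 1
  rw [pow_one]
  exact Submodule.subset_span (Set.mem_insert_of_mem _ (Set.mem_range_self v))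

theorem NFan.Vj_le_succ (Φ : NFan d V 𝒞 E) (i : ℕ) : Φ.Vj i ≤ Φ.Vj (i + 1) := by
  intro f hf
  show f ∈ Φ.W ^ (i + 1)
  rw [pow_succ]
  have h := Submodule.mul_mem_mul hf
    (Submodule.subset_span (Set.mem_insert _ _) : (1 : 𝒞 → ℝ) ∈ Φ.W)
  rwa [mul_one] at h

theorem NFan.Vj_mono (Φ : NFan d V 𝒞 E) {i j : ℕ} (h : i ≤ j) : Φ.Vj i ≤ Φ.Vj j := by
  induction h with
  | refl => exact le_rfl
  | step _ ih => exact ih.trans (Φ.Vj_le_succ _)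

theorem NFan.mul_mem (Φ : NFan d V 𝒞 E) {i j : ℕ} {f g : 𝒞 → ℝ} (hf : f ∈ Φ.Vj i)
    (hg : g ∈ Φ.Vj j) : f * g ∈ Φ.Vj (i + j) := by
  show f * g ∈ Φ.W ^ (i + j)
  rw [pow_add]
  exact Submodule.mul_mem_mul hf hg

theorem NFan.D_mul_mem (Φ : NFan d V 𝒞 E) {i : ℕ} {f : 𝒞 → ℝ} (v : V) (hf : f ∈ Φ.Vj i) :
    Φ.D v * f ∈ Φ.Vj (i + 1) := by
  have h := Φ.mul_mem (Φ.D_mem v) hf
  rwa [add_comm] at h

theorem NFan.pow_mem (Φ : NFan d V 𝒞 E) {f : 𝒞 → ℝ} (hf : f ∈ Φ.Vj 1) (m : ℕ) :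
    f ^ m ∈ Φ.Vj m := by
  induction m with
  | zero => rw [pow_zero]; exact Φ.one_mem 0
  | succ m ih => rw [pow_succ]; exact Φ.mul_mem ih hf

theorem NFan.mem_Vj_zero (Φ : NFan d V 𝒞 E) {f : 𝒞 → ℝ} (hf : f ∈ Φ.Vj 0) :
    ∃ a : ℝ, ∀ C, f C = a := by
  have h : f ∈ Φ.W ^ 0 := hf
  rw [pow_zero] at h
  obtain ⟨a, rfl⟩ := Submodule.mem_one.1 h
  exact ⟨a, fun C => rfl⟩

/-- Induction on the degree. -/
theorem NFan.Vj_succ_le (Φ : NFan d V 𝒞 E) {i : ℕ} {P : Submodule ℝ (𝒞 → ℝ)}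
    (h1 : ∀ g ∈ Φ.Vj i, g ∈ P) (h2 : ∀ v, ∀ g ∈ Φ.Vj i, Φ.D v * g ∈ P) : Φ.Vj (i + 1) ≤ P := by
  show Φ.W ^ (i + 1) ≤ P
  rw [pow_succ', Submodule.mul_le]
  intro m hm n hn
  refine Submodule.span_induction (p := fun m _ => m * n ∈ P) ?_ ?_ ?_ ?_ hm
  · intro x hx
    rcases hx with rfl | ⟨v, rfl⟩
    · rw [one_mul]; exact h1 n hn
    · exact h2 v n hn
  · rw [zero_mul]; exact P.zero_mem
  · intro x y _ _ hx hy
    rw [add_mul]; exact P.add_mem hx hy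
  · intro a x _ hx
    rw [smul_mul_assoc]; exact P.smul_mem a hx

theorem NFan.xs_mem (Φ : NFan d V 𝒞 E) (σ : Finset V) : Φ.xs σ ∈ Φ.Vj σ.card := by
  induction σ using Finset.induction_on with
  | empty =>
    rw [Finset.card_empty]
    have h : Φ.xs ∅ = 1 := by unfold NFan.xs; rw [Finset.prod_empty]
    rw [h]; exact Φ.one_mem 0
  | insert v σ hv ih =>
    rw [Finset.card_insert_of_notMem hv]
    have h : Φ.xs (insert v σ) = Φ.D v * Φ.xs σ := by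
      unfold NFan.xs; rw [Finset.prod_insert hv]
    rw [h]; exact Φ.D_mul_mem v ih

theorem NFan.xs_ne_zero_iff (Φ : NFan d V 𝒞 E) (σ : Finset V) (C : 𝒞) :
    Φ.xs σ C ≠ 0 ↔ σ ⊆ Φ.F C := by
  unfold NFan.xs
  rw [Finset.prod_apply, Finset.prod_ne_zero_iff]
  constructor
  · intro h v hv
    by_contra h1
    exact h v hv (Φ.D_zero C v h1)
  · intro h v hv
    exact Φ.D_ne C v (h hv)

theorem NFan.xs_zero (Φ : NFan d V 𝒞 E) {σ : Finset V} {C : 𝒞} (h : ¬ σ ⊆ Φ.F C) :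
    Φ.xs σ C = 0 := by
  by_contra h1
  exact h ((Φ.xs_ne_zero_iff σ C).1 h1)

theorem NFan.xs_insert (Φ : NFan d V 𝒞 E) {σ : Finset V} {v : V} (hv : v ∉ σ) (C : 𝒞) :
    Φ.xs (insert v σ) C = Φ.D v C * Φ.xs σ C := by
  unfold NFan.xs
  rw [Finset.prod_insert hv, Pi.mul_apply]

theorem Conv.lt_mem {Φ : NFan d V 𝒞 E} (c : Conv Φ) (t : ℝ) : c.lt t ∈ Φ.Vj 1 := by
  have h : c.lt t = ∑ v, c.ω v • Φ.D v - t • (1 : 𝒞 → ℝ) := by
    funext C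
    unfold Conv.lt
    rw [Conv.LL_eq]
    simp [Finset.sum_apply]
  rw [h]
  exact (Φ.Vj 1).sub_mem (Submodule.sum_mem _ (fun v _ => (Φ.Vj 1).smul_mem _ (Φ.D_mem v)))
    ((Φ.Vj 1).smul_mem _ (Φ.one_mem 1))

theorem Conv.lt_mul_mem {Φ : NFan d V 𝒞 E} (c : Conv Φ) (t : ℝ) {i : ℕ} {f : 𝒞 → ℝ}
    (hf : f ∈ Φ.Vj i) : c.lt t * f ∈ Φ.Vj (i + 1) := by
  have h := Φ.mul_mem (c.lt_mem t) hf
  rwa [add_comm] at h

/-- The sign of the weight. -/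
theorem NFan.sign_wt (Φ : NFan d V 𝒞 E) {σ : Finset V} {C : 𝒞} (h : σ ⊆ Φ.F C) :
    0 < (-1 : ℝ) ^ Φ.kk σ C * (Φ.wt C * Φ.xs σ C) := by
  classical
  have hcl : 0 < (-1 : ℝ) ^ Φ.kk σ C * ∏ v ∈ Φ.F C \ σ, Φ.D v C := by
    have hfil : (Φ.F C \ σ).filter (fun v => Φ.D v C < 0) = Φ.Ng C \ σ := by
      ext v
      simp only [NFan.Ng, Finset.mem_filter, Finset.mem_sdiff]
      tauto
    rw [← Finset.prod_filter_mul_prod_filter_not (Φ.F C \ σ) (fun v => Φ.D v C < 0), hfil,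
      ← mul_assoc]
    unfold NFan.kk
    have h1 : (-1 : ℝ) ^ (Φ.Ng C \ σ).card * ∏ v ∈ Φ.Ng C \ σ, Φ.D v C =
        ∏ v ∈ Φ.Ng C \ σ, -Φ.D v C := by
      rw [Finset.prod_neg]
    rw [h1]
    refine mul_pos (Finset.prod_pos (fun v hv => ?_)) (Finset.prod_pos (fun v hv => ?_))
    · have h2 : Φ.D v C < 0 := by
        have h3 := (Finset.mem_sdiff.1 hv).1
        simp only [NFan.Ng, Finset.mem_filter] at h3
        exact h3.2
      linarith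
    · have h3 := Finset.mem_filter.1 hv
      have h4 := Φ.D_ne C v (Finset.mem_sdiff.1 h3.1).1
      exact lt_of_le_of_ne (not_lt.1 h3.2) (Ne.symm h4)
  set P := ∏ v ∈ Φ.F C \ σ, Φ.D v C with hP
  have hPne : P ≠ 0 := by
    intro h0
    rw [h0, mul_zero] at hcl
    exact lt_irrefl _ hcl
  have hQ : Φ.xs σ C ≠ 0 := (Φ.xs_ne_zero_iff σ C).2 h
  have hmu := Φ.μ_pos C
  have hfull : ∏ v ∈ Φ.F C, Φ.D v C = P * Φ.xs σ C := by
    rw [hP, NFan.xs, Finset.prod_apply, Finset.prod_sdiff h]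
  have h5 : Φ.wt C * Φ.xs σ C = (Φ.μ C)⁻¹ * P⁻¹ := by
    rw [NFan.wt, hfull]
    field_simp
  have h6 : (-1 : ℝ) ^ Φ.kk σ C * (Φ.wt C * Φ.xs σ C) =
      (Φ.μ C)⁻¹ * ((-1 : ℝ) ^ Φ.kk σ C * P) * (P ^ 2)⁻¹ := by
    rw [h5]
    field_simp
  rw [h6]
  positivity

/-- Weights which agree on the star give the same forms. -/
theorem NFan.wU_congr (Φ : NFan d V 𝒞 E) {σ : Finset V} {U U' : Finset 𝒞}
    (h : ∀ C, σ ⊆ Φ.F C → (C ∈ U ↔ C ∈ U')) : Φ.wU σ U = Φ.wU σ U' := by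
  classical
  funext C
  unfold NFan.wU
  by_cases hC : σ ⊆ Φ.F C
  · by_cases h1 : C ∈ U
    · rw [if_pos h1, if_pos ((h C hC).1 h1)]
    · rw [if_neg h1, if_neg (fun h2 => h1 ((h C hC).2 h2))]
  · rw [Φ.xs_zero hC, mul_zero, ite_self, ite_self]

/-- The weight of a link, if `U` contains no chamber of the star. -/
theorem NFan.wU_zero (Φ : NFan d V 𝒞 E) {σ : Finset V} {U : Finset 𝒞}
    (h : ∀ C, σ ⊆ Φ.F C → C ∉ U) : Φ.wU σ U = 0 := by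
  classical
  funext C
  unfold NFan.wU
  by_cases hC : σ ⊆ Φ.F C
  · rw [if_neg (h C hC)]; rfl
  · rw [Φ.xs_zero hC, mul_zero, ite_self]; rfl

/-- Multiplication by the coordinate of `v` passes to the link. -/
theorem NFan.wU_mul_D (Φ : NFan d V 𝒞 E) {σ : Finset V} {v : V} (hv : v ∉ σ) (U : Finset 𝒞) :
    Φ.wU σ U * Φ.D v = Φ.wU (insert v σ) U := by
  classical
  funext C
  rw [Pi.mul_apply]
  unfold NFan.wU
  by_cases h1 : C ∈ U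
  · rw [if_pos h1, if_pos h1, Φ.xs_insert hv]
    ring
  · rw [if_neg h1, if_neg h1, zero_mul]

/-- The coordinate of `v` vanishes on the star if `insert v σ` is not a face. -/
theorem NFan.wU_mul_D_zero (Φ : NFan d V 𝒞 E) {σ : Finset V} {v : V}
    (hf : ¬ Φ.Face (insert v σ)) (U : Finset 𝒞) : Φ.wU σ U * Φ.D v = 0 := by
  classical
  funext C
  rw [Pi.mul_apply]
  unfold NFan.wU
  by_cases h1 : C ∈ U
  · rw [if_pos h1]
    by_contra h2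
    have h3 : Φ.wt C * Φ.xs σ C * Φ.D v C ≠ 0 := h2
    have h4 : Φ.D v C ≠ 0 := right_ne_zero_of_mul h3
    have h5 : Φ.xs σ C ≠ 0 := right_ne_zero_of_mul (left_ne_zero_of_mul h3)
    refine hf ⟨C, Finset.insert_subset ?_ ((Φ.xs_ne_zero_iff σ C).1 h5)⟩
    by_contra h6
    exact h4 (Φ.D_zero C v h6)
  · rw [if_neg h1, zero_mul]; rfl

open Classical in
/-- Adding one chamber adds a term of rank one. -/
theorem NFan.wU_insert (Φ : NFan d V 𝒞 E) (σ : Finset V) {U : Finset 𝒞} {C0 : 𝒞} (h : C0 ∉ U)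
    (l f g : 𝒞 → ℝ) : ip (Φ.wU σ (insert C0 U) * l) f g =
      ip (Φ.wU σ U * l) f g + (Φ.wt C0 * Φ.xs σ C0 * l C0) * (f C0 * g C0) := by
  rw [ip_apply, ip_apply]
  have h1 : ∀ C, (Φ.wU σ (insert C0 U) * l) C * (f C * g C) =
      (Φ.wU σ U * l) C * (f C * g C) +
        if C = C0 then (Φ.wt C0 * Φ.xs σ C0 * l C0) * (f C0 * g C0) else 0 := by
    intro C
    rw [Pi.mul_apply, Pi.mul_apply]
    unfold NFan.wU
    by_cases h2 : C = C0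
    · subst h2
      rw [if_pos (Finset.mem_insert_self _ _), if_neg h, if_pos rfl]
      ring
    · rw [if_neg h2, add_zero]
      by_cases h3 : C ∈ U
      · rw [if_pos h3, if_pos (Finset.mem_insert_of_mem h3)]
      · rw [if_neg h3, if_neg (fun h4 => (Finset.mem_insert.1 h4).elim h2 h3)]
  rw [Finset.sum_congr rfl (fun C _ => h1 C), Finset.sum_add_distrib,
    Finset.sum_ite_eq' Finset.univ C0, if_pos (mem_univ C0)]

end Pool.Agent.MP19e880.AR
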