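import Pool.Agent.Lib.MP_19e880_co_AR.Ae
import Pool.Agent.Lib.MP_19e880_co_AR.Fb

/-!
The strictly convex functions of a simplicial arrangement.
-/

set_option autoImplicit false
set_option linter.unusedSectionVars false

open Finset Module

namespace Pool.Agent.MP19e880.AR

variable {V ι E : Type*} [Fintype V] [DecidableEq V] [Fintype ι] [AddCommGroup E] [Module ℝ E]
  [FiniteDimensional ℝ E] {φ : ι → E →ₗ[ℝ] ℝ} {p : V → E} {S : Finset (Finset V)}


variable {d : ℕ}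

private theorem ai_le (h : IsArr φ p S) {C : Finset V} (hC : C ∈ S)
    (hd : C.card = finrank ℝ E) (q : ι) (x : ℝ) : sgn φ p C q * x ≤ |x| := by
  have h1 := h.sgn_sq hC hd q
  rcases mul_self_eq_one_iff.1 h1 with h2 | h2
  · rw [h2, one_mul]
    exact le_abs_self x
  · rw [h2, neg_one_mul]
    exact neg_le_abs x

theorem IsArr.exists_conv (h : IsArr φ p S) (hd : finrank ℝ E = d)
    {Φ : NFan d V {C : Finset V // C ∈ S ∧ C.card = d} E} (hF : ∀ C, Φ.F C = C.1)
    (hp : ∀ v, Φ.p v = p v) (a : ι → ℝ) (ha : ∀ q, 0 < a q) :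
    ∃ c : Conv Φ, ∀ C, c.LL C = ∑ q, a q * (sgn φ p C.1 q * φ q Φ.u) := by
  have happ : ∀ (C : {C : Finset V // C ∈ S ∧ C.card = d}) (x : E),
      (∑ q, (a q * sgn φ p C.1 q) • φ q) x = ∑ q, a q * (sgn φ p C.1 q * φ q x) := by
    intro C x
    rw [LinearMap.sum_apply]
    refine Finset.sum_congr rfl fun q _ => ?_
    rw [LinearMap.smul_apply, smul_eq_mul, mul_assoc]
  refine ⟨⟨fun v => ∑ q, a q * |φ q (p v)|, fun C => ∑ q, (a q * sgn φ p C.1 q) • φ q,
    ?_, ?_⟩, fun C => happ C Φ.u⟩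
  · intro C v hv
    rw [hp v, happ]
    rw [hF C] at hv
    refine Finset.sum_congr rfl fun q _ => ?_
    rw [h.sgn_mul C.2.1 (C.2.2.trans hd.symm) q hv]
  · intro C C' v hv hv'
    rw [hp v, happ]
    rw [hF C'] at hv
    rw [hF C] at hv'
    have hvS : {v} ∈ S := h.down _ C'.2.1 _ (Finset.singleton_subset_iff.2 hv)
    obtain ⟨q, hq⟩ := h.exists_sep C.2.1 (C.2.2.trans hd.symm) hvS hv'
    apply Finset.sum_lt_sum
    · intro q' _
      exact mul_le_mul_of_nonneg_left (ai_le h C.2.1 (C.2.2.trans hd.symm) q' _) (ha q').le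
    · exact ⟨q, Finset.mem_univ q, mul_lt_mul_of_pos_left hq (ha q)⟩

/-- The operators of degree one. -/
theorem IsArr.N_mem (h : IsArr φ p S) (hd : finrank ℝ E = d)
    {Φ : NFan d V {C : Finset V // C ∈ S ∧ C.card = d} E} (hF : ∀ C, Φ.F C = C.1)
    (hp : ∀ v, Φ.p v = p v) (q : ι) :
    (fun C : {C : Finset V // C ∈ S ∧ C.card = d} => sgn φ p C.1 q * φ q Φ.u) ∈ Φ.Vj 1 := by
  have heq : (fun C : {C : Finset V // C ∈ S ∧ C.card = d} => sgn φ p C.1 q * φ q Φ.u)
      = ∑ v, |φ q (p v)| • Φ.D v := by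
    funext C
    rw [Finset.sum_apply, ← Φ.D_sum C, map_sum, Finset.mul_sum]
    refine Finset.sum_congr rfl fun v _ => ?_
    rw [map_smul, smul_eq_mul, Pi.smul_apply, smul_eq_mul, hp v]
    by_cases hv : v ∈ Φ.F C
    · rw [← h.sgn_mul C.2.1 (C.2.2.trans hd.symm) q (hF C ▸ hv)]
      ring
    · rw [Φ.D_zero C v hv]
      ring
  rw [heq]
  exact Submodule.sum_mem _ fun v _ => Submodule.smul_mem _ _ (Φ.D_mem v)

end Pool.Agent.MP19e880.AR
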