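import Pool.Agent.Lib.MP_19e880_co_AR.Ae

/-!
Generic coefficients.
-/

set_option autoImplicit false
set_option linter.unusedSectionVars false

open Finset Module

namespace Pool.Agent.MP19e880.AR

variable {V ι E : Type*} [Fintype V] [DecidableEq V] [Fintype ι] [AddCommGroup E] [Module ℝ E]
  [FiniteDimensional ℝ E] {φ : ι → E →ₗ[ℝ] ℝ} {p : V → E} {S : Finset (Finset V)}


open Polynomial in
private noncomputable def ajP (φ : ι → E →ₗ[ℝ] ℝ) (p : V → E) (u : E) (C C' : Finset V) : ℝ[X] :=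
  ∑ q, Polynomial.C ((sgn φ p C q - sgn φ p C' q) * φ q u) *
    Polynomial.X ^ (Fintype.equivFin ι q : ℕ)

private theorem ajP_coeff (φ : ι → E →ₗ[ℝ] ℝ) (p : V → E) (u : E) (C C' : Finset V) (q : ι) :
    (ajP φ p u C C').coeff (Fintype.equivFin ι q : ℕ) =
      (sgn φ p C q - sgn φ p C' q) * φ q u := by
  classical
  unfold ajP
  rw [Polynomial.finsetSum_coeff]
  simp only [Polynomial.coeff_C_mul_X_pow]
  rw [Finset.sum_eq_single q]
  · rw [if_pos rfl]
  · intro q' _ hq'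
    rw [if_neg]
    intro h1
    exact hq' ((Fintype.equivFin ι).injective (Fin.ext h1)).symm
  · intro h1
    exact absurd (mem_univ q) h1

private theorem ajP_eval (φ : ι → E →ₗ[ℝ] ℝ) (p : V → E) (u : E) (C C' : Finset V) (t : ℝ) :
    (ajP φ p u C C').eval t =
      ∑ q, t ^ (Fintype.equivFin ι q : ℕ) * (sgn φ p C q * φ q u) -
        ∑ q, t ^ (Fintype.equivFin ι q : ℕ) * (sgn φ p C' q * φ q u) := by
  unfold ajP
  rw [Polynomial.eval_finsetSum, ← sum_sub_distrib]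
  refine sum_congr rfl (fun q _ => ?_)
  rw [Polynomial.eval_mul, Polynomial.eval_C, Polynomial.eval_pow, Polynomial.eval_X]
  ring

theorem IsArr.exists_coefficients (h : IsArr φ p S) {u : E} (hu : ∀ q, φ q u ≠ 0) :
    ∃ a : ι → ℝ, (∀ q, 0 < a q) ∧ ∀ C ∈ S, ∀ C' ∈ S, C.card = finrank ℝ E →
      C'.card = finrank ℝ E → ∑ q, a q * (sgn φ p C q * φ q u) =
        ∑ q, a q * (sgn φ p C' q * φ q u) → C = C' := by
  classical
  let Q : Polynomial ℝ := ∏ x ∈ S ×ˢ S,
    (if ajP φ p u x.1 x.2 = 0 then 1 else ajP φ p u x.1 x.2)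
  have hQ : Q ≠ 0 := by
    refine Finset.prod_ne_zero_iff.mpr (fun x _ => ?_)
    split_ifs with h1
    · exact one_ne_zero
    · exact h1
  obtain ⟨t, ht, hr⟩ := (Set.Ioi_infinite (0 : ℝ)).exists_notMem_finset Q.roots.toFinset
  rw [Set.mem_Ioi] at ht
  have hQt : Q.eval t ≠ 0 := by
    intro h1
    exact hr (Multiset.mem_toFinset.mpr ((Polynomial.mem_roots hQ).mpr h1))
  refine ⟨fun q => t ^ (Fintype.equivFin ι q : ℕ), fun q => pow_pos ht _, ?_⟩
  intro C hC C' hC' hd hd' he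
  by_contra hne
  obtain ⟨q, hq⟩ := h.sgn_ne hC hC' hd hd' hne
  have h1 : ajP φ p u C C' ≠ 0 := by
    intro h2
    have h3 := ajP_coeff φ p u C C' q
    rw [h2, Polynomial.coeff_zero] at h3
    exact mul_ne_zero (sub_ne_zero.mpr hq) (hu q) h3.symm
  have h2 : (ajP φ p u C C').eval t = 0 := by
    rw [ajP_eval, he, sub_self]
  refine hQt ?_
  have h3 : Q.eval t = ∏ x ∈ S ×ˢ S,
      (if ajP φ p u x.1 x.2 = 0 then 1 else ajP φ p u x.1 x.2).eval t :=
    Polynomial.eval_prod _ _ _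
  rw [h3]
  refine Finset.prod_eq_zero (Finset.mem_product.mpr ⟨hC, hC'⟩ : (C, C') ∈ S ×ˢ S) ?_
  show Polynomial.eval t (if ajP φ p u C C' = 0 then 1 else ajP φ p u C C') = 0
  rw [if_neg h1, h2]

end Pool.Agent.MP19e880.AR
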