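import Pool.Agent.Lib.MP_19e880_co_AR.Fe

/-!
The h-polynomial.
-/

set_option autoImplicit false
set_option linter.unusedSectionVars false

open Finset Module

namespace Pool.Agent.MP19e880.AR

variable {d : ℕ} {V 𝒞 E : Type*} [Fintype V] [DecidableEq V] [Fintype 𝒞] [AddCommGroup E]
  [Module ℝ E]


open Polynomial in
open Classical in
private theorem fv_interval (A B : Finset V) (hAB : A ⊆ B) (d : ℕ) (hB : B.card = d) :
    ∑ σ ∈ Finset.univ.filter (fun σ : Finset V => A ⊆ σ ∧ σ ⊆ B),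
      (Polynomial.X : ℤ[X]) ^ σ.card * (1 - Polynomial.X) ^ (d - σ.card) =
      (Polynomial.X : ℤ[X]) ^ A.card := by
  have h1 : ∑ σ ∈ Finset.univ.filter (fun σ : Finset V => A ⊆ σ ∧ σ ⊆ B),
      (Polynomial.X : ℤ[X]) ^ σ.card * (1 - Polynomial.X) ^ (d - σ.card) =
      ∑ τ ∈ (B \ A).powerset, (Polynomial.X : ℤ[X]) ^ A.card *
        ((Polynomial.X : ℤ[X]) ^ τ.card * (1 - Polynomial.X) ^ ((B \ A).card - τ.card)) := by
    refine Finset.sum_bij' (fun σ _ => σ \ A) (fun τ _ => A ∪ τ) ?_ ?_ ?_ ?_ ?_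
    · intro σ hσ
      rw [Finset.mem_filter] at hσ
      rw [Finset.mem_powerset]
      exact Finset.sdiff_subset_sdiff hσ.2.2 (Finset.Subset.refl _)
    · intro τ hτ
      rw [Finset.mem_powerset] at hτ
      rw [Finset.mem_filter]
      exact ⟨Finset.mem_univ _, Finset.subset_union_left,
        Finset.union_subset hAB (hτ.trans Finset.sdiff_subset)⟩
    · intro σ hσ
      rw [Finset.mem_filter] at hσ
      exact Finset.union_sdiff_of_subset hσ.2.1
    · intro τ hτ
      rw [Finset.mem_powerset] at hτ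
      ext v
      simp only [Finset.mem_sdiff, Finset.mem_union]
      constructor
      · rintro ⟨h | h, h'⟩
        · exact absurd h h'
        · exact h
      · intro h
        exact ⟨Or.inr h, (Finset.mem_sdiff.1 (hτ h)).2⟩
    · intro σ hσ
      rw [Finset.mem_filter] at hσ
      have e1 := Finset.card_sdiff_of_subset hσ.2.1
      have e2 := Finset.card_sdiff_of_subset hAB
      have e3 := Finset.card_le_card hσ.2.1
      have e4 := Finset.card_le_card hσ.2.2
      rw [← mul_assoc, ← pow_add, e1, e2, hB]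
      congr 2
      · omega
      · omega
  rw [h1, ← Finset.mul_sum, Finset.sum_pow_mul_eq_add_pow]
  simp

open Polynomial in
open Classical in
private theorem fv_gen (S : Finset (Finset V)) (A B : 𝒞 → Finset V) (hAB : ∀ C, A C ⊆ B C)
    (hB : ∀ C, (B C).card = d) (hS : ∀ σ C, σ ⊆ B C → σ ∈ S)
    (hu : ∀ σ ∈ S, ∃ C, A C ⊆ σ ∧ σ ⊆ B C ∧ ∀ C', A C' ⊆ σ → σ ⊆ B C' → C' = C) :
    ∑ j ∈ Finset.range (d + 1), Polynomial.C (((S.filter (fun G => G.card = j)).card : ℕ) : ℤ)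
      * Polynomial.X ^ j * (1 - Polynomial.X) ^ (d - j) =
      ∑ C : 𝒞, (Polynomial.X : ℤ[X]) ^ (A C).card := by
  have hle : ∀ σ ∈ S, σ.card ≤ d := by
    intro σ hσ
    obtain ⟨C, _, h2, _⟩ := hu σ hσ
    rw [← hB C]
    exact Finset.card_le_card h2
  have h1 : ∑ j ∈ Finset.range (d + 1),
      Polynomial.C (((S.filter (fun G => G.card = j)).card : ℕ) : ℤ)
      * Polynomial.X ^ j * (1 - Polynomial.X) ^ (d - j) =
      ∑ σ ∈ S, (Polynomial.X : ℤ[X]) ^ σ.card * (1 - Polynomial.X) ^ (d - σ.card) := by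
    rw [← Finset.sum_fiberwise_of_maps_to (s := S) (t := Finset.range (d + 1))
      (g := fun σ : Finset V => σ.card)
      (fun σ hσ => Finset.mem_range.2 (Nat.lt_succ_of_le (hle σ hσ)))]
    refine Finset.sum_congr rfl fun j _ => ?_
    rw [Finset.sum_congr rfl (g := fun _ => (Polynomial.X : ℤ[X]) ^ j *
      (1 - Polynomial.X) ^ (d - j)) (fun σ hσ => by rw [(Finset.mem_filter.1 hσ).2])]
    rw [Finset.sum_const, nsmul_eq_mul, mul_assoc]
    simp
  rw [h1]
  have h2 : ∀ σ ∈ S, (Polynomial.X : ℤ[X]) ^ σ.card * (1 - Polynomial.X) ^ (d - σ.card) =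
      ∑ C : 𝒞, if A C ⊆ σ ∧ σ ⊆ B C then
        (Polynomial.X : ℤ[X]) ^ σ.card * (1 - Polynomial.X) ^ (d - σ.card) else 0 := by
    intro σ hσ
    obtain ⟨C, h3, h4, h5⟩ := hu σ hσ
    rw [Finset.sum_eq_single C]
    · rw [if_pos ⟨h3, h4⟩]
    · intro C' _ hne
      rw [if_neg]
      rintro ⟨h6, h7⟩
      exact hne (h5 C' h6 h7)
    · intro h
      exact absurd (Finset.mem_univ _) h
  rw [Finset.sum_congr rfl h2, Finset.sum_comm]
  refine Finset.sum_congr rfl fun C _ => ?_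
  rw [← fv_interval (A C) (B C) (hAB C) d (hB C), ← Finset.sum_filter]
  refine Finset.sum_congr ?_ fun _ _ => rfl
  ext σ
  rw [Finset.mem_filter, Finset.mem_filter]
  constructor
  · rintro ⟨_, h⟩
    exact ⟨Finset.mem_univ _, h⟩
  · rintro ⟨_, h⟩
    exact ⟨hS σ C h.2, h⟩

private theorem fv_ng_sub (Φ : NFan d V 𝒞 E) (C : 𝒞) : Φ.Ng C ⊆ Φ.F C := by
  unfold NFan.Ng
  exact Finset.filter_subset _ _

open Polynomial in
open Classical in
theorem hpoly {Φ : NFan d V 𝒞 E} (c : Conv Φ) (S : Finset (Finset V))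
    (hS : ∀ σ, σ ∈ S ↔ Φ.Face σ) :
    (∑ j ∈ Finset.range (d + 1), Polynomial.C (((S.filter (fun G => G.card = j)).card : ℕ) : ℤ)
      * Polynomial.X ^ j * (1 - Polynomial.X) ^ (d - j) =
      ∑ C : 𝒞, (Polynomial.X : ℤ[X]) ^ (Φ.Ng C).card) ∧
    (∑ j ∈ Finset.range (d + 1), Polynomial.C (((S.filter (fun G => G.card = j)).card : ℕ) : ℤ)
      * Polynomial.X ^ j * (1 - Polynomial.X) ^ (d - j) =
      ∑ C : 𝒞, (Polynomial.X : ℤ[X]) ^ (d - (Φ.Ng C).card)) := by
  constructor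
  · exact fv_gen S Φ.Ng Φ.F (fv_ng_sub Φ) Φ.card (fun σ C h => (hS σ).2 ⟨C, h⟩)
      (fun σ hσ => c.exists_unique_neg ((hS σ).1 hσ))
  · rw [fv_gen S (fun C => Φ.F C \ Φ.Ng C) Φ.F (fun C => Finset.sdiff_subset) Φ.card
      (fun σ C h => (hS σ).2 ⟨C, h⟩) (fun σ hσ => c.exists_unique_pos ((hS σ).1 hσ))]
    refine Finset.sum_congr rfl fun C _ => ?_
    rw [Finset.card_sdiff_of_subset (fv_ng_sub Φ C), Φ.card]

/-- The number of chambers with `k` negative coordinates is symmetric. -/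
theorem h_symm {Φ : NFan d V 𝒞 E} (c : Conv Φ) (S : Finset (Finset V))
    (hS : ∀ σ, σ ∈ S ↔ Φ.Face σ) (k : ℕ) (hk : k ≤ d) :
    (univ.filter (fun C : 𝒞 => (Φ.Ng C).card = k)).card =
      (univ.filter (fun C : 𝒞 => (Φ.Ng C).card = d - k)).card := by
  classical
  obtain ⟨h1, h2⟩ := hpoly c S hS
  have h3 := congrArg (fun P : Polynomial ℤ => P.coeff k) (h1.symm.trans h2)
  simp only [Polynomial.finsetSum_coeff, Polynomial.coeff_X_pow] at h3
  rw [Finset.sum_boole, Finset.sum_boole] at h3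
  have h4 : (univ.filter (fun C : 𝒞 => k = (Φ.Ng C).card)).card =
      (univ.filter (fun C : 𝒞 => k = d - (Φ.Ng C).card)).card := by exact_mod_cast h3
  have h5 : (univ.filter (fun C : 𝒞 => k = (Φ.Ng C).card)) =
      univ.filter (fun C : 𝒞 => (Φ.Ng C).card = k) := by
    ext C
    simp only [Finset.mem_filter, Finset.mem_univ, true_and]
    exact eq_comm
  have h6 : (univ.filter (fun C : 𝒞 => k = d - (Φ.Ng C).card)) =
      univ.filter (fun C : 𝒞 => (Φ.Ng C).card = d - k) := by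
    ext C
    simp only [Finset.mem_filter, Finset.mem_univ, true_and]
    have h7 := Finset.card_le_card (fv_ng_sub Φ C)
    rw [Φ.card] at h7
    omega
  rw [h5, h6] at h4
  exact h4

end Pool.Agent.MP19e880.AR
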