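import Pool.Agent.Lib.MP_19e880_co_AR.Dual

/-!
The ranks of the two pieces.
-/

set_option autoImplicit false
set_option linter.unusedSectionVars false

open Finset Module

namespace Pool.Agent.MP19e880.AR

variable {𝒞 : Type*} [Fintype 𝒞]

/-- Rank and nullity on a subspace. -/
private theorem dim_map (μ : (𝒞 → ℝ) →ₗ[ℝ] (𝒞 → ℝ)) (p : Submodule ℝ (𝒞 → ℝ)) :
    finrank ℝ (p.map μ) + finrank ℝ (p ⊓ LinearMap.ker μ : Submodule ℝ (𝒞 → ℝ)) =
      finrank ℝ p := by
  have h1 := LinearMap.finrank_range_add_finrank_ker (μ.domRestrict p)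
  rw [LinearMap.range_domRestrict, LinearMap.ker_domRestrict] at h1
  have h2 : finrank ℝ ((LinearMap.ker μ).comap p.subtype) =
      finrank ℝ (p ⊓ LinearMap.ker μ : Submodule ℝ (𝒞 → ℝ)) := by
    rw [← Submodule.finrank_map_subtype_eq p ((LinearMap.ker μ).comap p.subtype),
      Submodule.map_comap_subtype]
  rw [← h2]
  exact h1

private theorem rad_le_rad {d : ℕ} {K : ℕ → Submodule ℝ (𝒞 → ℝ)} {w N : 𝒞 → ℝ}
    (hN : ∀ i f, f ∈ K i → N * f ∈ K (i + 1)) (i : ℕ) :
    rad K w (d + 1) i ≤ rad K (w * N) d i := by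
  intro f hf
  refine ⟨hf.1, fun j hj g hg => ?_⟩
  rw [ip_mul_right]
  exact hf.2 (j + 1) (by omega) _ (hN j g hg)

/-- The radical of the first piece in degree zero. -/
private theorem rad_zero {d : ℕ} {K : ℕ → Submodule ℝ (𝒞 → ℝ)} {w N : 𝒞 → ℝ}
    (hN : ∀ i f, f ∈ K i → N * f ∈ K (i + 1)) :
    rad (rad K (w * N) d) w (d + 1) 0 = rad K w (d + 1) 0 := by
  apply le_antisymm
  · intro f hf
    refine ⟨hf.1.1, fun j hj g hg => hf.2 j hj g ⟨hg, fun j' hj' => ?_⟩⟩
    omega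
  · intro f hf
    exact ⟨rad_le_rad hN 0 hf, fun j hj g hg => hf.2 j hj g hg.1⟩

/-- The radical of the first piece in positive degree. -/
private theorem rad_succ {d : ℕ} {K : ℕ → Submodule ℝ (𝒞 → ℝ)} {w N : 𝒞 → ℝ}
    (hN : ∀ i f, f ∈ K i → N * f ∈ K (i + 1)) (hs : ∃ c : ℝ, ∀ C, N C * N C = c)
    (hlow : ∀ i j f g, f ∈ K i → g ∈ K j → i + j < d + 1 → ip w f g = 0) {i : ℕ}
    (hi : i < d + 1) :
    rad (rad K (w * N) d) w (d + 1) (i + 1) =
      rad K w (d + 1) (i + 1) ⊔ (K i).map (LinearMap.mulLeft ℝ N) := by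
  have hA : ∀ h ∈ K i, N * h ∈ rad K (w * N) d (i + 1) := by
    intro h hh
    refine ⟨hN i h hh, fun j hj g hg => ?_⟩
    obtain ⟨c, hc⟩ := hs
    have h1 : ip (w * N) (N * h) g = c * ip w h g := by
      rw [ip_apply, ip_apply, mul_sum]
      refine sum_congr rfl fun C _ => ?_
      rw [← hc C]
      simp only [Pi.mul_apply]
      ring
    rw [h1, hlow i j h g hh hg (by omega), mul_zero]
  apply le_antisymm
  · intro f hf
    refine double_ann (d := d + 1) (i := i + 1) (j := d - i) (w := w) (by omega) ?_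
      le_sup_left hf.1.1 ?_
    · refine sup_le (rad_le K w (d + 1) (i + 1)) ?_
      rintro _ ⟨h, hh, rfl⟩
      exact hN i h hh
    · intro g hg hB
      refine hf.2 (d - i) (by omega) g ⟨hg, fun j hj h hh => ?_⟩
      have hji : j = i := by omega
      rw [hji] at hh
      rw [ip_mul_right, ip_comm]
      exact hB _ (Submodule.mem_sup_right ⟨h, hh, rfl⟩)
  · refine sup_le ?_ ?_
    · intro f hf
      exact ⟨rad_le_rad hN _ hf, fun j hj g hg => hf.2 j hj g hg.1⟩
    · rintro _ ⟨h, hh, rfl⟩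
      refine ⟨hA h hh, fun j hj a ha => ?_⟩
      show ip w (N * h) a = 0
      rw [← ip_mul_left, ip_comm]
      exact ha.2 i (by omega) h hh

/-- `K` is the sum of the kernel of `N` modulo its image and of two copies of the image of `N`. -/
theorem rk_split {d : ℕ} {K : ℕ → Submodule ℝ (𝒞 → ℝ)} {w N : 𝒞 → ℝ}
    (hN : ∀ i f, f ∈ K i → N * f ∈ K (i + 1)) (hs : ∃ c : ℝ, ∀ C, N C * N C = c)
    (hlow : ∀ i j f g, f ∈ K i → g ∈ K j → i + j < d + 1 → ip w f g = 0) :
    (rk K w (d + 1) 0 = rk (rad K (w * N) d) w (d + 1) 0 + rk K (w * N) d 0) ∧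
    (∀ i, i < d + 1 → rk K w (d + 1) (i + 1) =
      rk (rad K (w * N) d) w (d + 1) (i + 1) + rk K (w * N) d (i + 1) + rk K (w * N) d i) := by
  have hmono : ∀ {p q : Submodule ℝ (𝒞 → ℝ)}, p ≤ q → finrank ℝ p ≤ finrank ℝ q :=
    fun h => Submodule.finrank_mono h
  constructor
  · unfold rk
    rw [rad_zero hN]
    have h1 := hmono (rad_le_rad (d := d) (w := w) hN 0)
    have h2 := hmono (rad_le K (w * N) d 0)
    omega
  · intro i hi
    unfold rk
    set μ : (𝒞 → ℝ) →ₗ[ℝ] (𝒞 → ℝ) := LinearMap.mulLeft ℝ N with hμ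
    have h0 := rad_succ hN hs hlow hi
    have h1 := hmono (rad_le (rad K (w * N) d) w (d + 1) (i + 1))
    have h2 := hmono (rad_le K (w * N) d (i + 1))
    have h3 := hmono (rad_le K (w * N) d i)
    have h4 : finrank ℝ (rad K w (d + 1) (i + 1)) ≤
        finrank ℝ (rad (rad K (w * N) d) w (d + 1) (i + 1)) := by
      rw [h0]
      exact hmono le_sup_left
    -- the intersection
    have h5 : rad K w (d + 1) (i + 1) ⊓ (K i).map μ = (rad K (w * N) d i).map μ := by
      apply le_antisymm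
      · rintro _ ⟨hx, h, hh, rfl⟩
        refine ⟨h, ⟨hh, fun j hj g hg => ?_⟩, rfl⟩
        rw [ip_mul_left]
        exact hx.2 j (by omega) g hg
      · rintro _ ⟨h, hh, rfl⟩
        refine ⟨⟨hN i h hh.1, fun j hj g hg => ?_⟩, ⟨h, hh.1, rfl⟩⟩
        show ip w (N * h) g = 0
        rw [← ip_mul_left]
        exact hh.2 j (by omega) g hg
    have h6 : rad K (w * N) d i ⊓ LinearMap.ker μ = K i ⊓ LinearMap.ker μ := by
      apply le_antisymm
      · exact inf_le_inf_right _ (rad_le K (w * N) d i)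
      · rintro h ⟨hh, hk⟩
        refine ⟨⟨hh, fun j hj g hg => ?_⟩, hk⟩
        have h7 : N * h = 0 := hk
        rw [ip_mul_left, h7, LinearMap.map_zero₂]
    have h7 := Submodule.finrank_sup_add_finrank_inf_eq (rad K w (d + 1) (i + 1)) ((K i).map μ)
    rw [h5, ← h0] at h7
    have h8 := dim_map μ (K i)
    have h9 := dim_map μ (rad K (w * N) d i)
    rw [h6] at h9
    omega

end Pool.Agent.MP19e880.AR
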