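import Pool.Agent.Lib.MP_19e880_co_AR.TwoC
import Pool.Agent.Lib.MP_19e880_co_AR.RkSplit

/-!
Operators with square zero: nonnegativity of the gamma coefficients.
-/

set_option autoImplicit false
set_option linter.unusedSectionVars false

open Finset Module

namespace Pool.Agent.MP19e880.AR

variable {𝒞 : Type*} [Fintype 𝒞]

theorem Sys.two {d n : ℕ} {K : ℕ → Submodule ℝ (𝒞 → ℝ)} {w : 𝒞 → ℝ} {N : Fin (n + 1) → 𝒞 → ℝ}
    (h : Sys (d + 1) (n + 1) K w N) (a : Fin n → ℝ) (ha : ∀ q, 0 < a q) :
    Two d K w (N 0) (∑ q, a q • N q.succ) where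
  mulN := fun i f hf => h.mul 0 i f hf
  mulL := by
    intro i f hf
    rw [Finset.sum_mul]
    refine (K (i + 1)).sum_mem (fun q _ => ?_)
    rw [smul_mul_assoc]
    exact (K (i + 1)).smul_mem _ (h.mul _ i f hf)
  sq := h.sq 0
  low := h.low
  hr := by
    intro s hs i
    have h1 := h.hr (Fin.cons s a) (fun q => by
      refine Fin.cases ?_ (fun r => ?_) q
      · simpa using hs
      · simpa using ha r) i
    rw [Fin.sum_univ_succ] at h1
    simpa using h1

/-- The quotient by the kernel of the first operator. -/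
theorem Sys.one {d n : ℕ} {K : ℕ → Submodule ℝ (𝒞 → ℝ)} {w : 𝒞 → ℝ} {N : Fin (n + 1) → 𝒞 → ℝ}
    (h : Sys (d + 1) (n + 1) K w N) : Sys d n K (w * N 0) (fun q => N q.succ) where
  mul := fun q i f hf => h.mul q.succ i f hf
  sq := fun q => h.sq q.succ
  low := by
    intro i j f g hf hg hij
    rw [ip_mul_left]
    exact h.low (i + 1) j _ g (h.mul 0 i f hf) hg (by omega)
  hr := fun a ha i => (h.two a ha).one i

/-- The kernel of the first operator modulo its image. -/
theorem Sys.zero {d n : ℕ} {K : ℕ → Submodule ℝ (𝒞 → ℝ)} {w : 𝒞 → ℝ} {N : Fin (n + 1) → 𝒞 → ℝ}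
    (h : Sys (d + 1) (n + 1) K w N) :
    Sys (d + 1) n (rad K (w * N 0) d) w (fun q => N q.succ) where
  mul := by
    intro q i f hf
    refine ⟨h.mul q.succ i f hf.1, fun j hj g hg => ?_⟩
    have h1 : ip (w * N 0) (N q.succ * f) g = ip (w * N 0) f (N q.succ * g) := by
      rw [← ip_mul_left, ← ip_mul_right]
    rw [h1]
    exact hf.2 (j + 1) (by omega) _ (h.mul q.succ j g hg)
  sq := fun q => h.sq q.succ
  low := fun i j f g hf hg hij => h.low i j f g hf.1 hg.1 hij
  hr := fun a ha i => (h.two a ha).zero i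

theorem star_rk_zero {K : ℕ → Submodule ℝ (𝒞 → ℝ)} {w : 𝒞 → ℝ} {d i : ℕ}
    (h : K i ≤ rad K w d i) : rk K w d i = 0 := by
  rw [rk, le_antisymm (rad_le K w d i) h, Nat.sub_self]

theorem star (n : ℕ) : ∀ (d : ℕ) (K : ℕ → Submodule ℝ (𝒞 → ℝ)) (w : 𝒞 → ℝ)
    (N : Fin n → 𝒞 → ℝ), Sys d n K w N →
    ∃ γ : ℕ → ℕ, (∀ j, d < 2 * j → γ j = 0) ∧
      ∀ i, i ≤ d → rk K w d i = ∑ j ∈ range (i + 1), γ j * (d - 2 * j).choose (i - j) := by
  induction n with
  | zero =>
    intro d K w N h
    have h0 : ∀ i, 2 * i < d → rk K w d i = 0 := by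
      intro i hi
      refine star_rk_zero (fun f hf => ?_)
      obtain ⟨m, hm⟩ : ∃ m, 2 * i + (m + 1) = d := ⟨d - 2 * i - 1, by omega⟩
      have h1 := h.hr (fun _ => 1) (fun _ => one_pos) i (m + 1) hm f hf
      have h2 : (∑ q : Fin 0, (fun _ => (1 : ℝ)) q • N q) = 0 := by simp
      rw [h2] at h1
      have h3 : ∀ (k : ℕ) (g : 𝒞 → ℝ), ip (w * 0 ^ (k + 1)) f g = 0 := by
        intro k g
        rw [zero_pow (Nat.succ_ne_zero k), mul_zero, ip_zero_weight]
      exact (h1 (fun j _ g _ => h3 (m + 1) g)).2 (h3 m f)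
    have h0' : ∀ i, i ≤ d → 2 * i ≠ d → rk K w d i = 0 := by
      intro i hi hne
      rcases lt_or_gt_of_ne hne with h1 | h1
      · exact h0 i h1
      · rw [rk_symm K w (show i + (d - i) = d by omega)]
        exact h0 _ (by omega)
    refine ⟨fun j => if 2 * j = d then rk K w d j else 0, fun j hj => if_neg (by omega), ?_⟩
    intro i hi
    beta_reduce
    by_cases h1 : 2 * i = d
    · rw [Finset.sum_eq_single i]
      · rw [if_pos h1, Nat.sub_self, Nat.choose_zero_right, mul_one]
      · intro j _ hj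
        rw [if_neg (by omega), zero_mul]
      · intro h2
        exact absurd (Finset.mem_range.mpr (Nat.lt_succ_self i)) h2
    · rw [h0' i hi h1]
      symm
      refine Finset.sum_eq_zero (fun j hj => ?_)
      rw [Finset.mem_range] at hj
      by_cases h2 : 2 * j = d
      · rw [h2, Nat.sub_self, Nat.choose_eq_zero_of_lt (by omega), mul_zero]
      · rw [if_neg h2, zero_mul]
  | succ n ih =>
    intro d K w N h
    cases d with
    | zero =>
      refine ⟨fun j => if j = 0 then rk K w 0 0 else 0, fun j hj => if_neg (by omega), ?_⟩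
      intro i hi
      obtain rfl : i = 0 := by omega
      simp
    | succ d =>
      obtain ⟨γ0, h01, h02⟩ := ih (d + 1) _ w _ h.zero
      obtain ⟨γ1, h11, h12⟩ := ih d K (w * N 0) _ h.one
      have hs := rk_split (d := d) (K := K) (w := w) (N := N 0)
        (fun i f hf => h.mul 0 i f hf) (h.sq 0) h.low
      have h13 : ∀ i, i ≤ d + 1 → rk K (w * N 0) d i =
          ∑ j ∈ range (i + 1), γ1 j * (d - 2 * j).choose (i - j) := by
        intro i hi
        rcases Nat.lt_or_ge d i with h1 | h1
        · rw [star_rk_zero (fun f hf => ⟨hf, fun j hj => by omega⟩)]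
          symm
          refine Finset.sum_eq_zero (fun j hj => ?_)
          rw [Finset.mem_range] at hj
          rcases Nat.lt_or_ge d (2 * j) with h2 | h2
          · rw [h11 j h2, zero_mul]
          · rw [Nat.choose_eq_zero_of_lt (by omega), mul_zero]
        · exact h12 i h1
      refine ⟨fun j => γ0 j + γ1 j, fun j hj => ?_, ?_⟩
      · show γ0 j + γ1 j = 0
        rw [h01 j hj, h11 j (by omega)]
      · intro i hi
        cases i with
        | zero =>
          rw [hs.1, h02 0 (by omega), h13 0 (by omega)]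
          simp
        | succ i =>
          rw [hs.2 i (by omega), h02 (i + 1) hi, h13 (i + 1) hi, h13 i (by omega)]
          rw [Finset.sum_range_succ _ (i + 1), Finset.sum_range_succ _ (i + 1),
            Finset.sum_range_succ _ (i + 1)]
          rw [Nat.sub_self, Nat.choose_zero_right, Nat.choose_zero_right]
          have h3 : ∑ j ∈ range (i + 1), (γ0 j + γ1 j) * (d + 1 - 2 * j).choose (i + 1 - j) =
              ∑ j ∈ range (i + 1), γ0 j * (d + 1 - 2 * j).choose (i + 1 - j) +
              (∑ j ∈ range (i + 1), γ1 j * (d - 2 * j).choose (i + 1 - j) +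
              ∑ j ∈ range (i + 1), γ1 j * (d - 2 * j).choose (i - j)) := by
            rw [← Finset.sum_add_distrib, ← Finset.sum_add_distrib]
            refine Finset.sum_congr rfl (fun j hj => ?_)
            rw [Finset.mem_range] at hj
            rcases Nat.lt_or_ge d (2 * j) with h2 | h2
            · rw [h11 j h2]
              ring
            · have h4 : d + 1 - 2 * j = (d - 2 * j) + 1 := by omega
              have h5 : i + 1 - j = (i - j) + 1 := by omega
              rw [h4, h5, Nat.choose_succ_succ]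
              ring
          rw [h3]
          ring

end Pool.Agent.MP19e880.AR
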