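import Pool.Agent.Lib.MP_19e880_co_AR.Ft
import Pool.Agent.Lib.MP_19e880_co_AR.Fu
import Pool.Agent.Lib.MP_19e880_co_AR.Fv
import Pool.Agent.Lib.MP_19e880_co_AR.Star

/-!
The gamma vector of a fan with square zero classes.
-/

set_option autoImplicit false
set_option linter.unusedSectionVars false

open Finset Module

namespace Pool.Agent.MP19e880.AR

variable {d : ℕ} {V 𝒞 E : Type*} [Fintype V] [DecidableEq V] [Fintype 𝒞] [AddCommGroup E]
  [Module ℝ E]

open Polynomial in
theorem gam_coeff (a : ℤ) (j n i : ℕ) :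
    (Polynomial.C a * (Polynomial.X : ℤ[X]) ^ j * (1 + Polynomial.X) ^ n).coeff i =
      if j ≤ i then a * ((n.choose (i - j) : ℕ) : ℤ) else 0 := by
  rw [mul_assoc, coeff_C_mul, coeff_X_pow_mul', coeff_one_add_X_pow]
  split_ifs <;> simp

theorem gam_unique (d : ℕ) (γ γ' : ℕ → ℤ)
    (h : ∀ i, i ≤ d / 2 → ∑ j ∈ range (i + 1), γ j * (((d - 2 * j).choose (i - j) : ℕ) : ℤ) =
      ∑ j ∈ range (i + 1), γ' j * (((d - 2 * j).choose (i - j) : ℕ) : ℤ)) :
    ∀ i, i ≤ d / 2 → γ i = γ' i := by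
  intro i
  induction i using Nat.strong_induction_on with
  | _ i ih =>
    intro hi
    have h1 := h i hi
    rw [sum_range_succ, sum_range_succ] at h1
    have h2 : ∑ j ∈ range i, γ j * (((d - 2 * j).choose (i - j) : ℕ) : ℤ) =
        ∑ j ∈ range i, γ' j * (((d - 2 * j).choose (i - j) : ℕ) : ℤ) := by
      refine sum_congr rfl (fun j hj => ?_)
      rw [mem_range] at hj
      rw [ih j hj (by omega)]
    rw [h2, Nat.sub_self, Nat.choose_zero_right] at h1
    simpa using h1

theorem gam_card_succ (f : 𝒞 → ℕ) (i : ℕ) :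
    (univ.filter (fun C : 𝒞 => f C ≤ i + 1)).card =
      (univ.filter (fun C : 𝒞 => f C ≤ i)).card +
        (univ.filter (fun C : 𝒞 => f C = i + 1)).card := by
  classical
  rw [← Finset.card_union_of_disjoint]
  · congr 1
    ext C
    simp only [mem_filter, mem_univ, true_and, mem_union]
    omega
  · rw [Finset.disjoint_filter]
    intro C _ h1 h2
    omega

theorem gam_card_succ' (f : 𝒞 → ℕ) {d i : ℕ} (hi : i ≤ d) :
    (univ.filter (fun C : 𝒞 => d < f C + (i + 1))).card =
      (univ.filter (fun C : 𝒞 => d < f C + i)).card +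
        (univ.filter (fun C : 𝒞 => f C = d - i)).card := by
  classical
  rw [← Finset.card_union_of_disjoint]
  · congr 1
    ext C
    simp only [mem_filter, mem_univ, true_and, mem_union]
    omega
  · rw [Finset.disjoint_filter]
    intro C _ h1 h2
    omega

theorem gam_h {Φ : NFan d V 𝒞 E} (c : Conv Φ) (S : Finset (Finset V))
    (hS : ∀ σ, σ ∈ S ↔ Φ.Face σ) (i : ℕ) (hi : i ≤ d) :
    ((univ.filter (fun C => (Φ.Ng C).card ≤ i)).card : ℤ) -
      ((univ.filter (fun C => d < (Φ.Ng C).card + i)).card : ℤ) =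
      ((univ.filter (fun C : 𝒞 => (Φ.Ng C).card = i)).card : ℤ) := by
  induction i with
  | zero =>
    have h1 : (univ.filter (fun C : 𝒞 => d < (Φ.Ng C).card + 0)) = ∅ := by
      rw [Finset.filter_eq_empty_iff]
      intro C _
      have h2 : (Φ.Ng C).card ≤ d := by
        refine le_trans (Finset.card_le_card ?_) (Φ.card C).le
        classical exact Finset.filter_subset _ _
      omega
    rw [h1, Finset.card_empty]
    have h3 : (univ.filter (fun C : 𝒞 => (Φ.Ng C).card ≤ 0)) =
        univ.filter (fun C : 𝒞 => (Φ.Ng C).card = 0) := by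
      refine Finset.filter_congr (fun C _ => ?_)
      omega
    rw [h3]
    simp
  | succ i ih =>
    have h1 := ih (by omega)
    rw [gam_card_succ, gam_card_succ' _ (show i ≤ d by omega),
      ← h_symm c S hS i (by omega)]
    push_cast
    linarith

open Polynomial in
theorem gamma_fan {Φ : NFan d V 𝒞 E} (c0 : Conv Φ) (hinj : Function.Injective c0.LL)
    (hne : Φ.Face ∅) (S : Finset (Finset V)) (hS : ∀ σ, σ ∈ S ↔ Φ.Face σ) {n : ℕ}
    (N : Fin n → 𝒞 → ℝ) (hN : ∀ q, N q ∈ Φ.Vj 1) (hs : ∀ q, ∃ k : ℝ, ∀ C, N q C * N q C = k)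
    (hc : ∀ a : Fin n → ℝ, (∀ q, 0 < a q) → ∃ c : Conv Φ, ∀ C, c.LL C = ∑ q, a q * N q C)
    (γ : ℕ → ℤ)
    (hγ : ∑ j ∈ Finset.range (d + 1),
      Polynomial.C (((S.filter (fun G => G.card = j)).card : ℕ) : ℤ)
        * Polynomial.X ^ j * (1 - Polynomial.X) ^ (d - j)
      = ∑ i ∈ Finset.range (d / 2 + 1),
        Polynomial.C (γ i) * Polynomial.X ^ i * (1 + Polynomial.X) ^ (d - 2 * i)) :
    ∀ i : ℕ, i ≤ d / 2 → 0 ≤ γ i := by
  have hsys : Sys d n Φ.Vj (Φ.wU ∅ univ) N := {
    mul := fun q i f hf => by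
      have h1 := Φ.mul_mem (hN q) hf
      rwa [add_comm] at h1
    sq := hs
    low := by
      intro i j f g hf hg hij
      have h1 := Φ.low (σ := ∅) (e := d) (i := i) (j := j) (m := 0) (by simp) (U := univ)
        (fun _ _ => mem_univ _) hf hg (Φ.one_mem 0) (by omega)
      rwa [mul_one] at h1
    hr := by
      intro a ha i m hm
      obtain ⟨c, hc'⟩ := hc a ha
      have h1 := hr_full c0 hinj d ∅ (by simp) hne c i (by omega) 0 m hm
      have h2 : c.lt 0 = ∑ q, a q • N q := by
        funext C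
        simp [Conv.lt, hc' C]
      rw [h2] at h1
      exact h1 }
  obtain ⟨γ', -, h2⟩ := star n d Φ.Vj (Φ.wU ∅ univ) N hsys
  have h3 : ∀ i, i ≤ d / 2 → γ i = (γ' i : ℤ) := by
    refine gam_unique d γ (fun j => (γ' j : ℤ)) (fun i hi => ?_)
    have h4 : (rk Φ.Vj (Φ.wU ∅ univ) d i : ℤ) =
        ((univ.filter (fun C : 𝒞 => (Φ.Ng C).card = i)).card : ℤ) := by
      rw [rk_full c0 hinj hne (by omega)]
      exact gam_h c0 S hS i (by omega)
    rw [h2 i (by omega)] at h4
    push_cast at h4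
    rw [h4]
    have h5 := congrArg (fun q : ℤ[X] => q.coeff i) ((hpoly c0 S hS).1.symm.trans hγ)
    simp only [Polynomial.finsetSum_coeff, gam_coeff, Polynomial.coeff_X_pow] at h5
    rw [Finset.sum_boole] at h5
    have h6 : ∑ j ∈ range (d / 2 + 1), (if j ≤ i then
        γ j * (((d - 2 * j).choose (i - j) : ℕ) : ℤ) else 0) =
        ∑ j ∈ range (i + 1), γ j * (((d - 2 * j).choose (i - j) : ℕ) : ℤ) := by
      rw [← Finset.sum_filter]
      refine Finset.sum_congr ?_ (fun _ _ => rfl)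
      ext j
      simp only [mem_filter, mem_range]
      omega
    rw [h6] at h5
    rw [← h5]
    congr 2
    ext C
    simp only [mem_filter, mem_univ, true_and]
    exact eq_comm
  intro i hi
  rw [h3 i hi]
  positivity

end Pool.Agent.MP19e880.AR
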