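import Pool.Agent.Lib.MP_19e880_co_AR.Ah
import Pool.Agent.Lib.MP_19e880_co_AR.Ai
import Pool.Agent.Lib.MP_19e880_co_AR.Aj
import Pool.Agent.Lib.MP_19e880_co_AR.Gam

/-!
The theorem for simplicial arrangements.
-/

set_option autoImplicit false
set_option linter.unusedSectionVars false

open Finset Module

namespace Pool.Agent.MP19e880.AR

variable {V ι E : Type*} [Fintype V] [DecidableEq V] [Fintype ι] [AddCommGroup E] [Module ℝ E]
  [FiniteDimensional ℝ E] {φ : ι → E →ₗ[ℝ] ℝ} {p : V → E} {S : Finset (Finset V)}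

open Polynomial in
theorem arr_gamma (h : IsArr φ p S) {d : ℕ} (hd : finrank ℝ E = d) (γ : ℕ → ℤ)
    (hγ : ∑ j ∈ Finset.range (d + 1),
      Polynomial.C (((S.filter (fun G => G.card = j)).card : ℕ) : ℤ)
        * Polynomial.X ^ j * (1 - Polynomial.X) ^ (d - j)
      = ∑ i ∈ Finset.range (d / 2 + 1),
        Polynomial.C (γ i) * Polynomial.X ^ i * (1 + Polynomial.X) ^ (d - 2 * i)) :
    ∀ i : ℕ, i ≤ d / 2 → 0 ≤ γ i := by
  classical
  obtain ⟨Φ, hF, hp, hu⟩ := h.exists_fan hd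
  obtain ⟨a, ha, ha'⟩ := h.exists_coefficients hu
  obtain ⟨c0, hc0⟩ := h.exists_conv hd hF hp a ha
  have hinj : Function.Injective c0.LL := by
    intro C C' hCC
    rw [hc0, hc0] at hCC
    exact Subtype.ext (ha' C.1 C.2.1 C'.1 C'.2.1 (C.2.2.trans hd.symm) (C'.2.2.trans hd.symm) hCC)
  have hS : ∀ σ, σ ∈ S ↔ Φ.Face σ := by
    intro σ
    constructor
    · intro hσ
      obtain ⟨C, hC, hσC, hCd⟩ := h.exists_chamber hσ
      exact ⟨⟨C, hC, hCd.trans hd⟩, by rw [hF]; exact hσC⟩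
    · rintro ⟨C, hC⟩
      rw [hF] at hC
      exact h.down C.1 C.2.1 σ hC
  have hne : Φ.Face ∅ := by
    obtain ⟨F, hF', -⟩ := h.cover 0
    exact (hS ∅).mp (h.down F hF' ∅ (Finset.empty_subset _))
  let e := Fintype.equivFin ι
  refine gamma_fan c0 hinj hne S hS (n := Fintype.card ι)
    (fun q C => sgn φ p C.1 (e.symm q) * φ (e.symm q) Φ.u) ?_ ?_ ?_ γ hγ
  · intro q
    exact h.N_mem hd hF hp (e.symm q)
  · intro q
    refine ⟨φ (e.symm q) Φ.u * φ (e.symm q) Φ.u, fun C => ?_⟩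
    have h1 := h.sgn_sq C.2.1 (C.2.2.trans hd.symm) (e.symm q)
    linear_combination (φ (e.symm q) Φ.u) ^ 2 * h1
  · intro b hb
    obtain ⟨c, hc⟩ := h.exists_conv hd hF hp (fun i => b (e i)) (fun i => hb _)
    refine ⟨c, fun C => ?_⟩
    rw [hc C]
    exact Fintype.sum_equiv e _ _ (fun i => by simp)

end Pool.Agent.MP19e880.AR
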