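import Pool.Agent.Lib.MP_19e880_co_AR.Fa

/-!
Convex combinations of strictly convex functions.
-/

set_option autoImplicit false
set_option linter.unusedSectionVars false

open Finset Module

namespace Pool.Agent.MP19e880.AR

variable {d : ℕ} {V 𝒞 E : Type*} [Fintype V] [DecidableEq V] [Fintype 𝒞] [AddCommGroup E]
  [Module ℝ E]


/-- A convex combination. -/
def Conv.comb {Φ : NFan d V 𝒞 E} (c0 c1 : Conv Φ) (s : ℝ) (h0 : 0 ≤ s) (h1 : s ≤ 1) :
    Conv Φ where
  ω := fun v => (1 - s) * c0.ω v + s * c1.ω v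
  y := fun C => (1 - s) • c0.y C + s • c1.y C
  y_eq := by
    intro C v hv
    simp only [LinearMap.add_apply, LinearMap.smul_apply, smul_eq_mul]
    rw [c0.y_eq C v hv, c1.y_eq C v hv]
  y_lt := by
    intro C C' v hv hv'
    simp only [LinearMap.add_apply, LinearMap.smul_apply, smul_eq_mul]
    have h2 := c0.y_lt C C' v hv hv'
    have h3 := c1.y_lt C C' v hv hv'
    rcases h0.eq_or_lt with h4 | h4
    · rw [← h4]
      simpa using h2
    · have h5 := mul_lt_mul_of_pos_left h3 h4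
      have h6 := mul_le_mul_of_nonneg_left h2.le (sub_nonneg.mpr h1)
      linarith

theorem Conv.comb_LL {Φ : NFan d V 𝒞 E} (c0 c1 : Conv Φ) (s : ℝ) (h0 : 0 ≤ s) (h1 : s ≤ 1)
    (C : 𝒞) : (Conv.comb c0 c1 s h0 h1).LL C = (1 - s) * c0.LL C + s * c1.LL C := by
  simp only [Conv.LL, Conv.comb, LinearMap.add_apply, LinearMap.smul_apply, smul_eq_mul]

end Pool.Agent.MP19e880.AR
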