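import Pool.Agent.Lib.MP_19e880_co_AR.Fs
import Pool.Agent.Lib.MP_19e880_co_AR.Cmb

/-!
The Hodge-Riemann relations for all strictly convex functions.
-/

set_option autoImplicit false
set_option linter.unusedSectionVars false

open Finset Module

namespace Pool.Agent.MP19e880.AR

variable {d : ℕ} {V 𝒞 E : Type*} [Fintype V] [DecidableEq V] [Fintype 𝒞] [AddCommGroup E]
  [Module ℝ E]

/-- The indices for the generic function. -/
private theorem ft_c0 {Φ : NFan d V 𝒞 E} (c0 : Conv Φ) (hinj : Function.Injective c0.LL)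
    {e : ℕ} {σ : Finset V} (he : σ.card + e = d) (hσ : Φ.Face σ) {i m : ℕ} (hm : 2 * i + m = e)
    (t : ℝ) (s : ℤ) (hs : s = 1 ∨ s = -1) :
    (sIdx s (ip (Φ.wU σ univ * c0.lt t ^ m)) (Φ.Vj i) : ℤ) = phi Φ σ e i univ s := by
  refine idx_adm hinj he hm (fun _ U t hA => ?_) (Or.inl fun C _ => mem_univ C) s hs
  intro f hf
  rw [mem_radB] at hf
  exact HR.hl (sg_all hinj e σ he hσ i (by omega) U t hA) hm (fun i f hf => c0.lt_mul_mem t hf)
    hf.1 hf.2

/-- The family of forms between two strictly convex functions. -/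
private noncomputable def ftB {Φ : NFan d V 𝒞 E} (c0 c : Conv Φ) (σ : Finset V) (m : ℕ) (t : ℝ)
    (r : ℝ) : LinearMap.BilinForm ℝ (𝒞 → ℝ) :=
  ip (Φ.wU σ univ * (fun C => (1 - r) * c0.LL C + r * c.LL C - t) ^ m)

private theorem ft_idx {Φ : NFan d V 𝒞 E} (c0 : Conv Φ) (hinj : Function.Injective c0.LL)
    {e : ℕ} {σ : Finset V} (he : σ.card + e = d) (hσ : Φ.Face σ)
    (hA : ∀ (c : Conv Φ) (i m : ℕ), 2 * i + m = e → ∀ t,
      radB (ip (Φ.wU σ univ * c.lt t ^ m)) (Φ.Vj i) ≤ rad Φ.Vj (Φ.wU σ univ) e i)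
    (c : Conv Φ) {i m : ℕ} (hm : 2 * i + m = e) (t : ℝ) (s : ℤ) (hs : s = 1 ∨ s = -1) :
    (sIdx s (ip (Φ.wU σ univ * c.lt t ^ m)) (Φ.Vj i) : ℤ) = phi Φ σ e i univ s := by
  have hB : ∀ r x y, ftB c0 c σ m t r x y = ftB c0 c σ m t r y x := fun r x y => ip_comm _ _ _
  have hc : ∀ x y, Continuous (fun r => ftB c0 c σ m t r x y) := by
    intro x y
    simp only [ftB, ip_apply, Pi.mul_apply, Pi.pow_apply]
    fun_prop
  have hr : ∀ r ∈ Set.Icc (0:ℝ) 1, rkB (ftB c0 c σ m t r) (Φ.Vj i) =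
      rk Φ.Vj (Φ.wU σ univ) e i := by
    rintro r ⟨h0, h1⟩
    have h2 : (fun C => (1 - r) * c0.LL C + r * c.LL C - t) = (Conv.comb c0 c r h0 h1).lt t := by
      funext C
      simp only [Conv.lt, Conv.comb_LL]
    rw [ftB, h2]
    exact rkB_eq_rk hm (hA _ i m hm t)
  have h1 := sIdx_const (ftB c0 c σ m t) hB hc (Φ.Vj i) (S := Set.Icc (0:ℝ) 1)
    isPreconnected_Icc hr s hs (t := 1) (t' := 0) ⟨zero_le_one, le_rfl⟩ ⟨le_rfl, zero_le_one⟩
  have h2 : ftB c0 c σ m t 1 = ip (Φ.wU σ univ * c.lt t ^ m) := by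
    rw [ftB]
    congr 3
    funext C
    simp only [Conv.lt]
    ring
  have h3 : ftB c0 c σ m t 0 = ip (Φ.wU σ univ * c0.lt t ^ m) := by
    rw [ftB]
    congr 3
    funext C
    simp only [Conv.lt]
    ring
  rw [h2, h3] at h1
  rw [h1]
  exact ft_c0 c0 hinj he hσ hm t s hs

private theorem ft_step {Φ : NFan d V 𝒞 E} (c0 : Conv Φ) (hinj : Function.Injective c0.LL)
    {e : ℕ} {σ : Finset V} (he : σ.card + e = d) (hσ : Φ.Face σ)
    (hA : ∀ (c : Conv Φ) (i m : ℕ), 2 * i + m = e → ∀ t,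
      radB (ip (Φ.wU σ univ * c.lt t ^ m)) (Φ.Vj i) ≤ rad Φ.Vj (Φ.wU σ univ) e i)
    (c : Conv Φ) (i : ℕ) (t : ℝ) : HRx Φ c σ e i univ t :=
  hr_of_idx he (fun _ hm s hs => ft_idx c0 hinj he hσ hA c hm t s hs)
    (fun _ _ _ hm s hs => ft_idx c0 hinj he hσ hA c hm t s hs) (fun m hm => hA c i m hm t)

theorem hr_full {Φ : NFan d V 𝒞 E} (c0 : Conv Φ) (hinj : Function.Injective c0.LL) :
    ∀ (e : ℕ) (σ : Finset V), σ.card + e = d → Φ.Face σ → ∀ (c : Conv Φ) (i : ℕ),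
      2 * i ≤ e → ∀ t, HRx Φ c σ e i univ t := by
  intro e
  induction e with
  | zero =>
    intro σ he hσ c i _ t
    refine ft_step c0 hinj he hσ (fun c i m hm t => ?_) c i t
    obtain rfl : m = 0 := by omega
    exact radB_mid (by omega) univ t
  | succ e ih =>
    intro σ he hσ c i _ t
    refine ft_step c0 hinj he hσ (fun c i m hm t => ?_) c i t
    rcases m with _ | m
    · exact radB_mid (by omega) univ t
    · refine hl_full hσ he hm t (fun C _ => mem_univ C) (fun v hv hf t' => ?_)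
      refine ih (insert v σ) ?_ hf c i (by omega) t'
      rw [Finset.card_insert_of_notMem hv]
      omega

end Pool.Agent.MP19e880.AR
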