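import Mathlib

/-!
The h-polynomials of the links, gamma nonnegative polynomials, subdivision of an edge.
-/

set_option autoImplicit false
set_option linter.unusedSectionVars false

open Finset Module

namespace Pool.Agent.MP19e880.AR

open Polynomial in
/-- The h-polynomial of the link of `σ` in the complex `S` of dimension `d - 1`. -/
noncomputable def hl {V : Type*} [DecidableEq V] (S : Finset (Finset V)) (d : ℕ)
    (σ : Finset V) : ℤ[X] :=
  ∑ G ∈ S.filter (fun G => σ ⊆ G), (X : ℤ[X]) ^ (G.card - σ.card) * (1 - X) ^ (d - G.card)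

open Polynomial in
/-- `P` is a nonnegative combination of the polynomials `X ^ j (1 + X) ^ (e - 2 j)`, `2 j ≤ e`. -/
def GPos (e : ℕ) (P : ℤ[X]) : Prop :=
  ∃ γ : ℕ → ℕ, P = ∑ j ∈ range (e / 2 + 1), C ((γ j : ℕ) : ℤ) * (X : ℤ[X]) ^ j * (1 + X) ^ (e - 2 * j)

/-- The stellar subdivision of the edge `{a, b}` of `S` with the new vertex `c`: the faces
containing the edge are removed, and the faces `G ∪ {c}` are added, where `G` does not contain both
`a` and `b` and `G ∪ {a, b}` is in `S`. -/
def edgeSub {V : Type*} [DecidableEq V] (S : Finset (Finset V)) (a b c : V) :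
    Finset (Finset V) :=
  S.filter (fun G => ¬ (a ∈ G ∧ b ∈ G)) ∪
    (S.filter (fun G => ¬ (a ∈ G ∧ b ∈ G) ∧ insert a (insert b G) ∈ S)).image (insert c)

end Pool.Agent.MP19e880.AR
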