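import Pool.Agent.Lib.MP_19e880_co_AR.Fe
import Pool.Agent.Lib.MP_19e880_co_AR.Hl

/-!
The h-polynomials of the links.
-/

set_option autoImplicit false
set_option linter.unusedSectionVars false

open Finset Module

namespace Pool.Agent.MP19e880.AR

variable {d : ℕ} {V 𝒞 E : Type*} [Fintype V] [DecidableEq V] [Fintype 𝒞] [AddCommGroup E]
  [Module ℝ E]

open Polynomial in
open Classical in
private theorem fvl_interval (A B : Finset V) (hAB : A ⊆ B) (d : ℕ) (hB : B.card = d) (k : ℕ)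
    (hk : k ≤ A.card) :
    ∑ σ ∈ Finset.univ.filter (fun σ : Finset V => A ⊆ σ ∧ σ ⊆ B),
      (Polynomial.X : ℤ[X]) ^ (σ.card - k) * (1 - Polynomial.X) ^ (d - σ.card) =
      (Polynomial.X : ℤ[X]) ^ (A.card - k) := by
  have h1 : ∑ σ ∈ Finset.univ.filter (fun σ : Finset V => A ⊆ σ ∧ σ ⊆ B),
      (Polynomial.X : ℤ[X]) ^ (σ.card - k) * (1 - Polynomial.X) ^ (d - σ.card) =
      ∑ τ ∈ (B \ A).powerset, (Polynomial.X : ℤ[X]) ^ (A.card - k) *
        ((Polynomial.X : ℤ[X]) ^ τ.card * (1 - Polynomial.X) ^ ((B \ A).card - τ.card)) := by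
    refine Finset.sum_bij' (fun σ _ => σ \ A) (fun τ _ => A ∪ τ) ?_ ?_ ?_ ?_ ?_
    · intro σ hσ
      rw [Finset.mem_filter] at hσ
      rw [Finset.mem_powerset]
      exact Finset.sdiff_subset_sdiff hσ.2.2 (Finset.Subset.refl _)
    · intro τ hτ
      rw [Finset.mem_powerset] at hτ
      rw [Finset.mem_filter]
      exact ⟨Finset.mem_univ _, Finset.subset_union_left,
        Finset.union_subset hAB (hτ.trans Finset.sdiff_subset)⟩
    · intro σ hσ
      rw [Finset.mem_filter] at hσ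
      exact Finset.union_sdiff_of_subset hσ.2.1
    · intro τ hτ
      rw [Finset.mem_powerset] at hτ
      ext v
      simp only [Finset.mem_sdiff, Finset.mem_union]
      constructor
      · rintro ⟨h | h, h'⟩
        · exact absurd h h'
        · exact h
      · intro h
        exact ⟨Or.inr h, (Finset.mem_sdiff.1 (hτ h)).2⟩
    · intro σ hσ
      rw [Finset.mem_filter] at hσ
      have e1 := Finset.card_sdiff_of_subset hσ.2.1
      have e2 := Finset.card_sdiff_of_subset hAB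
      have e3 := Finset.card_le_card hσ.2.1
      have e4 := Finset.card_le_card hσ.2.2
      rw [← mul_assoc, ← pow_add, e1, e2, hB]
      congr 2
      · omega
      · omega
  rw [h1, ← Finset.mul_sum, Finset.sum_pow_mul_eq_add_pow]
  simp

open Polynomial in
open Classical in
private theorem fvl_gen (S : Finset (Finset V)) (A B : 𝒞 → Finset V) (hAB : ∀ C, A C ⊆ B C)
    (hB : ∀ C, (B C).card = d) (hS : ∀ σ C, σ ⊆ B C → σ ∈ S)
    (hu : ∀ σ ∈ S, ∃ C, A C ⊆ σ ∧ σ ⊆ B C ∧ ∀ C', A C' ⊆ σ → σ ⊆ B C' → C' = C)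
    (σ : Finset V) :
    hl S d σ = ∑ C ∈ univ.filter (fun C : 𝒞 => σ ⊆ B C),
      (Polynomial.X : ℤ[X]) ^ (A C \ σ).card := by
  unfold hl
  have h2 : ∀ G ∈ S.filter (fun G => σ ⊆ G),
      (Polynomial.X : ℤ[X]) ^ (G.card - σ.card) * (1 - Polynomial.X) ^ (d - G.card) =
      ∑ C : 𝒞, if A C ⊆ G ∧ G ⊆ B C then
        (Polynomial.X : ℤ[X]) ^ (G.card - σ.card) * (1 - Polynomial.X) ^ (d - G.card) else 0 := by
    intro G hG
    obtain ⟨C, h3, h4, h5⟩ := hu G (Finset.mem_filter.1 hG).1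
    rw [Finset.sum_eq_single C]
    · rw [if_pos ⟨h3, h4⟩]
    · intro C' _ hne
      rw [if_neg]
      rintro ⟨h6, h7⟩
      exact hne (h5 C' h6 h7)
    · intro h
      exact absurd (Finset.mem_univ _) h
  rw [Finset.sum_congr rfl h2, Finset.sum_comm, Finset.sum_filter]
  refine Finset.sum_congr rfl fun C _ => ?_
  rw [← Finset.sum_filter]
  by_cases hC : σ ⊆ B C
  · rw [if_pos hC]
    have h3 : (A C \ σ).card = (A C ∪ σ).card - σ.card := by
      rw [← Finset.sdiff_union_self_eq_union, Finset.card_union_of_disjoint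
        Finset.sdiff_disjoint]
      omega
    rw [h3, ← fvl_interval (A C ∪ σ) (B C) (Finset.union_subset (hAB C) hC) d (hB C) σ.card
      (Finset.card_le_card Finset.subset_union_right)]
    refine Finset.sum_congr ?_ fun _ _ => rfl
    ext G
    simp only [Finset.mem_filter, Finset.mem_univ, true_and]
    constructor
    · rintro ⟨⟨_, h4⟩, h5, h6⟩
      exact ⟨Finset.union_subset h5 h4, h6⟩
    · rintro ⟨h4, h5⟩
      exact ⟨⟨hS G C h5, Finset.subset_union_right.trans h4⟩,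
        Finset.subset_union_left.trans h4, h5⟩
  · rw [if_neg hC]
    refine Finset.sum_eq_zero fun G hG => ?_
    simp only [Finset.mem_filter] at hG
    exact absurd (hG.1.2.trans hG.2.2) hC

private theorem fvl_ng_sub (Φ : NFan d V 𝒞 E) (C : 𝒞) : Φ.Ng C ⊆ Φ.F C := by
  unfold NFan.Ng
  exact Finset.filter_subset _ _

open Polynomial in
open Classical in
theorem hl_fan {Φ : NFan d V 𝒞 E} (c : Conv Φ) (S : Finset (Finset V))
    (hS : ∀ σ, σ ∈ S ↔ Φ.Face σ) {σ : Finset V} {e : ℕ} (he : σ.card + e = d) :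
    hl S d σ = ∑ C ∈ univ.filter (fun C : 𝒞 => σ ⊆ Φ.F C), (X : ℤ[X]) ^ (Φ.kk σ C) ∧
    hl S d σ = ∑ C ∈ univ.filter (fun C : 𝒞 => σ ⊆ Φ.F C), (X : ℤ[X]) ^ (e - Φ.kk σ C) := by
  constructor
  · exact fvl_gen S Φ.Ng Φ.F (fvl_ng_sub Φ) Φ.card (fun σ C h => (hS σ).2 ⟨C, h⟩)
      (fun σ hσ => c.exists_unique_neg ((hS σ).1 hσ)) σ
  · rw [fvl_gen S (fun C => Φ.F C \ Φ.Ng C) Φ.F (fun C => Finset.sdiff_subset) Φ.card
      (fun σ C h => (hS σ).2 ⟨C, h⟩) (fun σ hσ => c.exists_unique_pos ((hS σ).1 hσ)) σ]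
    refine Finset.sum_congr rfl fun C hC => ?_
    rw [Finset.mem_filter] at hC
    congr 1
    have h1 : (Φ.F C \ Φ.Ng C) \ σ = (Φ.F C \ σ) \ (Φ.Ng C \ σ) := by
      ext v
      simp only [Finset.mem_sdiff]
      tauto
    have h2 : Φ.Ng C \ σ ⊆ Φ.F C \ σ := Finset.sdiff_subset_sdiff (fvl_ng_sub Φ C)
      (Finset.Subset.refl _)
    rw [h1, Finset.card_sdiff_of_subset h2, Finset.card_sdiff_of_subset hC.2, Φ.card]
    unfold NFan.kk
    omega

open Classical in
theorem h_symm_link {Φ : NFan d V 𝒞 E} (c : Conv Φ) (S : Finset (Finset V))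
    (hS : ∀ σ, σ ∈ S ↔ Φ.Face σ) {σ : Finset V} {e : ℕ} (he : σ.card + e = d) (k : ℕ)
    (hk : k ≤ e) :
    (univ.filter (fun C : 𝒞 => σ ⊆ Φ.F C ∧ Φ.kk σ C = k)).card =
      (univ.filter (fun C : 𝒞 => σ ⊆ Φ.F C ∧ Φ.kk σ C = e - k)).card := by
  obtain ⟨h1, h2⟩ := hl_fan c S hS he
  have h3 := congrArg (fun P : Polynomial ℤ => P.coeff k) (h1.symm.trans h2)
  simp only [Polynomial.finsetSum_coeff, Polynomial.coeff_X_pow] at h3
  rw [Finset.sum_boole, Finset.sum_boole] at h3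
  have h4 : ((univ.filter (fun C : 𝒞 => σ ⊆ Φ.F C)).filter
      (fun C : 𝒞 => k = Φ.kk σ C)).card =
      ((univ.filter (fun C : 𝒞 => σ ⊆ Φ.F C)).filter
      (fun C : 𝒞 => k = e - Φ.kk σ C)).card := by exact_mod_cast h3
  have h5 : (univ.filter (fun C : 𝒞 => σ ⊆ Φ.F C)).filter (fun C : 𝒞 => k = Φ.kk σ C) =
      univ.filter (fun C : 𝒞 => σ ⊆ Φ.F C ∧ Φ.kk σ C = k) := by
    ext C
    simp only [Finset.mem_filter, Finset.mem_univ, true_and]
    exact and_congr_right fun _ => eq_comm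
  have h6 : (univ.filter (fun C : 𝒞 => σ ⊆ Φ.F C)).filter (fun C : 𝒞 => k = e - Φ.kk σ C) =
      univ.filter (fun C : 𝒞 => σ ⊆ Φ.F C ∧ Φ.kk σ C = e - k) := by
    ext C
    simp only [Finset.mem_filter, Finset.mem_univ, true_and]
    refine and_congr_right fun hC => ?_
    have h7 := Φ.kk_le he hC
    omega
  rw [h5, h6] at h4
  exact h4

end Pool.Agent.MP19e880.AR
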