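import Pool.Agent.Lib.MP_19e880_co_AR.FuL
import Pool.Agent.Lib.MP_19e880_co_AR.FvL
import Pool.Agent.Lib.MP_19e880_co_AR.Ft
import Pool.Agent.Lib.MP_19e880_co_AR.Star

/-!
The gamma vectors of the links in a fan with square zero classes.
-/

set_option autoImplicit false
set_option linter.unusedSectionVars false

open Finset Module

namespace Pool.Agent.MP19e880.AR

variable {d : ℕ} {V 𝒞 E : Type*} [Fintype V] [DecidableEq V] [Fintype 𝒞] [AddCommGroup E]
  [Module ℝ E]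

theorem gaml_card_succ (P : 𝒞 → Prop) [DecidablePred P] (f : 𝒞 → ℕ) (i : ℕ) :
    (univ.filter (fun C : 𝒞 => P C ∧ f C ≤ i + 1)).card =
      (univ.filter (fun C : 𝒞 => P C ∧ f C ≤ i)).card +
        (univ.filter (fun C : 𝒞 => P C ∧ f C = i + 1)).card := by
  classical
  rw [← Finset.card_union_of_disjoint]
  · congr 1
    ext C
    simp only [mem_filter, mem_univ, true_and, mem_union]
    constructor
    · rintro ⟨h1, h2⟩
      rcases Nat.lt_or_ge i (f C) with h3 | h3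
      · exact Or.inr ⟨h1, by omega⟩
      · exact Or.inl ⟨h1, h3⟩
    · rintro (⟨h1, h2⟩ | ⟨h1, h2⟩)
      · exact ⟨h1, by omega⟩
      · exact ⟨h1, by omega⟩
  · rw [Finset.disjoint_filter]
    rintro C _ ⟨_, h1⟩ ⟨_, h2⟩
    omega

theorem gaml_card_succ' (P : 𝒞 → Prop) [DecidablePred P] (f : 𝒞 → ℕ) {e i : ℕ} (hi : i ≤ e) :
    (univ.filter (fun C : 𝒞 => P C ∧ e < f C + (i + 1))).card =
      (univ.filter (fun C : 𝒞 => P C ∧ e < f C + i)).card +
        (univ.filter (fun C : 𝒞 => P C ∧ f C = e - i)).card := by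
  classical
  rw [← Finset.card_union_of_disjoint]
  · congr 1
    ext C
    simp only [mem_filter, mem_univ, true_and, mem_union]
    constructor
    · rintro ⟨h1, h2⟩
      rcases Nat.lt_or_ge e (f C + i) with h3 | h3
      · exact Or.inl ⟨h1, h3⟩
      · exact Or.inr ⟨h1, by omega⟩
    · rintro (⟨h1, h2⟩ | ⟨h1, h2⟩)
      · exact ⟨h1, by omega⟩
      · exact ⟨h1, by omega⟩
  · rw [Finset.disjoint_filter]
    rintro C _ ⟨_, h1⟩ ⟨_, h2⟩
    omega

theorem gaml_h {Φ : NFan d V 𝒞 E} (c : Conv Φ) (S : Finset (Finset V))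
    (hS : ∀ σ, σ ∈ S ↔ Φ.Face σ) {σ : Finset V} {e : ℕ} (he : σ.card + e = d) (i : ℕ)
    (hi : i ≤ e) :
    ((univ.filter (fun C => σ ⊆ Φ.F C ∧ Φ.kk σ C ≤ i)).card : ℤ) -
      ((univ.filter (fun C => σ ⊆ Φ.F C ∧ e < Φ.kk σ C + i)).card : ℤ) =
      ((univ.filter (fun C : 𝒞 => σ ⊆ Φ.F C ∧ Φ.kk σ C = i)).card : ℤ) := by
  induction i with
  | zero =>
    have h1 : (univ.filter (fun C : 𝒞 => σ ⊆ Φ.F C ∧ e < Φ.kk σ C + 0)) = ∅ := by
      rw [Finset.filter_eq_empty_iff]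
      rintro C _ ⟨h2, h3⟩
      have h4 := Φ.kk_le he h2
      omega
    rw [h1, Finset.card_empty]
    have h3 : (univ.filter (fun C : 𝒞 => σ ⊆ Φ.F C ∧ Φ.kk σ C ≤ 0)) =
        univ.filter (fun C : 𝒞 => σ ⊆ Φ.F C ∧ Φ.kk σ C = 0) := by
      refine Finset.filter_congr (fun C _ => ?_)
      rw [Nat.le_zero]
    rw [h3]
    simp
  | succ i ih =>
    have h1 := ih (by omega)
    have h2 := h_symm_link c S hS he i (by omega)
    have h3 := gaml_card_succ (fun C : 𝒞 => σ ⊆ Φ.F C) (fun C => Φ.kk σ C) i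
    have h4 := gaml_card_succ' (fun C : 𝒞 => σ ⊆ Φ.F C) (fun C => Φ.kk σ C)
      (show i ≤ e by omega)
    beta_reduce at h3 h4
    have h5 : (univ.filter (fun C : 𝒞 => σ ⊆ Φ.F C ∧ Φ.kk σ C = e - i)).card =
        (univ.filter (fun C : 𝒞 => σ ⊆ Φ.F C ∧ Φ.kk σ C = i)).card := by
      convert h2.symm
    rw [h3, h4, h5]
    push_cast
    linarith

open Polynomial in
theorem gaml_coeff (a : ℤ) (j n i : ℕ) :
    (Polynomial.C a * (Polynomial.X : ℤ[X]) ^ j * (1 + Polynomial.X) ^ n).coeff i =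
      if j ≤ i then a * ((n.choose (i - j) : ℕ) : ℤ) else 0 := by
  rw [mul_assoc, coeff_C_mul, coeff_X_pow_mul', coeff_one_add_X_pow]
  split_ifs <;> simp

theorem gamma_link {Φ : NFan d V 𝒞 E} (c0 : Conv Φ) (hinj : Function.Injective c0.LL)
    (S : Finset (Finset V)) (hS : ∀ σ, σ ∈ S ↔ Φ.Face σ) {σ : Finset V} (hσ : Φ.Face σ)
    {e : ℕ} (he : σ.card + e = d) {n : ℕ}
    (N : Fin n → 𝒞 → ℝ) (hN : ∀ q, N q ∈ Φ.Vj 1) (hs : ∀ q, ∃ k : ℝ, ∀ C, N q C * N q C = k)
    (hc : ∀ a : Fin n → ℝ, (∀ q, 0 < a q) → ∃ c : Conv Φ, ∀ C, c.LL C = ∑ q, a q * N q C) :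
    GPos e (hl S d σ) := by
  classical
  have hsys : Sys e n Φ.Vj (Φ.wU σ univ) N := {
    mul := fun q i f hf => by
      have h1 := Φ.mul_mem (hN q) hf
      rwa [add_comm] at h1
    sq := hs
    low := by
      intro i j f g hf hg hij
      have h1 := Φ.low (σ := σ) (e := e) (i := i) (j := j) (m := 0) he (U := univ)
        (fun _ _ => mem_univ _) hf hg (Φ.one_mem 0) (by omega)
      rwa [mul_one] at h1
    hr := by
      intro a ha i m hm
      obtain ⟨c, hc'⟩ := hc a ha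
      have h1 := hr_full c0 hinj e σ he hσ c i (by omega) 0 m hm
      have h2 : c.lt 0 = ∑ q, a q • N q := by
        funext C
        simp [Conv.lt, hc' C]
      rw [h2] at h1
      exact h1 }
  obtain ⟨γ, h1, h2⟩ := star n e Φ.Vj (Φ.wU σ univ) N hsys
  have h3 : ∀ i, 2 * i ≤ e → (rk Φ.Vj (Φ.wU σ univ) e i : ℤ) =
      ((univ.filter (fun C : 𝒞 => σ ⊆ Φ.F C ∧ Φ.kk σ C = i)).card : ℤ) := by
    intro i hi
    rw [← gaml_h c0 S hS he i (by omega), rk_link c0 hinj hσ he hi]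
  have h4 : ∀ i, i ≤ e → (rk Φ.Vj (Φ.wU σ univ) e i : ℤ) =
      ((univ.filter (fun C : 𝒞 => σ ⊆ Φ.F C ∧ Φ.kk σ C = i)).card : ℤ) := by
    intro i hi
    rcases Nat.le_or_ge (2 * i) e with h5 | h5
    · exact h3 i h5
    · rw [rk_symm Φ.Vj (Φ.wU σ univ) (show i + (e - i) = e by omega), h3 (e - i) (by omega)]
      have h6 := h_symm_link c0 S hS he i hi
      rw [Nat.cast_inj]
      convert h6.symm
  refine ⟨γ, ?_⟩
  rw [(hl_fan c0 S hS he).1]
  ext i
  rw [Polynomial.finsetSum_coeff, Polynomial.finsetSum_coeff]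
  simp only [gaml_coeff, Polynomial.coeff_X_pow]
  rw [Finset.sum_boole]
  have h7 : ((univ.filter (fun C : 𝒞 => σ ⊆ Φ.F C)).filter (fun C => i = Φ.kk σ C)) =
      univ.filter (fun C : 𝒞 => σ ⊆ Φ.F C ∧ Φ.kk σ C = i) := by
    rw [Finset.filter_filter]
    refine Finset.filter_congr (fun C _ => ?_)
    rw [eq_comm (a := i)]
  rcases Nat.lt_or_ge e i with h5 | h5
  · have h8 : (univ.filter (fun C : 𝒞 => σ ⊆ Φ.F C ∧ Φ.kk σ C = i)) = ∅ := by
      rw [Finset.filter_eq_empty_iff]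
      rintro C _ ⟨h9, h10⟩
      have h11 := Φ.kk_le he h9
      omega
    have h9 : ∑ j ∈ range (e / 2 + 1), (if j ≤ i then
        ((γ j : ℕ) : ℤ) * (((e - 2 * j).choose (i - j) : ℕ) : ℤ) else 0) = 0 := by
      refine Finset.sum_eq_zero (fun j hj => ?_)
      rw [mem_range] at hj
      rw [if_pos (by omega), Nat.choose_eq_zero_of_lt (by omega)]
      simp
    rw [h9]
    convert Nat.cast_zero (R := ℤ)
    rw [Finset.card_eq_zero]
    convert h8
  · have h8 := h4 i h5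
    rw [h2 i h5] at h8
    have h9 : ∑ j ∈ range (e / 2 + 1), (if j ≤ i then
        ((γ j : ℕ) : ℤ) * (((e - 2 * j).choose (i - j) : ℕ) : ℤ) else 0) =
        ∑ j ∈ range (i + 1), ((γ j : ℕ) : ℤ) * (((e - 2 * j).choose (i - j) : ℕ) : ℤ) := by
      rw [← Finset.sum_filter]
      refine Finset.sum_subset_zero_on_sdiff ?_ ?_ (fun _ _ => rfl)
      · intro j hj
        rw [mem_filter, mem_range] at hj
        rw [mem_range]
        omega
      · intro j hj
        rw [mem_sdiff, mem_filter, mem_range, mem_range] at hj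
        have h10 : e < 2 * j := by
          by_contra h11
          exact hj.2 ⟨by omega, by omega⟩
        rw [h1 j h10]
        simp
    rw [h9]
    push_cast at h8
    rw [h8]
    congr 1
    convert congrArg Finset.card h7

open Polynomial in
/-- The gamma expansion is unique. -/
theorem gaml_unique (d : ℕ) (γ γ' : ℕ → ℤ)
    (h : ∑ i ∈ range (d / 2 + 1), Polynomial.C (γ i) * (Polynomial.X : ℤ[X]) ^ i *
        (1 + Polynomial.X) ^ (d - 2 * i) =
      ∑ i ∈ range (d / 2 + 1), Polynomial.C (γ' i) * (Polynomial.X : ℤ[X]) ^ i *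
        (1 + Polynomial.X) ^ (d - 2 * i)) :
    ∀ i, i ≤ d / 2 → γ i = γ' i := by
  intro i
  induction i using Nat.strong_induction_on with
  | _ i ih =>
    intro hi
    have h1 := congrArg (fun q : ℤ[X] => q.coeff i) h
    simp only [Polynomial.finsetSum_coeff, gaml_coeff] at h1
    have h2 : ∀ g : ℕ → ℤ, ∑ j ∈ range (d / 2 + 1), (if j ≤ i then
        g j * (((d - 2 * j).choose (i - j) : ℕ) : ℤ) else 0) =
        ∑ j ∈ range i, g j * (((d - 2 * j).choose (i - j) : ℕ) : ℤ) + g i := by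
      intro g
      have h3 : ∑ j ∈ range (d / 2 + 1), (if j ≤ i then
          g j * (((d - 2 * j).choose (i - j) : ℕ) : ℤ) else 0) =
          ∑ j ∈ range (i + 1), g j * (((d - 2 * j).choose (i - j) : ℕ) : ℤ) := by
        rw [← Finset.sum_filter]
        refine Finset.sum_congr ?_ (fun _ _ => rfl)
        ext j
        simp only [mem_filter, mem_range]
        omega
      rw [h3, sum_range_succ, Nat.sub_self, Nat.choose_zero_right]
      simp
    rw [h2, h2] at h1
    have h4 : ∑ j ∈ range i, γ j * (((d - 2 * j).choose (i - j) : ℕ) : ℤ) =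
        ∑ j ∈ range i, γ' j * (((d - 2 * j).choose (i - j) : ℕ) : ℤ) := by
      refine sum_congr rfl (fun j hj => ?_)
      rw [mem_range] at hj
      rw [ih j hj (by omega)]
    rw [h4] at h1
    linarith

end Pool.Agent.MP19e880.AR
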