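import Mathlib

/-!
# MP_19e880_co, project AR: definitions

Nonnegativity of the gamma vector for simplicial hyperplane arrangements.
Text: /team-store/TEXT_19e880_AR.md.

Part I: forms `ip w f g = ∑ w f g` on the functions on a finite set (the chambers), families `K i`
of subspaces, Hodge-Riemann relations `HR`. Part II: indices of symmetric forms. Part III: evaluated
simplicial fans `NFan`: the chambers `C` with their sets of rays `F C`, a vector `u` and its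
coordinates `D v C`; strictly convex data `Conv`. Part IV: simplicial arrangements `IsArr`.
-/

set_option autoImplicit false
set_option linter.unusedSectionVars false

open Finset Module

namespace Pool.Agent.MP19e880.AR

/-! ## Part I: forms on functions -/

section forms

variable {𝒞 : Type*} [Fintype 𝒞]

/-- The bilinear form with weight `w` on the functions on `𝒞`. -/
noncomputable def ip (w : 𝒞 → ℝ) : LinearMap.BilinForm ℝ (𝒞 → ℝ) :=
  LinearMap.mk₂ ℝ (fun f g => ∑ C, w C * (f C * g C))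
    (by
      intro f f' g
      rw [← sum_add_distrib]
      refine sum_congr rfl (fun C _ => ?_)
      simp only [Pi.add_apply]
      ring)
    (by
      intro a f g
      rw [smul_eq_mul, mul_sum]
      refine sum_congr rfl (fun C _ => ?_)
      simp only [Pi.smul_apply, smul_eq_mul]
      ring)
    (by
      intro f g g'
      rw [← sum_add_distrib]
      refine sum_congr rfl (fun C _ => ?_)
      simp only [Pi.add_apply]
      ring)
    (by
      intro a f g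
      rw [smul_eq_mul, mul_sum]
      refine sum_congr rfl (fun C _ => ?_)
      simp only [Pi.smul_apply, smul_eq_mul]
      ring)

theorem ip_apply (w f g : 𝒞 → ℝ) : ip w f g = ∑ C, w C * (f C * g C) := rfl

/-- The radical of the pairing of `K i` with `K j`, `i + j = d`, as a subspace of `K i`. -/
def rad (K : ℕ → Submodule ℝ (𝒞 → ℝ)) (w : 𝒞 → ℝ) (d i : ℕ) : Submodule ℝ (𝒞 → ℝ) where
  carrier := {f | f ∈ K i ∧ ∀ j, i + j = d → ∀ g ∈ K j, ip w f g = 0}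
  add_mem' := by
    rintro f f' ⟨h1, h2⟩ ⟨h3, h4⟩
    refine ⟨(K i).add_mem h1 h3, fun j hj g hg => ?_⟩
    rw [LinearMap.map_add₂, h2 j hj g hg, h4 j hj g hg, add_zero]
  zero_mem' := by
    refine ⟨(K i).zero_mem, fun j hj g hg => ?_⟩
    rw [LinearMap.map_zero₂]
  smul_mem' := by
    rintro a f ⟨h1, h2⟩
    refine ⟨(K i).smul_mem a h1, fun j hj g hg => ?_⟩
    rw [LinearMap.map_smul₂, h2 j hj g hg, smul_zero]

theorem mem_rad {K : ℕ → Submodule ℝ (𝒞 → ℝ)} {w : 𝒞 → ℝ} {d i : ℕ} {f : 𝒞 → ℝ} :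
    f ∈ rad K w d i ↔ f ∈ K i ∧ ∀ j, i + j = d → ∀ g ∈ K j, ip w f g = 0 := Iff.rfl

/-- The rank of the pairing of `K i` with `K j`, `i + j = d`. -/
noncomputable def rk (K : ℕ → Submodule ℝ (𝒞 → ℝ)) (w : 𝒞 → ℝ) (d i : ℕ) : ℕ :=
  finrank ℝ (K i) - finrank ℝ (rad K w d i)

/-- The subspace of degree `i - 1` (zero for `i = 0`). -/
def Kp (K : ℕ → Submodule ℝ (𝒞 → ℝ)) : ℕ → Submodule ℝ (𝒞 → ℝ)
  | 0 => ⊥
  | i + 1 => K i

/-- The Hodge-Riemann relation in degree `i` for the weight `w` in dimension `d`, with respect to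
the multiplication by `ℓ`. -/
def HR (K : ℕ → Submodule ℝ (𝒞 → ℝ)) (w : 𝒞 → ℝ) (d : ℕ) (ℓ : 𝒞 → ℝ) (i : ℕ) : Prop :=
  ∀ m, 2 * i + m = d → ∀ f ∈ K i,
    (∀ j, j + 1 = i → ∀ g ∈ K j, ip (w * ℓ ^ (m + 1)) f g = 0) →
    0 ≤ (-1 : ℝ) ^ i * ip (w * ℓ ^ m) f f ∧ (ip (w * ℓ ^ m) f f = 0 → f ∈ rad K w d i)

/-- Commuting operators of degree one with square zero (in the graded sense) all of whose positive
combinations satisfy the Hodge-Riemann relations. -/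
structure Sys (d n : ℕ) (K : ℕ → Submodule ℝ (𝒞 → ℝ)) (w : 𝒞 → ℝ) (N : Fin n → 𝒞 → ℝ) : Prop where
  mul : ∀ q i f, f ∈ K i → N q * f ∈ K (i + 1)
  sq : ∀ q, ∃ c : ℝ, ∀ C, N q C * N q C = c
  low : ∀ i j f g, f ∈ K i → g ∈ K j → i + j < d → ip w f g = 0
  hr : ∀ a : Fin n → ℝ, (∀ q, 0 < a q) → ∀ i, HR K w d (∑ q, a q • N q) i

/-- One operator `N` with square zero and an operator `ℓ` such that all `s N + ℓ`, `s > 0`, satisfy
the Hodge-Riemann relations in dimension `d + 1`. -/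
structure Two (d : ℕ) (K : ℕ → Submodule ℝ (𝒞 → ℝ)) (w N ℓ : 𝒞 → ℝ) : Prop where
  mulN : ∀ i f, f ∈ K i → N * f ∈ K (i + 1)
  mulL : ∀ i f, f ∈ K i → ℓ * f ∈ K (i + 1)
  sq : ∃ c : ℝ, ∀ C, N C * N C = c
  low : ∀ i j f g, f ∈ K i → g ∈ K j → i + j < d + 1 → ip w f g = 0
  hr : ∀ s : ℝ, 0 < s → ∀ i, HR K w (d + 1) (s • N + ℓ) i

end forms

/-! ## Part II: indices of symmetric forms -/

section index

variable {F : Type*} [AddCommGroup F] [Module ℝ F]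

/-- The radical of the restriction of `B` to `K`. -/
def radB (B : LinearMap.BilinForm ℝ F) (K : Submodule ℝ F) : Submodule ℝ F where
  carrier := {x | x ∈ K ∧ ∀ y ∈ K, B x y = 0}
  add_mem' := by
    rintro x y ⟨h1, h2⟩ ⟨h3, h4⟩
    refine ⟨K.add_mem h1 h3, fun z hz => ?_⟩
    rw [LinearMap.map_add₂, h2 z hz, h4 z hz, add_zero]
  zero_mem' := by
    refine ⟨K.zero_mem, fun z hz => ?_⟩
    rw [LinearMap.map_zero₂]
  smul_mem' := by
    rintro a x ⟨h1, h2⟩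
    refine ⟨K.smul_mem a h1, fun z hz => ?_⟩
    rw [LinearMap.map_smul₂, h2 z hz, smul_zero]

theorem mem_radB {B : LinearMap.BilinForm ℝ F} {K : Submodule ℝ F} {x : F} :
    x ∈ radB B K ↔ x ∈ K ∧ ∀ y ∈ K, B x y = 0 := Iff.rfl

/-- The rank of the restriction of `B` to `K`. -/
noncomputable def rkB (B : LinearMap.BilinForm ℝ F) (K : Submodule ℝ F) : ℕ :=
  finrank ℝ K - finrank ℝ (radB B K)

/-- The negative index of the restriction of `B` to `K`. -/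
noncomputable def nIdx (B : LinearMap.BilinForm ℝ F) (K : Submodule ℝ F) : ℕ :=
  sSup {n | ∃ S : Submodule ℝ F, S ≤ K ∧ finrank ℝ S = n ∧ ∀ x ∈ S, x ≠ 0 → B x x < 0}

/-- For `s = 1` the positive index of `B` on `K`, for `s = -1` the negative index. -/
noncomputable def sIdx (s : ℤ) (B : LinearMap.BilinForm ℝ F) (K : Submodule ℝ F) : ℕ :=
  nIdx (-((s : ℝ) • B)) K

end index

/-! ## Part III: evaluated simplicial fans -/

/-- A complete simplicial fan together with the coordinates `D v C` of a generic vector `u` in all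
chambers `C`. `F C` is the set of rays of the chamber `C`, `p v` is a vector on the ray `v`,
`μ C > 0` is the multiplicity of `C`. -/
structure NFan (d : ℕ) (V 𝒞 E : Type*) [Fintype V] [DecidableEq V] [AddCommGroup E]
    [Module ℝ E] where
  F : 𝒞 → Finset V
  p : V → E
  u : E
  D : V → 𝒞 → ℝ
  μ : 𝒞 → ℝ
  card : ∀ C, (F C).card = d
  inj : Function.Injective F
  li : ∀ C, LinearIndependent ℝ (fun v : F C => p v)
  D_zero : ∀ C v, v ∉ F C → D v C = 0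
  D_ne : ∀ C, ∀ v ∈ F C, D v C ≠ 0
  D_sum : ∀ C, ∑ v, D v C • p v = u
  μ_pos : ∀ C, 0 < μ C
  wall : ∀ C, ∀ v ∈ F C, ∃ C' v', C' ≠ C ∧ v' ∈ F C' ∧ (F C').erase v' = (F C).erase v ∧
    μ C * D v C = -(μ C' * D v' C') ∧ ∀ C'', (F C).erase v ⊆ F C'' → C'' = C ∨ C'' = C'

section fan

variable {d : ℕ} {V 𝒞 E : Type*} [Fintype V] [DecidableEq V] [AddCommGroup E] [Module ℝ E]

/-- A strictly convex piecewise linear function: `ω v` is its value at `p v` and `y C` is the linear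
function on the chamber `C`. -/
structure Conv (Φ : NFan d V 𝒞 E) where
  ω : V → ℝ
  y : 𝒞 → E →ₗ[ℝ] ℝ
  y_eq : ∀ C, ∀ v ∈ Φ.F C, y C (Φ.p v) = ω v
  y_lt : ∀ C C' v, v ∈ Φ.F C' → v ∉ Φ.F C → y C (Φ.p v) < ω v

/-- The value at `u` of the linear function of the chamber `C`. -/
def Conv.LL {Φ : NFan d V 𝒞 E} (c : Conv Φ) (C : 𝒞) : ℝ := c.y C Φ.u

/-- The multiplication operator by the piecewise linear function minus `t`. -/
def Conv.lt {Φ : NFan d V 𝒞 E} (c : Conv Φ) (t : ℝ) : 𝒞 → ℝ := fun C => c.LL C - t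

/-- The space of piecewise linear functions and constants. -/
def NFan.W (Φ : NFan d V 𝒞 E) : Submodule ℝ (𝒞 → ℝ) :=
  Submodule.span ℝ (insert 1 (Set.range Φ.D))

/-- The functions of degree at most `i`. -/
def NFan.Vj (Φ : NFan d V 𝒞 E) (i : ℕ) : Submodule ℝ (𝒞 → ℝ) := Φ.W ^ i

/-- The weight of a chamber. -/
noncomputable def NFan.wt (Φ : NFan d V 𝒞 E) (C : 𝒞) : ℝ := (Φ.μ C * ∏ v ∈ Φ.F C, Φ.D v C)⁻¹

/-- The monomial of a set of rays. -/
def NFan.xs (Φ : NFan d V 𝒞 E) (σ : Finset V) : 𝒞 → ℝ := ∏ v ∈ σ, Φ.D v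

open Classical in
/-- The weight of the link of `σ`, restricted to `U`. -/
noncomputable def NFan.wU (Φ : NFan d V 𝒞 E) (σ : Finset V) (U : Finset 𝒞) (C : 𝒞) : ℝ :=
  if C ∈ U then Φ.wt C * Φ.xs σ C else 0

open Classical in
/-- The rays of `C` at which `u` has a negative coordinate. -/
noncomputable def NFan.Ng (Φ : NFan d V 𝒞 E) (C : 𝒞) : Finset V :=
  (Φ.F C).filter (fun v => Φ.D v C < 0)

/-- The number of negative coordinates outside `σ`. -/
noncomputable def NFan.kk (Φ : NFan d V 𝒞 E) (σ : Finset V) (C : 𝒞) : ℕ := (Φ.Ng C \ σ).card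

/-- `σ` is a face. -/
def NFan.Face (Φ : NFan d V 𝒞 E) (σ : Finset V) : Prop := ∃ C, σ ⊆ Φ.F C

/-- The admissible pairs `(U, t)` for the link of `σ` (of dimension `e`) in degree `i`: `U` is the
whole star, or the set of all chambers of the star with `t < LL`, or with `t ≤ LL`; if `t` is the
value of a chamber `C₀` of the star then there is a condition on the number of negative
coordinates. -/
def Adm (Φ : NFan d V 𝒞 E) (c : Conv Φ) (σ : Finset V) (e i : ℕ) (U : Finset 𝒞) (t : ℝ) : Prop :=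
  (∀ C, σ ⊆ Φ.F C → C ∈ U) ∨
  ((∀ C, σ ⊆ Φ.F C → c.LL C ≠ t) ∧ (∀ C, σ ⊆ Φ.F C → (C ∈ U ↔ t < c.LL C))) ∨
  (∃ C0, σ ⊆ Φ.F C0 ∧ c.LL C0 = t ∧ (∀ C, σ ⊆ Φ.F C → (C ∈ U ↔ t < c.LL C)) ∧
    (Φ.kk σ C0 + i ≤ e ∨ (2 * i = e ∧ Φ.kk σ C0 ≤ i + 1))) ∨
  (∃ C0, σ ⊆ Φ.F C0 ∧ c.LL C0 = t ∧ (∀ C, σ ⊆ Φ.F C → (C ∈ U ↔ t ≤ c.LL C)) ∧
    (i + 1 ≤ Φ.kk σ C0 ∨ (2 * i = e ∧ i ≤ Φ.kk σ C0)))

/-- The canonical admissible pairs. -/
def AdmC (Φ : NFan d V 𝒞 E) (c : Conv Φ) (σ : Finset V) (e i : ℕ) (U : Finset 𝒞) (t : ℝ) : Prop :=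
  (∀ C, σ ⊆ Φ.F C → C ∈ U) ∨
  ((∀ C, σ ⊆ Φ.F C → c.LL C ≠ t) ∧ (∀ C, σ ⊆ Φ.F C → (C ∈ U ↔ t < c.LL C))) ∨
  (∃ C0, σ ⊆ Φ.F C0 ∧ c.LL C0 = t ∧ (∀ C, σ ⊆ Φ.F C → (C ∈ U ↔ t < c.LL C)) ∧
    Φ.kk σ C0 + i < e) ∨
  (∃ C0, σ ⊆ Φ.F C0 ∧ c.LL C0 = t ∧ (∀ C, σ ⊆ Φ.F C → (C ∈ U ↔ t ≤ c.LL C)) ∧
    e ≤ Φ.kk σ C0 + i)

open Classical in
/-- The expected index (positive index for `s = 1`, negative index for `s = -1`). -/
noncomputable def phi (Φ : NFan d V 𝒞 E) (σ : Finset V) (e i : ℕ) (U : Finset 𝒞) (s : ℤ) : ℤ :=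
  ((U.filter (fun C => σ ⊆ Φ.F C ∧ Φ.kk σ C ≤ i ∧ (-1 : ℤ) ^ Φ.kk σ C = s)).card : ℤ) -
  ((U.filter (fun C => σ ⊆ Φ.F C ∧ e < Φ.kk σ C + i ∧ (-1 : ℤ) ^ (e + Φ.kk σ C) = -s)).card : ℤ)

/-- The Hodge-Riemann relation for the link of `σ`, restricted to `U`, with respect to `LL - t`. -/
def HRx [Fintype 𝒞] (Φ : NFan d V 𝒞 E) (c : Conv Φ) (σ : Finset V) (e i : ℕ) (U : Finset 𝒞)
    (t : ℝ) : Prop :=
  HR Φ.Vj (Φ.wU σ U) e (c.lt t) i

/-- All Hodge-Riemann relations for the link of `σ`. -/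
def Sg [Fintype 𝒞] (Φ : NFan d V 𝒞 E) (c : Conv Φ) (σ : Finset V) (e : ℕ) : Prop :=
  ∀ i, 2 * i ≤ e → ∀ (U : Finset 𝒞) (t : ℝ), Adm Φ c σ e i U t → HRx Φ c σ e i U t

end fan

/-! ## Part IV: simplicial arrangements -/

/-- `S` is the face complex of the simplicial arrangement of the hyperplanes `φ i = 0`, with the
vector `p v` on the ray `v`: the open simplicial cones spanned by the members of `S` cover the space
and are exactly the faces of the arrangement. -/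
structure IsArr {V ι E : Type*} [AddCommGroup E] [Module ℝ E] (φ : ι → E →ₗ[ℝ] ℝ) (p : V → E)
    (S : Finset (Finset V)) : Prop where
  nz : ∀ i, φ i ≠ 0
  down : ∀ F ∈ S, ∀ G, G ⊆ F → G ∈ S
  li : ∀ F ∈ S, LinearIndependent ℝ (fun v : F => p v)
  cover : ∀ x : E, ∃ F ∈ S, ∃ c : V → ℝ, (∀ v ∈ F, 0 < c v) ∧ x = ∑ v ∈ F, c v • p v
  sign : ∀ F ∈ S, ∀ F' ∈ S, ∀ c c' : V → ℝ, (∀ v ∈ F, 0 < c v) → (∀ v ∈ F', 0 < c' v) →
    ((∀ i, SignType.sign (φ i (∑ v ∈ F, c v • p v)) =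
      SignType.sign (φ i (∑ v ∈ F', c' v • p v))) ↔ F = F')

end Pool.Agent.MP19e880.AR
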