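import Pool.Agent.Lib.MP_19e880_co_AR.Fm

/-!
Duality for the pairings: surjectivity in the hard Lefschetz property, double annihilators,
symmetry of the ranks.
-/

set_option autoImplicit false
set_option linter.unusedSectionVars false

open Finset Module

namespace Pool.Agent.MP19e880.AR

variable {𝒞 : Type*} [Fintype 𝒞]

/-- The pairing of two subspaces. -/
private noncomputable def dualT (B : LinearMap.BilinForm ℝ (𝒞 → ℝ))
    (K A : Submodule ℝ (𝒞 → ℝ)) : K →ₗ[ℝ] Module.Dual ℝ A :=
  A.subtype.dualMap ∘ₗ B ∘ₗ K.subtype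

private theorem dualT_apply (B : LinearMap.BilinForm ℝ (𝒞 → ℝ))
    (K A : Submodule ℝ (𝒞 → ℝ)) (x : K) (a : A) : dualT B K A x a = B x a := rfl

/-- The range of the pairing is the annihilator of the right radical. -/
private theorem dualT_range (B : LinearMap.BilinForm ℝ (𝒞 → ℝ))
    (K A : Submodule ℝ (𝒞 → ℝ)) (R : Submodule ℝ A)
    (hR : ∀ a : A, a ∈ R ↔ ∀ x ∈ K, B x a = 0) :
    LinearMap.range (dualT B K A) = R.dualAnnihilator := by
  have h1 : (LinearMap.range (dualT B K A)).dualCoannihilator = R := by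
    ext a
    rw [Submodule.mem_dualCoannihilator, hR]
    constructor
    · intro h x hx
      exact h (dualT B K A ⟨x, hx⟩) ⟨_, rfl⟩
    · rintro h _ ⟨x, rfl⟩
      exact h x x.2
  rw [← h1, Subspace.dualCoannihilator_dualAnnihilator_eq]

/-- Representation of the functionals which vanish on the right radical. -/
private theorem dual_rep (B : LinearMap.BilinForm ℝ (𝒞 → ℝ)) (K A : Submodule ℝ (𝒞 → ℝ))
    (lam : A →ₗ[ℝ] ℝ) (h : ∀ a : A, (∀ x ∈ K, B x a = 0) → lam a = 0) :
    ∃ x ∈ K, ∀ a : A, B x a = lam a := by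
  let R : Submodule ℝ A :=
    { carrier := {a | ∀ x ∈ K, B x a = 0}
      add_mem' := by
        intro a b ha hb x hx
        show B x ((a : 𝒞 → ℝ) + b) = 0
        rw [map_add, ha x hx, hb x hx, add_zero]
      zero_mem' := by
        intro x _
        show B x (0 : 𝒞 → ℝ) = 0
        rw [map_zero]
      smul_mem' := by
        intro c a ha x hx
        show B x (c • (a : 𝒞 → ℝ)) = 0
        rw [map_smul, ha x hx, smul_zero] }
  have h1 : lam ∈ LinearMap.range (dualT B K A) := by
    rw [dualT_range B K A R (fun a => Iff.rfl), Submodule.mem_dualAnnihilator]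
    exact fun a ha => h a ha
  obtain ⟨x, hx⟩ := h1
  exact ⟨x, x.2, fun a => by rw [← hx]; rfl⟩

/-- If the form `ip (w * l ^ m)` on `K i` has radical `rad K w d i`, `2 i + m = d`, then the
multiplication by `l ^ m` from `K i` to `K (i + m)` is surjective modulo the radical. -/
theorem surj {K : ℕ → Submodule ℝ (𝒞 → ℝ)} {w l : 𝒞 → ℝ} {d i m : ℕ}
    (hm : 2 * i + m = d) (hl : ∀ i f, f ∈ K i → l * f ∈ K (i + 1))
    (hHL : ∀ f ∈ K i, (∀ g ∈ K i, ip (w * l ^ m) f g = 0) → f ∈ rad K w d i)
    {z : 𝒞 → ℝ} (hz : z ∈ K (i + m)) : ∃ x ∈ K i, z - l ^ m * x ∈ rad K w d (i + m) := by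
  obtain ⟨x, hx, h1⟩ := dual_rep (ip (w * l ^ m)) (K i) (K i) ((ip w z) ∘ₗ (K i).subtype) (by
    intro a ha
    have h2 : (a : 𝒞 → ℝ) ∈ rad K w d i := hHL a a.2 (fun g hg => by
      rw [ip_comm]
      exact ha g hg)
    show ip w z a = 0
    rw [ip_comm]
    exact h2.2 (i + m) (by omega) z hz)
  refine ⟨x, hx, (K (i + m)).sub_mem hz (pow_mul_mem hl m i hx), fun j hj g hg => ?_⟩
  have hji : j = i := by omega
  rw [hji] at hg
  have h2 : ip (w * l ^ m) x g = ip w z g := h1 ⟨g, hg⟩
  rw [LinearMap.map_sub₂, ← ip_mul_left, h2, sub_self]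

/-- An element of `K i` orthogonal to all members of `K j` which are orthogonal to `A` is in `A`,
if `A` contains the radical. -/
theorem double_ann {K : ℕ → Submodule ℝ (𝒞 → ℝ)} {w : 𝒞 → ℝ} {d i j : ℕ} (hij : i + j = d)
    {A : Submodule ℝ (𝒞 → ℝ)} (hA : A ≤ K i) (hR : rad K w d i ≤ A) {f : 𝒞 → ℝ} (hf : f ∈ K i)
    (h : ∀ g ∈ K j, (∀ a ∈ A, ip w a g = 0) → ip w f g = 0) : f ∈ A := by
  by_contra hfA
  obtain ⟨φ, hφf, hφA⟩ := Submodule.exists_le_ker_of_notMem hfA
  obtain ⟨g, hg, h1⟩ := dual_rep (ip w) (K j) (K i) (φ ∘ₗ (K i).subtype) (by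
    intro a ha
    have h2 : (a : 𝒞 → ℝ) ∈ rad K w d i := ⟨a.2, fun j' hj' g hg => by
      have hjj : j' = j := by omega
      rw [hjj] at hg
      rw [ip_comm]
      exact ha g hg⟩
    exact hφA (hR h2))
  apply hφf
  have h3 : ip w g f = φ f := h1 ⟨f, hf⟩
  rw [← h3, ip_comm]
  refine h g hg (fun a ha => ?_)
  have h4 : ip w g a = φ a := h1 ⟨a, hA ha⟩
  rw [ip_comm, h4]
  exact hφA ha

/-- The ranks are symmetric. -/
theorem rk_symm (K : ℕ → Submodule ℝ (𝒞 → ℝ)) (w : 𝒞 → ℝ) {d i j : ℕ} (hij : i + j = d) :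
    rk K w d i = rk K w d j := by
  have key : ∀ i j : ℕ, i + j = d → finrank ℝ (LinearMap.range (dualT (ip w) (K i) (K j))) =
      finrank ℝ (K i) - finrank ℝ (rad K w d i) ∧
      finrank ℝ (LinearMap.range (dualT (ip w) (K i) (K j))) =
      finrank ℝ (K j) - finrank ℝ (rad K w d j) := by
    intro i j hij
    constructor
    · have h1 := LinearMap.finrank_range_add_finrank_ker (dualT (ip w) (K i) (K j))
      have h2 : (LinearMap.ker (dualT (ip w) (K i) (K j))).map (K i).subtype = rad K w d i := by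
        ext f
        rw [Submodule.mem_map]
        constructor
        · rintro ⟨x, hx, rfl⟩
          refine ⟨x.2, fun j' hj' g hg => ?_⟩
          have hjj : j' = j := by omega
          rw [hjj] at hg
          rw [LinearMap.mem_ker] at hx
          have h3 := LinearMap.congr_fun hx ⟨g, hg⟩
          exact h3
        · rintro ⟨h3, h4⟩
          refine ⟨⟨f, h3⟩, ?_, rfl⟩
          rw [LinearMap.mem_ker]
          ext g
          exact h4 j hij g g.2
      have h3 : finrank ℝ (LinearMap.ker (dualT (ip w) (K i) (K j))) =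
          finrank ℝ (rad K w d i) := by
        rw [← h2]
        exact (Submodule.finrank_map_subtype_eq (K i) _).symm
      omega
    · have h1 : ∀ a : K j, a ∈ (rad K w d j).comap (K j).subtype ↔
          ∀ x ∈ K i, ip w x a = 0 := by
        intro a
        rw [Submodule.mem_comap]
        constructor
        · rintro h3 x hx
          rw [ip_comm]
          exact h3.2 i (by omega) x hx
        · intro h3
          refine ⟨a.2, fun i' hi' g hg => ?_⟩
          have hii : i' = i := by omega
          rw [hii] at hg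
          rw [ip_comm]
          exact h3 g hg
      rw [dualT_range (ip w) (K i) (K j) _ h1]
      have h2 := Subspace.finrank_add_finrank_dualAnnihilator_eq
        ((rad K w d j).comap (K j).subtype)
      have h3 : finrank ℝ ((rad K w d j).comap (K j).subtype) = finrank ℝ (rad K w d j) := by
        rw [← Submodule.finrank_map_subtype_eq (K j) ((rad K w d j).comap (K j).subtype),
          Submodule.map_comap_subtype, inf_of_le_right (rad_le K w d j)]
      omega
  obtain ⟨h1, h2⟩ := key i j hij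
  unfold rk
  rw [← h1, h2]

end Pool.Agent.MP19e880.AR
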