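import Pool.Agent.Lib.MP_19e880_co_AR.Hl

/-!
The h-polynomials of the links of the subdivision of an edge.
-/

set_option autoImplicit false
set_option linter.unusedSectionVars false

open Finset Module

namespace Pool.Agent.MP19e880.AR

variable {V : Type*} [DecidableEq V] {S : Finset (Finset V)} {a b c : V} {d : ℕ}

theorem mem_edgeSub {G : Finset V} : G ∈ edgeSub S a b c ↔
    (G ∈ S ∧ ¬ (a ∈ G ∧ b ∈ G)) ∨ ∃ G' ∈ S, ¬ (a ∈ G' ∧ b ∈ G') ∧
      insert a (insert b G') ∈ S ∧ insert c G' = G := by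
  unfold edgeSub
  rw [mem_union, mem_filter, mem_image]
  constructor
  · rintro (h | ⟨G', h, h'⟩)
    · exact Or.inl h
    · rw [mem_filter] at h
      exact Or.inr ⟨G', h.1, h.2.1, h.2.2, h'⟩
  · rintro (h | ⟨G', h, h1, h2, h3⟩)
    · exact Or.inl h
    · exact Or.inr ⟨G', mem_filter.2 ⟨h, h1, h2⟩, h3⟩

/-- `S` is closed downwards, its faces have at most `d` vertices, `{a, b}` is an edge and `c` is not
a vertex. -/
structure EdgeData (S : Finset (Finset V)) (d : ℕ) (a b c : V) : Prop where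
  down : ∀ F ∈ S, ∀ G, G ⊆ F → G ∈ S
  card : ∀ F ∈ S, F.card ≤ d
  ne : a ≠ b
  edge : ({a, b} : Finset V) ∈ S
  new : ({c} : Finset V) ∉ S

private theorem es1_symm (h : EdgeData S d a b c) : EdgeData S d b a c :=
  ⟨h.down, h.card, h.ne.symm, by rw [pair_comm]; exact h.edge, h.new⟩

private theorem es1_sub_symm : edgeSub S a b c = edgeSub S b a c := by
  ext G
  rw [mem_edgeSub, mem_edgeSub]
  simp only [and_comm (a := a ∈ _), insert_comm a b]

private theorem es1_new (h : EdgeData S d a b c) {G : Finset V} (hG : G ∈ S) : c ∉ G :=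
  fun hc => h.new (h.down G hG _ (singleton_subset_iff.2 hc))

theorem hl_zero (h : EdgeData S d a b c) {F : Finset V} (hF : F ∉ S) : hl S d F = 0 := by
  unfold hl
  rw [filter_false_of_mem, sum_empty]
  intro G hG hFG
  exact hF (h.down G hG F hFG)

open Polynomial in
private theorem es1_sum (h : EdgeData S d a b c) (p : Finset V → Prop) [DecidablePred p]
    (f : Finset V → ℤ[X]) : ∑ G ∈ (edgeSub S a b c).filter p, f G =
      ∑ G ∈ S.filter (fun G => ¬ (a ∈ G ∧ b ∈ G) ∧ p G), f G +
      ∑ G ∈ S.filter (fun G => (¬ (a ∈ G ∧ b ∈ G) ∧ insert a (insert b G) ∈ S) ∧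
        p (insert c G)), f (insert c G) := by
  unfold edgeSub
  rw [filter_union, filter_filter, filter_image, sum_union, sum_image, filter_filter]
  · intro G hG G' hG' hGG
    rw [coe_filter] at hG hG'
    have h1 : c ∉ G := es1_new h (mem_filter.1 hG.1).1
    have h2 : c ∉ G' := es1_new h (mem_filter.1 hG'.1).1
    rw [← erase_insert h1, ← erase_insert h2]
    exact congrArg (fun s => s.erase c) hGG
  · rw [disjoint_left]
    intro G hG hG'
    obtain ⟨G', -, rfl⟩ := mem_image.1 hG'
    exact es1_new h (mem_filter.1 hG).1 (mem_insert_self c G')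

open Polynomial in
private theorem es1_bijA (h : EdgeData S d a b c) {F : Finset V} (hb : b ∉ F)
    (f : Finset V → ℤ[X]) :
    ∑ G ∈ S.filter (fun G => F ⊆ G ∧ (a ∈ G ∧ b ∉ G) ∧ insert a (insert b G) ∈ S), f G =
      ∑ H ∈ S.filter (fun H => insert a (insert b F) ⊆ H), f (H.erase b) := by
  refine sum_nbij' (fun G => insert b G) (fun H => H.erase b) ?_ ?_ ?_ ?_ ?_
  · intro G hG
    rw [mem_filter] at hG ⊢
    obtain ⟨-, h1, ⟨h2, h3⟩, h4⟩ := hG
    have h5 : insert a (insert b G) = insert b G := insert_eq_of_mem (mem_insert_of_mem h2)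
    rw [h5] at h4
    refine ⟨h4, ?_⟩
    rw [← h5]
    exact insert_subset_insert a (insert_subset_insert b h1)
  · intro H hH
    rw [mem_filter] at hH ⊢
    obtain ⟨h1, h2⟩ := hH
    have haH : a ∈ H := h2 (mem_insert_self _ _)
    have hbH : b ∈ H := h2 (mem_insert_of_mem (mem_insert_self _ _))
    refine ⟨h.down H h1 _ (erase_subset _ _), ?_, ⟨mem_erase.2 ⟨h.ne, haH⟩, notMem_erase _ _⟩, ?_⟩
    · intro x hx
      refine mem_erase.2 ⟨?_, h2 (mem_insert_of_mem (mem_insert_of_mem hx))⟩
      rintro rfl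
      exact hb hx
    · rw [insert_erase hbH, insert_eq_of_mem haH]
      exact h1
  · intro G hG
    exact erase_insert (mem_filter.1 hG).2.2.1.2
  · intro H hH
    exact insert_erase ((mem_filter.1 hH).2 (mem_insert_of_mem (mem_insert_self _ _)))
  · intro G hG
    rw [erase_insert (mem_filter.1 hG).2.2.1.2]

open Polynomial in
private theorem es1_bijB (h : EdgeData S d a b c) {F : Finset V} (ha : a ∉ F)
    (f : Finset V → ℤ[X]) :
    ∑ G ∈ S.filter (fun G => F ⊆ G ∧ (a ∉ G ∧ b ∈ G) ∧ insert a (insert b G) ∈ S), f G =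
      ∑ H ∈ S.filter (fun H => insert a (insert b F) ⊆ H), f (H.erase a) := by
  have h1 := es1_bijA (es1_symm h) ha f
  simp only [insert_comm b a] at h1
  rw [← h1]
  refine sum_congr (filter_congr fun G _ => ?_) fun _ _ => rfl
  rw [and_comm (a := a ∉ G)]

open Polynomial in
private theorem es1_bij0 (h : EdgeData S d a b c) {F : Finset V} (ha : a ∉ F) (hb : b ∉ F)
    (f : Finset V → ℤ[X]) :
    ∑ G ∈ S.filter (fun G => F ⊆ G ∧ (a ∉ G ∧ b ∉ G) ∧ insert a (insert b G) ∈ S), f G =
      ∑ H ∈ S.filter (fun H => insert a (insert b F) ⊆ H), f ((H.erase a).erase b) := by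
  have key : ∀ G : Finset V, a ∉ G → b ∉ G → ((insert a (insert b G)).erase a).erase b = G := by
    intro G h1 h2
    rw [erase_insert, erase_insert h2]
    rw [mem_insert]
    rintro (h3 | h3)
    · exact h.ne h3
    · exact h1 h3
  refine sum_nbij' (fun G => insert a (insert b G)) (fun H => (H.erase a).erase b) ?_ ?_ ?_ ?_ ?_
  · intro G hG
    rw [mem_filter] at hG ⊢
    obtain ⟨-, h1, -, h4⟩ := hG
    exact ⟨h4, insert_subset_insert a (insert_subset_insert b h1)⟩
  · intro H hH
    rw [mem_filter] at hH ⊢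
    obtain ⟨h1, h2⟩ := hH
    have haH : a ∈ H := h2 (mem_insert_self _ _)
    have hbH : b ∈ H := h2 (mem_insert_of_mem (mem_insert_self _ _))
    refine ⟨h.down H h1 _ ((erase_subset _ _).trans (erase_subset _ _)), ?_,
      ⟨fun h3 => notMem_erase a H (mem_of_mem_erase h3), notMem_erase _ _⟩, ?_⟩
    · intro x hx
      refine mem_erase.2 ⟨?_, mem_erase.2 ⟨?_, h2 (mem_insert_of_mem (mem_insert_of_mem hx))⟩⟩
      · rintro rfl
        exact hb hx
      · rintro rfl
        exact ha hx
    · rw [insert_erase (mem_erase.2 ⟨h.ne.symm, hbH⟩), insert_erase haH]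
      exact h1
  · intro G hG
    obtain ⟨-, -, ⟨h2, h3⟩, -⟩ := mem_filter.1 hG
    exact key G h2 h3
  · intro H hH
    have h2 := (mem_filter.1 hH).2
    have haH : a ∈ H := h2 (mem_insert_self _ _)
    have hbH : b ∈ H := h2 (mem_insert_of_mem (mem_insert_self _ _))
    show insert a (insert b ((H.erase a).erase b)) = H
    rw [insert_erase (mem_erase.2 ⟨h.ne.symm, hbH⟩), insert_erase haH]
  · intro G hG
    obtain ⟨-, -, ⟨h2, h3⟩, -⟩ := mem_filter.1 hG
    rw [key G h2 h3]

open Polynomial in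
/-- The sum over the new faces, for `a, b ∉ F`. -/
private theorem es1_new_sum (h : EdgeData S d a b c) {F : Finset V} (ha : a ∉ F) (hb : b ∉ F)
    (p : Finset V → Prop) [DecidablePred p] (hp : ∀ G ∈ S, (p (insert c G) ↔ F ⊆ G))
    (f : Finset V → ℤ[X]) :
    ∑ G ∈ S.filter (fun G => (¬ (a ∈ G ∧ b ∈ G) ∧ insert a (insert b G) ∈ S) ∧
        p (insert c G)), f (insert c G) =
      ∑ H ∈ S.filter (fun H => insert a (insert b F) ⊆ H), (f (insert c (H.erase b)) +
        f (insert c (H.erase a)) + f (insert c ((H.erase a).erase b))) := by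
  rw [sum_add_distrib, sum_add_distrib, ← es1_bijA h hb (fun G => f (insert c G)),
    ← es1_bijB h ha (fun G => f (insert c G)), ← es1_bij0 h ha hb (fun G => f (insert c G)),
    ← sum_union, ← sum_union]
  · refine sum_congr ?_ fun _ _ => rfl
    ext G
    simp only [mem_filter, mem_union]
    constructor
    · rintro ⟨h1, ⟨h2, h3⟩, h4⟩
      rw [hp G h1] at h4
      by_cases h5 : a ∈ G
      · exact Or.inl (Or.inl ⟨h1, h4, ⟨h5, fun h6 => h2 ⟨h5, h6⟩⟩, h3⟩)
      · by_cases h6 : b ∈ G
        · exact Or.inl (Or.inr ⟨h1, h4, ⟨h5, h6⟩, h3⟩)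
        · exact Or.inr ⟨h1, h4, ⟨h5, h6⟩, h3⟩
    · rintro ((⟨h1, h2, h3, h4⟩ | ⟨h1, h2, h3, h4⟩) | ⟨h1, h2, h3, h4⟩)
      · exact ⟨h1, ⟨fun h5 => h3.2 h5.2, h4⟩, (hp G h1).2 h2⟩
      · exact ⟨h1, ⟨fun h5 => h3.1 h5.1, h4⟩, (hp G h1).2 h2⟩
      · exact ⟨h1, ⟨fun h5 => h3.1 h5.1, h4⟩, (hp G h1).2 h2⟩
  · rw [disjoint_left]
    intro G h1 h2
    rw [mem_union, mem_filter, mem_filter] at h1
    rw [mem_filter] at h2
    rcases h1 with h1 | h1
    · exact h2.2.2.1.1 h1.2.2.1.1
    · exact h2.2.2.1.2 h1.2.2.1.2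
  · rw [disjoint_left]
    intro G h1 h2
    rw [mem_filter] at h1 h2
    exact h2.2.2.1.1 h1.2.2.1.1

open Polynomial in
/-- The sum over the new faces, for `a ∈ F`, `b ∉ F`. -/
private theorem es1_new_sumA (h : EdgeData S d a b c) {F : Finset V} (ha : a ∈ F) (hb : b ∉ F)
    (p : Finset V → Prop) [DecidablePred p] (hp : ∀ G ∈ S, (p (insert c G) ↔ F ⊆ G))
    (f : Finset V → ℤ[X]) :
    ∑ G ∈ S.filter (fun G => (¬ (a ∈ G ∧ b ∈ G) ∧ insert a (insert b G) ∈ S) ∧
        p (insert c G)), f (insert c G) =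
      ∑ H ∈ S.filter (fun H => insert b F ⊆ H), f (insert c (H.erase b)) := by
  have h0 := es1_bijA h hb (fun G => f (insert c G))
  have h1 : insert a (insert b F) = insert b F := insert_eq_of_mem (mem_insert_of_mem ha)
  rw [h1] at h0
  rw [← h0]
  refine sum_congr (filter_congr fun G hG => ?_) fun _ _ => rfl
  rw [hp G hG]
  constructor
  · rintro ⟨⟨h2, h3⟩, h4⟩
    exact ⟨h4, ⟨h4 ha, fun h5 => h2 ⟨h4 ha, h5⟩⟩, h3⟩
  · rintro ⟨h2, ⟨h3, h4⟩, h5⟩
    exact ⟨⟨fun h6 => h4 h6.2, h5⟩, h2⟩

open Polynomial in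
/-- The sum over the old faces. -/
private theorem es1_old_sum {F : Finset V} (f : Finset V → ℤ[X]) :
    ∑ G ∈ S.filter (fun G => ¬ (a ∈ G ∧ b ∈ G) ∧ F ⊆ G), f G =
      ∑ G ∈ S.filter (fun G => F ⊆ G), f G -
      ∑ H ∈ S.filter (fun H => insert a (insert b F) ⊆ H), f H := by
  rw [eq_sub_iff_add_eq, ← sum_union]
  · refine sum_congr ?_ fun _ _ => rfl
    ext G
    simp only [mem_filter, mem_union, insert_subset_iff]
    tauto
  · rw [disjoint_left]
    intro G h1 h2
    rw [mem_filter] at h1 h2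
    simp only [insert_subset_iff] at h2
    exact h1.2.1 ⟨h2.2.1, h2.2.2.1⟩

private theorem es1_sub_iff (h : EdgeData S d a b c) {F : Finset V} (hF : F ∈ S) (G : Finset V) :
    F ⊆ insert c G ↔ F ⊆ G := subset_insert_iff_of_notMem (es1_new h hF)

private theorem es1_sub_iff' (h : EdgeData S d a b c) {F : Finset V} (hF : F ∈ S) (G : Finset V) :
    insert c F ⊆ insert c G ↔ F ⊆ G := by
  rw [insert_subset_iff, es1_sub_iff h hF]
  exact and_iff_right (mem_insert_self _ _)

private theorem es1_card (h : EdgeData S d a b c) {H : Finset V} (hH : H ∈ S) {x : V}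
    (hx : x ∈ H) : (insert c (H.erase x)).card = H.card := by
  rw [card_insert_of_notMem (fun h1 => es1_new h hH (mem_of_mem_erase h1)),
    card_erase_add_one hx]

private theorem es1_card' (h : EdgeData S d a b c) {H : Finset V} (hH : H ∈ S)
    (ha : a ∈ H) (hb : b ∈ H) : (insert c ((H.erase a).erase b)).card + 1 = H.card := by
  rw [card_insert_of_notMem
    (fun h1 => es1_new h hH (mem_of_mem_erase (mem_of_mem_erase h1))),
    card_erase_add_one (mem_erase.2 ⟨h.ne.symm, hb⟩), card_erase_add_one ha]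

open Polynomial in
theorem hl_old (h : EdgeData S d a b c) {F : Finset V} (hF : F ∈ S) (ha : a ∉ F) (hb : b ∉ F) :
    hl (edgeSub S a b c) d F = hl S d F + X * hl S d (insert a (insert b F)) := by
  have hc2 : (insert a (insert b F)).card = F.card + 2 := by
    rw [card_insert_of_notMem, card_insert_of_notMem hb]
    rw [mem_insert]
    rintro (h3 | h3)
    · exact h.ne h3
    · exact ha h3
  unfold hl
  rw [es1_sum h, es1_old_sum, es1_new_sum h ha hb (fun G => F ⊆ G)
    (fun G _ => es1_sub_iff h hF G)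
    (fun G => X ^ (G.card - F.card) * (1 - X) ^ (d - G.card)), sub_add, sub_eq_add_neg]
  congr 1
  rw [← sum_sub_distrib, ← sum_neg_distrib, mul_sum]
  refine sum_congr rfl fun H hH => ?_
  rw [mem_filter] at hH
  obtain ⟨hH, hs⟩ := hH
  have haH : a ∈ H := hs (mem_insert_self _ _)
  have hbH : b ∈ H := hs (mem_insert_of_mem (mem_insert_self _ _))
  have h1 := card_le_card hs
  have h2 := h.card H hH
  have h3 := es1_card' h hH haH hbH
  rw [es1_card h hH haH, es1_card h hH hbH]
  rw [hc2] at h1 ⊢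
  obtain ⟨r, hr⟩ := Nat.exists_eq_add_of_le h1
  obtain ⟨q, hq⟩ := Nat.exists_eq_add_of_le h2
  have e1 : H.card - F.card = r + 2 := by omega
  have e2 : H.card - (F.card + 2) = r := by omega
  have e3 : (insert c ((H.erase a).erase b)).card - F.card = r + 1 := by omega
  have e4 : d - (insert c ((H.erase a).erase b)).card = q + 1 := by omega
  have e5 : d - H.card = q := by omega
  rw [e1, e2, e3, e4, e5]
  ring

theorem hl_oldA (h : EdgeData S d a b c) {F : Finset V} (hF : F ∈ S) (ha : a ∈ F) (hb : b ∉ F) :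
    hl (edgeSub S a b c) d F = hl S d F := by
  have h0 : insert a (insert b F) = insert b F := insert_eq_of_mem (mem_insert_of_mem ha)
  unfold hl
  rw [es1_sum h, es1_old_sum, es1_new_sumA h ha hb (fun G => F ⊆ G)
    (fun G _ => es1_sub_iff h hF G)
    (fun G => Polynomial.X ^ (G.card - F.card) * (1 - Polynomial.X) ^ (d - G.card)), h0,
    sub_add, ← sum_sub_distrib]
  refine sub_eq_self.2 (sum_eq_zero ?_)
  intro H hH
  rw [mem_filter] at hH
  obtain ⟨hH, hs⟩ := hH
  rw [es1_card h hH (hs (mem_insert_self _ _)), sub_self]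

theorem hl_oldB (h : EdgeData S d a b c) {F : Finset V} (hF : F ∈ S) (ha : a ∉ F) (hb : b ∈ F) :
    hl (edgeSub S a b c) d F = hl S d F := by
  rw [es1_sub_symm]
  exact hl_oldA (es1_symm h) hF hb ha

open Polynomial in
theorem hl_new (h : EdgeData S d a b c) {F : Finset V} (hF : insert a (insert b F) ∈ S)
    (ha : a ∉ F) (hb : b ∉ F) :
    hl (edgeSub S a b c) d (insert c F) = (1 + X) * hl S d (insert a (insert b F)) := by
  have hFS : F ∈ S := h.down _ hF _ ((subset_insert _ _).trans (subset_insert _ _))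
  have hc2 : (insert a (insert b F)).card = F.card + 2 := by
    rw [card_insert_of_notMem, card_insert_of_notMem hb]
    rw [mem_insert]
    rintro (h3 | h3)
    · exact h.ne h3
    · exact ha h3
  have hc1 : (insert c F).card = F.card + 1 := card_insert_of_notMem (es1_new h hFS)
  unfold hl
  rw [es1_sum h, es1_new_sum h ha hb (fun G => insert c F ⊆ G)
    (fun G _ => es1_sub_iff' h hFS G)
    (fun G => X ^ (G.card - (insert c F).card) * (1 - X) ^ (d - G.card)),
    filter_false_of_mem, sum_empty, zero_add, mul_sum]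
  · refine sum_congr rfl fun H hH => ?_
    rw [mem_filter] at hH
    obtain ⟨hH, hs⟩ := hH
    have haH : a ∈ H := hs (mem_insert_self _ _)
    have hbH : b ∈ H := hs (mem_insert_of_mem (mem_insert_self _ _))
    have h1 := card_le_card hs
    have h2 := h.card H hH
    have h3 := es1_card' h hH haH hbH
    rw [es1_card h hH haH, es1_card h hH hbH, hc1]
    rw [hc2] at h1 ⊢
    obtain ⟨r, hr⟩ := Nat.exists_eq_add_of_le h1
    obtain ⟨q, hq⟩ := Nat.exists_eq_add_of_le h2
    have e1 : H.card - (F.card + 1) = r + 1 := by omega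
    have e2 : H.card - (F.card + 2) = r := by omega
    have e3 : (insert c ((H.erase a).erase b)).card - (F.card + 1) = r := by omega
    have e4 : d - (insert c ((H.erase a).erase b)).card = q + 1 := by omega
    have e5 : d - H.card = q := by omega
    rw [e1, e2, e3, e4, e5]
    ring
  · rintro G hG ⟨-, h1⟩
    exact es1_new h hG (h1 (mem_insert_self _ _))

theorem hl_newA (h : EdgeData S d a b c) {F : Finset V} (hF : insert b F ∈ S)
    (ha : a ∈ F) (hb : b ∉ F) :
    hl (edgeSub S a b c) d (insert c F) = hl S d (insert b F) := by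
  have hFS : F ∈ S := h.down _ hF _ (subset_insert _ _)
  have hc2 : (insert b F).card = F.card + 1 := card_insert_of_notMem hb
  have hc1 : (insert c F).card = F.card + 1 := card_insert_of_notMem (es1_new h hFS)
  unfold hl
  rw [es1_sum h, es1_new_sumA h ha hb (fun G => insert c F ⊆ G)
    (fun G _ => es1_sub_iff' h hFS G)
    (fun G => Polynomial.X ^ (G.card - (insert c F).card) *
      (1 - Polynomial.X) ^ (d - G.card)), filter_false_of_mem, sum_empty, zero_add]
  · refine sum_congr rfl fun H hH => ?_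
    rw [mem_filter] at hH
    obtain ⟨hH, hs⟩ := hH
    rw [es1_card h hH (hs (mem_insert_self _ _)), hc1, hc2]
  · rintro G hG ⟨-, h1⟩
    exact es1_new h hG (h1 (mem_insert_self _ _))

theorem hl_newB (h : EdgeData S d a b c) {F : Finset V} (hF : insert a F ∈ S)
    (ha : a ∉ F) (hb : b ∈ F) :
    hl (edgeSub S a b c) d (insert c F) = hl S d (insert a F) := by
  rw [es1_sub_symm]
  exact hl_newA (es1_symm h) hF hb ha

end Pool.Agent.MP19e880.AR
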