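import Pool.Agent.Lib.MP_19e880_co_AR.Es1

/-!
Subdivisions of edges preserve gamma nonnegativity of all links, and flagness.
-/

set_option autoImplicit false
set_option linter.unusedSectionVars false

open Finset Module

namespace Pool.Agent.MP19e880.AR

variable {V : Type*} [DecidableEq V] {S : Finset (Finset V)} {a b c : V} {d : ℕ}

open Polynomial in
theorem GPos.zero (e : ℕ) : GPos e 0 := by
  refine ⟨fun _ => 0, ?_⟩
  simp

open Polynomial in
theorem GPos.add {e : ℕ} {P Q : ℤ[X]} (h : GPos e P) (h' : GPos e Q) : GPos e (P + Q) := by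
  obtain ⟨g, rfl⟩ := h
  obtain ⟨g', rfl⟩ := h'
  refine ⟨fun j => g j + g' j, ?_⟩
  rw [← sum_add_distrib]
  refine sum_congr rfl (fun j _ => ?_)
  simp only [Nat.cast_add, C_add]
  ring

open Polynomial in
theorem GPos.mul_X {e : ℕ} {P : ℤ[X]} (h : GPos e P) : GPos (e + 2) (X * P) := by
  obtain ⟨g, rfl⟩ := h
  refine ⟨fun j => if j = 0 then 0 else g (j - 1), ?_⟩
  have h1 : (e + 2) / 2 + 1 = (e / 2 + 1) + 1 := by omega
  rw [h1, mul_sum]
  conv_rhs => rw [sum_range_succ']
  beta_reduce
  have h0 : (C ((((if (0 : ℕ) = 0 then 0 else g (0 - 1)) : ℕ)) : ℤ) * (X : ℤ[X]) ^ 0 *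
      (1 + X) ^ (e + 2 - 2 * 0)) = 0 := by simp
  rw [h0, add_zero]
  refine sum_congr rfl (fun j _ => ?_)
  have h2 : e + 2 - 2 * (j + 1) = e - 2 * j := by omega
  rw [h2, if_neg (Nat.succ_ne_zero j), Nat.add_sub_cancel, pow_succ]
  ring

open Polynomial in
theorem GPos.mul_one_add_X {e : ℕ} {P : ℤ[X]} (h : GPos e P) : GPos (e + 1) ((1 + X) * P) := by
  obtain ⟨g, rfl⟩ := h
  refine ⟨fun j => if 2 * j ≤ e then g j else 0, ?_⟩
  have hsub : range (e / 2 + 1) ⊆ range ((e + 1) / 2 + 1) := by
    intro j hj
    rw [mem_range] at hj ⊢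
    omega
  rw [← sum_subset hsub ?_, mul_sum]
  · refine sum_congr rfl (fun j hj => ?_)
    rw [mem_range] at hj
    have h1 : 2 * j ≤ e := by omega
    have h2 : e + 1 - 2 * j = (e - 2 * j) + 1 := by omega
    beta_reduce
    rw [if_pos h1, h2, pow_succ]
    ring
  · intro j _ hj
    rw [mem_range] at hj
    have h1 : ¬ 2 * j ≤ e := by omega
    beta_reduce
    rw [if_neg h1]
    simp

private theorem es2_ca (h : EdgeData S d a b c) : c ≠ a := by
  intro hca
  apply h.new
  rw [hca]
  exact h.down _ h.edge _ (by simp)

private theorem es2_cb (h : EdgeData S d a b c) : c ≠ b := by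
  intro hcb
  apply h.new
  rw [hcb]
  exact h.down _ h.edge _ (by simp)

private theorem es2_c_notMem (h : EdgeData S d a b c) {G : Finset V} (hG : G ∈ S) : c ∉ G := by
  intro hc
  exact h.new (h.down _ hG _ (by simpa using hc))

theorem edgeSub_pos (h : EdgeData S d a b c) (hS : ∀ σ ∈ S, GPos (d - σ.card) (hl S d σ)) :
    ∀ σ ∈ edgeSub S a b c, GPos (d - σ.card) (hl (edgeSub S a b c) d σ) := by
  intro σ hσ
  rcases mem_edgeSub.1 hσ with ⟨hS', hab⟩ | ⟨G, hG, hab, hins, rfl⟩
  · by_cases ha : a ∈ σ
    · have hb : b ∉ σ := fun hb => hab ⟨ha, hb⟩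
      rw [hl_oldA h hS' ha hb]
      exact hS σ hS'
    · by_cases hb : b ∈ σ
      · rw [hl_oldB h hS' ha hb]
        exact hS σ hS'
      · rw [hl_old h hS' ha hb]
        refine (hS σ hS').add ?_
        by_cases hi : insert a (insert b σ) ∈ S
        · have hcard : (insert a (insert b σ)).card = σ.card + 2 := by
            rw [card_insert_of_notMem, card_insert_of_notMem hb]
            simp only [mem_insert, not_or]
            exact ⟨h.ne, ha⟩
          have hle := h.card _ hi
          have h1 := (hS _ hi).mul_X
          rw [hcard] at h1 hle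
          have h2 : d - (σ.card + 2) + 2 = d - σ.card := by omega
          rwa [h2] at h1
        · rw [hl_zero h hi, mul_zero]
          exact GPos.zero _
  · have hc : c ∉ G := es2_c_notMem h hG
    have hcard : (insert c G).card = G.card + 1 := card_insert_of_notMem hc
    rw [hcard]
    by_cases ha : a ∈ G
    · have hb : b ∉ G := fun hb => hab ⟨ha, hb⟩
      have hins' : insert b G ∈ S := by
        rw [insert_eq_of_mem (mem_insert_of_mem ha)] at hins
        exact hins
      rw [hl_newA h hins' ha hb]
      have h1 := hS _ hins'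
      rwa [card_insert_of_notMem hb] at h1
    · by_cases hb : b ∈ G
      · have hins' : insert a G ∈ S := by
          rw [insert_eq_of_mem hb] at hins
          exact hins
        rw [hl_newB h hins' ha hb]
        have h1 := hS _ hins'
        rwa [card_insert_of_notMem ha] at h1
      · rw [hl_new h hins ha hb]
        have hcard2 : (insert a (insert b G)).card = G.card + 2 := by
          rw [card_insert_of_notMem, card_insert_of_notMem hb]
          simp only [mem_insert, not_or]
          exact ⟨h.ne, ha⟩
        have hle := h.card _ hins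
        have h1 := (hS _ hins).mul_one_add_X
        rw [hcard2] at h1 hle
        have h2 : d - (G.card + 2) + 1 = d - (G.card + 1) := by omega
        rwa [h2] at h1

theorem edgeSub_down (h : EdgeData S d a b c) :
    ∀ F ∈ edgeSub S a b c, ∀ G, G ⊆ F → G ∈ edgeSub S a b c := by
  intro F hF G hGF
  rw [mem_edgeSub] at hF ⊢
  rcases hF with ⟨hFS, hab⟩ | ⟨F', hF', hab, hins, rfl⟩
  · exact Or.inl ⟨h.down _ hFS _ hGF, fun hh => hab ⟨hGF hh.1, hGF hh.2⟩⟩
  · by_cases hc : c ∈ G
    · right
      have hsub : G.erase c ⊆ F' := by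
        intro x hx
        rw [mem_erase] at hx
        rcases mem_insert.1 (hGF hx.2) with h1 | h1
        · exact absurd h1 hx.1
        · exact h1
      refine ⟨G.erase c, h.down _ hF' _ hsub, fun hh => hab ⟨hsub hh.1, hsub hh.2⟩,
        h.down _ hins _ ?_, insert_erase hc⟩
      exact insert_subset_insert _ (insert_subset_insert _ hsub)
    · left
      have hsub : G ⊆ F' := by
        intro x hx
        rcases mem_insert.1 (hGF hx) with h1 | h1
        · exact absurd (h1 ▸ hx) hc
        · exact h1
      exact ⟨h.down _ hF' _ hsub, fun hh => hab ⟨hsub hh.1, hsub hh.2⟩⟩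

theorem edgeSub_card (h : EdgeData S d a b c) :
    ∀ F ∈ edgeSub S a b c, F.card ≤ d := by
  intro F hF
  rcases mem_edgeSub.1 hF with ⟨hFS, -⟩ | ⟨G, hG, hab, hins, rfl⟩
  · exact h.card _ hFS
  · have h1 : (insert c G).card ≤ G.card + 1 := card_insert_le _ _
    have h2 : G.card + 1 ≤ (insert a (insert b G)).card := by
      apply Nat.succ_le_of_lt
      apply card_lt_card
      rw [ssubset_iff_of_subset]
      · by_cases ha : a ∈ G
        · exact ⟨b, by simp, fun hb => hab ⟨ha, hb⟩⟩
        · exact ⟨a, by simp, ha⟩
      · exact (subset_insert _ _).trans (subset_insert _ _)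
    exact h1.trans (h2.trans (h.card _ hins))

theorem edgeSub_flag (h : EdgeData S d a b c)
    (hf : ∀ F : Finset V, (∀ x ∈ F, ∀ y ∈ F, ({x, y} : Finset V) ∈ S) → F ∈ S) :
    ∀ F : Finset V, (∀ x ∈ F, ∀ y ∈ F, ({x, y} : Finset V) ∈ edgeSub S a b c) →
      F ∈ edgeSub S a b c := by
  intro F hF
  have hca := es2_ca h
  have hcb := es2_cb h
  -- the edge is not in the subdivision
  have hnab : ¬ (a ∈ F ∧ b ∈ F) := by
    rintro ⟨ha, hb⟩
    rcases mem_edgeSub.1 (hF a ha b hb) with ⟨-, h1⟩ | ⟨G', -, -, -, h1⟩
    · exact h1 ⟨by simp, by simp⟩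
    · have hc : c ∈ ({a, b} : Finset V) := by
        rw [← h1]
        exact mem_insert_self _ _
      rw [mem_insert, mem_singleton] at hc
      exact hc.elim hca hcb
  -- old pairs are in `S`
  have hold : ∀ x ∈ F, ∀ y ∈ F, x ≠ c → y ≠ c → ({x, y} : Finset V) ∈ S := by
    intro x hx y hy hxc hyc
    rcases mem_edgeSub.1 (hF x hx y hy) with ⟨h1, -⟩ | ⟨G', -, -, -, h1⟩
    · exact h1
    · exfalso
      have hc : c ∈ ({x, y} : Finset V) := by
        rw [← h1]
        exact mem_insert_self _ _
      rw [mem_insert, mem_singleton] at hc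
      exact hc.elim (fun h => hxc h.symm) (fun h => hyc h.symm)
  rw [mem_edgeSub]
  by_cases hc : c ∈ F
  · right
    -- pairs with `c`
    have hnew : ∀ x ∈ F, x ≠ c → insert a (insert b ({x} : Finset V)) ∈ S := by
      intro x hx hxc
      rcases mem_edgeSub.1 (hF c hc x hx) with ⟨h1, -⟩ | ⟨G', -, -, h2, h1⟩
      · exact absurd (h.down _ h1 {c} (by simp)) h.new
      · have hxG : x ∈ G' := by
          have h3 : x ∈ insert c G' := by
            rw [h1]
            simp
          exact (mem_insert.1 h3).resolve_left hxc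
        refine h.down _ h2 _ ?_
        exact insert_subset_insert _ (insert_subset_insert _ (by simpa using hxG))
    have hT : insert a (insert b (F.erase c)) ∈ S := by
      apply hf
      have haux : ∀ x ∈ F.erase c, x ∈ F ∧ x ≠ c := fun x hx =>
        ⟨mem_of_mem_erase hx, ne_of_mem_erase hx⟩
      intro x hx y hy
      rw [mem_insert, mem_insert] at hx hy
      rcases hx with rfl | rfl | hx
      · rcases hy with rfl | rfl | hy
        · exact h.down _ h.edge _ (by simp)
        · exact h.edge
        · exact h.down _ (hnew y (haux y hy).1 (haux y hy).2) _ (by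
            intro z hz
            simp only [mem_insert, mem_singleton] at hz ⊢
            tauto)
      · rcases hy with rfl | rfl | hy
        · exact h.down _ h.edge _ (by
            intro z hz
            simp only [mem_insert, mem_singleton] at hz ⊢
            tauto)
        · exact h.down _ h.edge _ (by simp)
        · exact h.down _ (hnew y (haux y hy).1 (haux y hy).2) _ (by
            intro z hz
            simp only [mem_insert, mem_singleton] at hz ⊢
            tauto)
      · rcases hy with rfl | rfl | hy
        · exact h.down _ (hnew x (haux x hx).1 (haux x hx).2) _ (by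
            intro z hz
            simp only [mem_insert, mem_singleton] at hz ⊢
            tauto)
        · exact h.down _ (hnew x (haux x hx).1 (haux x hx).2) _ (by
            intro z hz
            simp only [mem_insert, mem_singleton] at hz ⊢
            tauto)
        · exact hold x (haux x hx).1 y (haux y hy).1 (haux x hx).2 (haux y hy).2
    refine ⟨F.erase c, h.down _ hT _ ((subset_insert _ _).trans (subset_insert _ _)), ?_, hT,
      insert_erase hc⟩
    exact fun hh => hnab ⟨mem_of_mem_erase hh.1, mem_of_mem_erase hh.2⟩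
  · left
    refine ⟨hf F (fun x hx y hy => hold x hx y hy ?_ ?_), hnab⟩
    · rintro rfl
      exact hc hx
    · rintro rfl
      exact hc hy

end Pool.Agent.MP19e880.AR
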