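import Pool.Agent.Lib.MP_19e880_co_AR.Fm

/-!
Linear relations between the coordinates.
-/

set_option autoImplicit false
set_option linter.unusedSectionVars false

open Finset Module

namespace Pool.Agent.MP19e880.AR

variable {d : ℕ} {V 𝒞 E : Type*} [Fintype V] [DecidableEq V] [Fintype 𝒞] [AddCommGroup E]
  [Module ℝ E]


/-- Linear functions with prescribed values on the rays of a chamber. -/
theorem NFan.exists_fun (Φ : NFan d V 𝒞 E) (C : 𝒞) (g : V → ℝ) :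
    ∃ y : E →ₗ[ℝ] ℝ, ∀ v ∈ Φ.F C, y (Φ.p v) = g v := by
  have hli := Φ.li C
  obtain ⟨y, hy⟩ := LinearMap.exists_extend
    ((Basis.span hli).constr ℝ (fun v : Φ.F C => g v))
  refine ⟨y, fun v hv => ?_⟩
  have h1 : ((Basis.span hli) ⟨v, hv⟩ : E) = Φ.p v := by
    rw [Basis.span_apply hli ⟨v, hv⟩]
  rw [← h1]
  have h2 := LinearMap.congr_fun hy ((Basis.span hli) ⟨v, hv⟩)
  rw [Basis.constr_basis] at h2
  exact h2

theorem NFan.rel (Φ : NFan d V 𝒞 E) (y : E →ₗ[ℝ] ℝ) (C : 𝒞) :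
    ∑ v, y (Φ.p v) * Φ.D v C = y Φ.u := by
  rw [← Φ.D_sum C, map_sum]
  refine sum_congr rfl (fun v _ => ?_)
  rw [map_smul, smul_eq_mul, mul_comm]

/-- `1` is a combination of the coordinates outside a face `σ`. -/
theorem NFan.rel_one (Φ : NFan d V 𝒞 E) {σ : Finset V} (hσ : Φ.Face σ) (hc : σ.card < d) :
    ∃ a : V → ℝ, (∀ v ∈ σ, a v = 0) ∧ ∀ C, ∑ v, a v * Φ.D v C = 1 := by
  obtain ⟨C0, hC0⟩ := hσ
  obtain ⟨w, hw, hwσ⟩ := Finset.exists_mem_notMem_of_card_lt_card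
    (show σ.card < (Φ.F C0).card by rw [Φ.card C0]; exact hc)
  obtain ⟨y, hy⟩ := Φ.exists_fun C0 (fun v => if v = w then (Φ.D w C0)⁻¹ else 0)
  have h1 : y Φ.u = 1 := by
    rw [← Φ.rel y C0, Finset.sum_eq_single w]
    · rw [hy w hw, if_pos rfl]
      exact inv_mul_cancel₀ (Φ.D_ne C0 w hw)
    · intro v _ hv
      by_cases h2 : v ∈ Φ.F C0
      · rw [hy v h2, if_neg hv, zero_mul]
      · rw [Φ.D_zero C0 v h2, mul_zero]
    · intro h2
      exact absurd (mem_univ w) h2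
  refine ⟨fun v => y (Φ.p v), fun v hv => ?_, fun C => ?_⟩
  · have h2 : v ≠ w := fun h3 => hwσ (h3 ▸ hv)
    show y (Φ.p v) = 0
    rw [hy v (hC0 hv), if_neg h2]
  · rw [← h1]
    exact Φ.rel y C

/-- The coordinate of `v ∈ σ` is a combination of `1` and the coordinates outside `σ`. -/
theorem NFan.rel_self (Φ : NFan d V 𝒞 E) {σ : Finset V} (hσ : Φ.Face σ) {v : V} (hv : v ∈ σ) :
    ∃ (a : V → ℝ) (k : ℝ), (∀ w ∈ σ, a w = 0) ∧ ∀ C, Φ.D v C = k + ∑ w, a w * Φ.D w C := by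
  obtain ⟨C0, hC0⟩ := hσ
  obtain ⟨y, hy⟩ := Φ.exists_fun C0 (fun w => if w = v then 1 else 0)
  refine ⟨fun w => if w ∈ σ then 0 else -y (Φ.p w), y Φ.u, fun w hw => if_pos hw, fun C => ?_⟩
  have h1 : ∀ w, y (Φ.p w) * Φ.D w C = (if w = v then Φ.D v C else 0) -
      (if w ∈ σ then 0 else -y (Φ.p w)) * Φ.D w C := by
    intro w
    by_cases h2 : w = v
    · subst h2
      rw [hy w (hC0 hv), if_pos rfl, if_pos rfl, if_pos hv]
      ring
    · by_cases h3 : w ∈ σ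
      · rw [hy w (hC0 h3), if_neg h2, if_neg h2, if_pos h3]
        ring
      · rw [if_neg h2, if_neg h3]
        ring
  have h2 := Φ.rel y C
  rw [Finset.sum_congr rfl (fun w _ => h1 w), Finset.sum_sub_distrib,
    Finset.sum_ite_eq' Finset.univ v, if_pos (mem_univ v)] at h2
  linarith

theorem Conv.LL_eq {Φ : NFan d V 𝒞 E} (c : Conv Φ) (C : 𝒞) :
    c.LL C = ∑ v, c.ω v * Φ.D v C := by
  unfold Conv.LL
  rw [← Φ.rel (c.y C) C]
  refine sum_congr rfl (fun v _ => ?_)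
  by_cases h1 : v ∈ Φ.F C
  · rw [c.y_eq C v h1]
  · rw [Φ.D_zero C v h1, mul_zero, mul_zero]

end Pool.Agent.MP19e880.AR
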