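import Pool.Agent.Lib.MP_19e880_co_AR.Fb

/-!
The sum over all chambers vanishes in low degree.
-/

set_option autoImplicit false
set_option linter.unusedSectionVars false

open Finset Module

namespace Pool.Agent.MP19e880.AR

variable {d : ℕ} {V 𝒞 E : Type*} [Fintype V] [DecidableEq V] [Fintype 𝒞] [AddCommGroup E]
  [Module ℝ E]

/-- The sum over all chambers as a linear functional. -/
private noncomputable def fcL (Φ : NFan d V 𝒞 E) (σ : Finset V) : (𝒞 → ℝ) →ₗ[ℝ] ℝ :=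
  ∑ C, (Φ.wt C * Φ.xs σ C) • LinearMap.proj C

private theorem fcL_apply (Φ : NFan d V 𝒞 E) (σ : Finset V) (f : 𝒞 → ℝ) :
    fcL Φ σ f = ∑ C, Φ.wt C * Φ.xs σ C * f C := by
  simp [fcL, LinearMap.sum_apply]

private theorem fcL_insert (Φ : NFan d V 𝒞 E) {σ : Finset V} {v : V} (hv : v ∉ σ) (f : 𝒞 → ℝ) :
    fcL Φ σ (Φ.D v * f) = fcL Φ (insert v σ) f := by
  rw [fcL_apply, fcL_apply]
  refine sum_congr rfl fun C _ => ?_
  rw [Φ.xs_insert hv, Pi.mul_apply]
  ring

private theorem fcL_notFace (Φ : NFan d V 𝒞 E) {σ : Finset V} (h : ¬ Φ.Face σ) (f : 𝒞 → ℝ) :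
    fcL Φ σ f = 0 := by
  rw [fcL_apply]
  refine sum_eq_zero fun C _ => ?_
  rw [Φ.xs_zero fun hC => h ⟨C, hC⟩]
  ring

/-- The term of a chamber of the star of a wall. -/
private theorem fc_term (Φ : NFan d V 𝒞 E) {C : 𝒞} {v : V} (hv : v ∈ Φ.F C) :
    Φ.wt C * Φ.xs ((Φ.F C).erase v) C = (Φ.μ C * Φ.D v C)⁻¹ := by
  have h1 : ∏ w ∈ (Φ.F C).erase v, Φ.D w C ≠ 0 :=
    prod_ne_zero_iff.mpr fun w hw => Φ.D_ne C w (mem_of_mem_erase hw)
  have h2 := Φ.D_ne C v hv
  have h3 := (Φ.μ_pos C).ne'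
  rw [NFan.wt, NFan.xs, Finset.prod_apply, ← mul_prod_erase _ _ hv]
  field_simp

private theorem fc_zero (Φ : NFan d V 𝒞 E) {σ : Finset V} (hσ : Φ.Face σ)
    (hc : σ.card + 1 = d) : ∑ C, Φ.wt C * Φ.xs σ C = 0 := by
  classical
  obtain ⟨C, hC⟩ := hσ
  have h1 : (Φ.F C \ σ).card = 1 := by
    rw [card_sdiff_of_subset hC, Φ.card C]
    omega
  obtain ⟨v, hv⟩ := card_eq_one.mp h1
  have hvC : v ∈ Φ.F C := (mem_sdiff.mp (hv ▸ mem_singleton_self v)).1
  have hσv : σ = (Φ.F C).erase v := by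
    rw [← sdiff_singleton_eq_erase, ← hv, Finset.sdiff_sdiff_eq_self hC]
  obtain ⟨C', v', hne, hv', her, hμ, huniq⟩ := Φ.wall C v hvC
  have h2 : ∑ C'', Φ.wt C'' * Φ.xs σ C'' = ∑ C'' ∈ {C, C'}, Φ.wt C'' * Φ.xs σ C'' := by
    symm
    refine sum_subset (subset_univ _) fun C'' _ hC'' => ?_
    rw [mem_insert, mem_singleton] at hC''
    rw [Φ.xs_zero fun h => hC'' (huniq C'' (hσv ▸ h)), mul_zero]
  rw [h2, sum_pair hne.symm]
  have h3 : Φ.wt C * Φ.xs σ C = (Φ.μ C * Φ.D v C)⁻¹ := by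
    rw [hσv]
    exact fc_term Φ hvC
  have h4 : Φ.wt C' * Φ.xs σ C' = (Φ.μ C' * Φ.D v' C')⁻¹ := by
    rw [hσv, ← her]
    exact fc_term Φ hv'
  rw [h3, h4, hμ, inv_neg]
  ring

private theorem fc_main (Φ : NFan d V 𝒞 E) : ∀ (n : ℕ) (σ : Finset V), σ.card + n + 1 = d →
    ∀ j ≤ n, ∀ f ∈ Φ.Vj j, fcL Φ σ f = 0 := by
  intro n
  induction n with
  | zero =>
    intro σ hc j hj f hf
    by_cases hσ : Φ.Face σ
    · obtain rfl : j = 0 := by omega
      obtain ⟨a, ha⟩ := Φ.mem_Vj_zero hf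
      rw [fcL_apply]
      simp only [ha]
      rw [← sum_mul, fc_zero Φ hσ (by omega), zero_mul]
    · exact fcL_notFace Φ hσ f
  | succ n ih =>
    intro σ hc j
    -- multiplication by a coordinate outside the face
    have hout : ∀ v ∉ σ, ∀ i ≤ n, ∀ g ∈ Φ.Vj i, fcL Φ σ (Φ.D v * g) = 0 := by
      intro v hv i hi g hg
      rw [fcL_insert Φ hv]
      refine ih (insert v σ) ?_ i hi g hg
      rw [card_insert_of_notMem hv]
      omega
    have hcomb : ∀ a : V → ℝ, (∀ v ∈ σ, a v = 0) → ∀ i ≤ n, ∀ g ∈ Φ.Vj i,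
        fcL Φ σ (∑ v, a v • (Φ.D v * g)) = 0 := by
      intro a ha i hi g hg
      rw [map_sum]
      refine sum_eq_zero fun v _ => ?_
      rw [map_smul]
      by_cases hv : v ∈ σ
      · rw [ha v hv, zero_smul]
      · rw [hout v hv i hi g hg, smul_zero]
    by_cases hσ : Φ.Face σ
    · induction j with
      | zero =>
        intro _ f hf
        obtain ⟨b, hb⟩ := Φ.mem_Vj_zero hf
        obtain ⟨a, ha, h1⟩ := Φ.rel_one hσ (by omega)
        have h2 : f = b • ∑ v, a v • (Φ.D v * 1) := by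
          funext C
          rw [hb, Pi.smul_apply, Finset.sum_apply]
          have h3 : ∑ v, (a v • (Φ.D v * 1)) C = ∑ v, a v * Φ.D v C := by
            refine sum_congr rfl fun v _ => ?_
            rw [Pi.smul_apply, mul_one, smul_eq_mul]
          rw [h3, h1, smul_eq_mul, mul_one]
        rw [h2, map_smul, hcomb a ha 0 (Nat.zero_le _) 1 (Φ.one_mem 0), smul_zero]
      | succ j ihj =>
        intro hj f hf
        have h1 : Φ.Vj (j + 1) ≤ LinearMap.ker (fcL Φ σ) := by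
          refine Φ.Vj_succ_le (fun g hg => ?_) fun v g hg => ?_
          · exact ihj (by omega) g hg
          · rw [LinearMap.mem_ker]
            by_cases hv : v ∈ σ
            · obtain ⟨a, k, ha, h1⟩ := Φ.rel_self hσ hv
              have h2 : Φ.D v * g = k • g + ∑ w, a w • (Φ.D w * g) := by
                funext C
                rw [Pi.mul_apply, h1, Pi.add_apply, Finset.sum_apply]
                simp only [Pi.smul_apply, Pi.mul_apply, smul_eq_mul]
                rw [add_mul, sum_mul]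
                congr 1
                refine sum_congr rfl fun w _ => ?_
                ring
              rw [h2, map_add, map_smul, ihj (by omega) g hg,
                hcomb a ha j (by omega) g hg, smul_zero, add_zero]
            · exact hout v hv j (by omega) g hg
        exact h1 hf
    · intro _ f _
      exact fcL_notFace Φ hσ f

theorem NFan.van (Φ : NFan d V 𝒞 E) {σ : Finset V} {j : ℕ} (h : σ.card + j < d) {f : 𝒞 → ℝ}
    (hf : f ∈ Φ.Vj j) : ∑ C, Φ.wt C * Φ.xs σ C * f C = 0 := by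
  rw [← fcL_apply]
  exact fc_main Φ (d - 1 - σ.card) σ (by omega) j (by omega) f hf

/-- The same for the form of the link of `σ`, if `U` contains the star. -/
theorem NFan.low (Φ : NFan d V 𝒞 E) {σ : Finset V} {e i j m : ℕ} (he : σ.card + e = d)
    {U : Finset 𝒞} (hU : ∀ C, σ ⊆ Φ.F C → C ∈ U) {f g l : 𝒞 → ℝ} (hf : f ∈ Φ.Vj i)
    (hg : g ∈ Φ.Vj j) (hl : l ∈ Φ.Vj m) (h : i + j + m < e) : ip (Φ.wU σ U * l) f g = 0 := by
  have h1 : f * g * l ∈ Φ.Vj (i + j + m) := Φ.mul_mem (Φ.mul_mem hf hg) hl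
  rw [← Φ.van (show σ.card + (i + j + m) < d by omega) h1, ip_apply]
  refine sum_congr rfl fun C _ => ?_
  simp only [Pi.mul_apply]
  by_cases hC : σ ⊆ Φ.F C
  · rw [NFan.wU, if_pos (hU C hC)]
    ring
  · rw [Φ.xs_zero hC, NFan.wU]
    split_ifs
    · rw [Φ.xs_zero hC]
      ring
    · ring

end Pool.Agent.MP19e880.AR
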