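import Pool.Agent.Lib.MP_19e880_co_AR.Fb

/-!
Generation of the functions of degree i + 1 by the links.
-/

set_option autoImplicit false
set_option linter.unusedSectionVars false

open Finset Module

namespace Pool.Agent.MP19e880.AR

variable {d : ℕ} {V 𝒞 E : Type*} [Fintype V] [DecidableEq V] [Fintype 𝒞] [AddCommGroup E]
  [Module ℝ E]


/-- A function orthogonal to the functions of degree `i` in all links is orthogonal to the functions
of degree `i + 1`. -/
theorem NFan.gen (Φ : NFan d V 𝒞 E) {σ : Finset V} (hσ : Φ.Face σ) (hc : σ.card < d)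
    {U : Finset 𝒞} {f : 𝒞 → ℝ} {i : ℕ}
    (h : ∀ v, v ∉ σ → Φ.Face (insert v σ) → ∀ g ∈ Φ.Vj i, ip (Φ.wU (insert v σ) U) f g = 0)
    {g : 𝒞 → ℝ} (hg : g ∈ Φ.Vj (i + 1)) : ip (Φ.wU σ U) f g = 0 := by
  have hv0 : ∀ v, v ∉ σ → ∀ g ∈ Φ.Vj i, ip (Φ.wU σ U) f (Φ.D v * g) = 0 := by
    intro v hv g hg
    rw [← ip_mul_right]
    by_cases hF : Φ.Face (insert v σ)
    · rw [Φ.wU_mul_D hv]
      exact h v hv hF g hg
    · rw [Φ.wU_mul_D_zero hF U, ip_zero_weight]
  have hsum : ∀ a : V → ℝ, (∀ v ∈ σ, a v = 0) → ∀ g ∈ Φ.Vj i,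
      ip (Φ.wU σ U) f (∑ v, a v • (Φ.D v * g)) = 0 := by
    intro a ha g hg
    rw [map_sum]
    refine sum_eq_zero (fun v _ => ?_)
    rw [map_smul]
    by_cases hv : v ∈ σ
    · rw [ha v hv, zero_smul]
    · rw [hv0 v hv g hg, smul_zero]
  have h1 : ∀ g ∈ Φ.Vj i, ip (Φ.wU σ U) f g = 0 := by
    intro g hg
    obtain ⟨a, ha, hD⟩ := Φ.rel_one hσ hc
    have h2 : g = ∑ v, a v • (Φ.D v * g) := by
      funext C
      rw [Finset.sum_apply]
      have h3 := hD C
      calc g C = (∑ v, a v * Φ.D v C) * g C := by rw [h3, one_mul]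
        _ = ∑ v, a v * Φ.D v C * g C := by rw [Finset.sum_mul]
        _ = _ := Finset.sum_congr rfl (fun v _ => by
          simp only [Pi.smul_apply, Pi.mul_apply, smul_eq_mul]
          ring)
    rw [h2]
    exact hsum a ha g hg
  have h2 : ∀ v, ∀ g ∈ Φ.Vj i, ip (Φ.wU σ U) f (Φ.D v * g) = 0 := by
    intro v g hg
    by_cases hv : v ∈ σ
    · obtain ⟨a, k, ha, hD⟩ := Φ.rel_self hσ hv
      have h3 : Φ.D v * g = k • g + ∑ w, a w • (Φ.D w * g) := by
        funext C
        rw [Pi.add_apply, Finset.sum_apply, Pi.mul_apply, hD C, add_mul, Finset.sum_mul]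
        congr 1
        exact Finset.sum_congr rfl (fun w _ => by
          simp only [Pi.smul_apply, Pi.mul_apply, smul_eq_mul]
          ring)
      rw [h3, map_add, map_smul, h1 g hg, smul_zero, zero_add]
      exact hsum a ha g hg
    · exact hv0 v hv g hg
  exact Φ.Vj_succ_le (P := LinearMap.ker (ip (Φ.wU σ U) f)) (fun g hg => h1 g hg)
    (fun v g hg => h2 v g hg) hg

end Pool.Agent.MP19e880.AR
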