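import Pool.Agent.Lib.MP_19e880_co_AR.Fa

/-!
The order of the chambers.
-/

set_option autoImplicit false
set_option linter.unusedSectionVars false

open Finset Module

namespace Pool.Agent.MP19e880.AR

variable {d : ℕ} {V 𝒞 E : Type*} [Fintype V] [DecidableEq V] [Fintype 𝒞] [AddCommGroup E]
  [Module ℝ E]

private theorem fe_key {Φ : NFan d V 𝒞 E} (c : Conv Φ) (C C' : 𝒞) :
    c.LL C' - c.LL C = ∑ v ∈ Φ.F C, Φ.D v C * (c.y C' (Φ.p v) - c.ω v) := by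
  have h1 : ∀ C'', c.y C'' Φ.u = ∑ v ∈ Φ.F C, Φ.D v C * c.y C'' (Φ.p v) := by
    intro C''
    rw [← Φ.D_sum C, map_sum]
    simp only [map_smul, smul_eq_mul]
    symm
    apply Finset.sum_subset (Finset.subset_univ _)
    intro v _ hv
    rw [Φ.D_zero C v hv, zero_mul]
  unfold Conv.LL
  rw [h1 C', h1 C, ← Finset.sum_sub_distrib]
  refine Finset.sum_congr rfl fun v hv => ?_
  rw [c.y_eq C v hv]
  ring

private theorem fe_diff (Φ : NFan d V 𝒞 E) {C C' : 𝒞} (hne : C' ≠ C) :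
    ∃ v ∈ Φ.F C, v ∉ Φ.F C' := by
  by_contra h
  push Not at h
  have h2 : Φ.F C = Φ.F C' := Finset.eq_of_subset_of_card_le h (by rw [Φ.card, Φ.card])
  exact hne (Φ.inj h2.symm)

private theorem fe_ng (Φ : NFan d V 𝒞 E) {C : 𝒞} {v : V} :
    v ∈ Φ.Ng C ↔ v ∈ Φ.F C ∧ Φ.D v C < 0 := by
  unfold NFan.Ng
  rw [Finset.mem_filter]

private theorem fe_lt_pos {Φ : NFan d V 𝒞 E} (c : Conv Φ) {C C' : 𝒞}
    (h : ∀ v ∈ Φ.F C, v ∉ Φ.F C' → 0 < Φ.D v C) (hne : C' ≠ C) : c.LL C' < c.LL C := by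
  have hk := fe_key c C C'
  have hlt : 0 < ∑ v ∈ Φ.F C, -(Φ.D v C * (c.y C' (Φ.p v) - c.ω v)) := by
    apply Finset.sum_pos'
    · intro v hv
      by_cases hv' : v ∈ Φ.F C'
      · rw [c.y_eq C' v hv', sub_self, mul_zero, neg_zero]
      · have h1 := h v hv hv'
        have h2 := c.y_lt C' C v hv hv'
        nlinarith
    · obtain ⟨v, hv, hv'⟩ := fe_diff Φ hne
      refine ⟨v, hv, ?_⟩
      have h1 := h v hv hv'
      have h2 := c.y_lt C' C v hv hv'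
      nlinarith
  rw [Finset.sum_neg_distrib, ← hk] at hlt
  linarith

private theorem fe_lt_neg {Φ : NFan d V 𝒞 E} (c : Conv Φ) {C C' : 𝒞}
    (h : ∀ v ∈ Φ.F C, v ∉ Φ.F C' → Φ.D v C < 0) (hne : C' ≠ C) : c.LL C < c.LL C' := by
  have hk := fe_key c C C'
  have hlt : 0 < ∑ v ∈ Φ.F C, (Φ.D v C * (c.y C' (Φ.p v) - c.ω v)) := by
    apply Finset.sum_pos'
    · intro v hv
      by_cases hv' : v ∈ Φ.F C'
      · rw [c.y_eq C' v hv', sub_self, mul_zero]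
      · have h1 := h v hv hv'
        have h2 := c.y_lt C' C v hv hv'
        nlinarith
    · obtain ⟨v, hv, hv'⟩ := fe_diff Φ hne
      refine ⟨v, hv, ?_⟩
      have h1 := h v hv hv'
      have h2 := c.y_lt C' C v hv hv'
      nlinarith
  rw [← hk] at hlt
  linarith

theorem Conv.LL_lt_of_neg {Φ : NFan d V 𝒞 E} (c : Conv Φ) {C C' : 𝒞} (h : Φ.Ng C ⊆ Φ.F C')
    (hne : C' ≠ C) : c.LL C' < c.LL C := by
  apply fe_lt_pos c _ hne
  intro v hv hv'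
  rcases lt_or_gt_of_ne (Φ.D_ne C v hv) with h1 | h1
  · exact absurd (h ((fe_ng Φ).2 ⟨hv, h1⟩)) hv'
  · exact h1

theorem Conv.LL_lt_of_pos {Φ : NFan d V 𝒞 E} (c : Conv Φ) {C C' : 𝒞}
    (h : Φ.F C \ Φ.Ng C ⊆ Φ.F C') (hne : C' ≠ C) : c.LL C < c.LL C' := by
  apply fe_lt_neg c _ hne
  intro v hv hv'
  by_contra h1
  apply hv'
  apply h
  rw [Finset.mem_sdiff]
  exact ⟨hv, fun h2 => h1 ((fe_ng Φ).1 h2).2⟩

/-- the neighbour of `C` across the wall opposite to `v`. -/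
private theorem fe_nb {Φ : NFan d V 𝒞 E} (c : Conv Φ) {C : 𝒞} {v : V} (hv : v ∈ Φ.F C) :
    ∃ C', (Φ.F C).erase v ⊆ Φ.F C' ∧ (Φ.D v C < 0 → c.LL C < c.LL C') ∧
      (0 < Φ.D v C → c.LL C' < c.LL C) := by
  obtain ⟨C', v', hne, hv', he, _, _⟩ := Φ.wall C v hv
  have hsub : (Φ.F C).erase v ⊆ Φ.F C' := by
    rw [← he]
    exact Finset.erase_subset _ _
  have hone : ∀ w ∈ Φ.F C, w ∉ Φ.F C' → w = v := by
    intro w hw hw'
    by_contra h1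
    exact hw' (hsub (Finset.mem_erase.2 ⟨h1, hw⟩))
  refine ⟨C', hsub, fun h => ?_, fun h => ?_⟩
  · apply fe_lt_neg c _ hne
    intro w hw hw'
    rw [hone w hw hw']
    exact h
  · apply fe_lt_pos c _ hne
    intro w hw hw'
    rw [hone w hw hw']
    exact h

/-- A chamber of maximal value in the star has no negative coordinate outside `σ`. -/
theorem Conv.kk_max {Φ : NFan d V 𝒞 E} (c : Conv Φ) {σ : Finset V} {C : 𝒞} (hC : σ ⊆ Φ.F C)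
    (h : ∀ C', σ ⊆ Φ.F C' → c.LL C' ≤ c.LL C) : Φ.kk σ C = 0 := by
  unfold NFan.kk
  rw [Finset.card_eq_zero, Finset.eq_empty_iff_forall_notMem]
  intro v hv
  rw [Finset.mem_sdiff, fe_ng] at hv
  obtain ⟨⟨hv1, hv2⟩, hv3⟩ := hv
  obtain ⟨C', h1, h2, _⟩ := fe_nb c hv1
  have h3 : σ ⊆ Φ.F C' := fun w hw =>
    h1 (Finset.mem_erase.2 ⟨fun h4 => hv3 (h4 ▸ hw), hC hw⟩)
  exact absurd (h C' h3) (not_le.2 (h2 hv2))

/-- A chamber of minimal value in the star has only negative coordinates outside `σ`. -/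
theorem Conv.kk_min {Φ : NFan d V 𝒞 E} (c : Conv Φ) {σ : Finset V} {e : ℕ}
    (he : σ.card + e = d) {C : 𝒞} (hC : σ ⊆ Φ.F C)
    (h : ∀ C', σ ⊆ Φ.F C' → c.LL C ≤ c.LL C') : Φ.kk σ C = e := by
  have h1 : Φ.Ng C \ σ = Φ.F C \ σ := by
    ext v
    rw [Finset.mem_sdiff, Finset.mem_sdiff, fe_ng]
    constructor
    · rintro ⟨⟨h1, _⟩, h2⟩
      exact ⟨h1, h2⟩
    · rintro ⟨hv1, hv3⟩
      refine ⟨⟨hv1, ?_⟩, hv3⟩
      by_contra h5
      have h6 : 0 < Φ.D v C := lt_of_le_of_ne (not_lt.1 h5) (Φ.D_ne C v hv1).symm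
      obtain ⟨C', h1, _, h2⟩ := fe_nb c hv1
      have h3 : σ ⊆ Φ.F C' := fun w hw =>
        h1 (Finset.mem_erase.2 ⟨fun h4 => hv3 (h4 ▸ hw), hC hw⟩)
      exact absurd (h C' h3) (not_le.2 (h2 h6))
  unfold NFan.kk
  rw [h1, Finset.card_sdiff_of_subset hC, Φ.card]
  omega

theorem NFan.kk_le (Φ : NFan d V 𝒞 E) {σ : Finset V} {e : ℕ} (he : σ.card + e = d) {C : 𝒞}
    (hC : σ ⊆ Φ.F C) : Φ.kk σ C ≤ e := by
  have h1 : Φ.Ng C \ σ ⊆ Φ.F C \ σ := by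
    intro v hv
    rw [Finset.mem_sdiff, fe_ng] at hv
    exact Finset.mem_sdiff.2 ⟨hv.1.1, hv.2⟩
  have h2 := Finset.card_le_card h1
  rw [Finset.card_sdiff_of_subset hC, Φ.card] at h2
  unfold NFan.kk
  omega

/-- The number of negative coordinates in the link of a vertex. -/
theorem NFan.kk_insert (Φ : NFan d V 𝒞 E) {σ : Finset V} {v : V} (hv : v ∉ σ) (C : 𝒞) :
    Φ.kk (insert v σ) C = Φ.kk σ C ∨ Φ.kk (insert v σ) C + 1 = Φ.kk σ C := by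
  have h1 : Φ.Ng C \ insert v σ = (Φ.Ng C \ σ).erase v := by
    ext w
    simp only [Finset.mem_sdiff, Finset.mem_insert, Finset.mem_erase, not_or]
    tauto
  unfold NFan.kk
  rw [h1]
  by_cases h2 : v ∈ Φ.Ng C \ σ
  · right
    exact Finset.card_erase_add_one h2
  · left
    rw [Finset.erase_eq_of_notMem h2]

/-- For every face there is exactly one chamber with `Ng C ⊆ σ ⊆ F C`. -/
theorem Conv.exists_unique_neg {Φ : NFan d V 𝒞 E} (c : Conv Φ) {σ : Finset V}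
    (hσ : Φ.Face σ) : ∃ C, Φ.Ng C ⊆ σ ∧ σ ⊆ Φ.F C ∧
      ∀ C', Φ.Ng C' ⊆ σ → σ ⊆ Φ.F C' → C' = C := by
  classical
  obtain ⟨C0, hC0⟩ := hσ
  obtain ⟨C, hC, hmax⟩ := Finset.exists_max_image
    (Finset.univ.filter fun C : 𝒞 => σ ⊆ Φ.F C) c.LL
    ⟨C0, Finset.mem_filter.2 ⟨Finset.mem_univ _, hC0⟩⟩
  rw [Finset.mem_filter] at hC
  have hk := c.kk_max hC.2 (fun C' h' => hmax C' (Finset.mem_filter.2 ⟨Finset.mem_univ _, h'⟩))
  have hNg : Φ.Ng C ⊆ σ := by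
    unfold NFan.kk at hk
    rw [Finset.card_eq_zero, Finset.sdiff_eq_empty_iff_subset] at hk
    exact hk
  refine ⟨C, hNg, hC.2, fun C' h1 h2 => ?_⟩
  by_contra hne
  have h3 := c.LL_lt_of_neg (hNg.trans h2) hne
  have h4 := c.LL_lt_of_neg (h1.trans hC.2) (Ne.symm hne)
  exact absurd h3 (not_lt.2 h4.le)

/-- For every face there is exactly one chamber with `F C \ Ng C ⊆ σ ⊆ F C`. -/
theorem Conv.exists_unique_pos {Φ : NFan d V 𝒞 E} (c : Conv Φ) {σ : Finset V}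
    (hσ : Φ.Face σ) : ∃ C, Φ.F C \ Φ.Ng C ⊆ σ ∧ σ ⊆ Φ.F C ∧
      ∀ C', Φ.F C' \ Φ.Ng C' ⊆ σ → σ ⊆ Φ.F C' → C' = C := by
  classical
  obtain ⟨C0, hC0⟩ := hσ
  obtain ⟨C, hC, hmin⟩ := Finset.exists_min_image
    (Finset.univ.filter fun C : 𝒞 => σ ⊆ Φ.F C) c.LL
    ⟨C0, Finset.mem_filter.2 ⟨Finset.mem_univ _, hC0⟩⟩
  rw [Finset.mem_filter] at hC
  have hcard : σ.card ≤ d := by
    rw [← Φ.card C]
    exact Finset.card_le_card hC.2
  have hk := c.kk_min (e := d - σ.card) (by omega) hC.2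
    (fun C' h' => hmin C' (Finset.mem_filter.2 ⟨Finset.mem_univ _, h'⟩))
  have hsub : Φ.Ng C \ σ ⊆ Φ.F C \ σ := by
    intro v hv
    rw [Finset.mem_sdiff, fe_ng] at hv
    exact Finset.mem_sdiff.2 ⟨hv.1.1, hv.2⟩
  have heq : Φ.Ng C \ σ = Φ.F C \ σ := by
    apply Finset.eq_of_subset_of_card_le hsub
    rw [Finset.card_sdiff_of_subset hC.2, Φ.card]
    unfold NFan.kk at hk
    rw [hk]
  have hPos : Φ.F C \ Φ.Ng C ⊆ σ := by
    intro v hv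
    rw [Finset.mem_sdiff] at hv
    by_contra h1
    have h2 : v ∈ Φ.F C \ σ := Finset.mem_sdiff.2 ⟨hv.1, h1⟩
    rw [← heq, Finset.mem_sdiff] at h2
    exact hv.2 h2.1
  refine ⟨C, hPos, hC.2, fun C' h1 h2 => ?_⟩
  by_contra hne
  have h3 := c.LL_lt_of_pos (hPos.trans h2) hne
  have h4 := c.LL_lt_of_pos (h1.trans hC.2) (Ne.symm hne)
  exact absurd h3 (not_lt.2 h4.le)

end Pool.Agent.MP19e880.AR
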