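import Pool.Agent.Lib.MP_19e880_co_AR.Fe

/-!
Positive coefficients for the strictly convex function on the star of a face.
-/

set_option autoImplicit false
set_option linter.unusedSectionVars false

open Finset Module

namespace Pool.Agent.MP19e880.AR

variable {d : ℕ} {V 𝒞 E : Type*} [Fintype V] [DecidableEq V] [Fintype 𝒞] [AddCommGroup E]
  [Module ℝ E]

private theorem ff_other (Φ : NFan d V 𝒞 E) {σ : Finset V} {v : V} (hv : v ∉ σ) {C1 : 𝒞}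
    (hC1 : insert v σ ⊆ Φ.F C1) : ∃ C, σ ⊆ Φ.F C ∧ v ∉ Φ.F C := by
  have hvC : v ∈ Φ.F C1 := hC1 (mem_insert_self v σ)
  obtain ⟨C', v', hne, hv', her, -, -⟩ := Φ.wall C1 v hvC
  refine ⟨C', fun w hw => ?_, fun h => ?_⟩
  · have h1 : w ∈ (Φ.F C1).erase v :=
      mem_erase.mpr ⟨fun h => hv (h ▸ hw), hC1 (mem_insert_of_mem hw)⟩
    rw [← her] at h1
    exact mem_of_mem_erase h1
  · have h1 : v = v' := by
      by_contra h2
      have h3 : v ∈ (Φ.F C').erase v' := mem_erase.mpr ⟨h2, h⟩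
      rw [her] at h3
      exact notMem_erase v _ h3
    apply hne
    apply Φ.inj
    rw [← insert_erase hv', her, ← h1, insert_erase hvC]

open Classical in
private theorem ff_gen {Φ : NFan d V 𝒞 E} (c : Conv Φ) {σ : Finset V} (lam : 𝒞 → ℝ)
    (h0 : ∀ C, σ ⊆ Φ.F C → 0 < lam C)
    (h1 : ∑ C ∈ univ.filter (fun C : 𝒞 => σ ⊆ Φ.F C), lam C = 1) {t : ℝ}
    (ht : ∑ C ∈ univ.filter (fun C : 𝒞 => σ ⊆ Φ.F C), lam C * c.LL C = t) :
    ∃ η : V → ℝ, (∀ C, c.LL C - t = ∑ v, η v * Φ.D v C) ∧ (∀ v ∈ σ, η v = 0) ∧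
      ∀ v, v ∉ σ → Φ.Face (insert v σ) → 0 < η v := by
  obtain ⟨y0, hy0⟩ : ∃ y0 : E →ₗ[ℝ] ℝ, ∀ x, y0 x =
      ∑ C ∈ univ.filter (fun C : 𝒞 => σ ⊆ Φ.F C), lam C * c.y C x := by
    refine ⟨∑ C ∈ univ.filter (fun C : 𝒞 => σ ⊆ Φ.F C), lam C • c.y C, fun x => ?_⟩
    rw [LinearMap.sum_apply]
    exact sum_congr rfl fun C _ => by rw [LinearMap.smul_apply, smul_eq_mul]
  have hη : ∀ v, c.ω v - y0 (Φ.p v) =
      ∑ C ∈ univ.filter (fun C : 𝒞 => σ ⊆ Φ.F C), lam C * (c.ω v - c.y C (Φ.p v)) := by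
    intro v
    have h2 : c.ω v = ∑ C ∈ univ.filter (fun C : 𝒞 => σ ⊆ Φ.F C), lam C * c.ω v := by
      rw [← sum_mul, h1, one_mul]
    rw [hy0, h2, ← sum_sub_distrib]
    refine sum_congr rfl fun C _ => ?_
    rw [← h2]
    ring
  refine ⟨fun v => c.ω v - y0 (Φ.p v), fun C => ?_, fun v hv => ?_, fun v hv hF => ?_⟩
  · have h2 := Φ.rel y0 C
    have h3 : y0 Φ.u = t := by
      rw [hy0, ← ht]
      rfl
    rw [c.LL_eq C, ← h3, ← h2, ← sum_sub_distrib]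
    exact sum_congr rfl fun v _ => by ring
  · show c.ω v - y0 (Φ.p v) = 0
    rw [hη]
    refine sum_eq_zero fun C hC => ?_
    rw [c.y_eq C v ((mem_filter.mp hC).2 hv), sub_self, mul_zero]
  · show 0 < c.ω v - y0 (Φ.p v)
    rw [hη]
    obtain ⟨C1, hC1⟩ := hF
    have hvC : v ∈ Φ.F C1 := hC1 (mem_insert_self v σ)
    apply sum_pos'
    · intro C hC
      apply mul_nonneg (h0 C (mem_filter.mp hC).2).le
      by_cases h2 : v ∈ Φ.F C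
      · rw [c.y_eq C v h2, sub_self]
      · linarith [c.y_lt C C1 v hvC h2]
    · obtain ⟨C, hC, hvn⟩ := ff_other Φ hv hC1
      refine ⟨C, mem_filter.mpr ⟨mem_univ _, hC⟩, mul_pos (h0 C hC) ?_⟩
      linarith [c.y_lt C C1 v hvC hvn]

open Classical in
private theorem ff_mix {Φ : NFan d V 𝒞 E} (c : Conv Φ) {σ : Finset V} {C1 : 𝒞}
    (hC1 : σ ⊆ Φ.F C1) {θ t0 : ℝ} (hθ0 : 0 ≤ θ) (hθ1 : θ < 1)
    (ht0 : t0 = ∑ C ∈ univ.filter (fun C : 𝒞 => σ ⊆ Φ.F C),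
      ((univ.filter (fun C : 𝒞 => σ ⊆ Φ.F C)).card : ℝ)⁻¹ * c.LL C) {t : ℝ}
    (ht : (1 - θ) * t0 + θ * c.LL C1 = t) :
    ∃ η : V → ℝ, (∀ C, c.LL C - t = ∑ v, η v * Φ.D v C) ∧ (∀ v ∈ σ, η v = 0) ∧
      ∀ v, v ∉ σ → Φ.Face (insert v σ) → 0 < η v := by
  have hmem : C1 ∈ univ.filter (fun C : 𝒞 => σ ⊆ Φ.F C) := mem_filter.mpr ⟨mem_univ _, hC1⟩
  have hn : (0 : ℝ) < ((univ.filter (fun C : 𝒞 => σ ⊆ Φ.F C)).card : ℝ) := by
    exact_mod_cast card_pos.mpr ⟨C1, hmem⟩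
  refine ff_gen c (fun C => (1 - θ) * ((univ.filter (fun C : 𝒞 => σ ⊆ Φ.F C)).card : ℝ)⁻¹ +
    if C = C1 then θ else 0) ?_ ?_ ?_
  · intro C _
    have h1 : 0 < (1 - θ) * ((univ.filter (fun C : 𝒞 => σ ⊆ Φ.F C)).card : ℝ)⁻¹ :=
      mul_pos (by linarith) (inv_pos.mpr hn)
    have h2 : 0 ≤ if C = C1 then θ else 0 := by
      split_ifs
      · exact hθ0
      · exact le_rfl
    show 0 < _ + _
    linarith
  · rw [sum_add_distrib, sum_const, nsmul_eq_mul, Finset.sum_ite_eq' _ C1, if_pos hmem]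
    rw [mul_comm (1 - θ), ← mul_assoc, mul_inv_cancel₀ hn.ne']
    ring
  · rw [← ht, ht0, mul_sum]
    have h1 : ∀ C ∈ univ.filter (fun C : 𝒞 => σ ⊆ Φ.F C),
        ((1 - θ) * ((univ.filter (fun C : 𝒞 => σ ⊆ Φ.F C)).card : ℝ)⁻¹ +
          if C = C1 then θ else 0) * c.LL C =
        (1 - θ) * (((univ.filter (fun C : 𝒞 => σ ⊆ Φ.F C)).card : ℝ)⁻¹ * c.LL C) +
          if C = C1 then θ * c.LL C else 0 := by
      intro C _
      split_ifs <;> ring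
    rw [sum_congr rfl h1, sum_add_distrib, Finset.sum_ite_eq' _ C1, if_pos hmem]

/-- `LL - t` is a combination of the coordinates outside `σ`, with positive coefficients on the
link, if `t` is strictly between two values on the star. -/
theorem Conv.coef {Φ : NFan d V 𝒞 E} (c : Conv Φ) {σ : Finset V} (hc : σ.card < d) {t : ℝ}
    (h1 : ∃ C, σ ⊆ Φ.F C ∧ t < c.LL C) (h2 : ∃ C, σ ⊆ Φ.F C ∧ c.LL C < t) :
    ∃ η : V → ℝ, (∀ C, c.LL C - t = ∑ v, η v * Φ.D v C) ∧ (∀ v ∈ σ, η v = 0) ∧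
      ∀ v, v ∉ σ → Φ.Face (insert v σ) → 0 < η v := by
  classical
  obtain ⟨C1, hC1, ht1⟩ := h1
  obtain ⟨C2, hC2, ht2⟩ := h2
  obtain ⟨t0, ht0⟩ : ∃ t0 : ℝ, t0 = ∑ C ∈ univ.filter (fun C : 𝒞 => σ ⊆ Φ.F C),
    ((univ.filter (fun C : 𝒞 => σ ⊆ Φ.F C)).card : ℝ)⁻¹ * c.LL C := ⟨_, rfl⟩
  rcases lt_trichotomy t t0 with h | h | h
  · refine ff_mix c hC2 (θ := (t0 - t) / (t0 - c.LL C2)) (div_nonneg (by linarith) (by linarith))
      ?_ ht0 ?_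
    · rw [div_lt_one (by linarith)]
      linarith
    · have h3 : t0 - c.LL C2 ≠ 0 := by linarith
      field_simp
      ring
  · refine ff_mix c hC1 (θ := 0) le_rfl zero_lt_one ht0 ?_
    rw [h]
    ring
  · refine ff_mix c hC1 (θ := (t - t0) / (c.LL C1 - t0)) (div_nonneg (by linarith) (by linarith))
      ?_ ht0 ?_
    · rw [div_lt_one (by linarith)]
      linarith
    · have h3 : c.LL C1 - t0 ≠ 0 := by linarith
      field_simp
      ring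

/-- The same for some `t`. -/
theorem Conv.coef_some {Φ : NFan d V 𝒞 E} (c : Conv Φ) {σ : Finset V} (hσ : Φ.Face σ)
    (hc : σ.card < d) :
    ∃ (t : ℝ) (η : V → ℝ), (∀ C, c.LL C - t = ∑ v, η v * Φ.D v C) ∧ (∀ v ∈ σ, η v = 0) ∧
      ∀ v, v ∉ σ → Φ.Face (insert v σ) → 0 < η v := by
  classical
  obtain ⟨C1, hC1⟩ := hσ
  exact ⟨_, ff_mix c hC1 (θ := 0) le_rfl zero_lt_one rfl rfl⟩

end Pool.Agent.MP19e880.AR
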