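import Pool.Agent.Lib.MP_19e880_co_AR.Fd

/-!
Hard Lefschetz from the Hodge-Riemann relations of the links.
-/

set_option autoImplicit false
set_option linter.unusedSectionVars false

open Finset Module

namespace Pool.Agent.MP19e880.AR

variable {d : ℕ} {V 𝒞 E : Type*} [Fintype V] [DecidableEq V] [Fintype 𝒞] [AddCommGroup E]
  [Module ℝ E]

/-- The expansion of one factor. -/
private theorem fg_expand (w f g : 𝒞 → ℝ) (l : 𝒞 → ℝ) (D : V → 𝒞 → ℝ) (η : V → ℝ)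
    (h : ∀ C, l C = ∑ v, η v * D v C) (m : ℕ) :
    ip (w * l ^ (m + 1)) f g = ∑ v, η v * ip (w * D v * l ^ m) f g := by
  simp only [ip_apply, mul_sum]
  rw [sum_comm]
  refine sum_congr rfl (fun C _ => ?_)
  simp only [Pi.mul_apply, Pi.pow_apply]
  rw [pow_succ, h C, mul_sum, mul_sum, sum_mul]
  refine sum_congr rfl (fun v _ => ?_)
  ring

theorem NFan.kleiman (Φ : NFan d V 𝒞 E) (c : Conv Φ) {σ : Finset V} (hσ : Φ.Face σ)
    {e i m : ℕ} (he : σ.card + (e + 1) = d) (hm : 2 * i + (m + 1) = e + 1) {U : Finset 𝒞} {t : ℝ}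
    {η : V → ℝ} (h1 : ∀ C, c.LL C - t = ∑ v, η v * Φ.D v C) (h2 : ∀ v ∈ σ, η v = 0)
    (h3 : ∀ v, v ∉ σ → Φ.Face (insert v σ) → 0 < η v)
    (h4 : ∀ v, v ∉ σ → Φ.Face (insert v σ) → HRx Φ c (insert v σ) e i U t) :
    radB (ip (Φ.wU σ U * c.lt t ^ (m + 1))) (Φ.Vj i) ≤ rad Φ.Vj (Φ.wU σ U) (e + 1) i := by
  intro f hf
  obtain ⟨hf1, hf2⟩ := mem_radB.1 hf
  have hHR : ∀ v, v ∉ σ → Φ.Face (insert v σ) →
      0 ≤ (-1 : ℝ) ^ i * ip (Φ.wU σ U * Φ.D v * c.lt t ^ m) f f ∧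
        (ip (Φ.wU σ U * Φ.D v * c.lt t ^ m) f f = 0 →
          f ∈ rad Φ.Vj (Φ.wU (insert v σ) U) e i) := by
    intro v hv hface
    rw [Φ.wU_mul_D hv U]
    refine h4 v hv hface m (by omega) f hf1 (fun j hj g hg => ?_)
    have h5 : Φ.wU (insert v σ) U * c.lt t ^ (m + 1) =
        Φ.wU σ U * c.lt t ^ (m + 1) * Φ.D v := by
      rw [← Φ.wU_mul_D hv U]
      ring
    rw [h5, ip_mul_right]
    refine hf2 _ ?_
    rw [← hj]
    exact Φ.D_mul_mem v hg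
  have hterm : ∀ v, 0 ≤ (-1 : ℝ) ^ i * (η v * ip (Φ.wU σ U * Φ.D v * c.lt t ^ m) f f) := by
    intro v
    by_cases hv : v ∈ σ
    · rw [h2 v hv, zero_mul, mul_zero]
    · by_cases hface : Φ.Face (insert v σ)
      · have h5 := mul_nonneg (h3 v hv hface).le (hHR v hv hface).1
        calc (0 : ℝ) ≤ _ := h5
          _ = _ := by ring
      · rw [Φ.wU_mul_D_zero hface U, zero_mul, ip_zero_weight, mul_zero, mul_zero]
  have hsum : ∑ v, (-1 : ℝ) ^ i * (η v * ip (Φ.wU σ U * Φ.D v * c.lt t ^ m) f f) = 0 := by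
    rw [← mul_sum, ← fg_expand (Φ.wU σ U) f f (c.lt t) Φ.D η h1 m, hf2 f hf1, mul_zero]
  have hz := (sum_eq_zero_iff_of_nonneg (fun v _ => hterm v)).1 hsum
  have hrad : ∀ v, v ∉ σ → Φ.Face (insert v σ) →
      f ∈ rad Φ.Vj (Φ.wU (insert v σ) U) e i := by
    intro v hv hface
    refine (hHR v hv hface).2 ?_
    have h5 := hz v (mem_univ v)
    have h6 : (-1 : ℝ) ^ i ≠ 0 := pow_ne_zero _ (by norm_num)
    exact (mul_eq_zero.1 ((mul_eq_zero.1 h5).resolve_left h6)).resolve_left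
      (h3 v hv hface).ne'
  rw [mem_rad]
  refine ⟨hf1, fun J hJ g hg => ?_⟩
  obtain ⟨j, rfl⟩ : ∃ j, J = j + 1 := ⟨J - 1, by omega⟩
  exact Φ.gen hσ (by omega) (fun v hv hface g' hg' =>
    (mem_rad.1 (hrad v hv hface)).2 j (by omega) g' hg') hg

end Pool.Agent.MP19e880.AR
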