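import Pool.Agent.Lib.MP_19e880_co_AR.Fc
import Pool.Agent.Lib.MP_19e880_co_AR.Fe

/-!
The change of the radical when a chamber is added.
-/

set_option autoImplicit false
set_option linter.unusedSectionVars false

open Finset Module

namespace Pool.Agent.MP19e880.AR

variable {d : ℕ} {V 𝒞 E : Type*} [Fintype V] [DecidableEq V] [Fintype 𝒞] [AddCommGroup E]
  [Module ℝ E]


open Classical in
/-- `U` is the set of all chambers of the star of `σ` with value greater than that of `C0`. -/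
structure Stp (Φ : NFan d V 𝒞 E) (c : Conv Φ) (σ : Finset V) (U : Finset 𝒞) (C0 : 𝒞) : Prop where
  sub : σ ⊆ Φ.F C0
  out : C0 ∉ U
  up : ∀ C, σ ⊆ Φ.F C → (C ∈ U ↔ c.LL C0 < c.LL C)

private theorem fh_ng (Φ : NFan d V 𝒞 E) {C : 𝒞} {v : V} :
    v ∈ Φ.Ng C ↔ v ∈ Φ.F C ∧ Φ.D v C < 0 := by
  unfold NFan.Ng
  rw [Finset.mem_filter]

open Classical in
private theorem fh_ins (Φ : NFan d V 𝒞 E) (σ : Finset V) {U : Finset 𝒞} {C0 : 𝒞} (h : C0 ∉ U)
    (f g : 𝒞 → ℝ) : ip (Φ.wU σ (insert C0 U)) f g =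
      ip (Φ.wU σ U) f g + (Φ.wt C0 * Φ.xs σ C0) * (f C0 * g C0) := by
  have h1 := Φ.wU_insert σ h 1 f g
  simpa only [mul_one, Pi.one_apply] using h1

private theorem fh_ne (Φ : NFan d V 𝒞 E) {σ : Finset V} {C0 : 𝒞} (h : σ ⊆ Φ.F C0) :
    Φ.wt C0 * Φ.xs σ C0 ≠ 0 := by
  intro h1
  have h2 := Φ.sign_wt h
  rw [h1, mul_zero] at h2
  exact lt_irrefl _ h2

/-- the function `f_plus`. -/
private theorem fh_plus {Φ : NFan d V 𝒞 E} {c : Conv Φ} {σ : Finset V} {U : Finset 𝒞} {C0 : 𝒞}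
    (h : Stp Φ c σ U C0) : ∃ f ∈ Φ.Vj (Φ.kk σ C0), f C0 ≠ 0 ∧ ∀ g, ip (Φ.wU σ U) f g = 0 := by
  classical
  refine ⟨Φ.xs (Φ.Ng C0 \ σ), Φ.xs_mem _, ?_, fun g => ?_⟩
  · rw [Φ.xs_ne_zero_iff]
    intro v hv
    rw [Finset.mem_sdiff, fh_ng] at hv
    exact hv.1.1
  · rw [ip_apply]
    refine Finset.sum_eq_zero fun C _ => ?_
    unfold NFan.wU
    by_cases hC : C ∈ U
    · rw [if_pos hC]
      by_cases hs : σ ⊆ Φ.F C
      · have h1 : Φ.xs (Φ.Ng C0 \ σ) C = 0 := by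
          apply Φ.xs_zero
          intro h2
          have h3 : Φ.Ng C0 ⊆ Φ.F C := by
            intro v hv
            by_cases hv2 : v ∈ σ
            · exact hs hv2
            · exact h2 (Finset.mem_sdiff.2 ⟨hv, hv2⟩)
          have hne : C ≠ C0 := fun h4 => h.out (h4 ▸ hC)
          have h5 := c.LL_lt_of_neg h3 hne
          exact lt_asymm h5 ((h.up C hs).1 hC)
        rw [h1, zero_mul, mul_zero]
      · rw [Φ.xs_zero hs, mul_zero, zero_mul]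
    · rw [if_neg hC, zero_mul]

open Classical in
/-- the function `f_minus`. -/
private theorem fh_minus {Φ : NFan d V 𝒞 E} {c : Conv Φ} {σ : Finset V} {U : Finset 𝒞} {C0 : 𝒞}
    (h : Stp Φ c σ U C0) {e : ℕ} (he : σ.card + e = d) :
    ∃ f ∈ Φ.Vj (e - Φ.kk σ C0), f C0 ≠ 0 ∧
      ∀ (i : ℕ), ∀ g ∈ Φ.Vj i, i < Φ.kk σ C0 → ip (Φ.wU σ (insert C0 U)) f g = 0 := by
  have hkk := Φ.kk_le he h.sub
  refine ⟨Φ.xs (Φ.F C0 \ (Φ.Ng C0 ∪ σ)), ?_, ?_, fun i g hg hi => ?_⟩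
  · have h1 : (Φ.F C0 \ (Φ.Ng C0 ∪ σ)).card = e - Φ.kk σ C0 := by
      have h2 : Φ.Ng C0 ∪ σ ⊆ Φ.F C0 := by
        intro v hv
        rw [Finset.mem_union, fh_ng] at hv
        rcases hv with hv | hv
        · exact hv.1
        · exact h.sub hv
      have h3 : (Φ.Ng C0 ∪ σ).card = Φ.kk σ C0 + σ.card := by
        unfold NFan.kk
        rw [← Finset.card_union_of_disjoint Finset.sdiff_disjoint, Finset.sdiff_union_self_eq_union]
      rw [Finset.card_sdiff_of_subset h2, h3, Φ.card]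
      omega
    rw [← h1]
    exact Φ.xs_mem _
  · rw [Φ.xs_ne_zero_iff]
    exact Finset.sdiff_subset
  · have hc : ip (Φ.wU σ (insert C0 U)) (Φ.xs (Φ.F C0 \ (Φ.Ng C0 ∪ σ))) g
        = ip (Φ.wU σ Finset.univ * 1) (Φ.xs (Φ.F C0 \ (Φ.Ng C0 ∪ σ))) g := by
      rw [mul_one, ip_apply, ip_apply]
      refine Finset.sum_congr rfl fun C _ => ?_
      unfold NFan.wU
      rw [if_pos (Finset.mem_univ C)]
      by_cases hC : C ∈ insert C0 U
      · rw [if_pos hC]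
      · rw [if_neg hC, zero_mul]
        by_cases hs : σ ⊆ Φ.F C
        · have h1 : Φ.xs (Φ.F C0 \ (Φ.Ng C0 ∪ σ)) C = 0 := by
            apply Φ.xs_zero
            intro h2
            have h3 : Φ.F C0 \ Φ.Ng C0 ⊆ Φ.F C := by
              intro v hv
              rw [Finset.mem_sdiff] at hv
              by_cases hv2 : v ∈ σ
              · exact hs hv2
              · apply h2
                rw [Finset.mem_sdiff, Finset.mem_union, not_or]
                exact ⟨hv.1, hv.2, hv2⟩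
            have hne : C ≠ C0 := fun h4 => hC (Finset.mem_insert.2 (Or.inl h4))
            have h5 := c.LL_lt_of_pos h3 hne
            exact hC (Finset.mem_insert.2 (Or.inr ((h.up C hs).2 h5)))
          rw [h1, zero_mul, mul_zero]
        · rw [Φ.xs_zero hs, mul_zero, zero_mul]
    rw [hc]
    have h1 : (Φ.F C0 \ (Φ.Ng C0 ∪ σ)).card = e - Φ.kk σ C0 := by
      have h2 : Φ.Ng C0 ∪ σ ⊆ Φ.F C0 := by
        intro v hv
        rw [Finset.mem_union, fh_ng] at hv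
        rcases hv with hv | hv
        · exact hv.1
        · exact h.sub hv
      have h3 : (Φ.Ng C0 ∪ σ).card = Φ.kk σ C0 + σ.card := by
        unfold NFan.kk
        rw [← Finset.card_union_of_disjoint Finset.sdiff_disjoint, Finset.sdiff_union_self_eq_union]
      rw [Finset.card_sdiff_of_subset h2, h3, Φ.card]
      omega
    exact Φ.low he (fun C _ => Finset.mem_univ C) (Φ.xs_mem _) hg (Φ.one_mem 0)
      (by rw [h1]; omega)

open Classical in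
theorem Stp.rad_iffA {Φ : NFan d V 𝒞 E} {c : Conv Φ} {σ : Finset V} {U : Finset 𝒞} {C0 : 𝒞}
    (h : Stp Φ c σ U C0) {e i j : ℕ} (he : σ.card + e = d) (hij : i + j = e)
    (hk : Φ.kk σ C0 ≤ j) {f : 𝒞 → ℝ} :
    f ∈ rad Φ.Vj (Φ.wU σ (insert C0 U)) e i ↔ f ∈ rad Φ.Vj (Φ.wU σ U) e i ∧ f C0 = 0 := by
  constructor
  · intro hf
    obtain ⟨p, hp, hp0, hpz⟩ := fh_plus h
    have h0 : f C0 = 0 := by
      have h1 := hf.2 j hij p (Φ.Vj_mono hk hp)
      rw [fh_ins Φ σ h.out, ip_comm, hpz f, zero_add] at h1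
      rcases mul_eq_zero.1 h1 with h2 | h2
      · exact absurd h2 (fh_ne Φ h.sub)
      · rcases mul_eq_zero.1 h2 with h3 | h3
        · exact h3
        · exact absurd h3 hp0
    refine ⟨⟨hf.1, fun j' hj' g hg => ?_⟩, h0⟩
    have h1 := hf.2 j' hj' g hg
    rw [fh_ins Φ σ h.out, h0, zero_mul, mul_zero, add_zero] at h1
    exact h1
  · rintro ⟨hf, h0⟩
    refine ⟨hf.1, fun j' hj' g hg => ?_⟩
    rw [fh_ins Φ σ h.out, h0, zero_mul, mul_zero, add_zero]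
    exact hf.2 j' hj' g hg

open Classical in
theorem Stp.rad_iffB {Φ : NFan d V 𝒞 E} {c : Conv Φ} {σ : Finset V} {U : Finset 𝒞} {C0 : 𝒞}
    (h : Stp Φ c σ U C0) {e i j : ℕ} (he : σ.card + e = d) (hij : i + j = e)
    (hk : i < Φ.kk σ C0) {f : 𝒞 → ℝ} :
    f ∈ rad Φ.Vj (Φ.wU σ U) e i ↔ f ∈ rad Φ.Vj (Φ.wU σ (insert C0 U)) e i ∧ f C0 = 0 := by
  constructor
  · intro hf
    obtain ⟨p, hp, hp0, hpz⟩ := fh_minus h he
    have h0 : f C0 = 0 := by
      have h1 := hf.2 j hij p (Φ.Vj_mono (by omega) hp)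
      have h4 := hpz i f hf.1 hk
      rw [ip_comm, fh_ins Φ σ h.out, h1, zero_add] at h4
      rcases mul_eq_zero.1 h4 with h2 | h2
      · exact absurd h2 (fh_ne Φ h.sub)
      · rcases mul_eq_zero.1 h2 with h3 | h3
        · exact h3
        · exact absurd h3 hp0
    refine ⟨⟨hf.1, fun j' hj' g hg => ?_⟩, h0⟩
    rw [fh_ins Φ σ h.out, h0, zero_mul, mul_zero, add_zero]
    exact hf.2 j' hj' g hg
  · rintro ⟨hf, h0⟩
    refine ⟨hf.1, fun j' hj' g hg => ?_⟩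
    have h1 := hf.2 j' hj' g hg
    rw [fh_ins Φ σ h.out, h0, zero_mul, mul_zero, add_zero] at h1
    exact h1

theorem Stp.exA {Φ : NFan d V 𝒞 E} {c : Conv Φ} {σ : Finset V} {U : Finset 𝒞} {C0 : 𝒞}
    (h : Stp Φ c σ U C0) {e i : ℕ} (hk : Φ.kk σ C0 ≤ i) :
    ∃ f ∈ rad Φ.Vj (Φ.wU σ U) e i, f C0 ≠ 0 := by
  obtain ⟨p, hp, hp0, hpz⟩ := fh_plus h
  exact ⟨p, ⟨Φ.Vj_mono hk hp, fun j _ g _ => hpz g⟩, hp0⟩

open Classical in
theorem Stp.exB {Φ : NFan d V 𝒞 E} {c : Conv Φ} {σ : Finset V} {U : Finset 𝒞} {C0 : 𝒞}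
    (h : Stp Φ c σ U C0) {e i j : ℕ} (he : σ.card + e = d) (hij : i + j = e)
    (hk : j < Φ.kk σ C0) :
    ∃ f ∈ rad Φ.Vj (Φ.wU σ (insert C0 U)) e i, f C0 ≠ 0 := by
  obtain ⟨p, hp, hp0, hpz⟩ := fh_minus h he
  refine ⟨p, ⟨Φ.Vj_mono (by omega) hp, fun j' hj' g hg => ?_⟩, hp0⟩
  exact hpz j' g hg (by omega)

end Pool.Agent.MP19e880.AR
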