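import Pool.Agent.Lib.MP_19e880_co_AR.Fh

/-!
The change of the rank when a chamber is added.
-/

set_option autoImplicit false
set_option linter.unusedSectionVars false

open Finset Module

namespace Pool.Agent.MP19e880.AR

variable {d : ℕ} {V 𝒞 E : Type*} [Fintype V] [DecidableEq V] [Fintype 𝒞] [AddCommGroup E]
  [Module ℝ E]


/-- Dimensions: a subspace cut out by one functional. -/
theorem finrank_cut {A B : Submodule ℝ (𝒞 → ℝ)} {C0 : 𝒞}
    (h : ∀ f, f ∈ A ↔ f ∈ B ∧ f C0 = 0) (h2 : ∃ f ∈ B, f C0 ≠ 0) :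
    finrank ℝ A + 1 = finrank ℝ B := by
  let φ : B →ₗ[ℝ] ℝ := (LinearMap.proj C0 : (𝒞 → ℝ) →ₗ[ℝ] ℝ).comp B.subtype
  have h3 : LinearMap.range φ = ⊤ := by
    rw [LinearMap.range_eq_top]
    obtain ⟨f, hf, hf0⟩ := h2
    intro r
    refine ⟨(r / f C0) • ⟨f, hf⟩, ?_⟩
    show (r / f C0) * f C0 = r
    field_simp
  have h4 : (LinearMap.ker φ).map B.subtype = A := by
    ext f
    rw [Submodule.mem_map]
    constructor
    · rintro ⟨⟨g, hg⟩, hg0, rfl⟩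
      exact (h g).2 ⟨hg, hg0⟩
    · intro hf
      obtain ⟨h5, h6⟩ := (h f).1 hf
      exact ⟨⟨f, h5⟩, h6, rfl⟩
  have h5 : finrank ℝ A = finrank ℝ (LinearMap.ker φ) := by
    rw [← h4]
    exact (LinearEquiv.finrank_eq (Submodule.equivMapOfInjective _
      (Submodule.subtype_injective B) _)).symm
  have h6 := LinearMap.finrank_range_add_finrank_ker φ
  rw [h3, finrank_top, finrank_self] at h6
  omega

private theorem fi_rad_le (K : ℕ → Submodule ℝ (𝒞 → ℝ)) (w : 𝒞 → ℝ) (e i : ℕ) :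
    finrank ℝ (rad K w e i) ≤ finrank ℝ (K i) :=
  Submodule.finrank_mono fun _ hf => hf.1

open Classical in
theorem Stp.rk_up {Φ : NFan d V 𝒞 E} {c : Conv Φ} {σ : Finset V} {U : Finset 𝒞} {C0 : 𝒞}
    (h : Stp Φ c σ U C0) {e i : ℕ} (he : σ.card + e = d) (hi : 2 * i ≤ e)
    (hk : Φ.kk σ C0 ≤ i) :
    rk Φ.Vj (Φ.wU σ (insert C0 U)) e i = rk Φ.Vj (Φ.wU σ U) e i + 1 := by
  have h1 := finrank_cut (A := rad Φ.Vj (Φ.wU σ (insert C0 U)) e i)
    (B := rad Φ.Vj (Φ.wU σ U) e i) (C0 := C0)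
    (fun f => h.rad_iffA he (show i + (e - i) = e by omega) (by omega)) (h.exA hk)
  have h2 := fi_rad_le Φ.Vj (Φ.wU σ U) e i
  unfold rk
  omega

open Classical in
theorem Stp.rk_eq {Φ : NFan d V 𝒞 E} {c : Conv Φ} {σ : Finset V} {U : Finset 𝒞} {C0 : 𝒞}
    (h : Stp Φ c σ U C0) {e i : ℕ} (he : σ.card + e = d) (hk : i < Φ.kk σ C0)
    (hk' : Φ.kk σ C0 + i ≤ e) :
    rad Φ.Vj (Φ.wU σ (insert C0 U)) e i = rad Φ.Vj (Φ.wU σ U) e i := by
  ext f
  have h1 := h.rad_iffA he (show i + (e - i) = e by omega) (by omega) (f := f)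
  have h2 := h.rad_iffB he (show i + (e - i) = e by omega) hk (f := f)
  exact ⟨fun hf => (h1.1 hf).1, fun hf => (h2.1 hf).1⟩

open Classical in
theorem Stp.rk_down {Φ : NFan d V 𝒞 E} {c : Conv Φ} {σ : Finset V} {U : Finset 𝒞} {C0 : 𝒞}
    (h : Stp Φ c σ U C0) {e i : ℕ} (he : σ.card + e = d) (hi : 2 * i ≤ e)
    (hk : e < Φ.kk σ C0 + i) :
    rk Φ.Vj (Φ.wU σ (insert C0 U)) e i + 1 = rk Φ.Vj (Φ.wU σ U) e i := by
  have h1 := finrank_cut (A := rad Φ.Vj (Φ.wU σ U) e i)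
    (B := rad Φ.Vj (Φ.wU σ (insert C0 U)) e i) (C0 := C0)
    (fun f => h.rad_iffB he (show i + (e - i) = e by omega) (by omega))
    (h.exB he (show i + (e - i) = e by omega) (by omega))
  have h2 := fi_rad_le Φ.Vj (Φ.wU σ (insert C0 U)) e i
  unfold rk
  omega

end Pool.Agent.MP19e880.AR
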