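import Pool.Agent.Lib.MP_19e880_co_AR.Fc

/-!
The forms of the whole star do not depend on t.
-/

set_option autoImplicit false
set_option linter.unusedSectionVars false

open Finset Module

namespace Pool.Agent.MP19e880.AR

variable {d : ℕ} {V 𝒞 E : Type*} [Fintype V] [DecidableEq V] [Fintype 𝒞] [AddCommGroup E]
  [Module ℝ E]


theorem Conv.full_indep {Φ : NFan d V 𝒞 E} (c : Conv Φ) {σ : Finset V} {e i j m : ℕ}
    (he : σ.card + e = d) {U : Finset 𝒞} (hU : ∀ C, σ ⊆ Φ.F C → C ∈ U) (hm : i + j + m = e)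
    (t t' : ℝ) {f g : 𝒞 → ℝ} (hf : f ∈ Φ.Vj i) (hg : g ∈ Φ.Vj j) :
    ip (Φ.wU σ U * c.lt t ^ m) f g = ip (Φ.wU σ U * c.lt t' ^ m) f g := by
  rcases Nat.eq_zero_or_pos m with rfl | hm0
  · rw [pow_zero, pow_zero]
  set l : 𝒞 → ℝ := ∑ k ∈ range m, c.lt t ^ k * c.lt t' ^ (m - 1 - k) with hl
  have h1 : c.lt t ^ m = c.lt t' ^ m + (t' - t) • l := by
    have h2 := (Commute.all (c.lt t) (c.lt t')).geom_sum₂_mul m
    have h3 : c.lt t - c.lt t' = fun _ => t' - t := by
      funext C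
      simp only [Pi.sub_apply, Conv.lt]
      ring
    rw [h3, ← hl] at h2
    have h4 : (t' - t) • l = l * (fun _ : 𝒞 => t' - t) := by
      funext C
      simp only [Pi.smul_apply, Pi.mul_apply, smul_eq_mul]
      ring
    rw [h4, h2]
    ring
  have h5 : l ∈ Φ.Vj (m - 1) := by
    refine Submodule.sum_mem _ fun k hk => ?_
    rw [mem_range] at hk
    have h6 := Φ.mul_mem (Φ.pow_mem (c.lt_mem t) k) (Φ.pow_mem (c.lt_mem t') (m - 1 - k))
    rwa [show k + (m - 1 - k) = m - 1 by omega] at h6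
  have h7 := Φ.low he hU hf hg h5 (by omega)
  rw [h1, mul_add, ip_add_weight, mul_smul_comm, ip_smul_weight, h7, mul_zero, add_zero]

end Pool.Agent.MP19e880.AR
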