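import Pool.Agent.Lib.MP_19e880_co_AR.Fj
import Pool.Agent.Lib.MP_19e880_co_AR.AdmL
import Pool.Agent.Lib.MP_19e880_co_AR.Ff
import Pool.Agent.Lib.MP_19e880_co_AR.Fg

/-!
Hard Lefschetz for the canonical admissible pairs.
-/

set_option autoImplicit false
set_option linter.unusedSectionVars false

open Finset Module

namespace Pool.Agent.MP19e880.AR

variable {d : ℕ} {V 𝒞 E : Type*} [Fintype V] [DecidableEq V] [Fintype 𝒞] [AddCommGroup E]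
  [Module ℝ E]

/-- the whole star -/
private theorem fk_full {Φ : NFan d V 𝒞 E} {c : Conv Φ}
    {σ : Finset V} (hσ : Φ.Face σ) {e i m : ℕ} (he : σ.card + (e + 1) = d)
    (hm : 2 * i + (m + 1) = e + 1) {U : Finset 𝒞} (t : ℝ) (hU : ∀ C, σ ⊆ Φ.F C → C ∈ U)
    (hS : ∀ v, v ∉ σ → Φ.Face (insert v σ) → ∀ t', HRx Φ c (insert v σ) e i U t') :
    radB (ip (Φ.wU σ U * c.lt t ^ (m + 1))) (Φ.Vj i) ≤ rad Φ.Vj (Φ.wU σ U) (e + 1) i := by
  obtain ⟨t', η, h1, h2, h3⟩ := c.coef_some hσ (by omega)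
  refine le_trans ?_ (Φ.kleiman c hσ he hm h1 h2 h3 (fun v hv hF => hS v hv hF t'))
  intro f hf
  rw [mem_radB] at hf ⊢
  refine ⟨hf.1, fun g hg => ?_⟩
  rw [← c.full_indep he hU (by omega) t t' hf.1 hg]
  exact hf.2 g hg

/-- no chamber of the star -/
private theorem fk_zero {Φ : NFan d V 𝒞 E} {σ : Finset V} {e i : ℕ} {U : Finset 𝒞}
    (l : 𝒞 → ℝ) (hU : ∀ C, σ ⊆ Φ.F C → C ∉ U) :
    radB (ip (Φ.wU σ U * l)) (Φ.Vj i) ≤ rad Φ.Vj (Φ.wU σ U) (e + 1) i := by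
  rw [Φ.wU_zero hU]
  intro f hf
  rw [mem_radB] at hf
  rw [mem_rad]
  exact ⟨hf.1, fun j _ g _ => ip_zero_weight f g⟩

/-- values on both sides -/
private theorem fk_step {Φ : NFan d V 𝒞 E} {c : Conv Φ} (hinj : Function.Injective c.LL)
    {σ : Finset V} (hσ : Φ.Face σ) {e i m : ℕ} (he : σ.card + (e + 1) = d)
    (hm : 2 * i + (m + 1) = e + 1) {U : Finset 𝒞} {t : ℝ} (hA : AdmC Φ c σ (e + 1) i U t)
    (hS : ∀ v, v ∉ σ → Φ.Face (insert v σ) → Sg Φ c (insert v σ) e)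
    (h1 : ∃ C, σ ⊆ Φ.F C ∧ t < c.LL C) (h2 : ∃ C, σ ⊆ Φ.F C ∧ c.LL C < t) :
    radB (ip (Φ.wU σ U * c.lt t ^ (m + 1))) (Φ.Vj i) ≤ rad Φ.Vj (Φ.wU σ U) (e + 1) i := by
  obtain ⟨η, h3, h4, h5⟩ := c.coef (by omega) h1 h2
  exact Φ.kleiman c hσ he hm h3 h4 h5 fun v hv hF =>
    hS v hv hF i (by omega) U t (adm_link hinj hv (by omega) hA)

theorem hl_can {Φ : NFan d V 𝒞 E} {c : Conv Φ} (hinj : Function.Injective c.LL)
    {σ : Finset V} (hσ : Φ.Face σ) {e i m : ℕ} (he : σ.card + (e + 1) = d)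
    (hm : 2 * i + (m + 1) = e + 1) {U : Finset 𝒞} {t : ℝ} (hA : AdmC Φ c σ (e + 1) i U t)
    (hS : ∀ v, v ∉ σ → Φ.Face (insert v σ) → Sg Φ c (insert v σ) e) :
    radB (ip (Φ.wU σ U * c.lt t ^ (m + 1))) (Φ.Vj i) ≤ rad Φ.Vj (Φ.wU σ U) (e + 1) i := by
  have hfull : (∀ C, σ ⊆ Φ.F C → C ∈ U) →
      radB (ip (Φ.wU σ U * c.lt t ^ (m + 1))) (Φ.Vj i) ≤ rad Φ.Vj (Φ.wU σ U) (e + 1) i :=
    fun hU => fk_full hσ he hm t hU fun v hv hF t' => hS v hv hF i (by omega) U t'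
      (Or.inl fun C hC => hU C ((Finset.subset_insert v σ).trans hC))
  have hA' := hA
  rcases hA' with hU | ⟨hne, hU⟩ | ⟨C0, hC0, ht, hU, hk⟩ | ⟨C0, hC0, ht, hU, hk⟩
  · exact hfull hU
  · by_cases h1 : ∃ C, σ ⊆ Φ.F C ∧ t < c.LL C
    · by_cases h2 : ∃ C, σ ⊆ Φ.F C ∧ c.LL C < t
      · exact fk_step hinj hσ he hm hA hS h1 h2
      · refine hfull fun C hC => (hU C hC).2 ?_
        by_contra h3
        exact h2 ⟨C, hC, lt_of_le_of_ne (not_lt.1 h3) (hne C hC)⟩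
    · exact fk_zero _ fun C hC h3 => h1 ⟨C, hC, (hU C hC).1 h3⟩
  · by_cases h1 : ∃ C, σ ⊆ Φ.F C ∧ t < c.LL C
    · by_cases h2 : ∃ C, σ ⊆ Φ.F C ∧ c.LL C < t
      · exact fk_step hinj hσ he hm hA hS h1 h2
      · exfalso
        have h3 := c.kk_min he hC0 (fun C' hC' => by
          rw [ht]
          by_contra h4
          exact h2 ⟨C', hC', not_le.1 h4⟩)
        omega
    · exact fk_zero _ fun C hC h3 => h1 ⟨C, hC, (hU C hC).1 h3⟩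
  · by_cases h2 : ∃ C, σ ⊆ Φ.F C ∧ c.LL C < t
    · by_cases h1 : ∃ C, σ ⊆ Φ.F C ∧ t < c.LL C
      · exact fk_step hinj hσ he hm hA hS h1 h2
      · exfalso
        have h3 := c.kk_max hC0 (fun C' hC' => by
          rw [ht]
          by_contra h4
          exact h1 ⟨C', hC', not_le.1 h4⟩)
        omega
    · refine hfull fun C hC => (hU C hC).2 ?_
      by_contra h3
      exact h2 ⟨C, hC, not_le.1 h3⟩

/-- Hard Lefschetz for the whole star (no genericity needed). -/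
theorem hl_full {Φ : NFan d V 𝒞 E} {c : Conv Φ}
    {σ : Finset V} (hσ : Φ.Face σ) {e i m : ℕ} (he : σ.card + (e + 1) = d)
    (hm : 2 * i + (m + 1) = e + 1) {U : Finset 𝒞} (t : ℝ) (hU : ∀ C, σ ⊆ Φ.F C → C ∈ U)
    (hS : ∀ v, v ∉ σ → Φ.Face (insert v σ) → ∀ t', HRx Φ c (insert v σ) e i U t') :
    radB (ip (Φ.wU σ U * c.lt t ^ (m + 1))) (Φ.Vj i) ≤ rad Φ.Vj (Φ.wU σ U) (e + 1) i :=
  fk_full hσ he hm t hU hS

end Pool.Agent.MP19e880.AR
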