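import Pool.Agent.Lib.MP_19e880_co_AR.Fk
import Pool.Agent.Lib.MP_19e880_co_AR.Fi

/-!
Hard Lefschetz for all admissible pairs.
-/

set_option autoImplicit false
set_option linter.unusedSectionVars false

open Finset Module

namespace Pool.Agent.MP19e880.AR

variable {d : ℕ} {V 𝒞 E : Type*} [Fintype V] [DecidableEq V] [Fintype 𝒞] [AddCommGroup E]
  [Module ℝ E]

open Classical in
/-- The radicals of the forms agree if a chamber of value `t` is added. -/
private theorem fl_radB (Φ : NFan d V 𝒞 E) (c : Conv Φ) {σ : Finset V} {U : Finset 𝒞} {C0 : 𝒞}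
    (hC0 : C0 ∉ U) {t : ℝ} (ht : c.LL C0 = t) (m i : ℕ) :
    radB (ip (Φ.wU σ (insert C0 U) * c.lt t ^ (m + 1))) (Φ.Vj i) =
      radB (ip (Φ.wU σ U * c.lt t ^ (m + 1))) (Φ.Vj i) := by
  have h1 : ∀ f g, ip (Φ.wU σ (insert C0 U) * c.lt t ^ (m + 1)) f g =
      ip (Φ.wU σ U * c.lt t ^ (m + 1)) f g := by
    intro f g
    have h2 : (c.lt t ^ (m + 1)) C0 = 0 := by
      rw [Pi.pow_apply]
      unfold Conv.lt
      rw [ht, sub_self, zero_pow (Nat.succ_ne_zero m)]
    rw [Φ.wU_insert σ hC0, h2]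
    ring
  ext f
  rw [mem_radB, mem_radB]
  simp only [h1]

theorem hl_adm {Φ : NFan d V 𝒞 E} {c : Conv Φ} (hinj : Function.Injective c.LL)
    {σ : Finset V} (hσ : Φ.Face σ) {e i m : ℕ} (he : σ.card + (e + 1) = d)
    (hm : 2 * i + (m + 1) = e + 1) {U : Finset 𝒞} {t : ℝ} (hA : Adm Φ c σ (e + 1) i U t)
    (hS : ∀ v, v ∉ σ → Φ.Face (insert v σ) → Sg Φ c (insert v σ) e) :
    radB (ip (Φ.wU σ U * c.lt t ^ (m + 1))) (Φ.Vj i) ≤ rad Φ.Vj (Φ.wU σ U) (e + 1) i := by
  classical
  rcases hA with h | h | ⟨C0, h1, h2, h3, h4⟩ | ⟨C0, h1, h2, h3, h4⟩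
  · exact hl_can hinj hσ he hm (Or.inl h) hS
  · exact hl_can hinj hσ he hm (Or.inr (Or.inl h)) hS
  · rcases Nat.lt_or_ge (Φ.kk σ C0 + i) (e + 1) with h5 | h5
    · exact hl_can hinj hσ he hm (Or.inr (Or.inr (Or.inl ⟨C0, h1, h2, h3, h5⟩))) hS
    have h6 : Φ.kk σ C0 + i = e + 1 := by omega
    have hout : C0 ∉ U := fun h => absurd ((h3 C0 h1).1 h) (by rw [h2]; exact lt_irrefl t)
    have hst : Stp Φ c σ U C0 :=
      { sub := h1
        out := hout
        up := fun C hC => by rw [h2]; exact h3 C hC }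
    have hU : ∀ C, σ ⊆ Φ.F C → (C ∈ insert C0 U ↔ t ≤ c.LL C) := by
      intro C hC
      rw [Finset.mem_insert, h3 C hC]
      constructor
      · rintro (rfl | h)
        · exact h2.ge
        · exact h.le
      · intro h
        rcases h.eq_or_lt with h | h
        · left
          exact hinj (h.symm.trans h2.symm)
        · exact Or.inr h
    have h7 := hl_can hinj hσ he hm (Or.inr (Or.inr (Or.inr ⟨C0, h1, h2, hU, h6.ge⟩))) hS
    rw [fl_radB Φ c hout h2, hst.rk_eq he (by omega) h6.le] at h7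
    exact h7
  · rcases Nat.lt_or_ge (Φ.kk σ C0 + i) (e + 1) with h5 | h5
    · have hmem : C0 ∈ U := (h3 C0 h1).2 h2.ge
      have hin : insert C0 (U.erase C0) = U := Finset.insert_erase hmem
      have hout : C0 ∉ U.erase C0 := Finset.notMem_erase C0 U
      have hU : ∀ C, σ ⊆ Φ.F C → (C ∈ U.erase C0 ↔ t < c.LL C) := by
        intro C hC
        rw [Finset.mem_erase, h3 C hC]
        constructor
        · rintro ⟨h, h'⟩
          exact lt_of_le_of_ne h' fun h'' => h (hinj (h''.symm.trans h2.symm))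
        · intro h
          refine ⟨?_, h.le⟩
          rintro rfl
          rw [h2] at h
          exact lt_irrefl t h
      have hst : Stp Φ c σ (U.erase C0) C0 :=
        { sub := h1
          out := hout
          up := fun C hC => by rw [h2]; exact hU C hC }
      have h7 := hl_can hinj hσ he hm (Or.inr (Or.inr (Or.inl ⟨C0, h1, h2, hU, h5⟩))) hS
      rw [← fl_radB Φ c hout h2, ← hst.rk_eq he (by omega) h5.le, hin] at h7
      exact h7
    · exact hl_can hinj hσ he hm (Or.inr (Or.inr (Or.inr ⟨C0, h1, h2, h3, h5⟩))) hS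

end Pool.Agent.MP19e880.AR
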