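import Pool.Agent.Lib.MP_19e880_co_AR.Aa

/-!
The face complex of a simplicial arrangement is flag.
-/

set_option autoImplicit false
set_option linter.unusedSectionVars false

open Finset Module

namespace Pool.Agent.MP19e880.AR

variable {V ι E : Type*} [Fintype V] [DecidableEq V] [Fintype ι] [AddCommGroup E] [Module ℝ E]
  [FiniteDimensional ℝ E] {φ : ι → E →ₗ[ℝ] ℝ} {p : V → E} {S : Finset (Finset V)}

private theorem fla_sum {c : V → ℝ} {F : Finset V} {s : ℝ} {a : V → ℝ} :
    ∑ v ∈ F, (c v + s * a v) • p v = ∑ v ∈ F, c v • p v + s • ∑ v ∈ F, a v • p v := by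
  rw [smul_sum, ← sum_add_distrib]
  exact sum_congr rfl (fun v _ => by rw [add_smul, mul_smul])

/-- The signs of two compatible rays are compatible. -/
private theorem fla_pair (h : IsArr φ p S) {a b : V} (hab : ({a, b} : Finset V) ∈ S) (q : ι)
    (ha : 0 < φ q (p a)) : 0 ≤ φ q (p b) := by
  by_contra hb
  rw [not_le] at hb
  have hne : a ≠ b := by
    rintro rfl
    linarith
  have hs : ∀ x y : ℝ, ∑ v ∈ ({a, b} : Finset V), (if v = a then x else y) • p v =
      x • p a + y • p b := by
    intro x y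
    rw [sum_pair hne, if_pos rfl, if_neg hne.symm]
  have h1 := fun x y x' y' (hx : 0 < x) (hy : 0 < y) (hx' : 0 < x') (hy' : 0 < y') =>
    (h.sign _ hab _ hab (fun v => if v = a then x else y) (fun v => if v = a then x' else y')
      (fun v _ => by show 0 < ite _ _ _; split_ifs; exacts [hx, hy])
      (fun v _ => by show 0 < ite _ _ _; split_ifs; exacts [hx', hy'])).mpr rfl q
  simp only [hs, map_add, map_smul, smul_eq_mul] at h1
  have h2 := h1 1 (φ q (p a) / (-(2 * φ q (p b)))) 1 (2 * φ q (p a) / (-φ q (p b))) one_pos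
    (div_pos ha (by linarith)) one_pos (div_pos (by linarith) (by linarith))
  have h3 : 1 * φ q (p a) + φ q (p a) / (-(2 * φ q (p b))) * φ q (p b) = φ q (p a) / 2 := by
    have := hb.ne
    field_simp
    ring
  have h4 : 1 * φ q (p a) + 2 * φ q (p a) / (-φ q (p b)) * φ q (p b) = -φ q (p a) := by
    have := hb.ne
    field_simp
    ring
  rw [h3, h4, sign_pos (by linarith), sign_neg (by linarith)] at h2
  exact absurd h2 (by decide)

private theorem fla_pair' (h : IsArr φ p S) {a b : V} (hab : ({a, b} : Finset V) ∈ S) (q : ι)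
    (ha : φ q (p a) < 0) : φ q (p b) ≤ 0 := by
  by_contra hb
  rw [not_le] at hb
  have h1 : ({b, a} : Finset V) ∈ S := by rwa [pair_comm]
  have h2 := fla_pair h h1 q hb
  linarith

theorem IsArr.flag (h : IsArr φ p S) {T : Finset V}
    (hT : ∀ a ∈ T, ∀ b ∈ T, ({a, b} : Finset V) ∈ S) : T ∈ S := by
  obtain ⟨F, hF, c, hc, hz⟩ := h.cover (∑ v ∈ T, p v)
  refine h.down F hF T (fun w hw => ?_)
  have hwS : ({w} : Finset V) ∈ S := by
    have h1 := hT w hw w hw
    rwa [pair_eq_singleton] at h1
  have key : ∀ s : ℝ, 0 < s → ∃ c' : V → ℝ, (∀ v ∈ F, 0 < c' v) ∧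
      ∑ v ∈ T, p v + s • p w = ∑ v ∈ F, c' v • p v := by
    intro s hs
    obtain ⟨F', hF', c', hc', hz'⟩ := h.cover (∑ v ∈ T, p v + s • p w)
    have h1 : F' = F := by
      refine (h.sign F' hF' F hF c' c hc' hc).mp (fun q => ?_)
      rw [← hz', ← hz, map_add, map_smul, smul_eq_mul, map_sum]
      rcases lt_trichotomy (φ q (p w)) 0 with h2 | h2 | h2
      · have h3 : ∑ v ∈ T, φ q (p v) < 0 := by
          have h4 : ∑ v ∈ T, φ q (p v) ≤ φ q (p w) := by
            rw [← Finset.add_sum_erase T _ hw]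
            have h5 : ∑ v ∈ T.erase w, φ q (p v) ≤ 0 :=
              Finset.sum_nonpos (fun v hv => fla_pair' h (hT w hw v (mem_of_mem_erase hv)) q h2)
            linarith
          linarith
        rw [sign_neg h3, sign_neg (by nlinarith)]
      · rw [h2, mul_zero, add_zero]
      · have h3 : 0 < ∑ v ∈ T, φ q (p v) := by
          have h4 : φ q (p w) ≤ ∑ v ∈ T, φ q (p v) := by
            rw [← Finset.add_sum_erase T _ hw]
            have h5 : 0 ≤ ∑ v ∈ T.erase w, φ q (p v) :=
              Finset.sum_nonneg (fun v hv => fla_pair h (hT w hw v (mem_of_mem_erase hv)) q h2)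
            linarith
          linarith
        rw [sign_pos h3, sign_pos (by nlinarith)]
    subst h1
    exact ⟨c', hc', hz'⟩
  obtain ⟨c1, hc1, hz1⟩ := key 1 one_pos
  have hpw : ∑ v ∈ F, (c1 v - c v) • p v = p w := by
    have h2 : ∑ v ∈ F, (c1 v - c v) • p v = ∑ v ∈ F, c1 v • p v - ∑ v ∈ F, c v • p v := by
      rw [← sum_sub_distrib]
      exact sum_congr rfl (fun v _ => sub_smul _ _ _)
    rw [h2, ← hz1, ← hz, one_smul, add_sub_cancel_left]
  have hnn : ∀ v ∈ F, 0 ≤ c1 v - c v := by
    intro v hv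
    by_contra h2
    rw [not_le] at h2
    have h3 : 0 < c v / (-(c1 v - c v)) + 1 := by
      have := div_pos (hc v hv) (show 0 < -(c1 v - c v) by linarith)
      linarith
    obtain ⟨c2, hc2, hz2⟩ := key _ h3
    have h4 : ∑ v ∈ F, (c v + (c v / (-(c1 v - c v)) + 1) * 0) • p v = ∑ v ∈ F, c v • p v := by
      simp
    have h5 := h.coef_unique hF (c := c2)
      (c' := fun x => c x + (c v / (-(c1 v - c v)) + 1) * (c1 x - c x)) (by
        rw [← hz2]
        rw [fla_sum (a := fun x => c1 x - c x), hpw, ← hz]) v hv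
    have h6 := hc2 v hv
    rw [h5] at h6
    have h7 : c v / (-(c1 v - c v)) * (c1 v - c v) = -c v := by
      rw [div_neg, neg_mul, div_mul_cancel₀ _ h2.ne]
    have h8 : c v + (c v / (-(c1 v - c v)) + 1) * (c1 v - c v) = c1 v - c v := by
      rw [add_mul, h7]
      ring
    rw [h8] at h6
    linarith
  exact h.sub_of_mem hF hwS hnn (c' := fun _ => 1) (fun _ _ => one_pos)
    (by rw [hpw, sum_singleton, one_smul]) (mem_singleton_self w)

end Pool.Agent.MP19e880.AR
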