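import Pool.Agent.Lib.MP_19e880_co_AR.Defs

/-!
Basic properties of the forms.
-/

set_option autoImplicit false
set_option linter.unusedSectionVars false

open Finset Module

namespace Pool.Agent.MP19e880.AR

variable {𝒞 : Type*} [Fintype 𝒞]

theorem ip_comm (w f g : 𝒞 → ℝ) : ip w f g = ip w g f := by
  rw [ip_apply, ip_apply]
  exact sum_congr rfl (fun C _ => by rw [mul_comm (f C)])

theorem ip_mul_right (w N f g : 𝒞 → ℝ) : ip (w * N) f g = ip w f (N * g) := by
  rw [ip_apply, ip_apply]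
  exact sum_congr rfl (fun C _ => by simp only [Pi.mul_apply]; ring)

theorem ip_mul_left (w N f g : 𝒞 → ℝ) : ip (w * N) f g = ip w (N * f) g := by
  rw [ip_apply, ip_apply]
  exact sum_congr rfl (fun C _ => by simp only [Pi.mul_apply]; ring)

theorem ip_add_weight (w w' f g : 𝒞 → ℝ) : ip (w + w') f g = ip w f g + ip w' f g := by
  rw [ip_apply, ip_apply, ip_apply, ← sum_add_distrib]
  exact sum_congr rfl (fun C _ => by simp only [Pi.add_apply]; ring)

theorem ip_smul_weight (a : ℝ) (w f g : 𝒞 → ℝ) : ip (a • w) f g = a * ip w f g := by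
  rw [ip_apply, ip_apply, mul_sum]
  exact sum_congr rfl (fun C _ => by simp only [Pi.smul_apply, smul_eq_mul]; ring)

theorem ip_zero_weight (f g : 𝒞 → ℝ) : ip (0 : 𝒞 → ℝ) f g = 0 := by
  rw [ip_apply]
  exact sum_eq_zero (fun C _ => by simp only [Pi.zero_apply, zero_mul])

theorem rad_le (K : ℕ → Submodule ℝ (𝒞 → ℝ)) (w : 𝒞 → ℝ) (d i : ℕ) : rad K w d i ≤ K i :=
  fun _ hf => hf.1

/-- Multiplication by a power. -/
theorem pow_mul_mem {K : ℕ → Submodule ℝ (𝒞 → ℝ)} {l : 𝒞 → ℝ}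
    (hl : ∀ i f, f ∈ K i → l * f ∈ K (i + 1)) (m i : ℕ) {f : 𝒞 → ℝ} (hf : f ∈ K i) :
    l ^ m * f ∈ K (i + m) := by
  induction m with
  | zero => rwa [pow_zero, one_mul, add_zero]
  | succ m ih =>
    rw [pow_succ', mul_assoc, ← add_assoc]
    exact hl _ _ ih

/-- The radical of the form is contained in the radical of the pairing. -/
theorem HR.hl {K : ℕ → Submodule ℝ (𝒞 → ℝ)} {w l : 𝒞 → ℝ} {d i m : ℕ} (h : HR K w d l i)
    (hm : 2 * i + m = d) (hl : ∀ i f, f ∈ K i → l * f ∈ K (i + 1)) {f : 𝒞 → ℝ} (hf : f ∈ K i)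
    (h0 : ∀ g ∈ K i, ip (w * l ^ m) f g = 0) : f ∈ rad K w d i := by
  refine (h m hm f hf (fun j hj g hg => ?_)).2 (h0 f hf)
  have h1 : ip (w * l ^ (m + 1)) f g = ip (w * l ^ m) f (l * g) := by
    rw [pow_succ, ← mul_assoc, ip_mul_right]
  rw [h1]
  refine h0 _ ?_
  rw [← hj]
  exact hl j g hg

end Pool.Agent.MP19e880.AR
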