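import Pool.Agent.Lib.MP_19e880_co_AR.Ix2

/-!
Rank one changes of a form.
-/

set_option autoImplicit false
set_option linter.unusedSectionVars false

open Finset Module

namespace Pool.Agent.MP19e880.AR

variable {F : Type*} [AddCommGroup F] [Module ℝ F] [FiniteDimensional ℝ F]


theorem nIdx_rank_one {B B' : LinearMap.BilinForm ℝ F} (l : F →ₗ[ℝ] ℝ) {δ : ℝ} (hδ : 0 ≤ δ)
    (h : ∀ x y, B' x y = B x y + δ * (l x * l y)) (K : Submodule ℝ F) :
    nIdx B' K ≤ nIdx B K ∧ nIdx B K ≤ nIdx B' K + 1 := by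
  constructor
  · refine nIdx_mono fun x _ => ?_
    rw [h]
    have := mul_nonneg hδ (mul_self_nonneg (l x))
    linarith
  · obtain ⟨S, hS, hd, hn⟩ := exists_nIdx B K
    set T : Submodule ℝ F := (LinearMap.ker (l.domRestrict S)).map S.subtype with hT
    have hTS : ∀ x ∈ T, x ∈ S ∧ l x = 0 := by
      intro x hx
      obtain ⟨y, hy, rfl⟩ := Submodule.mem_map.1 hx
      exact ⟨y.2, LinearMap.mem_ker.1 hy⟩
    have h1 : finrank ℝ T ≤ nIdx B' K := by
      refine le_nIdx (fun x hx => hS (hTS x hx).1) fun x hx h0 => ?_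
      rw [h, (hTS x hx).2]
      have := hn x (hTS x hx).1 h0
      linarith
    have h2 : finrank ℝ T = finrank ℝ (LinearMap.ker (l.domRestrict S)) :=
      Submodule.finrank_map_subtype_eq _ _
    have h3 := LinearMap.finrank_range_add_finrank_ker (l.domRestrict S)
    have h4 : finrank ℝ (LinearMap.range (l.domRestrict S)) ≤ 1 := by
      have h5 := Submodule.finrank_le (LinearMap.range (l.domRestrict S))
      rwa [finrank_self] at h5
    omega

private theorem ix4_both {B B' : LinearMap.BilinForm ℝ F} (l : F →ₗ[ℝ] ℝ) {δ : ℝ} (s : ℤ)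
    (hδ : 0 < δ * s) (h : ∀ x y, B' x y = B x y + δ * (l x * l y)) (K : Submodule ℝ F) :
    (sIdx s B K ≤ sIdx s B' K ∧ sIdx s B' K ≤ sIdx s B K + 1) ∧
      (sIdx (-s) B' K ≤ sIdx (-s) B K ∧ sIdx (-s) B K ≤ sIdx (-s) B' K + 1) := by
  constructor
  · refine nIdx_rank_one l hδ.le (fun x y => ?_) K
    simp only [LinearMap.neg_apply, LinearMap.smul_apply, smul_eq_mul]
    rw [h]
    ring
  · refine nIdx_rank_one l hδ.le (fun x y => ?_) K
    simp only [LinearMap.neg_apply, LinearMap.smul_apply, smul_eq_mul]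
    rw [h]
    push_cast
    ring

private theorem ix4_sum {B : LinearMap.BilinForm ℝ F} (hB : ∀ x y, B x y = B y x) (s : ℤ)
    (hs : s = 1 ∨ s = -1) (K : Submodule ℝ F) : sIdx s B K + sIdx (-s) B K = rkB B K := by
  rcases hs with rfl | rfl
  · exact sIdx_add B hB K
  · rw [neg_neg, add_comm]
    exact sIdx_add B hB K

private theorem ix4_symm {B B' : LinearMap.BilinForm ℝ F} (hB : ∀ x y, B x y = B y x)
    (l : F →ₗ[ℝ] ℝ) {δ : ℝ} (h : ∀ x y, B' x y = B x y + δ * (l x * l y)) (x y : F) :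
    B' x y = B' y x := by
  rw [h, h, hB]
  ring

/-- Adding a term of sign `s` which increases the rank. -/
theorem sIdx_up {B B' : LinearMap.BilinForm ℝ F} (hB : ∀ x y, B x y = B y x)
    (l : F →ₗ[ℝ] ℝ) {δ : ℝ} (s : ℤ) (hs : s = 1 ∨ s = -1) (hδ : 0 < δ * s)
    (h : ∀ x y, B' x y = B x y + δ * (l x * l y)) (K : Submodule ℝ F)
    (hr : rkB B' K = rkB B K + 1) :
    sIdx s B' K = sIdx s B K + 1 ∧ sIdx (-s) B' K = sIdx (-s) B K := by
  have h1 := ix4_both l s hδ h K
  have h2 := ix4_sum hB s hs K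
  have h3 := ix4_sum (ix4_symm hB l h) s hs K
  omega

/-- Adding a term of sign `s` which decreases the rank. -/
theorem sIdx_down {B B' : LinearMap.BilinForm ℝ F} (hB : ∀ x y, B x y = B y x)
    (l : F →ₗ[ℝ] ℝ) {δ : ℝ} (s : ℤ) (hs : s = 1 ∨ s = -1) (hδ : 0 < δ * s)
    (h : ∀ x y, B' x y = B x y + δ * (l x * l y)) (K : Submodule ℝ F)
    (hr : rkB B' K + 1 = rkB B K) :
    sIdx s B' K = sIdx s B K ∧ sIdx (-s) B K = sIdx (-s) B' K + 1 := by
  have h1 := ix4_both l s hδ h K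
  have h2 := ix4_sum hB s hs K
  have h3 := ix4_sum (ix4_symm hB l h) s hs K
  omega

end Pool.Agent.MP19e880.AR
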