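import Pool.Agent.Lib.MP_19e880_co_AR.Fi
import Pool.Agent.Lib.MP_19e880_co_AR.Ix4

/-!
Preparations for the indices: ranks of forms, change of the expected index.
-/

set_option autoImplicit false
set_option linter.unusedSectionVars false

open Finset Module

namespace Pool.Agent.MP19e880.AR

variable {d : ℕ} {V 𝒞 E : Type*} [Fintype V] [DecidableEq V] [Fintype 𝒞] [AddCommGroup E]
  [Module ℝ E]


/-- The radical of the pairing is contained in the radical of the form. -/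
theorem rad_le_radB {Φ : NFan d V 𝒞 E} {c : Conv Φ} {σ : Finset V} {e i m : ℕ}
    (hm : 2 * i + m = e) (U : Finset 𝒞) (t : ℝ) :
    rad Φ.Vj (Φ.wU σ U) e i ≤ radB (ip (Φ.wU σ U * c.lt t ^ m)) (Φ.Vj i) := by
  rintro f ⟨hf, hr⟩
  refine ⟨hf, fun g hg => ?_⟩
  rw [ip_mul_right]
  exact hr (i + m) (by omega) _
    (pow_mul_mem (K := Φ.Vj) (fun j h hh => c.lt_mul_mem t hh) m i hg)

theorem rkB_le_rk {Φ : NFan d V 𝒞 E} {c : Conv Φ} {σ : Finset V} {e i m : ℕ}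
    (hm : 2 * i + m = e) (U : Finset 𝒞) (t : ℝ) :
    rkB (ip (Φ.wU σ U * c.lt t ^ m)) (Φ.Vj i) ≤ rk Φ.Vj (Φ.wU σ U) e i := by
  unfold rkB rk
  have h1 := Submodule.finrank_mono (rad_le_radB (c := c) (σ := σ) hm U t)
  omega

theorem rkB_eq_rk {Φ : NFan d V 𝒞 E} {c : Conv Φ} {σ : Finset V} {e i m : ℕ}
    (hm : 2 * i + m = e) {U : Finset 𝒞} {t : ℝ}
    (h : radB (ip (Φ.wU σ U * c.lt t ^ m)) (Φ.Vj i) ≤ rad Φ.Vj (Φ.wU σ U) e i) :
    rkB (ip (Φ.wU σ U * c.lt t ^ m)) (Φ.Vj i) = rk Φ.Vj (Φ.wU σ U) e i := by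
  have h1 := rad_le_radB (c := c) (σ := σ) hm U t
  unfold rkB rk
  rw [le_antisymm h h1]

/-- In the middle degree the two radicals agree. -/
theorem radB_mid {Φ : NFan d V 𝒞 E} {c : Conv Φ} {σ : Finset V} {e i : ℕ} (hi : 2 * i = e)
    (U : Finset 𝒞) (t : ℝ) :
    radB (ip (Φ.wU σ U * c.lt t ^ 0)) (Φ.Vj i) ≤ rad Φ.Vj (Φ.wU σ U) e i := by
  rintro f ⟨hf, hr⟩
  refine ⟨hf, fun j hj g hg => ?_⟩
  have e1 : j = i := by omega
  subst e1
  have h1 := hr g hg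
  rwa [pow_zero, mul_one] at h1

theorem continuous_form {Φ : NFan d V 𝒞 E} (c : Conv Φ) (w f g : 𝒞 → ℝ) (m : ℕ) :
    Continuous (fun t : ℝ => ip (w * c.lt t ^ m) f g) := by
  have e1 : (fun t : ℝ => ip (w * c.lt t ^ m) f g) =
      fun t : ℝ => ∑ C, w C * (c.LL C - t) ^ m * (f C * g C) := by
    funext t
    rw [ip_apply]
    rfl
  rw [e1]
  fun_prop

theorem phi_empty (Φ : NFan d V 𝒞 E) {σ : Finset V} (e i : ℕ) {U : Finset 𝒞} (s : ℤ)
    (h : ∀ C, σ ⊆ Φ.F C → C ∉ U) : phi Φ σ e i U s = 0 := by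
  classical
  unfold phi
  rw [filter_eq_empty_iff.mpr (fun C hC h' => h C h'.1 hC),
    filter_eq_empty_iff.mpr (fun C hC h' => h C h'.1 hC)]
  simp

theorem phi_congr (Φ : NFan d V 𝒞 E) {σ : Finset V} (e i : ℕ) {U U' : Finset 𝒞} (s : ℤ)
    (h : ∀ C, σ ⊆ Φ.F C → (C ∈ U ↔ C ∈ U')) : phi Φ σ e i U s = phi Φ σ e i U' s := by
  classical
  have key : ∀ (P : 𝒞 → Prop) [DecidablePred P], (∀ C, P C → σ ⊆ Φ.F C) →
      U.filter (fun C => P C) = U'.filter (fun C => P C) := by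
    intro P _ hP
    ext C
    rw [mem_filter, mem_filter]
    constructor
    · rintro ⟨h1, h2⟩
      exact ⟨(h C (hP C h2)).mp h1, h2⟩
    · rintro ⟨h1, h2⟩
      exact ⟨(h C (hP C h2)).mpr h1, h2⟩
  unfold phi
  rw [key _ (fun C h' => h'.1), key _ (fun C h' => h'.1)]

open Classical in
/-- The expected index when the chamber `C0` is added. -/
theorem phi_insert (Φ : NFan d V 𝒞 E) {σ : Finset V} (e i : ℕ) {U : Finset 𝒞} {C0 : 𝒞} (s : ℤ)
    (h : σ ⊆ Φ.F C0) (h0 : C0 ∉ U) : phi Φ σ e i (insert C0 U) s = phi Φ σ e i U s +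
      (if Φ.kk σ C0 ≤ i ∧ (-1 : ℤ) ^ Φ.kk σ C0 = s then 1 else 0) -
      (if e < Φ.kk σ C0 + i ∧ (-1 : ℤ) ^ (e + Φ.kk σ C0) = -s then 1 else 0) := by
  have key : ∀ (P : 𝒞 → Prop) [DecidablePred P], (((insert C0 U).filter (fun C => P C)).card : ℤ) =
      ((U.filter (fun C => P C)).card : ℤ) + if P C0 then 1 else 0 := by
    intro P _
    rw [filter_insert]
    by_cases hP : P C0
    · rw [if_pos hP, if_pos hP, card_insert_of_notMem (fun h' => h0 (mem_filter.mp h').1)]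
      push_cast
      ring
    · rw [if_neg hP, if_neg hP, add_zero]
  unfold phi
  rw [key, key]
  simp only [h, true_and]
  ring

/-- The expected indices of sign `-(-1) ^ (i + 1)` in the degrees `i` and `i + 1` agree. -/
theorem phi_succ (Φ : NFan d V 𝒞 E) (σ : Finset V) (e i : ℕ) (U : Finset 𝒞) :
    phi Φ σ e (i + 1) U (-(-1) ^ (i + 1)) = phi Φ σ e i U (-(-1) ^ (i + 1)) := by
  classical
  unfold phi
  have e1 : U.filter (fun C => σ ⊆ Φ.F C ∧ Φ.kk σ C ≤ i + 1 ∧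
      (-1 : ℤ) ^ Φ.kk σ C = -(-1) ^ (i + 1)) = U.filter (fun C => σ ⊆ Φ.F C ∧ Φ.kk σ C ≤ i ∧
      (-1 : ℤ) ^ Φ.kk σ C = -(-1) ^ (i + 1)) := by
    refine filter_congr fun C _ => ?_
    constructor
    · rintro ⟨h1, h2, h3⟩
      refine ⟨h1, ?_, h3⟩
      by_contra hc
      have h4 : Φ.kk σ C = i + 1 := by omega
      rw [h4] at h3
      rcases neg_one_pow_eq_or ℤ (i + 1) with h5 | h5 <;> rw [h5] at h3 <;> norm_num at h3
    · rintro ⟨h1, h2, h3⟩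
      exact ⟨h1, by omega, h3⟩
  have e2 : U.filter (fun C => σ ⊆ Φ.F C ∧ e < Φ.kk σ C + (i + 1) ∧
      (-1 : ℤ) ^ (e + Φ.kk σ C) = -(-(-1) ^ (i + 1))) =
      U.filter (fun C => σ ⊆ Φ.F C ∧ e < Φ.kk σ C + i ∧
      (-1 : ℤ) ^ (e + Φ.kk σ C) = -(-(-1) ^ (i + 1))) := by
    refine filter_congr fun C _ => ?_
    constructor
    · rintro ⟨h1, h2, h3⟩
      refine ⟨h1, ?_, h3⟩
      by_contra hc
      have h4 : Φ.kk σ C + i = e := by omega
      have h5 : (-1 : ℤ) ^ (e + Φ.kk σ C) * (-1) ^ i = 1 := by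
        rw [← pow_add, show e + Φ.kk σ C + i = 2 * e by omega, pow_mul]
        norm_num
      rw [h3, neg_neg, pow_succ] at h5
      rcases neg_one_pow_eq_or ℤ i with h6 | h6 <;> rw [h6] at h5 <;> norm_num at h5
    · rintro ⟨h1, h2, h3⟩
      exact ⟨h1, by omega, h3⟩
  rw [e1, e2]

/-- There is no expected negative index in degree zero. -/
theorem phi_zero (Φ : NFan d V 𝒞 E) {σ : Finset V} {e : ℕ} (he : σ.card + e = d)
    (U : Finset 𝒞) : phi Φ σ e 0 U (-1) = 0 := by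
  classical
  unfold phi
  rw [filter_eq_empty_iff.mpr (fun C hC h' => ?_), filter_eq_empty_iff.mpr (fun C hC h' => ?_)]
  · simp
  · obtain ⟨h1, h2, h3⟩ := h'
    have h4 := Φ.kk_le he h1
    omega
  · obtain ⟨h1, h2, h3⟩ := h'
    rw [Nat.le_zero.mp h2, pow_zero] at h3
    norm_num at h3

end Pool.Agent.MP19e880.AR
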