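import Pool.Agent.Lib.MP_19e880_co_AR.Fm2

/-!
The indices in the middle degree.
-/

set_option autoImplicit false
set_option linter.unusedSectionVars false

open Finset Module

namespace Pool.Agent.MP19e880.AR

variable {d : ℕ} {V 𝒞 E : Type*} [Fintype V] [DecidableEq V] [Fintype 𝒞] [AddCommGroup E]
  [Module ℝ E]

/-- the rank of the form in the middle degree -/
theorem rkB_mid {Φ : NFan d V 𝒞 E} (c : Conv Φ) (σ : Finset V) {e i : ℕ} (hi : 2 * i = e)
    (U : Finset 𝒞) : rkB (ip (Φ.wU σ U)) (Φ.Vj i) = rk Φ.Vj (Φ.wU σ U) e i := by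
  have h := rkB_eq_rk (c := c) (m := 0) (by omega) (radB_mid (c := c) (σ := σ) hi U 0)
  rwa [pow_zero, mul_one] at h

open Classical in
/-- adding one chamber in the middle degree -/
theorem idx_mid_step {Φ : NFan d V 𝒞 E} {c : Conv Φ} {σ : Finset V} {e i : ℕ}
    (he : σ.card + e = d) (hi : 2 * i = e) {U : Finset 𝒞} {C0 : 𝒞} (h : Stp Φ c σ U C0)
    (s : ℤ) (hs : s = 1 ∨ s = -1)
    (ih : ∀ s : ℤ, s = 1 ∨ s = -1 → (sIdx s (ip (Φ.wU σ U)) (Φ.Vj i) : ℤ) = phi Φ σ e i U s) :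
    (sIdx s (ip (Φ.wU σ (insert C0 U))) (Φ.Vj i) : ℤ) = phi Φ σ e i (insert C0 U) s := by
  have hrU := rkB_mid c σ hi U
  have hrU' := rkB_mid c σ hi (insert C0 U)
  set k := Φ.kk σ C0 with hk
  set δ : ℝ := Φ.wt C0 * Φ.xs σ C0 with hδ
  have hsign : 0 < (-1 : ℝ) ^ k * δ := Φ.sign_wt h.sub
  set s0 : ℤ := (-1) ^ k with hs0
  have hs0' : s0 = 1 ∨ s0 = -1 := neg_one_pow_eq_or ℤ k
  have hδ0 : 0 < δ * ((s0 : ℤ) : ℝ) := by
    rw [hs0]
    push_cast
    rwa [mul_comm]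
  have hform : ∀ f g, ip (Φ.wU σ (insert C0 U)) f g =
      ip (Φ.wU σ U) f g + δ * ((LinearMap.proj C0 : (𝒞 → ℝ) →ₗ[ℝ] ℝ) f *
        (LinearMap.proj C0 : (𝒞 → ℝ) →ₗ[ℝ] ℝ) g) := by
    intro f g
    have h1 := Φ.wU_insert σ h.out 1 f g
    rw [mul_one, mul_one, Pi.one_apply, mul_one] at h1
    exact h1
  have hcase : s = s0 ∨ s = -s0 := by
    rcases hs with h1 | h1 <;> rcases hs0' with h2 | h2 <;> rw [h1, h2] <;> simp
  have hne : s0 ≠ -s0 := by
    rcases hs0' with h2 | h2 <;> rw [h2] <;> decide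
  rw [phi_insert Φ e i s h.sub h.out]
  rcases le_or_gt k i with hki | hki
  · -- the rank goes up
    have hr : rkB (ip (Φ.wU σ (insert C0 U))) (Φ.Vj i) = rkB (ip (Φ.wU σ U)) (Φ.Vj i) + 1 := by
      rw [hrU, hrU']
      exact h.rk_up he (by omega) hki
    obtain ⟨h1, h2⟩ := sIdx_up (fun x y => ip_comm _ x y) (LinearMap.proj C0) s0 hs0' hδ0 hform
      (Φ.Vj i) hr
    have hno : ¬ (e < Φ.kk σ C0 + i ∧ (-1 : ℤ) ^ (e + Φ.kk σ C0) = -s) := by
      rintro ⟨h3, -⟩
      omega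
    rw [if_neg hno, sub_zero]
    rcases hcase with h3 | h3
    · rw [if_pos ⟨hki, by rw [h3]⟩, h3, h1]
      push_cast
      rw [ih s0 hs0']
    · rw [if_neg (fun h4 => hne (h4.2.trans h3)), h3, h2, add_zero]
      exact ih _ (by rcases hs0' with h2 | h2 <;> rw [h2] <;> simp)
  · -- the rank goes down
    have hr : rkB (ip (Φ.wU σ (insert C0 U))) (Φ.Vj i) + 1 = rkB (ip (Φ.wU σ U)) (Φ.Vj i) := by
      rw [hrU, hrU']
      exact h.rk_down he (by omega) (by omega)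
    obtain ⟨h1, h2⟩ := sIdx_down (fun x y => ip_comm _ x y) (LinearMap.proj C0) s0 hs0' hδ0 hform
      (Φ.Vj i) hr
    have hno : ¬ (Φ.kk σ C0 ≤ i ∧ (-1 : ℤ) ^ Φ.kk σ C0 = s) := by
      rintro ⟨h3, -⟩
      omega
    have hev : (-1 : ℤ) ^ (e + Φ.kk σ C0) = s0 := by
      rw [← hi, pow_add, pow_mul]
      norm_num
      rfl
    rw [if_neg hno, add_zero]
    rcases hcase with h3 | h3
    · rw [if_neg (fun h4 => hne (hev.symm.trans (h4.2.trans (by rw [h3])))), h3, h1, sub_zero]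
      exact ih s0 hs0'
    · rw [if_pos ⟨by omega, by rw [hev, h3, neg_neg]⟩, h3]
      have h4 := ih (-s0) (by rcases hs0' with h2 | h2 <;> rw [h2] <;> simp)
      rw [← h4, h2]
      push_cast
      ring

theorem idx_mid {Φ : NFan d V 𝒞 E} {c : Conv Φ} (hinj : Function.Injective c.LL)
    {σ : Finset V} {e i : ℕ} (he : σ.card + e = d) (hi : 2 * i = e) (U : Finset 𝒞) (t : ℝ)
    (hU : ∀ C, σ ⊆ Φ.F C → (C ∈ U ↔ t < c.LL C)) (s : ℤ) (hs : s = 1 ∨ s = -1) :
    (sIdx s (ip (Φ.wU σ U)) (Φ.Vj i) : ℤ) = phi Φ σ e i U s := by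
  classical
  obtain ⟨n, hn⟩ : ∃ n, (univ.filter (fun C => σ ⊆ Φ.F C ∧ t < c.LL C)).card = n := ⟨_, rfl⟩
  induction n using Nat.strong_induction_on generalizing U t s with
  | _ n ih =>
    rcases (univ.filter (fun C => σ ⊆ Φ.F C ∧ t < c.LL C)).eq_empty_or_nonempty with hem | hne
    · have hout : ∀ C, σ ⊆ Φ.F C → C ∉ U := by
        intro C hC hCU
        have : C ∈ univ.filter (fun C => σ ⊆ Φ.F C ∧ t < c.LL C) :=
          mem_filter.mpr ⟨mem_univ _, hC, (hU C hC).mp hCU⟩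
        rw [hem] at this
        exact absurd this (notMem_empty _)
      rw [phi_empty Φ e i s hout, Φ.wU_zero hout,
        sIdx_zero s (fun x _ => ip_zero_weight x x)]
      rfl
    · obtain ⟨C0, hC0, hmin⟩ := exists_min_image _ c.LL hne
      rw [mem_filter] at hC0
      obtain ⟨-, hsub, htC0⟩ := hC0
      set U0 : Finset 𝒞 := univ.filter (fun C => c.LL C0 < c.LL C) with hU0
      have hmem : ∀ C, C ∈ U0 ↔ c.LL C0 < c.LL C := by
        intro C
        rw [hU0, mem_filter]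
        exact ⟨fun h => h.2, fun h => ⟨mem_univ _, h⟩⟩
      have hst : Stp Φ c σ U0 C0 := ⟨hsub, by rw [hmem]; exact lt_irrefl _, fun C _ => hmem C⟩
      have hagree : ∀ C, σ ⊆ Φ.F C → (C ∈ U ↔ C ∈ insert C0 U0) := by
        intro C hC
        rw [hU C hC, mem_insert, hmem]
        constructor
        · intro h
          have h1 := hmin C (mem_filter.mpr ⟨mem_univ _, hC, h⟩)
          rcases h1.lt_or_eq with h2 | h2
          · exact Or.inr h2
          · exact Or.inl (hinj h2.symm)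
        · rintro (rfl | h)
          · exact htC0
          · exact htC0.trans h
      rw [Φ.wU_congr hagree, phi_congr Φ e i s hagree]
      refine idx_mid_step he hi hst s hs (fun s' hs' => ?_)
      refine ih _ ?_ U0 (c.LL C0) (fun C _ => hmem C) s' hs' rfl
      rw [← hn]
      refine card_lt_card ?_
      rw [ssubset_iff_of_subset]
      · exact ⟨C0, mem_filter.mpr ⟨mem_univ _, hsub, htC0⟩, fun h =>
          lt_irrefl _ (mem_filter.mp h).2.2⟩
      · intro C hC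
        rw [mem_filter] at hC ⊢
        exact ⟨hC.1, hC.2.1, htC0.trans hC.2.2⟩

end Pool.Agent.MP19e880.AR
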