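import Pool.Agent.Lib.MP_19e880_co_AR.Ix2

/-!
Continuous families of forms.
-/

set_option autoImplicit false
set_option linter.unusedSectionVars false

open Finset Module

namespace Pool.Agent.MP19e880.AR

variable {F : Type*} [AddCommGroup F] [Module ℝ F] [FiniteDimensional ℝ F]


theorem nIdx_eventually (B : ℝ → LinearMap.BilinForm ℝ F) (hc : ∀ x y, Continuous (fun t => B t x y))
    (K : Submodule ℝ F) (t0 : ℝ) : ∀ᶠ t in nhds t0, nIdx (B t0) K ≤ nIdx (B t) K := by
  obtain ⟨S, hSK, hfin, hneg⟩ := exists_nIdx (B t0) K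
  let b := Module.finBasis ℝ S
  set n := finrank ℝ S with hn
  -- the form in coordinates
  have hq : ∀ (t : ℝ) (x : Fin n → ℝ), B t (∑ i, x i • (b i : F)) (∑ j, x j • (b j : F)) =
      ∑ i, ∑ j, x i * x j * B t (b i : F) (b j : F) := by
    intro t x
    rw [LinearMap.map_sum₂]
    refine Finset.sum_congr rfl fun i _ => ?_
    rw [LinearMap.map_smul₂, map_sum, Finset.smul_sum]
    refine Finset.sum_congr rfl fun j _ => ?_
    rw [map_smul, smul_eq_mul, smul_eq_mul]
    ring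
  have hcont : Continuous (fun z : ℝ × (Fin n → ℝ) =>
      ∑ i, ∑ j, z.2 i * z.2 j * B z.1 (b i : F) (b j : F)) := by
    refine continuous_finsetSum _ fun i _ => continuous_finsetSum _ fun j _ => ?_
    have h1 : Continuous (fun z : ℝ × (Fin n → ℝ) => B z.1 (b i : F) (b j : F)) :=
      (hc (b i : F) (b j : F)).comp continuous_fst
    have h2 : ∀ i, Continuous (fun z : ℝ × (Fin n → ℝ) => z.2 i) := fun i =>
      (continuous_apply i).comp continuous_snd
    exact ((h2 i).mul (h2 j)).mul h1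
  have hcoe : ∀ x : Fin n → ℝ, ((∑ i, x i • b i : S) : F) = ∑ i, x i • (b i : F) := by
    intro x
    simp
  have hsum : ∀ y : S, (∑ i, b.repr y i • (b i : F)) = (y : F) := by
    intro y
    have h1 := congrArg (fun z : S => (z : F)) (b.sum_repr y)
    exact (hcoe (fun i => b.repr y i)).symm.trans h1
  have hne : ∀ x : Fin n → ℝ, x ≠ 0 → (∑ i, x i • b i) ≠ 0 := by
    intro x hx h0
    apply hx
    have h1 := Fintype.linearIndependent_iff.1 b.linearIndependent x h0
    funext i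
    exact h1 i
  have hneg0 : ∀ x ∈ Metric.sphere (0 : Fin n → ℝ) 1,
      ∑ i, ∑ j, x i * x j * B t0 (b i : F) (b j : F) < 0 := by
    intro x hx
    have hx0 : x ≠ 0 := by
      rintro rfl
      simp at hx
    rw [← hq, ← hcoe]
    refine hneg _ (Submodule.coe_mem _) fun h0 => hne x hx0 ?_
    exact Subtype.ext h0
  have hev : ∀ᶠ t in nhds t0, ∀ x ∈ Metric.sphere (0 : Fin n → ℝ) 1,
      ∑ i, ∑ j, x i * x j * B t (b i : F) (b j : F) < 0 := by
    refine (isCompact_sphere (0 : Fin n → ℝ) 1).eventually_forall_of_forall_eventually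
      fun x hx => ?_
    exact hcont.continuousAt.eventually (gt_mem_nhds (hneg0 x hx))
  filter_upwards [hev] with t ht
  rw [← hfin]
  refine le_nIdx hSK fun y hy hy0 => ?_
  set x : Fin n → ℝ := fun i => b.repr ⟨y, hy⟩ i with hxdef
  have hyx : (∑ i, x i • (b i : F)) = y := hsum ⟨y, hy⟩
  have hx0 : x ≠ 0 := by
    intro h0
    apply hy0
    rw [← hyx, h0]
    simp
  have hpos : 0 < ‖x‖ := norm_pos_iff.2 hx0
  have hsph : ‖x‖⁻¹ • x ∈ Metric.sphere (0 : Fin n → ℝ) 1 := by
    rw [mem_sphere_zero_iff_norm, norm_smul, norm_inv, norm_norm, inv_mul_cancel₀ hpos.ne']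
  have h1 := ht _ hsph
  rw [← hq] at h1
  have h2 : (∑ i, (‖x‖⁻¹ • x) i • (b i : F)) = ‖x‖⁻¹ • y := by
    rw [← hyx, Finset.smul_sum]
    refine Finset.sum_congr rfl fun i _ => ?_
    rw [Pi.smul_apply, smul_assoc]
  rw [h2, LinearMap.map_smul₂, map_smul, smul_eq_mul, smul_eq_mul] at h1
  have h3 : 0 < ‖x‖⁻¹ := inv_pos.2 hpos
  by_contra hcon
  rw [not_lt] at hcon
  have h4 : 0 ≤ ‖x‖⁻¹ * (‖x‖⁻¹ * B t y y) := mul_nonneg h3.le (mul_nonneg h3.le hcon)
  linarith

private theorem ix5_sIdx_le (B : ℝ → LinearMap.BilinForm ℝ F)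
    (hc : ∀ x y, Continuous (fun t => B t x y)) (K : Submodule ℝ F) (t0 : ℝ) (s : ℤ) :
    ∀ᶠ t in nhds t0, sIdx s (B t0) K ≤ sIdx s (B t) K := by
  refine nIdx_eventually (fun t => -((s : ℝ) • B t)) (fun x y => ?_) K t0
  have h1 : (fun t => (-((s : ℝ) • B t)) x y) = fun t => -((s : ℝ) * B t x y) := by
    funext t
    rw [LinearMap.neg_apply, LinearMap.neg_apply, LinearMap.smul_apply, LinearMap.smul_apply,
      smul_eq_mul]
  rw [h1]
  exact (continuous_const.mul (hc x y)).neg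

private theorem ix5_near (B : ℝ → LinearMap.BilinForm ℝ F) (hB : ∀ t x y, B t x y = B t y x)
    (hc : ∀ x y, Continuous (fun t => B t x y)) (K : Submodule ℝ F) (t0 : ℝ)
    (s : ℤ) (hs : s = 1 ∨ s = -1) :
    ∀ᶠ t in nhds t0, rkB (B t) K ≤ rkB (B t0) K → sIdx s (B t) K = sIdx s (B t0) K := by
  filter_upwards [ix5_sIdx_le B hc K t0 1, ix5_sIdx_le B hc K t0 (-1)] with t h1 h2 h3
  rw [← sIdx_add (B t) (hB t) K, ← sIdx_add (B t0) (hB t0) K] at h3
  rcases hs with rfl | rfl
  · omega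
  · omega

/-- If the rank does not increase near `t0` then the indices are constant near `t0`. -/
theorem sIdx_eventually (B : ℝ → LinearMap.BilinForm ℝ F) (hB : ∀ t x y, B t x y = B t y x)
    (hc : ∀ x y, Continuous (fun t => B t x y)) (K : Submodule ℝ F) (t0 : ℝ)
    (hr : ∀ t, rkB (B t) K ≤ rkB (B t0) K) (s : ℤ) (hs : s = 1 ∨ s = -1) :
    ∀ᶠ t in nhds t0, sIdx s (B t) K = sIdx s (B t0) K := by
  filter_upwards [ix5_near B hB hc K t0 s hs] with t h1
  exact h1 (hr t)

/-- If the rank is constant on an interval then the indices are constant. -/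
theorem sIdx_const (B : ℝ → LinearMap.BilinForm ℝ F) (hB : ∀ t x y, B t x y = B t y x)
    (hc : ∀ x y, Continuous (fun t => B t x y)) (K : Submodule ℝ F) {S : Set ℝ}
    (hS : IsPreconnected S) {r : ℕ} (hr : ∀ t ∈ S, rkB (B t) K = r) (s : ℤ)
    (hs : s = 1 ∨ s = -1) {t t' : ℝ} (ht : t ∈ S) (ht' : t' ∈ S) :
    sIdx s (B t) K = sIdx s (B t') K := by
  have hcon : ContinuousOn (fun t => sIdx s (B t) K) S := by
    intro t ht
    have h1 : (fun _ : ℝ => sIdx s (B t) K) =ᶠ[nhdsWithin t S] fun t => sIdx s (B t) K := by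
      filter_upwards [nhdsWithin_le_nhds (ix5_near B hB hc K t s hs), self_mem_nhdsWithin]
        with t' h2 h3
      refine (h2 ?_).symm
      rw [hr t ht, hr t' h3]
    exact tendsto_const_nhds.congr' h1
  exact hS.constant hcon ht ht'

end Pool.Agent.MP19e880.AR
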