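import Pool.Agent.Lib.MP_19e880_co_AR.Fm2
import Pool.Agent.Lib.MP_19e880_co_AR.Ix5

/-!
The indices when t passes the value of a chamber.
-/

set_option autoImplicit false
set_option linter.unusedSectionVars false

open Finset Module

namespace Pool.Agent.MP19e880.AR

variable {d : ℕ} {V 𝒞 E : Type*} [Fintype V] [DecidableEq V] [Fintype 𝒞] [AddCommGroup E]
  [Module ℝ E]


open Classical in
/-- The values at the wall, and the passage. -/
theorem Stp.pass {Φ : NFan d V 𝒞 E} {c : Conv Φ}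
    {σ : Finset V} {e i m : ℕ} (he : σ.card + e = d) (hm : 2 * i + (m + 1) = e)
    {U : Finset 𝒞} {C0 : 𝒞} (h : Stp Φ c σ U C0)
    (hHL1 : Φ.kk σ C0 + i ≤ e → radB (ip (Φ.wU σ U * c.lt (c.LL C0) ^ (m + 1))) (Φ.Vj i) ≤
      rad Φ.Vj (Φ.wU σ U) e i)
    (hHL2 : i + 1 ≤ Φ.kk σ C0 →
      radB (ip (Φ.wU σ (insert C0 U) * c.lt (c.LL C0) ^ (m + 1))) (Φ.Vj i) ≤
      rad Φ.Vj (Φ.wU σ (insert C0 U)) e i)
    {δ0 : ℝ} (hδ0 : 0 < δ0)
    (hHLu : ∀ t, c.LL C0 < t → t < c.LL C0 + δ0 →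
      radB (ip (Φ.wU σ U * c.lt t ^ (m + 1))) (Φ.Vj i) ≤ rad Φ.Vj (Φ.wU σ U) e i)
    (hHLd : ∀ t, c.LL C0 - δ0 < t → t < c.LL C0 →
      radB (ip (Φ.wU σ (insert C0 U) * c.lt t ^ (m + 1))) (Φ.Vj i) ≤
      rad Φ.Vj (Φ.wU σ (insert C0 U)) e i)
    (hup : ∀ t, c.LL C0 < t → t < c.LL C0 + δ0 → ∀ s : ℤ, s = 1 ∨ s = -1 →
      (sIdx s (ip (Φ.wU σ U * c.lt t ^ (m + 1))) (Φ.Vj i) : ℤ) = phi Φ σ e i U s) :
    (Φ.kk σ C0 + i ≤ e → ∀ s : ℤ, s = 1 ∨ s = -1 →
      (sIdx s (ip (Φ.wU σ U * c.lt (c.LL C0) ^ (m + 1))) (Φ.Vj i) : ℤ) = phi Φ σ e i U s) ∧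
    (i + 1 ≤ Φ.kk σ C0 → ∀ s : ℤ, s = 1 ∨ s = -1 →
      (sIdx s (ip (Φ.wU σ (insert C0 U) * c.lt (c.LL C0) ^ (m + 1))) (Φ.Vj i) : ℤ) =
        phi Φ σ e i (insert C0 U) s) ∧
    ∃ δ : ℝ, 0 < δ ∧ ∀ t, c.LL C0 - δ < t → t < c.LL C0 → ∀ s : ℤ, s = 1 ∨ s = -1 →
      (sIdx s (ip (Φ.wU σ (insert C0 U) * c.lt t ^ (m + 1))) (Φ.Vj i) : ℤ) =
        phi Φ σ e i (insert C0 U) s := by
  set t0 : ℝ := c.LL C0 with ht0
  set k : ℕ := Φ.kk σ C0 with hk
  have hi : 2 * i ≤ e := by omega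
  have hsign : 0 < (-1 : ℝ) ^ k * (Φ.wt C0 * Φ.xs σ C0) := Φ.sign_wt h.sub
  have hsy : ∀ (w : 𝒞 → ℝ) (t : ℝ) (x y : 𝒞 → ℝ),
      ip (w * c.lt t ^ (m + 1)) x y = ip (w * c.lt t ^ (m + 1)) y x := fun w t x y => ip_comm _ _ _
  have hco : ∀ (w x y : 𝒞 → ℝ), Continuous (fun t : ℝ => ip (w * c.lt t ^ (m + 1)) x y) :=
    fun w x y => continuous_form c w x y (m + 1)
  have hins : ∀ (t : ℝ) (x y : 𝒞 → ℝ), ip (Φ.wU σ (insert C0 U) * c.lt t ^ (m + 1)) x y =
      ip (Φ.wU σ U * c.lt t ^ (m + 1)) x y +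
        (Φ.wt C0 * Φ.xs σ C0 * (t0 - t) ^ (m + 1)) * (x C0 * y C0) := by
    intro t x y
    rw [Φ.wU_insert σ h.out]
    rfl
  have heq0 : ∀ (x y : 𝒞 → ℝ), ip (Φ.wU σ (insert C0 U) * c.lt t0 ^ (m + 1)) x y =
      ip (Φ.wU σ U * c.lt t0 ^ (m + 1)) x y := by
    intro x y
    rw [hins, sub_self, zero_pow (Nat.succ_ne_zero m)]
    ring
  have hs0 : ((-1 : ℤ) ^ k = 1 ∨ (-1 : ℤ) ^ k = -1) := neg_one_pow_eq_or ℤ k
  by_cases hki : k + i ≤ e
  · -- first case
    have hr0 := rkB_eq_rk (c := c) hm (hHL1 hki)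
    have hrle : ∀ t, rkB (ip (Φ.wU σ U * c.lt t ^ (m + 1))) (Φ.Vj i) ≤
        rkB (ip (Φ.wU σ U * c.lt t0 ^ (m + 1))) (Φ.Vj i) := fun t => by
      rw [hr0]
      exact rkB_le_rk hm U t
    have hev : ∀ s : ℤ, s = 1 ∨ s = -1 → ∃ ε > 0, ∀ t : ℝ, |t - t0| < ε →
        sIdx s (ip (Φ.wU σ U * c.lt t ^ (m + 1))) (Φ.Vj i) =
          sIdx s (ip (Φ.wU σ U * c.lt t0 ^ (m + 1))) (Φ.Vj i) := by
      intro s hs
      have h1 := sIdx_eventually (fun t => ip (Φ.wU σ U * c.lt t ^ (m + 1))) (hsy _) (hco _)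
        (Φ.Vj i) t0 hrle s hs
      obtain ⟨ε, hε, h2⟩ := Metric.eventually_nhds_iff.mp h1
      exact ⟨ε, hε, fun t ht => h2 (by rwa [Real.dist_eq])⟩
    have hat : ∀ s : ℤ, s = 1 ∨ s = -1 →
        (sIdx s (ip (Φ.wU σ U * c.lt t0 ^ (m + 1))) (Φ.Vj i) : ℤ) = phi Φ σ e i U s := by
      intro s hs
      obtain ⟨ε, hε, h2⟩ := hev s hs
      have hmin : 0 < min ε δ0 := lt_min hε hδ0
      have h3 := h2 (t0 + min ε δ0 / 2) (by
        rw [add_sub_cancel_left, abs_of_pos (by linarith)]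
        have := min_le_left ε δ0
        linarith)
      rw [← h3]
      refine hup _ (by linarith) ?_ s hs
      have := min_le_right ε δ0
      linarith
    refine ⟨fun _ => hat, ?_, ?_⟩
    · intro hk1 s hs
      rw [sIdx_congr s (fun x _ => heq0 x x), hat s hs, phi_insert Φ e i s h.sub h.out,
        if_neg (fun hc => absurd hc.1 (by omega)), if_neg (fun hc => absurd hc.1 (by omega))]
      ring
    · by_cases hki2 : k ≤ i
      · have hrk := h.rk_up he hi hki2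
        obtain ⟨ε1, hε1, h1⟩ := hev 1 (Or.inl rfl)
        obtain ⟨ε2, hε2, h2⟩ := hev (-1) (Or.inr rfl)
        refine ⟨min δ0 (min ε1 ε2), lt_min hδ0 (lt_min hε1 hε2), fun t ht1 ht2 => ?_⟩
        have hm1 := min_le_left δ0 (min ε1 ε2)
        have hm2 := min_le_right δ0 (min ε1 ε2)
        have hm3 := min_le_left ε1 ε2
        have hm4 := min_le_right ε1 ε2
        have hab : |t - t0| = t0 - t := by
          rw [abs_of_neg (by linarith)]
          ring
        have e1 := h1 t (by rw [hab]; linarith)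
        have e2 := h2 t (by rw [hab]; linarith)
        have hr1 := rkB_eq_rk (c := c) hm (hHLd t (by linarith) ht2)
        have hr2 : rkB (ip (Φ.wU σ U * c.lt t ^ (m + 1))) (Φ.Vj i) =
            rk Φ.Vj (Φ.wU σ U) e i := by
          rw [← hr0, ← sIdx_add _ (hsy _ _), ← sIdx_add _ (hsy _ _), e1, e2]
        have hδ : 0 < (Φ.wt C0 * Φ.xs σ C0 * (t0 - t) ^ (m + 1)) * (((-1 : ℤ) ^ k : ℤ) : ℝ) := by
          have h5 : 0 < (t0 - t) ^ (m + 1) := pow_pos (by linarith) _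
          have h6 := mul_pos hsign h5
          push_cast
          calc (0 : ℝ) < (-1 : ℝ) ^ k * (Φ.wt C0 * Φ.xs σ C0) * (t0 - t) ^ (m + 1) := h6
            _ = _ := by ring
        have hup2 := sIdx_up (B := ip (Φ.wU σ U * c.lt t ^ (m + 1)))
          (B' := ip (Φ.wU σ (insert C0 U) * c.lt t ^ (m + 1))) (hsy _ _)
          (LinearMap.proj C0 : (𝒞 → ℝ) →ₗ[ℝ] ℝ) ((-1 : ℤ) ^ k) hs0 hδ (fun x y => hins t x y)
          (Φ.Vj i) (by rw [hr1, hrk, hr2])
        have hall : ∀ s : ℤ, s = 1 ∨ s = -1 →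
            sIdx s (ip (Φ.wU σ U * c.lt t ^ (m + 1))) (Φ.Vj i) =
              sIdx s (ip (Φ.wU σ U * c.lt t0 ^ (m + 1))) (Φ.Vj i) := by
          rintro s (rfl | rfl)
          · exact e1
          · exact e2
        intro s hs
        rw [phi_insert Φ e i s h.sub h.out, if_neg (c := e < Φ.kk σ C0 + i ∧ _)
          (fun hc => absurd hc.1 (by omega)), ← hat s hs, ← hall s hs]
        by_cases hsk : (-1 : ℤ) ^ k = s
        · rw [if_pos ⟨hki2, hsk⟩, ← hsk, hup2.1]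
          push_cast
          ring
        · have hsk2 : s = -(-1 : ℤ) ^ k := by
            rcases hs0 with h7 | h7
            · rcases hs with h8 | h8
              · exact absurd (h7.trans h8.symm) hsk
              · rw [h7, h8]
            · rcases hs with h8 | h8
              · rw [h7, h8]
                norm_num
              · exact absurd (h7.trans h8.symm) hsk
          rw [if_neg (fun hc => hsk hc.2), hsk2, hup2.2]
          ring
      · have hki3 : i < k := by omega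
        have hradeq := h.rk_eq he hki3 hki
        have hrk : rk Φ.Vj (Φ.wU σ (insert C0 U)) e i = rk Φ.Vj (Φ.wU σ U) e i := by
          unfold rk
          rw [hradeq]
        have hat' : ∀ s : ℤ, s = 1 ∨ s = -1 →
            (sIdx s (ip (Φ.wU σ (insert C0 U) * c.lt t0 ^ (m + 1))) (Φ.Vj i) : ℤ) =
              phi Φ σ e i (insert C0 U) s := by
          intro s hs
          rw [sIdx_congr s (fun x _ => heq0 x x), hat s hs, phi_insert Φ e i s h.sub h.out,
            if_neg (fun hc => absurd hc.1 (by omega)), if_neg (fun hc => absurd hc.1 (by omega))]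
          ring
        have hr0' : rkB (ip (Φ.wU σ (insert C0 U) * c.lt t0 ^ (m + 1))) (Φ.Vj i) =
            rk Φ.Vj (Φ.wU σ (insert C0 U)) e i := by
          rw [hrk, ← hr0]
          unfold rkB
          rw [radB_congr (fun x _ y _ => heq0 x y)]
        have hev' : ∀ s : ℤ, s = 1 ∨ s = -1 → ∃ ε > 0, ∀ t : ℝ, |t - t0| < ε →
            sIdx s (ip (Φ.wU σ (insert C0 U) * c.lt t ^ (m + 1))) (Φ.Vj i) =
              sIdx s (ip (Φ.wU σ (insert C0 U) * c.lt t0 ^ (m + 1))) (Φ.Vj i) := by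
          intro s hs
          have h1 := sIdx_eventually (fun t => ip (Φ.wU σ (insert C0 U) * c.lt t ^ (m + 1)))
            (hsy _) (hco _) (Φ.Vj i) t0 (fun t => by
              show rkB (ip (Φ.wU σ (insert C0 U) * c.lt t ^ (m + 1))) (Φ.Vj i) ≤
                rkB (ip (Φ.wU σ (insert C0 U) * c.lt t0 ^ (m + 1))) (Φ.Vj i)
              rw [hr0']
              exact rkB_le_rk hm _ t) s hs
          obtain ⟨ε, hε, h2⟩ := Metric.eventually_nhds_iff.mp h1
          exact ⟨ε, hε, fun t ht => h2 (by rwa [Real.dist_eq])⟩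
        obtain ⟨ε1, hε1, h1⟩ := hev' 1 (Or.inl rfl)
        obtain ⟨ε2, hε2, h2⟩ := hev' (-1) (Or.inr rfl)
        refine ⟨min ε1 ε2, lt_min hε1 hε2, fun t ht1 ht2 s hs => ?_⟩
        have hm3 := min_le_left ε1 ε2
        have hm4 := min_le_right ε1 ε2
        have hab : |t - t0| = t0 - t := by
          rw [abs_of_neg (by linarith)]
          ring
        rw [← hat' s hs]
        rcases hs with rfl | rfl
        · rw [h1 t (by rw [hab]; linarith)]
        · rw [h2 t (by rw [hab]; linarith)]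
  · -- second case
    have hki1 : e < k + i := by omega
    have hki3 : i < k := by omega
    have hrk := h.rk_down he hi hki1
    have hr0 := rkB_eq_rk (c := c) hm (hHL2 hki3)
    have hev' : ∀ s : ℤ, s = 1 ∨ s = -1 → ∃ ε > 0, ∀ t : ℝ, |t - t0| < ε →
        sIdx s (ip (Φ.wU σ (insert C0 U) * c.lt t ^ (m + 1))) (Φ.Vj i) =
          sIdx s (ip (Φ.wU σ (insert C0 U) * c.lt t0 ^ (m + 1))) (Φ.Vj i) := by
      intro s hs
      have h1 := sIdx_eventually (fun t => ip (Φ.wU σ (insert C0 U) * c.lt t ^ (m + 1)))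
        (hsy _) (hco _) (Φ.Vj i) t0 (fun t => by
          show rkB (ip (Φ.wU σ (insert C0 U) * c.lt t ^ (m + 1))) (Φ.Vj i) ≤
            rkB (ip (Φ.wU σ (insert C0 U) * c.lt t0 ^ (m + 1))) (Φ.Vj i)
          rw [hr0]
          exact rkB_le_rk hm _ t) s hs
      obtain ⟨ε, hε, h2⟩ := Metric.eventually_nhds_iff.mp h1
      exact ⟨ε, hε, fun t ht => h2 (by rwa [Real.dist_eq])⟩
    obtain ⟨ε1, hε1, h1⟩ := hev' 1 (Or.inl rfl)
    obtain ⟨ε2, hε2, h2⟩ := hev' (-1) (Or.inr rfl)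
    have hm1 := min_le_left δ0 (min ε1 ε2)
    have hm2 := min_le_right δ0 (min ε1 ε2)
    have hm3 := min_le_left ε1 ε2
    have hm4 := min_le_right ε1 ε2
    have hmpos : 0 < min δ0 (min ε1 ε2) := lt_min hδ0 (lt_min hε1 hε2)
    have hall : ∀ s : ℤ, s = 1 ∨ s = -1 → ∀ t : ℝ, |t - t0| < min ε1 ε2 →
        sIdx s (ip (Φ.wU σ (insert C0 U) * c.lt t ^ (m + 1))) (Φ.Vj i) =
          sIdx s (ip (Φ.wU σ (insert C0 U) * c.lt t0 ^ (m + 1))) (Φ.Vj i) := by
      rintro s (rfl | rfl) t ht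
      · exact h1 t (by linarith)
      · exact h2 t (by linarith)
    have hat' : ∀ s : ℤ, s = 1 ∨ s = -1 →
        (sIdx s (ip (Φ.wU σ (insert C0 U) * c.lt t0 ^ (m + 1))) (Φ.Vj i) : ℤ) =
          phi Φ σ e i (insert C0 U) s := by
      obtain ⟨t, htdef⟩ : ∃ t : ℝ, t = t0 + min δ0 (min ε1 ε2) / 2 := ⟨_, rfl⟩
      have hab : |t - t0| = t - t0 := abs_of_pos (by linarith)
      have hsm : |t - t0| < min ε1 ε2 := by rw [hab]; linarith
      have hr1 := rkB_eq_rk (c := c) hm (hHLu t (by linarith) (by linarith))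
      have hr2 : rkB (ip (Φ.wU σ (insert C0 U) * c.lt t ^ (m + 1))) (Φ.Vj i) =
          rk Φ.Vj (Φ.wU σ (insert C0 U)) e i := by
        rw [← hr0, ← sIdx_add _ (hsy _ _), ← sIdx_add _ (hsy _ _), hall 1 (Or.inl rfl) t hsm,
          hall (-1) (Or.inr rfl) t hsm]
      obtain ⟨s1, hs1def⟩ : ∃ s1 : ℤ, s1 = -(-1 : ℤ) ^ (k + (m + 1)) := ⟨_, rfl⟩
      have hs1 : s1 = 1 ∨ s1 = -1 := by
        rcases neg_one_pow_eq_or ℤ (k + (m + 1)) with h7 | h7
        · right; rw [hs1def, h7]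
        · left; rw [hs1def, h7]; norm_num
      have hδ : 0 < -(Φ.wt C0 * Φ.xs σ C0 * (t0 - t) ^ (m + 1)) * (s1 : ℝ) := by
        have h5 : 0 < (t - t0) ^ (m + 1) := pow_pos (by linarith) _
        have h6 := mul_pos hsign h5
        have h7 : (t0 - t) ^ (m + 1) = (-1 : ℝ) ^ (m + 1) * (t - t0) ^ (m + 1) := by
          rw [← mul_pow]
          congr 1
          ring
        have h8 : (-1 : ℝ) ^ (m + 1) * (-1 : ℝ) ^ (m + 1) = 1 := by
          rw [← mul_pow]
          norm_num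
        have h9 : (s1 : ℝ) = -((-1 : ℝ) ^ k * (-1 : ℝ) ^ (m + 1)) := by
          rw [hs1def, pow_add]
          push_cast
          ring
        rw [h7, h9]
        calc (0 : ℝ) < (-1 : ℝ) ^ k * (Φ.wt C0 * Φ.xs σ C0) * (t - t0) ^ (m + 1) := h6
          _ = (-1 : ℝ) ^ k * (Φ.wt C0 * Φ.xs σ C0) * (t - t0) ^ (m + 1) *
              ((-1 : ℝ) ^ (m + 1) * (-1 : ℝ) ^ (m + 1)) := by rw [h8, mul_one]
          _ = _ := by ring
      have hup2 := sIdx_up (B := ip (Φ.wU σ (insert C0 U) * c.lt t ^ (m + 1)))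
        (B' := ip (Φ.wU σ U * c.lt t ^ (m + 1))) (hsy _ _)
        (LinearMap.proj C0 : (𝒞 → ℝ) →ₗ[ℝ] ℝ) s1 hs1 hδ (fun x y => by
          rw [hins t x y]
          show _ = _ + _ * (x C0 * y C0)
          ring)
        (Φ.Vj i) (by rw [hr1, hr2, hrk])
      have hpar : (-1 : ℤ) ^ (e + k) = -s1 := by
        rw [hs1def, neg_neg, ← hm, show 2 * i + (m + 1) + k = 2 * i + (k + (m + 1)) by ring,
          pow_add, pow_mul]
        norm_num
      intro s hs
      rw [← hall s hs t hsm, phi_insert Φ e i s h.sub h.out,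
        if_neg (c := Φ.kk σ C0 ≤ i ∧ _) (fun hc => absurd hc.1 (by omega)),
        ← hup t (by linarith) (by linarith) s hs]
      by_cases hsk : s = s1
      · rw [if_pos ⟨hki1, by rw [hsk, ← hpar]⟩, hsk, hup2.1]
        push_cast
        ring
      · have hsk2 : s = -s1 := by
          rcases hs1 with h7 | h7
          · rcases hs with h8 | h8
            · exact absurd (h8.trans h7.symm) hsk
            · rw [h7, h8]
          · rcases hs with h8 | h8
            · rw [h7, h8]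
              norm_num
            · exact absurd (h8.trans h7.symm) hsk
        rw [if_neg (fun hc => hsk (by
          have h9 := hc.2
          rw [← hk, hpar] at h9
          linarith)), hsk2, hup2.2]
        ring
    refine ⟨fun hc => absurd hc hki, fun _ => hat', min ε1 ε2, lt_min hε1 hε2,
      fun t ht1 ht2 s hs => ?_⟩
    rw [← hat' s hs, hall s hs t (by
      rw [abs_of_neg (by linarith)]
      linarith)]

end Pool.Agent.MP19e880.AR
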