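import Pool.Agent.Lib.MP_19e880_co_AR.Fo

/-!
The indices for t outside the set of values.
-/

set_option autoImplicit false
set_option linter.unusedSectionVars false

open Finset Module

namespace Pool.Agent.MP19e880.AR

variable {d : ℕ} {V 𝒞 E : Type*} [Fintype V] [DecidableEq V] [Fintype 𝒞] [AddCommGroup E]
  [Module ℝ E]


theorem idx_non {Φ : NFan d V 𝒞 E} {c : Conv Φ} (hinj : Function.Injective c.LL)
    {σ : Finset V} {e i m : ℕ} (he : σ.card + e = d) (hm : 2 * i + (m + 1) = e)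
    (hHL : ∀ U t, Adm Φ c σ e i U t → radB (ip (Φ.wU σ U * c.lt t ^ (m + 1))) (Φ.Vj i) ≤
      rad Φ.Vj (Φ.wU σ U) e i)
    (U : Finset 𝒞) (t : ℝ) (ht : ∀ C, σ ⊆ Φ.F C → c.LL C ≠ t)
    (hU : ∀ C, σ ⊆ Φ.F C → (C ∈ U ↔ t < c.LL C)) (s : ℤ) (hs : s = 1 ∨ s = -1) :
    (sIdx s (ip (Φ.wU σ U * c.lt t ^ (m + 1))) (Φ.Vj i) : ℤ) = phi Φ σ e i U s := by
  classical
  suffices key : ∀ (n : ℕ) (U : Finset 𝒞) (t : ℝ), (∀ C, σ ⊆ Φ.F C → c.LL C ≠ t) →
      (∀ C, σ ⊆ Φ.F C → (C ∈ U ↔ t < c.LL C)) →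
      (univ.filter fun C => σ ⊆ Φ.F C ∧ t < c.LL C).card = n →
      ∀ s : ℤ, s = 1 ∨ s = -1 →
      (sIdx s (ip (Φ.wU σ U * c.lt t ^ (m + 1))) (Φ.Vj i) : ℤ) = phi Φ σ e i U s from
    key _ U t ht hU rfl s hs
  intro n
  induction n using Nat.strong_induction_on with
  | _ n ih =>
  intro U t ht hU hn s hs
  rcases (univ.filter fun C => σ ⊆ Φ.F C ∧ t < c.LL C).eq_empty_or_nonempty with h0 | hne
  · -- no chamber
    have h1 : ∀ C, σ ⊆ Φ.F C → C ∉ U := by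
      intro C hC hCU
      have h2 : C ∈ univ.filter fun C => σ ⊆ Φ.F C ∧ t < c.LL C :=
        mem_filter.2 ⟨mem_univ C, hC, (hU C hC).1 hCU⟩
      rw [h0] at h2
      exact absurd h2 (notMem_empty C)
    rw [phi_empty Φ e i s h1, Φ.wU_zero h1, zero_mul, sIdx_zero s (fun x _ => ip_zero_weight x x)]
    rfl
  · -- the smallest chamber
    obtain ⟨C0, hC0, hmin⟩ := exists_min_image _ c.LL hne
    rw [mem_filter] at hC0
    obtain ⟨-, hC0s, hC0t⟩ := hC0
    have hmin' : ∀ C, σ ⊆ Φ.F C → t < c.LL C → c.LL C0 ≤ c.LL C := fun C h1 h2 =>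
      hmin C (mem_filter.2 ⟨mem_univ C, h1, h2⟩)
    obtain ⟨U0, hU0⟩ : ∃ U0 : Finset 𝒞, U0 = univ.filter fun C => σ ⊆ Φ.F C ∧ c.LL C0 < c.LL C :=
      ⟨_, rfl⟩
    have hmem : ∀ C, σ ⊆ Φ.F C → (C ∈ U0 ↔ c.LL C0 < c.LL C) := by
      intro C hC
      rw [hU0, mem_filter]
      exact ⟨fun h => h.2.2, fun h => ⟨mem_univ C, hC, h⟩⟩
    have hStp : Stp Φ c σ U0 C0 := by
      refine ⟨hC0s, ?_, hmem⟩
      intro h
      exact lt_irrefl _ ((hmem C0 hC0s).1 h)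
    have hins : ∀ C, σ ⊆ Φ.F C → (C ∈ insert C0 U0 ↔ c.LL C0 ≤ c.LL C) := by
      intro C hC
      rw [mem_insert, hmem C hC]
      constructor
      · rintro (rfl | h)
        · exact le_rfl
        · exact h.le
      · intro h
        rcases h.eq_or_lt with h | h
        · exact Or.inl (hinj h).symm
        · exact Or.inr h
    have hUins : ∀ C, σ ⊆ Φ.F C → (C ∈ U ↔ C ∈ insert C0 U0) := by
      intro C hC
      rw [hU C hC, hins C hC]
      exact ⟨fun h => hmin' C hC h, fun h => hC0t.trans_le h⟩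
    -- between `t` and the value of `C0`
    have hbet : ∀ t', t ≤ t' → t' < c.LL C0 → (∀ C, σ ⊆ Φ.F C → c.LL C ≠ t') ∧
        ∀ C, σ ⊆ Φ.F C → (C ∈ insert C0 U0 ↔ t' < c.LL C) := by
      intro t' h1 h2
      refine ⟨fun C hC h3 => ?_, fun C hC => ?_⟩
      · rcases h1.eq_or_lt with h4 | h4
        · exact ht C hC (h3.trans h4.symm)
        · have := hmin' C hC (by rw [h3]; exact h4)
          rw [h3] at this
          exact absurd h2 (not_lt.2 this)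
      · rw [hins C hC]
        refine ⟨fun h3 => h2.trans_le h3, fun h3 => hmin' C hC (h1.trans_lt h3)⟩
    have hHLb : ∀ t', t ≤ t' → t' < c.LL C0 →
        radB (ip (Φ.wU σ (insert C0 U0) * c.lt t' ^ (m + 1))) (Φ.Vj i) ≤
        rad Φ.Vj (Φ.wU σ (insert C0 U0)) e i := fun t' h1 h2 =>
      hHL _ _ (Or.inr (Or.inl (hbet t' h1 h2)))
    -- the gap above
    obtain ⟨δ1, hδ1, hgap⟩ : ∃ δ1 : ℝ, 0 < δ1 ∧ ∀ C, c.LL C0 < c.LL C →
        c.LL C0 + δ1 ≤ c.LL C := by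
      rcases (univ.filter fun C => c.LL C0 < c.LL C).eq_empty_or_nonempty with h1 | h1
      · refine ⟨1, one_pos, fun C hC => ?_⟩
        have h2 : C ∈ univ.filter fun C => c.LL C0 < c.LL C := mem_filter.2 ⟨mem_univ C, hC⟩
        rw [h1] at h2
        exact absurd h2 (notMem_empty C)
      · obtain ⟨C1, hC1, hC1m⟩ := exists_min_image _ c.LL h1
        rw [mem_filter] at hC1
        refine ⟨c.LL C1 - c.LL C0, by linarith [hC1.2], fun C hC => ?_⟩
        have := hC1m C (mem_filter.2 ⟨mem_univ C, hC⟩)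
        linarith
    have hδ0 : 0 < min δ1 (c.LL C0 - t) := lt_min hδ1 (by linarith)
    have habove : ∀ t', c.LL C0 < t' → t' < c.LL C0 + min δ1 (c.LL C0 - t) →
        (∀ C, σ ⊆ Φ.F C → c.LL C ≠ t') ∧ ∀ C, σ ⊆ Φ.F C → (C ∈ U0 ↔ t' < c.LL C) := by
      intro t' h1 h2
      have h3 : t' < c.LL C0 + δ1 := h2.trans_le (by linarith [min_le_left δ1 (c.LL C0 - t)])
      refine ⟨fun C hC h4 => ?_, fun C hC => ?_⟩
      · have := hgap C (by rw [h4]; exact h1)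
        linarith
      · rw [hmem C hC]
        exact ⟨fun h4 => h3.trans_le (hgap C h4), fun h4 => h1.trans h4⟩
    obtain ⟨-, -, δ, hδ, hlow⟩ := Stp.pass he hm hStp
      (fun hk => hHL _ _ (Or.inr (Or.inr (Or.inl ⟨C0, hC0s, rfl, hmem, Or.inl hk⟩))))
      (fun hk => hHL _ _ (Or.inr (Or.inr (Or.inr ⟨C0, hC0s, rfl, hins, Or.inl hk⟩))))
      hδ0 (fun t' h1 h2 => hHL _ _ (Or.inr (Or.inl (habove t' h1 h2))))
      (fun t' h1 h2 => hHLb t' (by linarith [min_le_right δ1 (c.LL C0 - t)]) h2)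
      (fun t' h1 h2 s hs => by
        have h3 := habove t' h1 h2
        refine ih _ ?_ U0 t' h3.1 h3.2 rfl s hs
        rw [← hn]
        apply card_lt_card
        rw [ssubset_iff_of_subset (fun C hC => by
          rw [mem_filter] at hC ⊢
          exact ⟨mem_univ C, hC.2.1, hC0t.trans (h1.trans hC.2.2)⟩)]
        refine ⟨C0, mem_filter.2 ⟨mem_univ C0, hC0s, hC0t⟩, fun h4 => ?_⟩
        rw [mem_filter] at h4
        exact lt_asymm h1 h4.2.2)
    -- down to `t`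
    obtain ⟨t', ht'1, ht'2, ht'3⟩ : ∃ t', t ≤ t' ∧ t' < c.LL C0 ∧ c.LL C0 - δ < t' := by
      obtain ⟨t', h1, h2⟩ := exists_between (max_lt hC0t (show c.LL C0 - δ < c.LL C0 by linarith))
      exact ⟨t', ((le_max_left _ _).trans_lt h1).le, h2, (le_max_right _ _).trans_lt h1⟩
    have hconst := sIdx_const (fun t => ip (Φ.wU σ (insert C0 U0) * c.lt t ^ (m + 1)))
      (fun t x y => ip_comm _ x y)
      (fun x y => continuous_form c (Φ.wU σ (insert C0 U0)) x y (m + 1)) (Φ.Vj i)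
      (S := Set.Icc t t') isPreconnected_Icc
      (r := rk Φ.Vj (Φ.wU σ (insert C0 U0)) e i)
      (fun t'' h => rkB_eq_rk hm (hHLb t'' h.1 (h.2.trans_lt ht'2))) s hs
      (t := t) (t' := t') ⟨le_rfl, ht'1⟩ ⟨ht'1, le_rfl⟩
    rw [Φ.wU_congr hUins, phi_congr Φ e i s hUins, ← hlow t' ht'3 ht'2 s hs]
    exact congrArg Nat.cast hconst

end Pool.Agent.MP19e880.AR
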