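import Pool.Agent.Lib.MP_19e880_co_AR.Fp
import Pool.Agent.Lib.MP_19e880_co_AR.Fn
import Pool.Agent.Lib.MP_19e880_co_AR.Fj

/-!
The indices for all admissible pairs.
-/

set_option autoImplicit false
set_option linter.unusedSectionVars false

open Finset Module

namespace Pool.Agent.MP19e880.AR

variable {d : ℕ} {V 𝒞 E : Type*} [Fintype V] [DecidableEq V] [Fintype 𝒞] [AddCommGroup E]
  [Module ℝ E]

/-- The finitely many values different from `t` keep a distance from `t`. -/
private theorem fq_gap (L : 𝒞 → ℝ) (t : ℝ) :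
    ∃ δ : ℝ, 0 < δ ∧ ∀ C, L C ≠ t → δ ≤ |L C - t| := by
  classical
  by_cases h : (univ.filter (fun C => L C ≠ t)).Nonempty
  · obtain ⟨C, hC, hmin⟩ := exists_min_image (univ.filter (fun C => L C ≠ t))
      (fun C => |L C - t|) h
    refine ⟨|L C - t|, abs_pos.2 (sub_ne_zero.2 (mem_filter.1 hC).2), fun C' hC' => ?_⟩
    exact hmin C' (mem_filter.2 ⟨mem_univ _, hC'⟩)
  · refine ⟨1, one_pos, fun C hC => ?_⟩
    exact absurd ⟨C, mem_filter.2 ⟨mem_univ _, hC⟩⟩ h

/-- A number smaller than all values. -/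
private theorem fq_low (L : 𝒞 → ℝ) : ∃ t : ℝ, ∀ C, t < L C := by
  obtain ⟨M, hM⟩ := (Set.finite_range L).bddBelow
  exact ⟨M - 1, fun C => lt_of_lt_of_le (by linarith) (hM ⟨C, rfl⟩)⟩

theorem idx_adm {Φ : NFan d V 𝒞 E} {c : Conv Φ} (hinj : Function.Injective c.LL)
    {σ : Finset V} {e i m : ℕ} (he : σ.card + e = d) (hm : 2 * i + m = e)
    (hHL : 0 < m → ∀ U t, Adm Φ c σ e i U t → radB (ip (Φ.wU σ U * c.lt t ^ m)) (Φ.Vj i) ≤
      rad Φ.Vj (Φ.wU σ U) e i)
    {U : Finset 𝒞} {t : ℝ} (hA : Adm Φ c σ e i U t) (s : ℤ) (hs : s = 1 ∨ s = -1) :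
    (sIdx s (ip (Φ.wU σ U * c.lt t ^ m)) (Φ.Vj i) : ℤ) = phi Φ σ e i U s := by
  classical
  obtain ⟨δ, hδ, hgap⟩ := fq_gap c.LL t
  cases m with
  | zero =>
    have hi : 2 * i = e := by omega
    rw [pow_zero, mul_one]
    rcases hA with h | ⟨-, h⟩ | ⟨C0, -, -, h, -⟩ | ⟨C0, -, -, h, -⟩
    · obtain ⟨t', ht'⟩ := fq_low c.LL
      exact idx_mid hinj he hi U t' (fun C hC => ⟨fun _ => ht' C, fun _ => h C hC⟩) s hs
    · exact idx_mid hinj he hi U t h s hs
    · exact idx_mid hinj he hi U t h s hs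
    · refine idx_mid hinj he hi U (t - δ / 2) (fun C hC => ?_) s hs
      rw [h C hC]
      constructor
      · intro h1
        linarith
      · intro h1
        by_contra h2
        push Not at h2
        have h3 := hgap C h2.ne
        rw [abs_of_neg (by linarith)] at h3
        linarith
  | succ m =>
    have hHL' := hHL (Nat.succ_pos m)
    have hnc : ∀ (U' : Finset 𝒞) (t' : ℝ), (∀ C, σ ⊆ Φ.F C → c.LL C ≠ t') →
        (∀ C, σ ⊆ Φ.F C → (C ∈ U' ↔ t' < c.LL C)) → Adm Φ c σ e i U' t' :=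
      fun U' t' h1 h2 => Or.inr (Or.inl ⟨h1, h2⟩)
    -- the passage at a chamber `C0` with value `t`
    have key : ∀ (U0 : Finset 𝒞) (C0 : 𝒞), σ ⊆ Φ.F C0 → c.LL C0 = t →
        (∀ C, σ ⊆ Φ.F C → (C ∈ U0 ↔ t < c.LL C)) →
        (Φ.kk σ C0 + i ≤ e → ∀ s : ℤ, s = 1 ∨ s = -1 →
          (sIdx s (ip (Φ.wU σ U0 * c.lt t ^ (m + 1))) (Φ.Vj i) : ℤ) = phi Φ σ e i U0 s) ∧
        (i + 1 ≤ Φ.kk σ C0 → ∀ s : ℤ, s = 1 ∨ s = -1 →
          (sIdx s (ip (Φ.wU σ (insert C0 U0) * c.lt t ^ (m + 1))) (Φ.Vj i) : ℤ) =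
            phi Φ σ e i (insert C0 U0) s) := by
      intro U0 C0 hC0 ht hU0
      have hins : ∀ C, σ ⊆ Φ.F C → (C ∈ insert C0 U0 ↔ t ≤ c.LL C) := by
        intro C hC
        rw [mem_insert, hU0 C hC]
        constructor
        · rintro (h | h)
          · rw [h, ht]
          · exact h.le
        · intro h
          rcases h.eq_or_lt with h | h
          · exact Or.inl (hinj (by rw [ht, ← h]))
          · exact Or.inr h
      have hstp : Stp Φ c σ U0 C0 := by
        refine ⟨hC0, ?_, ?_⟩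
        · rw [hU0 C0 hC0, ht]
          exact lt_irrefl _
        · rw [ht]
          exact hU0
      have hup' : ∀ t', t < t' → t' < t + δ → (∀ C, σ ⊆ Φ.F C → c.LL C ≠ t') ∧
          (∀ C, σ ⊆ Φ.F C → (C ∈ U0 ↔ t' < c.LL C)) := by
        intro t' h1 h2
        have h3 : ∀ C, t < c.LL C → t' < c.LL C := by
          intro C hC
          have h4 := hgap C hC.ne'
          rw [abs_of_pos (by linarith)] at h4
          linarith
        constructor
        · intro C _ h4
          have h5 := h3 C (by rw [h4]; exact h1)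
          rw [h4] at h5
          exact lt_irrefl _ h5
        · intro C hC
          rw [hU0 C hC]
          exact ⟨h3 C, fun h => h1.trans h⟩
      have hdn' : ∀ t', t - δ < t' → t' < t → (∀ C, σ ⊆ Φ.F C → c.LL C ≠ t') ∧
          (∀ C, σ ⊆ Φ.F C → (C ∈ insert C0 U0 ↔ t' < c.LL C)) := by
        intro t' h1 h2
        have h3 : ∀ C, c.LL C < t → c.LL C < t' := by
          intro C hC
          have h4 := hgap C hC.ne
          rw [abs_of_neg (by linarith)] at h4
          linarith
        constructor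
        · intro C _ h4
          have h5 := h3 C (by rw [h4]; exact h2)
          rw [h4] at h5
          exact lt_irrefl _ h5
        · intro C hC
          rw [hins C hC]
          constructor
          · intro h
            exact lt_of_lt_of_le h2 h
          · intro h
            by_contra h4
            push Not at h4
            exact lt_asymm h (h3 C h4)
      have hpass := Stp.pass he hm hstp (δ0 := δ)
        (fun hk => hHL' U0 (c.LL C0) (Or.inr (Or.inr (Or.inl
          ⟨C0, hC0, rfl, by rw [ht]; exact hU0, Or.inl hk⟩))))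
        (fun hk => hHL' (insert C0 U0) (c.LL C0) (Or.inr (Or.inr (Or.inr
          ⟨C0, hC0, rfl, by rw [ht]; exact hins, Or.inl hk⟩))))
        hδ
        (fun t' h1 h2 => by
          rw [ht] at h1 h2
          exact hHL' U0 t' (hnc U0 t' (hup' t' h1 h2).1 (hup' t' h1 h2).2))
        (fun t' h1 h2 => by
          rw [ht] at h1 h2
          exact hHL' (insert C0 U0) t' (hnc _ t' (hdn' t' h1 h2).1 (hdn' t' h1 h2).2))
        (fun t' h1 h2 s hs => by
          rw [ht] at h1 h2
          exact idx_non hinj he hm hHL' U0 t' (hup' t' h1 h2).1 (hup' t' h1 h2).2 s hs)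
      rw [ht] at hpass
      exact ⟨hpass.1, hpass.2.1⟩
    rcases hA with h | ⟨h1, h2⟩ | ⟨C0, hC0, ht, h, hk⟩ | ⟨C0, hC0, ht, h, hk⟩
    · obtain ⟨t', ht'⟩ := fq_low c.LL
      rw [← idx_non hinj he hm hHL' U t' (fun C _ => (ht' C).ne')
        (fun C hC => ⟨fun _ => ht' C, fun _ => h C hC⟩) s hs]
      congr 1
      exact sIdx_congr s (fun x hx => c.full_indep he h (by omega) t t' hx hx)
    · exact idx_non hinj he hm hHL' U t h1 h2 s hs
    · have hk' : Φ.kk σ C0 + i ≤ e := by omega
      exact (key U C0 hC0 ht h).1 hk' s hs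
    · have hk' : i + 1 ≤ Φ.kk σ C0 := by omega
      have hmem : C0 ∈ U := by
        rw [h C0 hC0, ht]
      have hU : insert C0 (U.erase C0) = U := insert_erase hmem
      have hU0 : ∀ C, σ ⊆ Φ.F C → (C ∈ U.erase C0 ↔ t < c.LL C) := by
        intro C hC
        rw [mem_erase, h C hC]
        constructor
        · rintro ⟨h1, h2⟩
          rcases h2.eq_or_lt with h3 | h3
          · exact absurd (hinj (by rw [ht, ← h3])) h1
          · exact h3
        · intro h1
          refine ⟨?_, h1.le⟩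
          rintro rfl
          rw [ht] at h1
          exact lt_irrefl _ h1
      have := (key (U.erase C0) C0 hC0 ht hU0).2 hk' s hs
      rwa [hU] at this

end Pool.Agent.MP19e880.AR
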