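import Pool.Agent.Lib.MP_19e880_co_AR.Ix1

/-!
The Hodge-Riemann relation from the indices.
-/

set_option autoImplicit false
set_option linter.unusedSectionVars false

open Finset Module

namespace Pool.Agent.MP19e880.AR

variable {F : Type*} [AddCommGroup F] [Module ℝ F] [FiniteDimensional ℝ F]

/-- A subspace of `K` of the maximal dimension on which `B` is negative definite: `B` is
nonnegative on its orthogonal complement in `K`. -/
private theorem Ix3_nonneg (B : LinearMap.BilinForm ℝ F) (hB : ∀ x y, B x y = B y x)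
    {K M : Submodule ℝ F} (hM : M ≤ K) (hneg : ∀ x ∈ M, x ≠ 0 → B x x < 0)
    (hidx : nIdx B K ≤ finrank ℝ M) {z : F} (hz : z ∈ K) (h0 : ∀ m ∈ M, B z m = 0) :
    0 ≤ B z z := by
  by_contra hcon
  push Not at hcon
  have hzM : z ∉ M := by
    intro h
    rw [h0 z h] at hcon
    exact lt_irrefl _ hcon
  set N : Submodule ℝ F := M ⊔ Submodule.span ℝ {z} with hN
  have hNK : N ≤ K := by
    rw [hN, sup_le_iff]
    refine ⟨hM, ?_⟩
    rw [Submodule.span_le, Set.singleton_subset_iff]
    exact hz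
  have hMN : M < N := by
    refine lt_of_le_of_ne le_sup_left fun h => hzM ?_
    rw [h, hN]
    exact Submodule.mem_sup_right (Submodule.mem_span_singleton_self z)
  have hnegN : ∀ x ∈ N, x ≠ 0 → B x x < 0 := by
    intro x hx hx0
    rw [hN, Submodule.mem_sup] at hx
    obtain ⟨m, hm, w, hw, rfl⟩ := hx
    obtain ⟨a, rfl⟩ := Submodule.mem_span_singleton.1 hw
    have h1 : B (m + a • z) (m + a • z) = B m m + a ^ 2 * B z z := by
      simp only [map_add, LinearMap.add_apply, map_smul, LinearMap.smul_apply, smul_eq_mul]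
      rw [h0 m hm, hB m z, h0 m hm]
      ring
    rw [h1]
    by_cases hm0 : m = 0
    · subst hm0
      have ha : a ≠ 0 := by
        rintro rfl
        exact hx0 (by simp)
      have ha2 : 0 < a ^ 2 := by positivity
      rw [map_zero, zero_add]
      exact mul_neg_of_pos_of_neg ha2 hcon
    · have h2 := hneg m hm hm0
      nlinarith [sq_nonneg a]
  have h1 := le_nIdx hNK hnegN
  have h2 := Submodule.finrank_lt_finrank_of_lt hMN
  omega

/-- The orthogonal projection on a negative definite subspace. -/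
private theorem Ix3_proj (B : LinearMap.BilinForm ℝ F) {M : Submodule ℝ F}
    (hneg : ∀ x ∈ M, x ≠ 0 → B x x < 0) (y : F) :
    ∃ m ∈ M, ∀ m' ∈ M, B m m' = B y m' := by
  set g : M →ₗ[ℝ] Module.Dual ℝ M := (B.domRestrict M).compl₂ M.subtype with hg
  have hgapp : ∀ m m' : M, g m m' = B m m' := fun m m' => rfl
  have hinj : Function.Injective g := by
    rw [injective_iff_map_eq_zero]
    intro m hm
    by_contra hne
    have h1 : (m : F) ≠ 0 := fun h => hne (Subtype.ext h)
    have h2 := hneg m m.2 h1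
    have h3 : g m m = 0 := by rw [hm]; rfl
    rw [hgapp] at h3
    rw [h3] at h2
    exact lt_irrefl _ h2
  have hsurj : Function.Surjective g :=
    (LinearMap.injective_iff_surjective_of_finrank_eq_finrank
      (Subspace.dual_finrank_eq).symm).1 hinj
  obtain ⟨m, hm⟩ := hsurj ((B y).comp M.subtype)
  refine ⟨m, m.2, fun m' hm' => ?_⟩
  have h1 : g m ⟨m', hm'⟩ = B y m' := by rw [hm]; rfl
  rw [hgapp] at h1
  exact h1

/-- If the negative index of `B` on `K` is at most that of the pull back by `T` on `K'`, then `B` is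
positive semidefinite on the orthogonal complement of `T K'`. -/
theorem psd_of_nIdx (B : LinearMap.BilinForm ℝ F) (hB : ∀ x y, B x y = B y x)
    {K K' : Submodule ℝ F} (T : F →ₗ[ℝ] F) (hT : ∀ y ∈ K', T y ∈ K)
    (B' : LinearMap.BilinForm ℝ F) (hB' : ∀ x ∈ K', B' x x = B (T x) (T x))
    (hidx : nIdx B K ≤ nIdx B' K') {x : F} (hx : x ∈ K) (h0 : ∀ y ∈ K', B x (T y) = 0) :
    0 ≤ B x x ∧ (B x x = 0 → x ∈ radB B K) := by
  obtain ⟨S, hSK, hSd, hSneg⟩ := exists_nIdx B' K'
  have hinj : Function.Injective (T.domRestrict S) := by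
    rw [injective_iff_map_eq_zero]
    intro y hy
    by_contra hne
    have h1 : (y : F) ≠ 0 := fun h => hne (Subtype.ext h)
    have h2 := hSneg y y.2 h1
    have h3 : T (y : F) = 0 := hy
    rw [hB' y (hSK y.2), h3, map_zero] at h2
    exact lt_irrefl _ h2
  set M : Submodule ℝ F := LinearMap.range (T.domRestrict S) with hMdef
  have hMd : finrank ℝ M = nIdx B' K' := by
    rw [hMdef, LinearMap.finrank_range_of_inj hinj, hSd]
  have hMmem : ∀ m ∈ M, ∃ y ∈ S, T y = m := by
    rintro m ⟨y, rfl⟩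
    exact ⟨y, y.2, rfl⟩
  have hMK : M ≤ K := by
    intro m hm
    obtain ⟨y, hy, rfl⟩ := hMmem m hm
    exact hT y (hSK hy)
  have hMneg : ∀ m ∈ M, m ≠ 0 → B m m < 0 := by
    intro m hm hm0
    obtain ⟨y, hy, rfl⟩ := hMmem m hm
    rw [← hB' y (hSK hy)]
    exact hSneg y hy fun h => hm0 (by rw [h, map_zero])
  have hidx' : nIdx B K ≤ finrank ℝ M := by
    rw [hMd]
    exact hidx
  have hxM : ∀ m ∈ M, B x m = 0 := by
    intro m hm
    obtain ⟨y, hy, rfl⟩ := hMmem m hm
    exact h0 y (hSK hy)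
  have hpos := fun z (hz : z ∈ K) (h : ∀ m ∈ M, B z m = 0) =>
    Ix3_nonneg B hB hMK hMneg hidx' hz h
  refine ⟨hpos x hx hxM, fun hxx => ⟨hx, fun y hy => ?_⟩⟩
  obtain ⟨m, hm, hmy⟩ := Ix3_proj B hMneg y
  set z : F := y - m with hz
  have hzK : z ∈ K := K.sub_mem hy (hMK hm)
  have hzM : ∀ m' ∈ M, B z m' = 0 := by
    intro m' hm'
    rw [hz, map_sub, LinearMap.sub_apply, hmy m' hm', sub_self]
  have hquad : ∀ t : ℝ, 0 ≤ 2 * t * B x z + t ^ 2 * B z z := by
    intro t
    have h1 := hpos (x + t • z) (K.add_mem hx (K.smul_mem t hzK)) (by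
      intro m' hm'
      rw [map_add, map_smul, LinearMap.add_apply, LinearMap.smul_apply, hxM m' hm', hzM m' hm']
      simp)
    have h2 : B (x + t • z) (x + t • z) = 2 * t * B x z + t ^ 2 * B z z := by
      simp only [map_add, LinearMap.add_apply, map_smul, LinearMap.smul_apply, smul_eq_mul]
      rw [hxx, hB z x]
      ring
    rwa [h2] at h1
  have hzz := hpos z hzK hzM
  have hxz : B x z = 0 := by
    by_contra hne
    have h1 := hquad (-(B x z) / (B z z + 1))
    have h2 : 0 < B z z + 1 := by linarith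
    have h3 : 2 * (-(B x z) / (B z z + 1)) * B x z + (-(B x z) / (B z z + 1)) ^ 2 * B z z =
        -((B x z) ^ 2 * (B z z + 2)) / (B z z + 1) ^ 2 := by
      field_simp
      ring
    rw [h3] at h1
    have h4 : 0 < (B x z) ^ 2 * (B z z + 2) := by positivity
    have h5 : -((B x z) ^ 2 * (B z z + 2)) / (B z z + 1) ^ 2 < 0 :=
      div_neg_of_neg_of_pos (by linarith) (by positivity)
    linarith
  have h6 : B x y = B x z + B x m := by
    rw [hz, map_sub]
    ring
  rw [h6, hxz, hxM m hm, add_zero]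

end Pool.Agent.MP19e880.AR
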