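import Pool.Agent.Lib.MP_19e880_co_AR.Fm2
import Pool.Agent.Lib.MP_19e880_co_AR.Ix3

/-!
The Hodge-Riemann relation from the indices.
-/

set_option autoImplicit false
set_option linter.unusedSectionVars false

open Finset Module

namespace Pool.Agent.MP19e880.AR

variable {d : ℕ} {V 𝒞 E : Type*} [Fintype V] [DecidableEq V] [Fintype 𝒞] [AddCommGroup E]
  [Module ℝ E]

/-- The index with sign `-(-1) ^ i` is the negative index of `(-1) ^ i` times the form. -/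
theorem fr_sIdx (i : ℕ) (Q : LinearMap.BilinForm ℝ (𝒞 → ℝ)) (K : Submodule ℝ (𝒞 → ℝ)) :
    sIdx (-(-1) ^ i) Q K = nIdx (((-1 : ℝ) ^ i) • Q) K := by
  unfold sIdx
  congr 1
  push_cast
  ext x y
  simp

theorem fr_sgn (i : ℕ) : (-(-1 : ℤ) ^ i) = 1 ∨ (-(-1 : ℤ) ^ i) = -1 := by
  rcases neg_one_pow_eq_or ℤ i with h | h
  · right
    rw [h]
  · left
    rw [h]
    norm_num

theorem hr_of_idx {Φ : NFan d V 𝒞 E} {c : Conv Φ} {σ : Finset V} {e i : ℕ}
    (he : σ.card + e = d) {U : Finset 𝒞} {t : ℝ}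
    (h1 : ∀ m, 2 * i + m = e → ∀ s : ℤ, s = 1 ∨ s = -1 →
      (sIdx s (ip (Φ.wU σ U * c.lt t ^ m)) (Φ.Vj i) : ℤ) = phi Φ σ e i U s)
    (h2 : ∀ m j, j + 1 = i → 2 * j + m = e → ∀ s : ℤ, s = 1 ∨ s = -1 →
      (sIdx s (ip (Φ.wU σ U * c.lt t ^ m)) (Φ.Vj j) : ℤ) = phi Φ σ e j U s)
    (hHL : ∀ m, 2 * i + m = e → radB (ip (Φ.wU σ U * c.lt t ^ m)) (Φ.Vj i) ≤
      rad Φ.Vj (Φ.wU σ U) e i) : HRx Φ c σ e i U t := by
  intro m hm f hf hprim
  set w := Φ.wU σ U with hw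
  set B : LinearMap.BilinForm ℝ (𝒞 → ℝ) := ((-1 : ℝ) ^ i) • ip (w * c.lt t ^ m) with hB
  have hBa : ∀ x y, B x y = (-1 : ℝ) ^ i * ip (w * c.lt t ^ m) x y := fun x y => rfl
  have hBs : ∀ x y, B x y = B y x := fun x y => by rw [hBa, hBa, ip_comm]
  have hne : (-1 : ℝ) ^ i ≠ 0 := pow_ne_zero _ (by norm_num)
  have h1' := h1 m hm _ (fr_sgn i)
  rw [fr_sIdx, ← hB] at h1'
  -- the main step
  have key : 0 ≤ B f f ∧ (B f f = 0 → f ∈ radB B (Φ.Vj i)) := by
    rcases i with _ | j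
    · have h3 : nIdx B (Φ.Vj 0) = 0 := by
        have h4 := phi_zero Φ he U
        rw [pow_zero] at h1'
        rw [h4] at h1'
        exact_mod_cast h1'
      refine psd_of_nIdx B hBs (K' := ⊥) 0 ?_ 0 ?_ ?_ hf ?_
      · intro y _
        rw [LinearMap.zero_apply]
        exact Submodule.zero_mem _
      · intro x _
        rw [LinearMap.zero_apply, LinearMap.zero_apply, LinearMap.zero_apply, map_zero]
      · rw [h3]
        exact Nat.zero_le _
      · intro y _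
        rw [LinearMap.zero_apply, map_zero]
    · have hm' : 2 * j + (m + 2) = e := by omega
      have h3 := h2 (m + 2) j rfl hm' _ (fr_sgn (j + 1))
      rw [fr_sIdx] at h3
      have h4 := phi_succ Φ σ e j U
      set B' : LinearMap.BilinForm ℝ (𝒞 → ℝ) := ((-1 : ℝ) ^ (j + 1)) • ip (w * c.lt t ^ (m + 2))
        with hB'
      have hB'a : ∀ x y, B' x y = (-1 : ℝ) ^ (j + 1) * ip (w * c.lt t ^ (m + 2)) x y :=
        fun x y => rfl
      refine psd_of_nIdx B hBs (K' := Φ.Vj j) (LinearMap.mulLeft ℝ (c.lt t)) ?_ B' ?_ ?_ hf ?_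
      · intro y hy
        exact c.lt_mul_mem t hy
      · intro x _
        have h6 : w * c.lt t ^ (m + 2) = w * c.lt t ^ m * c.lt t * c.lt t := by ring
        rw [hB'a, hBa, LinearMap.mulLeft_apply, ← ip_mul_left, ← ip_mul_right, h6]
      · have h5 : (nIdx B (Φ.Vj (j + 1)) : ℤ) = nIdx B' (Φ.Vj j) := by
          rw [h1', h4, ← h3]
        exact (by exact_mod_cast h5.le : nIdx B (Φ.Vj (j + 1)) ≤ nIdx B' (Φ.Vj j))
      · intro y hy
        rw [hBa, LinearMap.mulLeft_apply, ← ip_mul_right]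
        have h5 := hprim j rfl y hy
        rw [pow_succ, ← mul_assoc] at h5
        rw [h5, mul_zero]
  refine ⟨key.1, fun h0 => ?_⟩
  have h3 := key.2 (by rw [hBa, h0, mul_zero])
  refine hHL m hm ?_
  rw [mem_radB] at h3 ⊢
  refine ⟨h3.1, fun y hy => ?_⟩
  have h4 := h3.2 y hy
  rw [hBa] at h4
  exact (mul_eq_zero.mp h4).resolve_left hne

end Pool.Agent.MP19e880.AR
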