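import Pool.Agent.Lib.MP_19e880_co_AR.Fl
import Pool.Agent.Lib.MP_19e880_co_AR.Fq
import Pool.Agent.Lib.MP_19e880_co_AR.Fr

/-!
All Hodge-Riemann relations for a generic strictly convex function.
-/

set_option autoImplicit false
set_option linter.unusedSectionVars false

open Finset Module

namespace Pool.Agent.MP19e880.AR

variable {d : ℕ} {V 𝒞 E : Type*} [Fintype V] [DecidableEq V] [Fintype 𝒞] [AddCommGroup E]
  [Module ℝ E]

theorem fs_step {Φ : NFan d V 𝒞 E} {c : Conv Φ} (hinj : Function.Injective c.LL)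
    {e : ℕ} {σ : Finset V} (he : σ.card + e = d)
    (hHL : ∀ i m, 2 * i + m = e → 0 < m → ∀ U t, Adm Φ c σ e i U t →
      radB (ip (Φ.wU σ U * c.lt t ^ m)) (Φ.Vj i) ≤ rad Φ.Vj (Φ.wU σ U) e i) :
    Sg Φ c σ e := by
  have hHL' : ∀ i m, 2 * i + m = e → ∀ U t, Adm Φ c σ e i U t →
      radB (ip (Φ.wU σ U * c.lt t ^ m)) (Φ.Vj i) ≤ rad Φ.Vj (Φ.wU σ U) e i := by
    intro i m hm U t hA
    rcases Nat.eq_zero_or_pos m with rfl | h
    · exact radB_mid (by omega) U t
    · exact hHL i m hm h U t hA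
  intro i hi U t hA
  refine hr_of_idx he ?_ ?_ ?_
  · intro m hm s hs
    exact idx_adm hinj he hm (fun h U t hA => hHL i m hm h U t hA) hA s hs
  · intro m j hj hm s hs
    subst hj
    exact idx_adm hinj he hm (fun h U t hA => hHL j m hm h U t hA) (adm_pred hi hA) s hs
  · intro m hm
    exact hHL' i m hm U t hA

theorem sg_all {Φ : NFan d V 𝒞 E} {c : Conv Φ} (hinj : Function.Injective c.LL) :
    ∀ (e : ℕ) (σ : Finset V), σ.card + e = d → Φ.Face σ → Sg Φ c σ e := by
  intro e
  induction e with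
  | zero =>
    intro σ he hσ
    exact fs_step hinj he (fun i m hm h => by omega)
  | succ e ih =>
    intro σ he hσ
    refine fs_step hinj he (fun i m hm h U t hA => ?_)
    obtain ⟨m, rfl⟩ : ∃ m', m = m' + 1 := ⟨m - 1, by omega⟩
    refine hl_adm hinj hσ he hm hA (fun v hv hf => ih _ ?_ hf)
    rw [Finset.card_insert_of_notMem hv]
    omega

end Pool.Agent.MP19e880.AR
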