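import Pool.Agent.Lib.MP_19e880_co_AR.Fs

/-!
The ranks of the links.
-/

set_option autoImplicit false
set_option linter.unusedSectionVars false

open Finset Module

namespace Pool.Agent.MP19e880.AR

variable {d : ℕ} {V 𝒞 E : Type*} [Fintype V] [DecidableEq V] [Fintype 𝒞] [AddCommGroup E]
  [Module ℝ E]

private theorem ful_count (p q : 𝒞 → Prop) (a : 𝒞 → ℤ) (ha : ∀ C, a C = 1 ∨ a C = -1) (s : ℤ)
    (hs : s = 1 ∨ s = -1) [DecidablePred fun C => q C ∧ p C ∧ a C = s]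
    [DecidablePred fun C => q C ∧ p C ∧ a C = -s] [DecidablePred fun C => q C ∧ p C] :
    ((univ.filter (fun C => q C ∧ p C ∧ a C = s)).card : ℤ) +
      ((univ.filter (fun C => q C ∧ p C ∧ a C = -s)).card : ℤ) =
      ((univ.filter (fun C => q C ∧ p C)).card : ℤ) := by
  rw [card_filter, card_filter, card_filter]
  push_cast
  rw [← sum_add_distrib]
  refine sum_congr rfl fun C _ => ?_
  have h1 : (1 : ℤ) ≠ -1 := by norm_num
  by_cases hp : q C ∧ p C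
  · rcases ha C with h | h <;> rcases hs with rfl | rfl
    · rw [if_pos ⟨hp.1, hp.2, h⟩, if_neg (fun h2 => h1 (h.symm.trans h2.2.2)), if_pos hp, add_zero]
    · rw [if_neg (fun h2 => h1 (h.symm.trans h2.2.2)),
        if_pos ⟨hp.1, hp.2, by rw [h, neg_neg]⟩, if_pos hp, zero_add]
    · rw [if_neg (fun h2 => h1 (h2.2.2.symm.trans h)), if_pos ⟨hp.1, hp.2, h⟩, if_pos hp, zero_add]
    · rw [if_pos ⟨hp.1, hp.2, h⟩, if_neg (fun h2 => h1 (by
        have h3 := h2.2.2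
        rw [neg_neg] at h3
        exact h3.symm.trans h)), if_pos hp, add_zero]
  · rw [if_neg (fun h2 => hp ⟨h2.1, h2.2.1⟩), if_neg (fun h2 => hp ⟨h2.1, h2.2.1⟩), if_neg hp,
      add_zero]

open Classical in
theorem rk_link {Φ : NFan d V 𝒞 E} (c0 : Conv Φ) (hinj : Function.Injective c0.LL)
    {σ : Finset V} (hσ : Φ.Face σ) {e i : ℕ} (he : σ.card + e = d) (hi : 2 * i ≤ e) :
    (rk Φ.Vj (Φ.wU σ univ) e i : ℤ) =
      ((univ.filter (fun C => σ ⊆ Φ.F C ∧ Φ.kk σ C ≤ i)).card : ℤ) -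
      ((univ.filter (fun C => σ ⊆ Φ.F C ∧ e < Φ.kk σ C + i)).card : ℤ) := by
  obtain ⟨m, hm⟩ : ∃ m, 2 * i + m = e := ⟨e - 2 * i, by omega⟩
  have hSg := sg_all hinj e σ he hσ
  have hHL : ∀ U t, Adm Φ c0 σ e i U t →
      radB (ip (Φ.wU σ U * c0.lt t ^ m)) (Φ.Vj i) ≤ rad Φ.Vj (Φ.wU σ U) e i := by
    intro U t hA f hf
    exact (hSg i hi U t hA).hl hm (fun i f hf => c0.lt_mul_mem t hf) hf.1 hf.2
  have hA : Adm Φ c0 σ e i univ 0 := Or.inl (fun C _ => mem_univ C)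
  have h1 := idx_adm hinj he hm (fun _ U t hA => hHL U t hA) hA 1 (Or.inl rfl)
  have h2 := idx_adm hinj he hm (fun _ U t hA => hHL U t hA) hA (-1) (Or.inr rfl)
  have h3 := sIdx_add (ip (Φ.wU σ univ * c0.lt 0 ^ m)) (ip_comm _) (Φ.Vj i)
  have h4 := rkB_eq_rk (c := c0) hm (hHL univ 0 hA)
  have hsg : ∀ n : ℕ, (-1 : ℤ) ^ n = 1 ∨ (-1 : ℤ) ^ n = -1 := fun n => neg_one_pow_eq_or ℤ n
  rw [← h4, ← h3]
  push_cast
  rw [h1, h2]
  unfold phi
  have e1 := ful_count (fun C => Φ.kk σ C ≤ i) (fun C => σ ⊆ Φ.F C)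
    (fun C => (-1 : ℤ) ^ Φ.kk σ C) (fun C => hsg _) 1 (Or.inl rfl)
  have e2 := ful_count (fun C => e < Φ.kk σ C + i) (fun C => σ ⊆ Φ.F C)
    (fun C => (-1 : ℤ) ^ (e + Φ.kk σ C)) (fun C => hsg _) (-1) (Or.inr rfl)
  linarith

end Pool.Agent.MP19e880.AR
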