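import Pool.Agent.Lib.MP_19e880_co_AR.Defs

/-!
The negative index of a form: basic properties.
-/

set_option autoImplicit false
set_option linter.unusedSectionVars false

open Finset Module

namespace Pool.Agent.MP19e880.AR

variable {F : Type*} [AddCommGroup F] [Module ℝ F] [FiniteDimensional ℝ F]


theorem nIdx_bdd (B : LinearMap.BilinForm ℝ F) (K : Submodule ℝ F) :
    BddAbove {n | ∃ S : Submodule ℝ F, S ≤ K ∧ finrank ℝ S = n ∧ ∀ x ∈ S, x ≠ 0 → B x x < 0} := by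
  refine ⟨finrank ℝ F, ?_⟩
  rintro n ⟨S, _, rfl, _⟩
  exact Submodule.finrank_le S

/-- The index is attained. -/
theorem exists_nIdx (B : LinearMap.BilinForm ℝ F) (K : Submodule ℝ F) :
    ∃ S : Submodule ℝ F, S ≤ K ∧ finrank ℝ S = nIdx B K ∧ ∀ x ∈ S, x ≠ 0 → B x x < 0 := by
  have h := Nat.sSup_mem (s := {n | ∃ S : Submodule ℝ F, S ≤ K ∧ finrank ℝ S = n ∧
    ∀ x ∈ S, x ≠ 0 → B x x < 0}) ⟨0, ⊥, bot_le, finrank_bot ℝ F, fun x hx hx0 =>
      absurd ((Submodule.mem_bot ℝ).1 hx) hx0⟩ (nIdx_bdd B K)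
  exact h

theorem le_nIdx {B : LinearMap.BilinForm ℝ F} {K S : Submodule ℝ F} (hS : S ≤ K)
    (h : ∀ x ∈ S, x ≠ 0 → B x x < 0) : finrank ℝ S ≤ nIdx B K :=
  le_csSup (nIdx_bdd B K) ⟨S, hS, rfl, h⟩

theorem nIdx_mono {B B' : LinearMap.BilinForm ℝ F} {K : Submodule ℝ F}
    (h : ∀ x ∈ K, B' x x ≤ B x x) : nIdx B K ≤ nIdx B' K := by
  obtain ⟨S, hS, h1, h2⟩ := exists_nIdx B K
  rw [← h1]
  exact le_nIdx hS fun x hx hx0 => (h x (hS hx)).trans_lt (h2 x hx hx0)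

theorem nIdx_congr {B B' : LinearMap.BilinForm ℝ F} {K : Submodule ℝ F}
    (h : ∀ x ∈ K, B x x = B' x x) : nIdx B K = nIdx B' K :=
  le_antisymm (nIdx_mono fun x hx => (h x hx).ge) (nIdx_mono fun x hx => (h x hx).le)

theorem nIdx_zero {B : LinearMap.BilinForm ℝ F} {K : Submodule ℝ F}
    (h : ∀ x ∈ K, 0 ≤ B x x) : nIdx B K = 0 := by
  obtain ⟨S, hS, h1, h2⟩ := exists_nIdx B K
  rw [← h1]
  have hbot : S = ⊥ := by
    rw [Submodule.eq_bot_iff]
    intro x hx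
    by_contra hx0
    exact absurd (h2 x hx hx0) (not_lt.2 (h x (hS hx)))
  rw [hbot]
  exact finrank_bot ℝ F

theorem sIdx_congr (s : ℤ) {B B' : LinearMap.BilinForm ℝ F} {K : Submodule ℝ F}
    (h : ∀ x ∈ K, B x x = B' x x) : sIdx s B K = sIdx s B' K := by
  unfold sIdx
  refine nIdx_congr fun x hx => ?_
  simp only [LinearMap.neg_apply, LinearMap.smul_apply, h x hx]

theorem sIdx_zero (s : ℤ) {B : LinearMap.BilinForm ℝ F} {K : Submodule ℝ F}
    (h : ∀ x ∈ K, B x x = 0) : sIdx s B K = 0 := by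
  unfold sIdx
  refine nIdx_zero fun x hx => ?_
  simp only [LinearMap.neg_apply, LinearMap.smul_apply, h x hx, smul_zero, neg_zero, le_refl]

theorem radB_congr {B B' : LinearMap.BilinForm ℝ F} {K : Submodule ℝ F}
    (h : ∀ x ∈ K, ∀ y ∈ K, B x y = B' x y) : radB B K = radB B' K := by
  ext x
  rw [mem_radB, mem_radB]
  constructor
  · rintro ⟨h1, h2⟩
    exact ⟨h1, fun y hy => by rw [← h x h1 y hy]; exact h2 y hy⟩
  · rintro ⟨h1, h2⟩
    exact ⟨h1, fun y hy => by rw [h x h1 y hy]; exact h2 y hy⟩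

end Pool.Agent.MP19e880.AR
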