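import Pool.Agent.Lib.MP_19e880_co_AR.Ix1

/-!
The sum of the positive and the negative index is the rank.
-/

set_option autoImplicit false
set_option linter.unusedSectionVars false

open Finset Module

namespace Pool.Agent.MP19e880.AR

variable {F : Type*} [AddCommGroup F] [Module ℝ F] [FiniteDimensional ℝ F]

/-- The span of a part of a family. -/
private def ix2_W {k : ℕ} (u : Fin k → F) (T : Finset (Fin k)) : Submodule ℝ F :=
  Submodule.span ℝ (Set.range fun i : T => u i)

private theorem ix2_finrank {k : ℕ} {u : Fin k → F} (hu : LinearIndependent ℝ u)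
    (T : Finset (Fin k)) : finrank ℝ (ix2_W u T) = T.card := by
  unfold ix2_W
  have h1 : LinearIndependent ℝ (fun i : T => u i) := hu.comp _ Subtype.val_injective
  rw [finrank_span_eq_card h1, Fintype.card_coe]

private theorem ix2_mem {k : ℕ} {u : Fin k → F} {T : Finset (Fin k)} {x : F}
    (hx : x ∈ ix2_W u T) : ∃ c : Fin k → ℝ, (∀ i, i ∉ T → c i = 0) ∧ x = ∑ i, c i • u i := by
  unfold ix2_W at hx
  rw [Submodule.mem_span_range_iff_exists_fun] at hx
  obtain ⟨c, hc⟩ := hx
  refine ⟨fun i => if h : i ∈ T then c ⟨i, h⟩ else 0, fun i hi => by simp [hi], ?_⟩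
  have h1 : ∑ i, (if h : i ∈ T then c ⟨i, h⟩ else 0) • u i =
      ∑ i ∈ T, (if h : i ∈ T then c ⟨i, h⟩ else 0) • u i := by
    symm
    apply Finset.sum_subset (Finset.subset_univ T)
    intro i _ hi
    simp [hi]
  rw [h1, ← Finset.sum_coe_sort, ← hc]
  apply Finset.sum_congr rfl
  intro i _
  simp

private theorem ix2_mem' {k : ℕ} {u : Fin k → F} {T : Finset (Fin k)} (c : Fin k → ℝ)
    (hc : ∀ i, i ∉ T → c i = 0) : ∑ i, c i • u i ∈ ix2_W u T := by
  unfold ix2_W
  apply Submodule.sum_mem
  intro i _
  by_cases hi : i ∈ T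
  · exact Submodule.smul_mem _ _ (Submodule.subset_span ⟨⟨i, hi⟩, rfl⟩)
  · rw [hc i hi, zero_smul]
    exact Submodule.zero_mem _

private theorem ix2_form {k : ℕ} {u : Fin k → F} (B : LinearMap.BilinForm ℝ F)
    (ho : ∀ i j, i ≠ j → B (u i) (u j) = 0) (c d : Fin k → ℝ) :
    B (∑ i, c i • u i) (∑ i, d i • u i) = ∑ i, c i * d i * B (u i) (u i) := by
  rw [LinearMap.BilinForm.sum_left]
  apply Finset.sum_congr rfl
  intro i _
  rw [LinearMap.BilinForm.smul_left, LinearMap.BilinForm.sum_right]
  rw [Finset.sum_eq_single i]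
  · rw [LinearMap.BilinForm.smul_right]
    ring
  · intro j _ hj
    rw [LinearMap.BilinForm.smul_right, ho i j (Ne.symm hj), mul_zero]
  · intro h
    exact absurd (Finset.mem_univ i) h

private theorem ix2_le {k : ℕ} {u : Fin k → F} {K : Submodule ℝ F} (huK : ∀ i, u i ∈ K)
    (T : Finset (Fin k)) : ix2_W u T ≤ K := by
  unfold ix2_W
  rw [Submodule.span_le]
  rintro _ ⟨i, rfl⟩
  exact huK i

/-- The index is the number of negative vectors of an orthogonal basis. -/
private theorem ix2_nIdx {k : ℕ} {u : Fin k → F} {K : Submodule ℝ F}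
    (huK : ∀ i, u i ∈ K) (hu : LinearIndependent ℝ u) (hk : finrank ℝ K = k)
    (B : LinearMap.BilinForm ℝ F) (ho : ∀ i j, i ≠ j → B (u i) (u j) = 0) :
    nIdx B K = (Finset.univ.filter fun i => B (u i) (u i) < 0).card := by
  classical
  set N := Finset.univ.filter fun i => B (u i) (u i) < 0 with hN
  apply le_antisymm
  · obtain ⟨S, hSK, hS, hneg⟩ := exists_nIdx B K
    have hdis : Disjoint S (ix2_W u Nᶜ) := by
      rw [Submodule.disjoint_def]
      intro x hx hxW
      by_contra hne
      obtain ⟨c, hc, rfl⟩ := ix2_mem hxW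
      have h1 := hneg _ hx hne
      rw [ix2_form B ho] at h1
      have h2 : 0 ≤ ∑ i, c i * c i * B (u i) (u i) := by
        apply Finset.sum_nonneg
        intro i _
        by_cases hi : i ∈ N
        · rw [hc i (by simpa using hi)]
          simp
        · rw [hN, Finset.mem_filter, not_and] at hi
          exact mul_nonneg (mul_self_nonneg _) (not_lt.mp (hi (Finset.mem_univ i)))
      linarith
    have h3 : finrank ℝ S + finrank ℝ (ix2_W u Nᶜ) ≤ finrank ℝ K := by
      have h4 := Submodule.finrank_sup_add_finrank_inf_eq S (ix2_W u Nᶜ)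
      rw [hdis.eq_bot, finrank_bot, add_zero] at h4
      rw [← h4]
      exact Submodule.finrank_mono (sup_le hSK (ix2_le huK _))
    rw [ix2_finrank hu, Finset.card_compl, Fintype.card_fin, hk, hS] at h3
    have h5 : N.card ≤ k := by
      have := Finset.card_le_univ N
      rwa [Fintype.card_fin] at this
    omega
  · rw [← ix2_finrank hu N]
    apply le_nIdx (ix2_le huK N)
    intro x hx hne
    obtain ⟨c, hc, rfl⟩ := ix2_mem hx
    rw [ix2_form B ho]
    have hex : ∃ i, c i ≠ 0 := by
      by_contra h
      push Not at h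
      apply hne
      apply Finset.sum_eq_zero
      intro i _
      rw [h i, zero_smul]
    obtain ⟨i, hi⟩ := hex
    have hiN : i ∈ N := by
      by_contra h
      exact hi (hc i h)
    apply Finset.sum_neg'
    · intro j _
      by_cases hj : j ∈ N
      · rw [hN, Finset.mem_filter] at hj
        exact mul_nonpos_of_nonneg_of_nonpos (mul_self_nonneg _) hj.2.le
      · rw [hc j hj]
        simp
    · rw [hN, Finset.mem_filter] at hiN
      exact ⟨i, Finset.mem_univ i, mul_neg_of_pos_of_neg (mul_self_pos.mpr hi) hiN.2⟩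

theorem nIdx_add (B : LinearMap.BilinForm ℝ F) (hB : ∀ x y, B x y = B y x)
    (K : Submodule ℝ F) : nIdx B K + nIdx (-B) K = rkB B K := by
  classical
  have hsym : LinearMap.IsSymm (B.restrict K) := ⟨fun x y => hB x y⟩
  haveI : Invertible (2 : ℝ) := invertibleOfNonzero two_ne_zero
  obtain ⟨v, hv⟩ := LinearMap.BilinForm.exists_orthogonal_basis hsym
  set u : Fin (finrank ℝ K) → F := fun i => (v i : F) with hu
  have huK : ∀ i, u i ∈ K := fun i => (v i).2
  have hli : LinearIndependent ℝ u := v.linearIndependent.map' K.subtype K.ker_subtype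
  have ho : ∀ i j, i ≠ j → B (u i) (u j) = 0 := fun i j hij => hv hij
  have ho' : ∀ i j, i ≠ j → (-B) (u i) (u j) = 0 := fun i j hij => by
    rw [LinearMap.neg_apply, LinearMap.neg_apply, ho i j hij, neg_zero]
  have hspan : ∀ x ∈ K, ∃ c : Fin (finrank ℝ K) → ℝ, x = ∑ i, c i • u i := by
    intro x hx
    refine ⟨fun i => v.repr ⟨x, hx⟩ i, ?_⟩
    have h1 := congrArg (fun y : K => (y : F)) (v.sum_repr ⟨x, hx⟩)
    simp only [Submodule.coe_sum, Submodule.coe_smul] at h1
    exact h1.symm
  rw [ix2_nIdx huK hli rfl B ho, ix2_nIdx huK hli rfl (-B) ho', rkB]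
  set Z := Finset.univ.filter fun i => B (u i) (u i) = 0 with hZ
  have hrad : radB B K = ix2_W u Z := by
    ext x
    rw [mem_radB]
    constructor
    · rintro ⟨hx, h⟩
      obtain ⟨c, rfl⟩ := hspan x hx
      apply ix2_mem'
      intro j hj
      have h1 := h (u j) (huK j)
      have h2 : u j = ∑ i, (if i = j then (1 : ℝ) else 0) • u i := by
        rw [Finset.sum_eq_single j]
        · simp
        · intro i _ hi
          simp [hi]
        · intro h'
          exact absurd (Finset.mem_univ j) h'
      rw [h2, ix2_form B ho, Finset.sum_eq_single j] at h1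
      · rw [if_pos rfl, mul_one] at h1
        rcases mul_eq_zero.mp h1 with h3 | h3
        · exact h3
        · exfalso
          apply hj
          rw [hZ, Finset.mem_filter]
          exact ⟨Finset.mem_univ j, h3⟩
      · intro i _ hi
        rw [if_neg hi]
        simp
      · intro h'
        exact absurd (Finset.mem_univ j) h'
    · intro hx
      refine ⟨ix2_le huK Z hx, ?_⟩
      intro y hy
      obtain ⟨c, hc, rfl⟩ := ix2_mem hx
      obtain ⟨d, rfl⟩ := hspan y hy
      rw [ix2_form B ho]
      apply Finset.sum_eq_zero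
      intro i _
      by_cases hi : i ∈ Z
      · rw [hZ, Finset.mem_filter] at hi
        rw [hi.2, mul_zero]
      · rw [hc i hi]
        simp
  rw [hrad, ix2_finrank hli]
  have hP : (Finset.univ.filter fun i => (-B) (u i) (u i) < 0) =
      Finset.univ.filter fun i => 0 < B (u i) (u i) := by
    ext i
    simp
  rw [hP]
  have hcard : (Finset.univ.filter fun i => B (u i) (u i) < 0).card +
      (Finset.univ.filter fun i => 0 < B (u i) (u i)).card + Z.card = finrank ℝ K := by
    have h1 : (Finset.univ : Finset (Fin (finrank ℝ K))) =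
        ((Finset.univ.filter fun i => B (u i) (u i) < 0) ∪
          (Finset.univ.filter fun i => 0 < B (u i) (u i))) ∪ Z := by
      ext i
      simp only [Finset.mem_univ, Finset.mem_union, Finset.mem_filter, true_and, hZ, true_iff]
      rcases lt_trichotomy (B (u i) (u i)) 0 with h | h | h
      · exact Or.inl (Or.inl h)
      · exact Or.inr h
      · exact Or.inl (Or.inr h)
    have h2 : Disjoint (Finset.univ.filter fun i => B (u i) (u i) < 0)
        (Finset.univ.filter fun i => 0 < B (u i) (u i)) := by
      rw [Finset.disjoint_left]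
      intro i hi hj
      rw [Finset.mem_filter] at hi hj
      linarith [hi.2, hj.2]
    have h3 : Disjoint ((Finset.univ.filter fun i => B (u i) (u i) < 0) ∪
        (Finset.univ.filter fun i => 0 < B (u i) (u i))) Z := by
      rw [Finset.disjoint_left]
      intro i hi hj
      rw [Finset.mem_union, Finset.mem_filter, Finset.mem_filter] at hi
      rw [hZ, Finset.mem_filter] at hj
      rcases hi with hi | hi <;> linarith [hi.2, hj.2]
    have h4 := congrArg Finset.card h1
    rw [Finset.card_union_of_disjoint h3, Finset.card_union_of_disjoint h2, Finset.card_univ,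
      Fintype.card_fin] at h4
    exact h4.symm
  omega

theorem sIdx_add (B : LinearMap.BilinForm ℝ F) (hB : ∀ x y, B x y = B y x)
    (K : Submodule ℝ F) : sIdx 1 B K + sIdx (-1) B K = rkB B K := by
  unfold sIdx
  have h1 : -(((1 : ℤ) : ℝ) • B) = -B := by simp
  have h2 : -(((-1 : ℤ) : ℝ) • B) = B := by
    rw [show (((-1 : ℤ) : ℝ)) = -(1 : ℝ) by norm_num]
    ext x y
    simp
  rw [h1, h2, add_comm]
  exact nIdx_add B hB K

end Pool.Agent.MP19e880.AR
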