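import Pool.Agent.Lib.MP_19e880_co_AR.TwoE
import Pool.Agent.Lib.MP_19e880_co_AR.Dual

/-!
The quotient by the kernel of N: hard Lefschetz.
-/

set_option autoImplicit false
set_option linter.unusedSectionVars false

open Finset Module

namespace Pool.Agent.MP19e880.AR

variable {𝒞 : Type*} [Fintype 𝒞]


theorem Two.hl1 {d : ℕ} {K : ℕ → Submodule ℝ (𝒞 → ℝ)} {w N l : 𝒞 → ℝ} (h : Two d K w N l)
    {i m : ℕ} (hm : 2 * i + m = d) {f : 𝒞 → ℝ} (hf : f ∈ K i)
    (h0 : ∀ g ∈ K i, ip (w * N * l ^ m) f g = 0) : f ∈ rad K (w * N) d i := by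
  rcases m with _ | m
  · refine ⟨hf, fun j hj g hg => ?_⟩
    have hji : j = i := by omega
    subst hji
    have h1 := h0 g hg
    rwa [pow_zero, mul_one] at h1
  · have hy : N * f ∈ K (i + 1) := h.mulN i f hf
    have hprim : ∀ j, j + 1 = i + 1 → ∀ g ∈ K j,
        ip (w * ((1 : ℝ) • N + l) ^ (m + 1)) (N * f) g = 0 := by
      intro j hj g hg
      have hji : j = i := by omega
      subst hji
      rw [h.expand 1 hy hg (by omega), Nat.add_sub_cancel]
      have h1 : ip (w * l ^ (m + 1)) (N * f) g = 0 := by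
        rw [← ip_mul_left, mul_right_comm]
        exact h0 g hg
      have h2 : ip (w * N * l ^ m) (N * f) g = 0 := h.low_sq hf hg (by omega)
      rw [h1, h2, mul_zero, add_zero]
    have hval : ip (w * ((1 : ℝ) • N + l) ^ m) (N * f) (N * f) = 0 := by
      rw [h.expand 1 hy hy (by omega)]
      have h1 : ip (w * l ^ m) (N * f) (N * f) = 0 := by
        rw [← ip_mul_right, mul_right_comm]
        exact h.low_sq hf hf (by omega)
      rw [h1, zero_add]
      rcases m with _ | m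
      · simp
      · rw [Nat.add_sub_cancel, h.low_sq hf hy (by omega), mul_zero]
    have hrad := (h.hr 1 one_pos (i + 1) m (by omega) (N * f) hy hprim).2 hval
    refine ⟨hf, fun j hj g hg => ?_⟩
    rw [ip_mul_left]
    exact hrad.2 j (by omega) g hg

theorem Two.surj1 {d : ℕ} {K : ℕ → Submodule ℝ (𝒞 → ℝ)} {w N l : 𝒞 → ℝ} (h : Two d K w N l)
    {i m : ℕ} (hm : 2 * i + m = d) {z : 𝒞 → ℝ} (hz : z ∈ K (i + m)) :
    ∃ x ∈ K i, z - l ^ m * x ∈ rad K (w * N) d (i + m) :=
  surj hm h.mulL (fun _ hf h0 => h.hl1 hm hf h0) hz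

end Pool.Agent.MP19e880.AR
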