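import Pool.Agent.Lib.MP_19e880_co_AR.TwoA

/-!
The kernel of N modulo its image: Hodge-Riemann.
-/

set_option autoImplicit false
set_option linter.unusedSectionVars false

open Finset Module

namespace Pool.Agent.MP19e880.AR

variable {𝒞 : Type*} [Fintype 𝒞]

/-- Representation of the functionals which vanish on the right radical. -/
private theorem twob_rep (B : LinearMap.BilinForm ℝ (𝒞 → ℝ)) (K A : Submodule ℝ (𝒞 → ℝ))
    (lam : A →ₗ[ℝ] ℝ) (h : ∀ a : A, (∀ x ∈ K, B x a = 0) → lam a = 0) :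
    ∃ x ∈ K, ∀ a : A, B x a = lam a := by
  let T : K →ₗ[ℝ] Module.Dual ℝ A := A.subtype.dualMap ∘ₗ B ∘ₗ K.subtype
  have h1 : lam ∈ LinearMap.range T := by
    rw [← Subspace.dualCoannihilator_dualAnnihilator_eq (W := LinearMap.range T),
      Submodule.mem_dualAnnihilator]
    intro a ha
    rw [Submodule.mem_dualCoannihilator] at ha
    exact h a (fun x hx => ha (T ⟨x, hx⟩) ⟨_, rfl⟩)
  obtain ⟨x, hx⟩ := h1
  exact ⟨x, x.2, fun a => by rw [← hx]; rfl⟩

private theorem twob_move (w a b f g : 𝒞 → ℝ) : ip (w * a * b) f g = ip (w * a) f (b * g) := by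
  simp only [ip_apply]
  refine sum_congr rfl fun C _ => ?_
  simp only [Pi.mul_apply]
  ring

/-- A member `f` of the kernel of `N` such that `l ^ (m + 1) f` is in the image of `N` can be changed
by an element of the image of `N` such that `l ^ (m + 1) f` vanishes. -/
theorem Two.adjust {d : ℕ} {K : ℕ → Submodule ℝ (𝒞 → ℝ)} {w N l : 𝒞 → ℝ} (h : Two d K w N l)
    {i m : ℕ} (hm : 2 * i + m = d + 1) {f : 𝒞 → ℝ} (hf : f ∈ rad K (w * N) d i)
    (h0 : ∀ j, j + 1 = i → ∀ g ∈ rad K (w * N) d j, ip (w * l ^ (m + 1)) f g = 0) :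
    ∃ y ∈ Kp K i, ∀ j, j + 1 = i → ∀ g ∈ K j, ip (w * l ^ (m + 1)) (f - N * y) g = 0 := by
  cases i with
  | zero => exact ⟨0, (Kp K 0).zero_mem, fun j hj => absurd hj (Nat.succ_ne_zero j)⟩
  | succ k =>
    obtain ⟨y, hy, h1⟩ := twob_rep (ip (w * N * l ^ (m + 1))) (K k) (K k)
      ((ip (w * l ^ (m + 1)) f) ∘ₗ (K k).subtype) (by
        intro a ha
        have h2 : (a : 𝒞 → ℝ) ∈ rad K (w * N) d k :=
          h.hl1 (m := m + 1) (by omega) a.2 (fun g hg => by
            rw [ip_comm]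
            exact ha g hg)
        exact h0 k rfl a h2)
    refine ⟨y, hy, fun j hj g hg => ?_⟩
    have hjk : j = k := by omega
    rw [hjk] at hg
    have h2 : ip (w * N * l ^ (m + 1)) y g = ip (w * l ^ (m + 1)) f g := h1 ⟨g, hg⟩
    have h3 : ip (w * l ^ (m + 1)) (N * y) g = ip (w * N * l ^ (m + 1)) y g := by
      simp only [ip_apply]
      refine sum_congr rfl fun C _ => ?_
      simp only [Pi.mul_apply]
      ring
    rw [LinearMap.map_sub₂, h3, h2, sub_self]

theorem Two.zero {d : ℕ} {K : ℕ → Submodule ℝ (𝒞 → ℝ)} {w N l : 𝒞 → ℝ} (h : Two d K w N l)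
    (i : ℕ) : HR (rad K (w * N) d) w (d + 1) l i := by
  intro m hm f hf h0
  obtain ⟨y, hy, hadj⟩ := h.adjust hm hf h0
  have hcase : y = 0 ∨ ∃ k, k + 1 = i ∧ y ∈ K k := by
    cases i with
    | zero =>
      left
      exact (Submodule.mem_bot ℝ).mp hy
    | succ k => exact Or.inr ⟨k, rfl, hy⟩
  -- facts on `N * y`
  have ha : N * y ∈ K i := by
    rcases hcase with h1 | ⟨k, hk, h1⟩
    · rw [h1, mul_zero]
      exact (K i).zero_mem
    · rw [← hk]
      exact h.mulN k y h1
  have hb : ∀ j', i + j' = d → ∀ g ∈ K j', ip (w * N) (N * y) g = 0 := by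
    intro j' hj' g hg
    rcases hcase with h1 | ⟨k, hk, h1⟩
    · rw [h1, mul_zero, LinearMap.map_zero₂]
    · have h2 := h.low_sq (m := 0) h1 hg (by omega)
      rwa [pow_zero, mul_one] at h2
  have hc : ∀ j', i + j' = d + 1 → ∀ g ∈ rad K (w * N) d j', ip w (N * y) g = 0 := by
    intro j' hj' g hg
    rcases hcase with h1 | ⟨k, hk, h1⟩
    · rw [h1, mul_zero, LinearMap.map_zero₂]
    · rw [← ip_mul_left, ip_comm]
      exact hg.2 k (by omega) y h1
  have hd : ip (w * l ^ m) f (N * y) = 0 := by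
    rcases hcase with h1 | ⟨k, hk, h1⟩
    · rw [h1, mul_zero, map_zero]
    · have h2 : ip (w * l ^ m) f (N * y) = ip (w * N) f (l ^ m * y) := by
        simp only [ip_apply]
        refine sum_congr rfl fun C _ => ?_
        simp only [Pi.mul_apply]
        ring
      rw [h2]
      exact hf.2 (k + m) (by omega) _ (pow_mul_mem h.mulL m k h1)
  have he : ip (w * l ^ m) (N * y) (N * y) = 0 := by
    rcases hcase with h1 | ⟨k, hk, h1⟩
    · rw [h1, mul_zero, map_zero]
    · have h2 : ip (w * l ^ m) (N * y) (N * y) = ip (w * N * l ^ m) (N * y) y := by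
        simp only [ip_apply]
        refine sum_congr rfl fun C _ => ?_
        simp only [Pi.mul_apply]
        ring
      rw [h2]
      exact h.low_sq h1 h1 (by omega)
  -- the corrected element
  have hx : f - N * y ∈ K i := (K i).sub_mem hf.1 ha
  have hxA : f - N * y ∈ rad K (w * N) d i := by
    refine ⟨hx, fun j' hj' g hg => ?_⟩
    rw [LinearMap.map_sub₂, hf.2 j' hj' g hg, hb j' hj' g hg, sub_zero]
  have hprim : ∀ j, j + 1 = i → ∀ g ∈ K j,
      ip (w * ((1 : ℝ) • N + l) ^ (m + 1)) (f - N * y) g = 0 := by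
    intro j hj g hg
    rw [h.expand 1 hx hg (by omega), hadj j hj g hg, Nat.add_sub_cancel, twob_move,
      hxA.2 (j + m) (by omega) _ (pow_mul_mem h.mulL m j hg), mul_zero, add_zero]
  have hval : ip (w * ((1 : ℝ) • N + l) ^ m) (f - N * y) (f - N * y) = ip (w * l ^ m) f f := by
    rw [h.expand 1 hx hx (by omega)]
    have h2 : (m : ℝ) * ip (w * N * l ^ (m - 1)) (f - N * y) (f - N * y) = 0 := by
      rcases Nat.eq_zero_or_pos m with hm0 | hm0
      · rw [hm0, Nat.cast_zero, zero_mul]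
      · rw [twob_move, hxA.2 (i + (m - 1)) (by omega) _ (pow_mul_mem h.mulL (m - 1) i hx),
          mul_zero]
    rw [one_mul, h2, add_zero]
    have hd' : ip (w * l ^ m) (N * y) f = 0 := by
      rw [ip_comm]
      exact hd
    rw [LinearMap.map_sub₂, map_sub, map_sub, hd, hd', he]
    ring
  obtain ⟨h3, h4⟩ := h.hr 1 one_pos i m hm _ hx hprim
  rw [hval] at h3 h4
  refine ⟨h3, fun h5 => ⟨hf, fun j' hj' g hg => ?_⟩⟩
  have h6 := (h4 h5).2 j' hj' g hg.1
  rw [LinearMap.map_sub₂, hc j' hj' g hg, sub_zero] at h6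
  exact h6

end Pool.Agent.MP19e880.AR
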