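import Pool.Agent.Lib.MP_19e880_co_AR.TwoB

/-!
The quotient by the kernel of N: Hodge-Riemann.
-/

set_option autoImplicit false
set_option linter.unusedSectionVars false

open Finset Module

namespace Pool.Agent.MP19e880.AR

variable {𝒞 : Type*} [Fintype 𝒞]

namespace TwoCAux

/-- A functional on `K` vanishing on the radical of a symmetric form is represented by an element
of `K`. -/
theorem repr {F : Type*} [AddCommGroup F] [Module ℝ F] [FiniteDimensional ℝ F]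
    (K : Submodule ℝ F) (B : LinearMap.BilinForm ℝ F) (hB : ∀ x y, B x y = B y x)
    (lam : F →ₗ[ℝ] ℝ) (h : ∀ x ∈ K, (∀ y ∈ K, B x y = 0) → lam x = 0) :
    ∃ y ∈ K, ∀ g ∈ K, B y g = lam g := by
  let T : K →ₗ[ℝ] Module.Dual ℝ K := K.dualRestrict ∘ₗ B ∘ₗ K.subtype
  have hT : ∀ x y : K, T x y = B x y := fun x y => rfl
  have h1 : LinearMap.range T = (LinearMap.ker T).dualAnnihilator := by
    rw [← LinearMap.range_dualMap_eq_dualAnnihilator_ker]
    ext φ
    constructor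
    · rintro ⟨x, rfl⟩
      refine ⟨Module.Dual.eval ℝ K x, ?_⟩
      ext y
      change T y x = T x y
      rw [hT, hT, hB]
    · rintro ⟨ψ, rfl⟩
      obtain ⟨x, rfl⟩ := (Module.evalEquiv ℝ K).surjective ψ
      refine ⟨x, ?_⟩
      ext y
      change T x y = T y x
      rw [hT, hT, hB]
  have h2 : K.dualRestrict lam ∈ LinearMap.range T := by
    rw [h1, Submodule.mem_dualAnnihilator]
    intro x hx
    refine h x x.2 (fun y hy => ?_)
    have := LinearMap.congr_fun (LinearMap.mem_ker.mp hx) ⟨y, hy⟩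
    exact this
  obtain ⟨y, hy⟩ := h2
  refine ⟨y, y.2, fun g hg => ?_⟩
  exact LinearMap.congr_fun hy ⟨g, hg⟩

theorem ip_pow_succ_left (w l f g : 𝒞 → ℝ) (m : ℕ) :
    ip (w * l ^ (m + 1)) f g = ip (w * l ^ m) (l * f) g := by
  rw [pow_succ, ← mul_assoc, ip_mul_left]

theorem ip_pow_succ_right (w l f g : 𝒞 → ℝ) (m : ℕ) :
    ip (w * l ^ (m + 1)) f g = ip (w * l ^ m) f (l * g) := by
  rw [pow_succ, ← mul_assoc, ip_mul_right]

theorem ip_pow_left (w l f g : 𝒞 → ℝ) (m : ℕ) :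
    ip (w * l ^ m) f g = ip w (l ^ m * f) g := ip_mul_left w (l ^ m) f g

theorem ip_pow_right (w l f g : 𝒞 → ℝ) (m : ℕ) :
    ip (w * l ^ m) f g = ip w f (l ^ m * g) := ip_mul_right w (l ^ m) f g

theorem ip_N (w N l f g : 𝒞 → ℝ) (m : ℕ) :
    ip (w * l ^ m) (N * f) g = ip (w * N * l ^ m) f g := by
  rw [ip_apply, ip_apply]
  exact sum_congr rfl (fun C _ => by simp only [Pi.mul_apply, Pi.pow_apply]; ring)

/-- the kernels are stable under `l` -/
theorem rad_mulL {d : ℕ} {K : ℕ → Submodule ℝ (𝒞 → ℝ)} {w N l : 𝒞 → ℝ} (h : Two d K w N l)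
    (i : ℕ) (f : 𝒞 → ℝ) (hf : f ∈ rad K (w * N) d i) : l * f ∈ rad K (w * N) d (i + 1) := by
  refine ⟨h.mulL i f hf.1, fun j hj g hg => ?_⟩
  have h1 : ip (w * N) (l * f) g = ip (w * N) f (l * g) := by
    rw [ip_apply, ip_apply]
    exact sum_congr rfl (fun C _ => by simp only [Pi.mul_apply]; ring)
  rw [h1]
  exact hf.2 (j + 1) (by omega) _ (h.mulL j g hg)

/-- a member of the kernel pairs to zero -/
theorem rad_pair {d : ℕ} {K : ℕ → Submodule ℝ (𝒞 → ℝ)} {w N l : 𝒞 → ℝ} (h : Two d K w N l)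
    {i j m : ℕ} {f g : 𝒞 → ℝ} (hf : f ∈ rad K (w * N) d i) (hg : g ∈ K j)
    (hm : i + j + m = d) : ip (w * N * l ^ m) f g = 0 := by
  rw [ip_pow_right]
  exact hf.2 (j + m) (by omega) _ (pow_mul_mem h.mulL m j hg)

/-- the image of `N` is in the kernel -/
theorem N_mem {d : ℕ} {K : ℕ → Submodule ℝ (𝒞 → ℝ)} {w N l : 𝒞 → ℝ} (h : Two d K w N l)
    {j : ℕ} {y : 𝒞 → ℝ} (hy : y ∈ K j) : N * y ∈ rad K (w * N) d (j + 1) := by
  refine ⟨h.mulN j y hy, fun j' hj g hg => ?_⟩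
  have h1 := h.low_sq (m := 0) hy hg (by omega)
  rwa [pow_zero, mul_one] at h1

end TwoCAux

open TwoCAux

/-- Step 1 -/
theorem Two.one_step1 {d : ℕ} {K : ℕ → Submodule ℝ (𝒞 → ℝ)} {w N l : 𝒞 → ℝ} (h : Two d K w N l)
    {i m : ℕ} (hm : 2 * i + m = d) {f : 𝒞 → ℝ} (hf : f ∈ K i)
    (hp : ∀ j, j + 1 = i → ∀ g ∈ K j, ip (w * N * l ^ (m + 1)) f g = 0) :
    ∃ f' ∈ K i, f' - f ∈ rad K (w * N) d i ∧
      ∀ j, j + 1 = i → ∀ g ∈ K j, ip (w * l ^ (m + 2)) f' g = 0 := by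
  rcases i with _ | j
  · refine ⟨f, hf, by rw [sub_self]; exact Submodule.zero_mem _, fun j hj => ?_⟩
    omega
  -- the element `l ^ (m + 2) f` is in the kernel
  have hlf : l ^ (m + 2) * f ∈ rad K (w * N) d (j + 1 + (m + 2)) := by
    refine ⟨pow_mul_mem h.mulL (m + 2) (j + 1) hf, fun j' hj' g hg => ?_⟩
    rw [← ip_pow_left, ip_pow_succ_right]
    exact hp (j' + 1) (by omega) _ (h.mulL j' g hg)
  obtain ⟨y0, hy0, hy0'⟩ := repr (rad K (w * N) d j) (ip (w * l ^ (m + 3)))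
    (fun x y => ip_comm _ x y) (-(ip (w * l ^ (m + 2)) f)) (fun x hx hx0 => by
      have h1 : x ∈ rad (rad K (w * N) d) w (d + 1) j :=
        (h.zero j).hl (m := m + 3) (by omega) (rad_mulL h) hx hx0
      have h2 := h1.2 (j + 1 + (m + 2)) (by omega) _ hlf
      rw [LinearMap.neg_apply, ip_pow_left, ip_comm, h2, neg_zero])
  set f1 : 𝒞 → ℝ := f + l * y0 with hf1
  have hf1K : f1 ∈ K (j + 1) := (K (j + 1)).add_mem hf (h.mulL j _ hy0.1)
  have hf1A : l * y0 ∈ rad K (w * N) d (j + 1) := rad_mulL h j y0 hy0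
  have hvan : ∀ g ∈ rad K (w * N) d j, ip (w * l ^ (m + 2)) f1 g = 0 := by
    intro g hg
    have h1 := hy0' g hg
    rw [ip_pow_succ_left, LinearMap.neg_apply] at h1
    rw [hf1, LinearMap.map_add₂, h1]
    ring
  obtain ⟨y1, hy1, hy1'⟩ := repr (K j) (ip (w * N * l ^ (m + 2)))
    (fun x y => ip_comm _ x y) (-(ip (w * l ^ (m + 2)) f1)) (fun x hx hx0 => by
      have h1 : x ∈ rad K (w * N) d j := h.hl1 (m := m + 2) (by omega) hx hx0
      rw [LinearMap.neg_apply, hvan x h1, neg_zero])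
  refine ⟨f1 + N * y1, (K (j + 1)).add_mem hf1K (h.mulN j _ hy1), ?_, ?_⟩
  · have h1 : f1 + N * y1 - f = l * y0 + N * y1 := by rw [hf1]; ring
    rw [h1]
    exact Submodule.add_mem _ hf1A (N_mem h hy1)
  · intro j' hj' g hg
    obtain rfl : j' = j := by omega
    have h1 := hy1' g hg
    rw [LinearMap.neg_apply] at h1
    rw [LinearMap.map_add₂, ip_N, h1]
    ring

/-- Step 2 -/
theorem Two.one_step2 {d : ℕ} {K : ℕ → Submodule ℝ (𝒞 → ℝ)} {w N l : 𝒞 → ℝ} (h : Two d K w N l)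
    {i m : ℕ} (hm : 2 * i + m = d) {f : 𝒞 → ℝ} (hf : f ∈ K i)
    (hp : ∀ j, j + 1 = i → ∀ g ∈ K j, ip (w * N * l ^ (m + 1)) f g = 0) :
    0 ≤ (-1 : ℝ) ^ i * ip (w * N * l ^ m) f f := by
  obtain ⟨f', hf', hA, hp'⟩ := h.one_step1 hm hf hp
  have hff : ip (w * N * l ^ m) f' f' = ip (w * N * l ^ m) f f := by
    have h1 : ip (w * N * l ^ m) (f' - f) f' = 0 := rad_pair h hA hf' (by omega)
    have h2 : ip (w * N * l ^ m) (f' - f) f = 0 := rad_pair h hA hf (by omega)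
    rw [LinearMap.map_sub₂, sub_eq_zero] at h1 h2
    rw [h1, ip_comm, h2]
  have key : ∀ s : ℝ, 0 < s → 0 ≤ (-1 : ℝ) ^ i *
      (ip (w * l ^ (m + 1)) f' f' + s * ((m + 1 : ℕ) : ℝ) * ip (w * N * l ^ m) f f) := by
    intro s hs
    have h1 := (h.hr s hs i (m + 1) (by omega) f' hf' (fun j hj g hg => by
      rw [h.expand s hf' hg (by omega), hp' j hj g hg]
      have h2 : ip (w * N * l ^ (m + 1)) (f' - f) g = 0 := rad_pair h hA hg (by omega)
      rw [LinearMap.map_sub₂, sub_eq_zero] at h2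
      have h3 : m + 1 + 1 - 1 = m + 1 := by omega
      rw [h3, h2, hp j hj g hg]
      ring)).1
    rw [h.expand s hf' hf' (by omega)] at h1
    have h3 : m + 1 - 1 = m := by omega
    rw [h3, hff] at h1
    exact h1
  by_contra hneg
  rw [not_le] at hneg
  set a : ℝ := (-1 : ℝ) ^ i * ip (w * l ^ (m + 1)) f' f' with ha
  set b : ℝ := (-1 : ℝ) ^ i * ip (w * N * l ^ m) f f with hb
  have hmp : (0 : ℝ) < ((m + 1 : ℕ) : ℝ) := by positivity
  have key' : ∀ s : ℝ, 0 < s → 0 ≤ a + s * (((m + 1 : ℕ) : ℝ) * b) := by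
    intro s hs
    have h1 := key s hs
    have h2 : (-1 : ℝ) ^ i *
      (ip (w * l ^ (m + 1)) f' f' + s * ((m + 1 : ℕ) : ℝ) * ip (w * N * l ^ m) f f) =
      a + s * (((m + 1 : ℕ) : ℝ) * b) := by rw [ha, hb]; ring
    rwa [h2] at h1
  have hmb : ((m + 1 : ℕ) : ℝ) * b < 0 := mul_neg_of_pos_of_neg hmp hneg
  have hs : 0 < (|a| + 1) / -(((m + 1 : ℕ) : ℝ) * b) := by
    apply div_pos
    · positivity
    · linarith
  have h1 := key' _ hs
  have h2 : (|a| + 1) / -(((m + 1 : ℕ) : ℝ) * b) * (((m + 1 : ℕ) : ℝ) * b) = -(|a| + 1) := by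
    have h3 : ((m + 1 : ℕ) : ℝ) * b ≠ 0 := hmb.ne
    rw [div_mul_eq_mul_div, div_eq_iff (neg_ne_zero.mpr h3)]
    ring
  rw [h2] at h1
  have := le_abs_self a
  linarith

theorem Two.one {d : ℕ} {K : ℕ → Submodule ℝ (𝒞 → ℝ)} {w N l : 𝒞 → ℝ} (h : Two d K w N l)
    (i : ℕ) : HR K (w * N) d l i := by
  intro m hm f hf hp
  refine ⟨h.one_step2 hm hf hp, fun h0 => ?_⟩
  refine h.hl1 hm hf (fun x hx => ?_)
  -- Cauchy-Schwarz
  have hCS : ∀ g ∈ K i, (∀ j, j + 1 = i → ∀ g' ∈ K j, ip (w * N * l ^ (m + 1)) g g' = 0) →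
      ip (w * N * l ^ m) f g = 0 := by
    intro g hg hgp
    set b : ℝ := (-1 : ℝ) ^ i * ip (w * N * l ^ m) f g with hb
    set c : ℝ := (-1 : ℝ) ^ i * ip (w * N * l ^ m) g g with hc
    have h1 : ∀ t : ℝ, 0 ≤ 2 * t * b + t ^ 2 * c := by
      intro t
      have h2 := h.one_step2 hm (f := f + t • g) ((K i).add_mem hf ((K i).smul_mem t hg))
        (fun j hj g' hg' => by
          rw [LinearMap.map_add₂, LinearMap.map_smul₂, hp j hj g' hg', hgp j hj g' hg', smul_zero,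
            add_zero])
      have h3 : ip (w * N * l ^ m) (f + t • g) (f + t • g) =
          ip (w * N * l ^ m) f f + 2 * t * ip (w * N * l ^ m) f g +
            t ^ 2 * ip (w * N * l ^ m) g g := by
        rw [LinearMap.map_add₂, LinearMap.map_smul₂, map_add, map_add, map_smul, map_smul,
          ip_comm _ g f]
        simp only [smul_eq_mul]
        ring
      rw [h3, h0] at h2
      have h4 : (-1 : ℝ) ^ i * (0 + 2 * t * ip (w * N * l ^ m) f g +
            t ^ 2 * ip (w * N * l ^ m) g g) = 2 * t * b + t ^ 2 * c := by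
        rw [hb, hc]; ring
      rwa [h4] at h2
    have hb0 : b = 0 := by
      by_contra hne
      have hc0 : 0 ≤ c := h.one_step2 hm hg hgp
      have h2 := h1 (-b / (c + 1))
      have h3 : 2 * (-b / (c + 1)) * b + (-b / (c + 1)) ^ 2 * c =
          -(b ^ 2 * (c + 2)) / (c + 1) ^ 2 := by
        field_simp
        ring
      rw [h3] at h2
      have h5 : 0 < b ^ 2 := by positivity
      have h6 : -(b ^ 2 * (c + 2)) / (c + 1) ^ 2 < 0 := by
        apply div_neg_of_neg_of_pos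
        · have : 0 < b ^ 2 * (c + 2) := by positivity
          linarith
        · positivity
      linarith
    have hne : (-1 : ℝ) ^ i ≠ 0 := pow_ne_zero _ (by norm_num)
    exact (mul_eq_zero.mp (hb.symm.trans hb0)).resolve_left hne
  rcases i with _ | j
  · exact hCS x hx (fun j hj => by omega)
  obtain ⟨y, hy, hy'⟩ := repr (K j) (ip (w * N * l ^ (m + 2)))
    (fun x y => ip_comm _ x y) (ip (w * N * l ^ (m + 1)) x) (fun z hz hz0 => by
      have h1 : z ∈ rad K (w * N) d j := h.hl1 (m := m + 2) (by omega) hz hz0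
      rw [ip_comm]
      exact rad_pair h h1 hx (by omega))
  have hg : x - l * y ∈ K (j + 1) := (K (j + 1)).sub_mem hx (h.mulL j y hy)
  have h1 := hCS (x - l * y) hg (fun j' hj' g' hg' => by
    obtain rfl : j' = j := by omega
    have h2 := hy' g' hg'
    rw [ip_pow_succ_left] at h2
    rw [LinearMap.map_sub₂, h2, sub_self])
  have h2 : ip (w * N * l ^ m) f (l * y) = 0 := by
    rw [← ip_pow_succ_right]
    exact hp j rfl y hy
  rw [map_sub, h2, sub_zero] at h1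
  exact h1

end Pool.Agent.MP19e880.AR
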