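import Pool.Agent.Lib.MP_19e880_co_AR.Fm

/-!
One operator with square zero: expansion of the powers of s N + l.
-/

set_option autoImplicit false
set_option linter.unusedSectionVars false

open Finset Module

namespace Pool.Agent.MP19e880.AR

variable {𝒞 : Type*} [Fintype 𝒞]


private theorem twoe_mem {d : ℕ} {K : ℕ → Submodule ℝ (𝒞 → ℝ)} {w N l : 𝒞 → ℝ}
    (h : Two d K w N l) {i : ℕ} {f : 𝒞 → ℝ} (hf : f ∈ K i) (m : ℕ) : l ^ m * f ∈ K (i + m) := by
  induction m with
  | zero => simpa using hf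
  | succ m ih =>
    have h1 := h.mulL _ _ ih
    have h2 : l * (l ^ m * f) = l ^ (m + 1) * f := by ring
    rw [h2] at h1
    exact h1

private theorem twoe_move (w a b f g : 𝒞 → ℝ) : ip (w * a * b) f g = ip (w * a) (b * f) g := by
  simp only [ip_apply]
  refine sum_congr rfl fun C _ => ?_
  simp only [Pi.mul_apply]
  ring

/-- Members of low degree, with a factor of degree one. -/
theorem Two.low_pow {d : ℕ} {K : ℕ → Submodule ℝ (𝒞 → ℝ)} {w N l : 𝒞 → ℝ} (h : Two d K w N l)
    {i j m : ℕ} {f g : 𝒞 → ℝ} (hf : f ∈ K i) (hg : g ∈ K j) (hd : i + j + m < d + 1) :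
    ip (w * l ^ m) f g = 0 := by
  have h1 : ip (w * l ^ m) f g = ip w (l ^ m * f) g := by
    simp only [ip_apply]
    refine sum_congr rfl fun C _ => ?_
    simp only [Pi.mul_apply, Pi.pow_apply]
    ring
  rw [h1]
  exact h.low _ _ _ _ (twoe_mem h hf m) hg (by omega)

/-- Two factors `N` lower the degree. -/
theorem Two.low_sq {d : ℕ} {K : ℕ → Submodule ℝ (𝒞 → ℝ)} {w N l : 𝒞 → ℝ} (h : Two d K w N l)
    {i j m : ℕ} {f g : 𝒞 → ℝ} (hf : f ∈ K i) (hg : g ∈ K j) (hd : i + j + m < d + 1) :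
    ip (w * N * l ^ m) (N * f) g = 0 := by
  obtain ⟨c, hc⟩ := h.sq
  have h1 : ip (w * N * l ^ m) (N * f) g = c * ip (w * l ^ m) f g := by
    simp only [ip_apply, mul_sum]
    refine sum_congr rfl fun C _ => ?_
    simp only [Pi.mul_apply, Pi.pow_apply]
    rw [← hc C]
    ring
  rw [h1, h.low_pow hf hg hd, mul_zero]

/-- The expansion of `(s N + l) ^ m` in the top degree. -/
theorem Two.expand {d : ℕ} {K : ℕ → Submodule ℝ (𝒞 → ℝ)} {w N l : 𝒞 → ℝ} (h : Two d K w N l)
    (s : ℝ) {i j m : ℕ} {f g : 𝒞 → ℝ} (hf : f ∈ K i) (hg : g ∈ K j) (hd : i + j + m = d + 1) :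
    ip (w * (s • N + l) ^ m) f g =
      ip (w * l ^ m) f g + s * (m : ℝ) * ip (w * N * l ^ (m - 1)) f g := by
  induction m generalizing i f with
  | zero => simp
  | succ m ih =>
    have e1 : ip (w * (s • N + l) ^ (m + 1)) f g =
        s * ip (w * (s • N + l) ^ m) (N * f) g + ip (w * (s • N + l) ^ m) (l * f) g := by
      simp only [ip_apply, mul_sum]
      rw [← sum_add_distrib]
      refine sum_congr rfl fun C _ => ?_
      simp only [Pi.mul_apply, Pi.pow_apply, Pi.add_apply, Pi.smul_apply, smul_eq_mul]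
      ring
    have e2 := ih (h.mulN i f hf) (by omega)
    have e3 := ih (h.mulL i f hf) (by omega)
    have e4 : (m : ℝ) * ip (w * N * l ^ (m - 1)) (N * f) g = 0 := by
      rcases Nat.eq_zero_or_pos m with h0 | h0
      · rw [h0, Nat.cast_zero, zero_mul]
      · rw [h.low_sq hf hg (by omega), mul_zero]
    have e5 : (m : ℝ) * ip (w * N * l ^ (m - 1)) (l * f) g = (m : ℝ) * ip (w * N * l ^ m) f g := by
      rcases Nat.eq_zero_or_pos m with h0 | h0
      · rw [h0, Nat.cast_zero, zero_mul, zero_mul]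
      · obtain ⟨n, rfl⟩ := Nat.exists_eq_succ_of_ne_zero h0.ne'
        rw [← twoe_move, mul_assoc (w * N), ← pow_succ, Nat.succ_sub_one]
    have e6 : ip (w * l ^ m) (N * f) g = ip (w * N * l ^ m) f g := by
      simp only [ip_apply]
      refine sum_congr rfl fun C _ => ?_
      simp only [Pi.mul_apply]
      ring
    have e7 : ip (w * l ^ m) (l * f) g = ip (w * l ^ (m + 1)) f g := by
      rw [← twoe_move, mul_assoc, ← pow_succ]
    rw [e1, e2, e3, e6, e7, Nat.add_sub_cancel]
    push_cast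
    linear_combination s ^ 2 * e4 + s * e5

end Pool.Agent.MP19e880.AR
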